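import Mathlib
import Pool.Agent.Lib.MP_8739b7_nt.Block

/-!
# Gaps between squarefree numbers: statements of the rows

`N` is bad for `h` if none of `N + 1, ..., N + h` is squarefree (`Bad h N`).  In a bad window many
primes `p` in some dyadic range `[P, 2P)` have a multiple of `p ^ 2` in the window (`SD h N i`,
`P = 2 ^ i`).  Triples of close primes of this kind are counted for `P ^ 5 ≤ h ^ 7`, pairs of close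
primes for larger `P`.
-/

set_option autoImplicit false

namespace Pool.Agent.SQG

open Finset Pool.Agent.Lib.MP_8739b7_nt

/-- `u`, `u + a`, `u + a + b` and cofactors. -/
structure Q3 where
  a : ℕ
  b : ℕ
  u : ℕ
  m0 : ℕ
  m1 : ℕ
  m2 : ℕ
  deriving DecidableEq

/-- The squares of `u`, `u + a`, `u + a + b` have the multiples `u ^ 2 * m0` and so on in the
window `(N, N + h]`. -/
structure IsTriAt (N h P B : ℕ) (t : Q3) : Prop where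
  hu : P ≤ t.u
  hw : t.u + t.a + t.b < 2 * P
  ha : 1 ≤ t.a
  haB : t.a ≤ B
  hb : 1 ≤ t.b
  hbB : t.b ≤ B
  h0 : N < t.u ^ 2 * t.m0
  h0' : t.u ^ 2 * t.m0 ≤ N + h
  h1 : N < (t.u + t.a) ^ 2 * t.m1
  h1' : (t.u + t.a) ^ 2 * t.m1 ≤ N + h
  h2 : N < (t.u + t.a + t.b) ^ 2 * t.m2
  h2' : (t.u + t.a + t.b) ^ 2 * t.m2 ≤ N + h

/-- A triple for some window with `Y ≤ N < 2 Y`. -/
def IsTri (Y h P B : ℕ) (t : Q3) : Prop := ∃ N, Y ≤ N ∧ N < 2 * Y ∧ IsTriAt N h P B t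

/-- `u`, `u + a` and cofactors. -/
structure Q2 where
  a : ℕ
  u : ℕ
  m : ℕ
  m' : ℕ
  deriving DecidableEq

/-- The squares of `u`, `u + a` have the multiples `u ^ 2 * m`, `(u + a) ^ 2 * m'` in the window
`(N, N + h]`; `a` is even and prime to `u`. -/
structure IsPairAt (N h P B : ℕ) (t : Q2) : Prop where
  hu : P ≤ t.u
  hw : t.u + t.a < 2 * P
  ha : 1 ≤ t.a
  haB : t.a ≤ B
  hev : Even t.a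
  hco : Nat.Coprime t.u t.a
  h0 : N < t.u ^ 2 * t.m
  h0' : t.u ^ 2 * t.m ≤ N + h
  h1 : N < (t.u + t.a) ^ 2 * t.m'
  h1' : (t.u + t.a) ^ 2 * t.m' ≤ N + h

/-- A pair for some window with `Y ≤ N < 2 Y`. -/
def IsPair (Y h P B : ℕ) (t : Q2) : Prop := ∃ N, Y ≤ N ∧ N < 2 * Y ∧ IsPairAt N h P B t

/-- The integer `v` of a pair. -/
def vv (t : Q2) : ℤ := (2 * t.u - t.a) * t.m - (2 * t.u + 3 * t.a) * t.m'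

/-- The integer `W` of a triple. -/
def WW (t : Q3) : ℤ := t.b * t.m0 - (t.a + t.b) * t.m1 + t.a * t.m2

/-- The integer `q` of a triple. -/
def qq (a b u : ℕ) : ℕ := 6 * u + 7 * a + 8 * b

/-- The integer `f` of a triple. -/
def ff (t : Q3) : ℤ := WW t * qq t.a t.b t.u - 9 * t.b * (t.a + t.b) * (t.m0 - t.m1)

/-- `f` is near `- lam * W`. -/
noncomputable def lam (a b s : ℝ) : ℝ :=
  (2 * (a ^ 2 + a * b + b ^ 2) * s - a * b * (b - a)) / (3 * s ^ 2 + 2 * (b - a) * s - a * b)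

/-! ### Rows -/

/-- GAP: most elements of a dense set in `[P, 2P)` have neighbours on both sides at distance at
most `B`. -/
def GAP_stmt : Prop := ∀ (P B : ℕ) (S : Finset ℕ), 1 ≤ B → (∀ s ∈ S, P ≤ s ∧ s < 2 * P) →
  12 ≤ S.card → 6 * P ≤ B * S.card →
  S.card ≤ 3 * (S.filter (fun s => (∃ u ∈ S, u < s ∧ s ≤ u + B) ∧
    ∃ w ∈ S, s < w ∧ w ≤ s + B)).card

/-- LAM: size of `lam`. -/
def LAM_stmt : Prop := ∀ (a b s P B : ℝ), 1 ≤ a → a ≤ B → 1 ≤ b → b ≤ B → 100 * B ≤ P → P ≤ s →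
  s ≤ 2 * P → 0 < lam a b s ∧ lam a b s ≤ 3 * B ^ 2 / P

/-- WF: the integers `W` and `f` of a triple. -/
def WF_stmt : Prop := ∀ (N Y h P B : ℕ) (t : Q3), IsTriAt N h P B t → Y ≤ N → N < 2 * Y →
  100 * B ≤ P → h ≤ Y → 8 * P ^ 2 * h ≤ Y →
  1 ≤ WW t ∧ (WW t : ℝ) ≤ 20 * t.a * t.b * (t.a + t.b) * Y / P ^ 4 ∧
    |(ff t : ℝ) + lam t.a t.b (t.u + t.a) * WW t| ≤ 28 * h * B / P

/-- LIN: number of pairs `(W, f)` with `f` near `- lam * W` and `W q ≡ f (mod N)`. -/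
def LIN_stmt : Prop := ∀ (q N : ℕ) (la R Wm : ℝ), 1 ≤ N → 0 < la → 0 ≤ R → 0 ≤ Wm →
  ∀ S : Finset (ℤ × ℤ), (∀ p ∈ S, 1 ≤ p.1 ∧ (p.1 : ℝ) ≤ Wm ∧ |(p.2 : ℝ) + la * p.1| ≤ R ∧
    (N : ℤ) ∣ p.1 * q - p.2) →
  (S.card : ℝ) ≤ 6 * R * Wm / N + 2 * la * Wm + 2 * R + 1 + Wm * (Nat.gcd q N : ℝ) / N

/-- GCD: average of a greatest common divisor. -/
def GCD_stmt : Prop := ∀ (c N P τ : ℕ), 1 ≤ N → N.divisors.card ≤ τ →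
  ∑ u ∈ Ico P (2 * P), Nat.gcd (6 * u + c) N ≤ τ * (6 * P + N)

/-- TRI: number of triples (from LAM, WF, LIN, GCD). -/
def TRI_stmt : Prop := ∀ (Y h P B τ : ℕ), 1 ≤ P → 1 ≤ h → 1 ≤ B → 100 * B ≤ P → 18 * B ^ 2 ≤ P →
  h < 8 * P → h ≤ Y → 8 * P ^ 2 * h ≤ Y →
  (∀ n : ℕ, 1 ≤ n → n ≤ 18 * B ^ 2 → n.divisors.card ≤ τ) →
  ∀ T : Finset Q3, (∀ t ∈ T, IsTri Y h P B t) →
  (T.card : ℝ) ≤ 10 ^ 4 * ((1 + h * B / P + τ) * (B ^ 3 * Y / P ^ 3) + B ^ 7 * Y / P ^ 4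
    + (1 + h * B / P) * (P * B ^ 2))

/-- PAIR: number of pairs with `v ≠ 0`. -/
def PAIR_stmt : Prop := ∀ (Y h P B : ℕ), 1 ≤ P → 1 ≤ h → h ≤ Y → B ≤ P →
  ∀ T : Finset Q2, (∀ t ∈ T, IsPair Y h P B t ∧ vv t ≠ 0) →
  (T.card : ℝ) ≤ 4 * h * (4 * h + 3 * h * B / P + 3 * Y * B / P ^ 3 + 3 * Y * B ^ 4 / P ^ 4)

/-- VZA: number of pairs with `v = 0`. -/
def VZA_stmt : Prop := ∀ (Y h P B : ℕ), 1 ≤ P → 1 ≤ h → 1 ≤ B → h ≤ Y → B ≤ P →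
  ∀ T : Finset Q2, (∀ t ∈ T, IsPair Y h P B t ∧ vv t = 0) →
  (T.card : ℝ) ≤ 12 * (1 + Real.log B) * (h : ℝ) ^ (1 / 3 : ℝ) * (Y : ℝ) ^ (2 / 3 : ℝ) / P

/-- VZB: number of pairs with `v = 0` in one window. -/
def VZB_stmt : Prop := ∀ (N Y h P B : ℕ), 2 * h ≤ P → 1000 ≤ P → 1 ≤ h → h ≤ Y → Y ≤ N →
  N < 2 * Y → B ≤ P → ∀ T : Finset Q2, (∀ t ∈ T, IsPairAt N h P B t ∧ vv t = 0) →
  (T.card : ℝ) ≤ 12 * Y / P ^ 3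

/-- RTRI: windows with many primes in `[2 ^ i, 2 ^ (i + 1))`, by triples (from GAP, TRI). -/
def RTRI_stmt : Prop := ∀ (Y h i B τ : ℕ) (L : ℝ), 1 ≤ L → 20 ≤ h → 48 * L ≤ h → h ≤ Y →
  h < 8 * 2 ^ i → 1 ≤ B → 24 * L * 2 ^ i ≤ B * h → 100 * B ≤ 2 ^ i → 18 * B ^ 2 ≤ 2 ^ i →
  8 * (2 ^ i) ^ 2 * h ≤ Y →
  (∀ n : ℕ, 1 ≤ n → n ≤ 18 * B ^ 2 → n.divisors.card ≤ τ) →
  ∀ A : Finset ℕ, (∀ N ∈ A, Y ≤ N ∧ N < 2 * Y ∧ (h : ℝ) / (4 * L) ≤ ((SD h N i).card : ℝ)) →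
  (A.card : ℝ) ≤ 12 * L * (10 ^ 4 * ((1 + h * B / 2 ^ i + τ) * (B ^ 3 * Y / (2 ^ i) ^ 3)
    + B ^ 7 * Y / (2 ^ i) ^ 4 + (1 + h * B / 2 ^ i) * (2 ^ i * B ^ 2)))

/-- RPAIR: the same by pairs (from GAP, PAIR, VZA, VZB). -/
def RPAIR_stmt : Prop := ∀ (Y h i B : ℕ) (L : ℝ), 1 ≤ L → 20 ≤ h → 48 * L ≤ h → h ≤ Y →
  2 * h ≤ 2 ^ i → 1000 ≤ 2 ^ i → 1 ≤ B → 24 * L * 2 ^ i ≤ B * h → B < 2 ^ i →
  ∀ A : Finset ℕ, (∀ N ∈ A, Y ≤ N ∧ N < 2 * Y ∧ (h : ℝ) / (4 * L) ≤ ((SD h N i).card : ℝ)) →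
  (A.card : ℝ) ≤ 24 * L * (4 * h * (4 * h + 3 * h * B / 2 ^ i + 3 * Y * B / (2 ^ i) ^ 3
    + 3 * Y * B ^ 4 / (2 ^ i) ^ 4))
    + (if 12 * (Y : ℝ) / (2 ^ i) ^ 3 < h / (24 * L) then 0 else
      24 * L * (12 * (1 + Real.log B) * (h : ℝ) ^ (1 / 3 : ℝ) * (Y : ℝ) ^ (2 / 3 : ℝ) / 2 ^ i))

/-- BLK: bad windows in a dyadic block (from RTRI, RPAIR). -/
def BLK_stmt : Prop := ∀ ε : ℝ, 0 < ε → ∃ C : ℝ, 0 < C ∧ ∀ Y h : ℕ, 1 ≤ h → h ^ 5 ≤ Y →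
  ∀ A : Finset ℕ, (∀ N ∈ A, Y ≤ N ∧ N < 2 * Y ∧ Bad h N) →
  (A.card : ℝ) ≤ C * (Y : ℝ) ^ (1 + ε) / (h : ℝ) ^ (14 / 5 : ℝ)

/-- FIN: the theorem. -/
def FIN_stmt : Prop := ∀ ε : ℝ, 0 < ε → ∃ C : ℝ, ∀ X h : ℕ, 1 ≤ h → h ^ 5 ≤ X →
  (Set.ncard {n : ℕ | 1 ≤ n ∧ n ≤ X ∧ ∀ m : ℕ, n < m → m ≤ n + h → ¬ Squarefree m} : ℝ) ≤
    C * (X : ℝ) ^ (1 + ε) / (h : ℝ) ^ (14 / 5 : ℝ)

end Pool.Agent.SQG
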