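import Mathlib
import Pool.Agent.Lib.SQG.Defs
import Pool.Agent.Lib.MP_8739b7_nt.Asymp

set_option autoImplicit false

namespace Pool.Agent.SQG

open Finset Pool.Agent.Lib.MP_8739b7_nt

lemma numS (P h B Y L τ x : ℝ) (hP0 : 0 < P) (hB0 : 0 ≤ B) (hY0 : 0 < Y) (hL : 1 ≤ L)
    (hτ : 1 ≤ τ) (hx : 1 ≤ x) (hxh : x ^ 5 = h) (hxY : x ^ 25 ≤ Y) (hPx : P ≤ x ^ 7)
    (hBh : B * h ≤ 32 * L * P) :
    (1 + h * B / P + τ) * (B ^ 3 * Y / P ^ 3) + B ^ 7 * Y / P ^ 4 + (1 + h * B / P) * (P * B ^ 2)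
      ≤ 2 * 32 ^ 7 * L ^ 7 * τ * (Y / x ^ 14) := by
  have hx0 : 0 < x := by linarith
  obtain ⟨β, hβ⟩ : ∃ β : ℝ, β = B * x ^ 5 / P := ⟨_, rfl⟩
  have hβ0 : 0 ≤ β := by rw [hβ]; positivity
  have hβL : β ≤ 32 * L := by
    rw [hβ, div_le_iff₀ hP0, hxh]; exact hBh
  have hBβ : B = β * P / x ^ 5 := by rw [hβ]; field_simp
  have hL0 : 0 < L := by linarith
  obtain ⟨Z, hZ⟩ : ∃ Z : ℝ, Z = Y / x ^ 14 := ⟨_, rfl⟩
  have hZ0 : 0 < Z := by rw [hZ]; positivity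
  have e1 : h * B / P = β := by rw [hβ, ← hxh]; ring
  have e2 : B ^ 3 * Y / P ^ 3 = β ^ 3 * Z / x := by
    rw [hBβ, hZ]; field_simp
  have e3 : B ^ 7 * Y / P ^ 4 = β ^ 7 * Z * (P ^ 3 / x ^ 21) := by
    rw [hBβ, hZ]; field_simp
  have e4 : P * B ^ 2 = β ^ 2 * (P ^ 3 / x ^ 21) * x ^ 11 := by
    rw [hBβ]; field_simp
  have hPr : P ^ 3 / x ^ 21 ≤ 1 := by
    rw [div_le_one (by positivity)]
    calc P ^ 3 ≤ (x ^ 7) ^ 3 := by gcongr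
      _ = x ^ 21 := by ring
  have hPr0 : 0 ≤ P ^ 3 / x ^ 21 := by positivity
  have hx11 : x ^ 11 ≤ Z := by
    rw [hZ, le_div_iff₀ (by positivity)]
    calc x ^ 11 * x ^ 14 = x ^ 25 := by ring
      _ ≤ Y := hxY
  rw [e1, e2, e3, e4, ← hZ]
  have f2 : β ^ 3 * Z / x ≤ (32 * L) ^ 3 * Z := by
    rw [div_le_iff₀ hx0]
    calc β ^ 3 * Z ≤ (32 * L) ^ 3 * Z := by gcongr
      _ = (32 * L) ^ 3 * Z * 1 := by ring
      _ ≤ (32 * L) ^ 3 * Z * x := by gcongr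
  have f3 : β ^ 7 * Z * (P ^ 3 / x ^ 21) ≤ (32 * L) ^ 7 * Z := by
    calc β ^ 7 * Z * (P ^ 3 / x ^ 21) ≤ (32 * L) ^ 7 * Z * 1 := by gcongr
      _ = _ := by ring
  have f4 : β ^ 2 * (P ^ 3 / x ^ 21) * x ^ 11 ≤ (32 * L) ^ 2 * Z := by
    calc β ^ 2 * (P ^ 3 / x ^ 21) * x ^ 11 ≤ (32 * L) ^ 2 * 1 * Z := by gcongr
      _ = _ := by ring
  have g1 : 1 + β + τ ≤ 34 * (L * τ) := by
    have h1 : 1 ≤ L * τ := by nlinarith
    have h2 : L ≤ L * τ := by nlinarith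
    have h3 : τ ≤ L * τ := by nlinarith
    linarith
  have g2 : 1 + β ≤ 33 * L := by linarith
  have hτ0 : 0 < τ := by linarith
  have hL7 : ∀ k : ℕ, k ≤ 7 → L ^ k ≤ L ^ 7 := fun k hk => pow_le_pow_right₀ hL hk
  calc (1 + β + τ) * (β ^ 3 * Z / x) + β ^ 7 * Z * (P ^ 3 / x ^ 21)
        + (1 + β) * (β ^ 2 * (P ^ 3 / x ^ 21) * x ^ 11)
      ≤ 34 * (L * τ) * ((32 * L) ^ 3 * Z) + (32 * L) ^ 7 * Z + 33 * L * ((32 * L) ^ 2 * Z) := by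
        gcongr
    _ = 34 * 32 ^ 3 * (L ^ 4 * τ * Z) + 32 ^ 7 * (L ^ 7 * 1 * Z) + 33 * 32 ^ 2 * (L ^ 3 * 1 * Z) := by
        ring
    _ ≤ 34 * 32 ^ 3 * (L ^ 7 * τ * Z) + 32 ^ 7 * (L ^ 7 * τ * Z) + 33 * 32 ^ 2 * (L ^ 7 * τ * Z) := by
        have := hL7 4 (by norm_num)
        have := hL7 3 (by norm_num)
        gcongr
    _ = (34 * 32 ^ 3 + 32 ^ 7 + 33 * 32 ^ 2) * (L ^ 7 * τ * Z) := by ring
    _ ≤ (2 * 32 ^ 7) * (L ^ 7 * τ * Z) := by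
        apply mul_le_mul_of_nonneg_right (by norm_num) (by positivity)
    _ = _ := by ring

lemma ceil_facts (h i : ℕ) (L : ℝ) (hL : 1 ≤ L) (hh : 1 ≤ h) (h8 : h < 8 * 2 ^ i) :
    24 * L * 2 ^ i ≤ (⌈24 * L * 2 ^ i / h⌉₊ : ℝ) * h ∧
      (⌈24 * L * 2 ^ i / h⌉₊ : ℝ) * h ≤ 32 * L * 2 ^ i ∧ 1 ≤ ⌈24 * L * 2 ^ i / h⌉₊ := by
  have hhR : (0 : ℝ) < h := by exact_mod_cast hh
  have hP : (0 : ℝ) < 2 ^ i := by positivity
  have h8R : (h : ℝ) < 8 * 2 ^ i := by exact_mod_cast h8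
  have h0 : 0 < 24 * L * 2 ^ i / (h : ℝ) := by positivity
  refine ⟨?_, ?_, ?_⟩
  · have := Nat.le_ceil (24 * L * 2 ^ i / (h : ℝ))
    rw [div_le_iff₀ hhR] at this
    exact this
  · have := Nat.ceil_lt_add_one h0.le
    have h2 : (⌈24 * L * 2 ^ i / h⌉₊ : ℝ) * h < (24 * L * 2 ^ i / h + 1) * h :=
      mul_lt_mul_of_pos_right this hhR
    have h3 : (24 * L * 2 ^ i / h + 1) * (h : ℝ) = 24 * L * 2 ^ i + h := by field_simp
    rw [h3] at h2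
    nlinarith
  · exact Nat.one_le_iff_ne_zero.2 (Nat.pos_iff_ne_zero.1 (Nat.ceil_pos.2 h0))

lemma big_facts (h : ℕ) (L x : ℝ) (hL : 1 ≤ L) (hx : 1 ≤ x) (hxh : x ^ 5 = h)
    (hbig : 18432 ^ 5 * L ^ 10 ≤ (h : ℝ) ^ 3) : 18432 * L ^ 2 ≤ x ^ 3 ∧ 3200 * L ≤ h := by
  have h1 : 18432 * L ^ 2 ≤ x ^ 3 := by
    have h2 : (18432 * L ^ 2) ^ 5 ≤ (x ^ 3) ^ 5 := by
      calc (18432 * L ^ 2) ^ 5 = 18432 ^ 5 * L ^ 10 := by ring
        _ ≤ (h : ℝ) ^ 3 := hbig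
        _ = (x ^ 5) ^ 3 := by rw [hxh]
        _ = (x ^ 3) ^ 5 := by ring
    exact le_of_pow_le_pow_left₀ (by norm_num) (by positivity) h2
  refine ⟨h1, ?_⟩
  have h3 : L ≤ L ^ 2 := by nlinarith
  have h4 : x ^ 3 ≤ x ^ 5 := pow_le_pow_right₀ hx (by norm_num)
  rw [← hxh]
  linarith

lemma caseS (ht : RTRI_stmt) (Y h i τ : ℕ) (L x : ℝ) (hL : 1 ≤ L) (hx : 1 ≤ x)
    (hxh : x ^ 5 = h) (hh : 1 ≤ h) (hY : h ^ 5 ≤ Y)
    (hbig : 18432 ^ 5 * L ^ 10 ≤ (h : ℝ) ^ 3) (h8 : h < 8 * 2 ^ i)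
    (hP : (2 ^ i) ^ 5 ≤ h ^ 7) (hτ1 : 1 ≤ τ) (hτ : ∀ n : ℕ, 1 ≤ n → n ≤ Y → n.divisors.card ≤ τ)
    (A : Finset ℕ)
    (hA : ∀ N ∈ A, Y ≤ N ∧ N < 2 * Y ∧ (h : ℝ) / (4 * L) ≤ ((SD h N i).card : ℝ)) :
    (A.card : ℝ) ≤ 24 * 10 ^ 4 * 32 ^ 7 * L ^ 8 * τ * (Y / x ^ 14) := by
  obtain ⟨hb1, hb2⟩ := big_facts h L x hL hx hxh hbig
  obtain ⟨hc1, hc2, hc3⟩ := ceil_facts h i L hL hh h8
  obtain ⟨B, hB⟩ : ∃ B : ℕ, B = ⌈24 * L * 2 ^ i / (h : ℝ)⌉₊ := ⟨_, rfl⟩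
  rw [← hB] at hc1 hc2 hc3
  have hhR : (1 : ℝ) ≤ h := by exact_mod_cast hh
  have hh0 : (0 : ℝ) < h := by linarith
  have hP0 : (0 : ℝ) < 2 ^ i := by positivity
  have hL0 : 0 < L := by linarith
  have hx0 : 0 < x := by linarith
  have hYR : (h : ℝ) ^ 5 ≤ Y := by exact_mod_cast hY
  have hxY : x ^ 25 ≤ Y := by
    calc x ^ 25 = (x ^ 5) ^ 5 := by ring
      _ = (h : ℝ) ^ 5 := by rw [hxh]
      _ ≤ Y := hYR
  have hPx : (2 : ℝ) ^ i ≤ x ^ 7 := by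
    have h1 : ((2 : ℝ) ^ i) ^ 5 ≤ (x ^ 7) ^ 5 := by
      calc ((2 : ℝ) ^ i) ^ 5 ≤ (h : ℝ) ^ 7 := by exact_mod_cast hP
        _ = (x ^ 5) ^ 7 := by rw [hxh]
        _ = (x ^ 7) ^ 5 := by ring
    exact le_of_pow_le_pow_left₀ (by norm_num) (by positivity) h1
  have hhY : h ≤ Y := le_trans (Nat.le_self_pow (by norm_num) h) hY
  have h100R : (100 : ℝ) * B ≤ 2 ^ i := by
    have h1 : 100 * (B : ℝ) * h ≤ 2 ^ i * h := by
      calc 100 * (B : ℝ) * h = 100 * (B * h) := by ring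
        _ ≤ 100 * (32 * L * 2 ^ i) := by gcongr
        _ = 2 ^ i * (3200 * L) := by ring
        _ ≤ 2 ^ i * h := by gcongr
    exact le_of_mul_le_mul_right h1 hh0
  have h100 : 100 * B ≤ 2 ^ i := by exact_mod_cast h100R
  have h18R : (18 : ℝ) * (B : ℝ) ^ 2 ≤ 2 ^ i := by
    have h1 : 18 * (B : ℝ) ^ 2 * (h : ℝ) ^ 2 ≤ 2 ^ i * (h : ℝ) ^ 2 := by
      calc 18 * (B : ℝ) ^ 2 * (h : ℝ) ^ 2 = 18 * (B * h) ^ 2 := by ring
        _ ≤ 18 * (32 * L * 2 ^ i) ^ 2 := by gcongr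
        _ = 2 ^ i * (2 ^ i * (18432 * L ^ 2)) := by ring
        _ ≤ 2 ^ i * (x ^ 7 * x ^ 3) := by gcongr
        _ = 2 ^ i * (x ^ 5) ^ 2 := by ring
        _ = 2 ^ i * (h : ℝ) ^ 2 := by rw [hxh]
    exact le_of_mul_le_mul_right h1 (by positivity)
  have h18 : 18 * B ^ 2 ≤ 2 ^ i := by exact_mod_cast h18R
  have hPY : 8 * (2 ^ i) ^ 2 * h ≤ Y := by
    have h1 : 8 * ((2 : ℝ) ^ i) ^ 2 * h ≤ Y := by
      have hx6 : (8 : ℝ) ≤ x ^ 6 := by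
        have h2 : (8 : ℝ) ≤ x ^ 3 := by nlinarith
        have h3 : x ^ 3 ≤ x ^ 6 := pow_le_pow_right₀ hx (by norm_num)
        linarith
      calc 8 * ((2 : ℝ) ^ i) ^ 2 * h ≤ x ^ 6 * (x ^ 7) ^ 2 * x ^ 5 := by rw [hxh]; gcongr
        _ = x ^ 25 := by ring
        _ ≤ Y := hxY
    exact_mod_cast h1
  have h20 : 20 ≤ h := by
    have : (20 : ℝ) ≤ h := by linarith
    exact_mod_cast this
  have hP2 : 18 * B ^ 2 ≤ Y := by
    have h1 : 2 ^ i ≤ (2 ^ i) ^ 2 := Nat.le_self_pow (by norm_num) _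
    nlinarith
  have hmain := ht Y h i B τ L hL h20 (by linarith) hhY h8 hc3 (by exact_mod_cast hc1) h100 h18 hPY
    (fun n hn1 hn2 => hτ n hn1 (hn2.trans hP2)) A hA
  have hY0 : (0 : ℝ) < Y := by
    have : (0 : ℝ) < (h : ℝ) ^ 5 := by positivity
    linarith
  have hτR : (1 : ℝ) ≤ τ := by exact_mod_cast hτ1
  have hnum := numS (2 ^ i) h B Y L τ x hP0 (by positivity) hY0 hL hτR hx hxh hxY hPx
    (by linarith)
  calc (A.card : ℝ) ≤ _ := hmain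
    _ ≤ 12 * L * (10 ^ 4 * (2 * 32 ^ 7 * L ^ 7 * τ * (Y / x ^ 14))) := by gcongr
    _ = _ := by ring

lemma caseL (ht : RPAIR_stmt) (Y h i l : ℕ) (L x : ℝ) (hL : L = l) (hL1 : 1 ≤ L) (hil : i < l)
    (hx : 1 ≤ x)
    (hxh : x ^ 5 = h) (hh : 1 ≤ h) (hY : h ^ 5 ≤ Y)
    (hbig : 18432 ^ 5 * L ^ 10 ≤ (h : ℝ) ^ 3) (h8 : h < 8 * 2 ^ i)
    (hP : h ^ 7 < (2 ^ i) ^ 5)
    (A : Finset ℕ)
    (hA : ∀ N ∈ A, Y ≤ N ∧ N < 2 * Y ∧ (h : ℝ) / (4 * L) ≤ ((SD h N i).card : ℝ)) :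
    (A.card : ℝ) ≤ 10 ^ 9 * L ^ 8 * (Y / x ^ 14) := by
  obtain ⟨hb1, hb2⟩ := big_facts h L x hL1 hx hxh hbig
  obtain ⟨hc1, hc2, hc3⟩ := ceil_facts h i L hL1 hh h8
  obtain ⟨B, hB⟩ : ∃ B : ℕ, B = ⌈24 * L * 2 ^ i / (h : ℝ)⌉₊ := ⟨_, rfl⟩
  rw [← hB] at hc1 hc2 hc3
  have hhR : (1 : ℝ) ≤ h := by exact_mod_cast hh
  have hh0 : (0 : ℝ) < h := by linarith
  have hP0 : (0 : ℝ) < 2 ^ i := by positivity
  have hL0 : 0 < L := by linarith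
  have hx0 : 0 < x := by linarith
  have hYR : (h : ℝ) ^ 5 ≤ Y := by exact_mod_cast hY
  have hY0 : (0 : ℝ) < Y := by
    have : (0 : ℝ) < (h : ℝ) ^ 5 := by positivity
    linarith
  have hxY : x ^ 25 ≤ Y := by
    calc x ^ 25 = (x ^ 5) ^ 5 := by ring
      _ = (h : ℝ) ^ 5 := by rw [hxh]
      _ ≤ Y := hYR
  have hPx : x ^ 7 ≤ (2 : ℝ) ^ i := by
    have h1 : (x ^ 7) ^ 5 ≤ ((2 : ℝ) ^ i) ^ 5 := by
      calc (x ^ 7) ^ 5 = (x ^ 5) ^ 7 := by ring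
        _ = (h : ℝ) ^ 7 := by rw [hxh]
        _ ≤ ((2 : ℝ) ^ i) ^ 5 := by exact_mod_cast hP.le
    exact le_of_pow_le_pow_left₀ (by norm_num) (by positivity) h1
  have hhY : h ≤ Y := le_trans (Nat.le_self_pow (by norm_num) h) hY
  have h20R : (3200 : ℝ) ≤ h := by nlinarith
  have h20 : 3200 ≤ h := by exact_mod_cast h20R
  have hx3 : (18432 : ℝ) ≤ x ^ 3 := by nlinarith
  have hx2 : (2 : ℝ) ≤ x ^ 2 := by
    by_contra hcon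
    push Not at hcon
    have h1 : x ^ 3 ≤ x ^ 2 * x ^ 2 := by nlinarith [pow_le_pow_right₀ hx (show 3 ≤ 4 by norm_num)]
    nlinarith
  have h2h : 2 * h ≤ 2 ^ i := by
    have : 2 * (h : ℝ) ≤ 2 ^ i := by
      calc 2 * (h : ℝ) ≤ x ^ 2 * x ^ 5 := by rw [hxh]; gcongr
        _ = x ^ 7 := by ring
        _ ≤ _ := hPx
    exact_mod_cast this
  have h1000 : 1000 ≤ 2 ^ i := by omega
  have hBlt : B < 2 ^ i := by
    have h1 : (B : ℝ) * h < 2 ^ i * h := by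
      calc (B : ℝ) * h ≤ 32 * L * 2 ^ i := hc2
        _ = 2 ^ i * (32 * L) := by ring
        _ < 2 ^ i * h := by
            apply mul_lt_mul_of_pos_left _ hP0
            linarith
    have h2 : (B : ℝ) < 2 ^ i := lt_of_mul_lt_mul_right h1 hh0.le
    exact_mod_cast h2
  have hmain := ht Y h i B L hL1 (by omega) (by linarith) hhY h2h h1000 hc3 (by exact_mod_cast hc1)
    hBlt A hA
  obtain ⟨P, hPdef⟩ : ∃ P : ℝ, P = 2 ^ i := ⟨_, rfl⟩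
  obtain ⟨Z, hZ⟩ : ∃ Z : ℝ, Z = Y / x ^ 14 := ⟨_, rfl⟩
  have hZ0 : 0 < Z := by rw [hZ]; positivity
  obtain ⟨β, hβ⟩ : ∃ β : ℝ, β = B * x ^ 5 / P := ⟨_, rfl⟩
  rw [← hPdef] at hmain hP0 hPx hc2
  have hβ0 : 0 ≤ β := by rw [hβ]; positivity
  have hβL : β ≤ 32 * L := by
    rw [hβ, div_le_iff₀ hP0, hxh]; exact hc2
  have hBβ : (B : ℝ) = β * P / x ^ 5 := by rw [hβ]; field_simp
  have hx24 : x ^ 10 ≤ Z := by
    rw [hZ, le_div_iff₀ (by positivity)]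
    calc x ^ 10 * x ^ 14 = x ^ 24 := by ring
      _ ≤ x ^ 25 := pow_le_pow_right₀ hx (by norm_num)
      _ ≤ Y := hxY
  have hP2 : (Y : ℝ) / P ^ 2 ≤ Z := by
    rw [hZ]
    apply div_le_div_of_nonneg_left hY0.le (by positivity)
    calc x ^ 14 = (x ^ 7) ^ 2 := by ring
      _ ≤ P ^ 2 := by gcongr
  have t1 : 4 * (h : ℝ) * (4 * h) ≤ 16 * Z := by
    rw [← hxh]
    calc 4 * x ^ 5 * (4 * x ^ 5) = 16 * x ^ 10 := by ring
      _ ≤ 16 * Z := by gcongr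
  have t2 : 4 * (h : ℝ) * (3 * h * B / P) ≤ 384 * L * Z := by
    have : 4 * (h : ℝ) * (3 * h * B / P) = 12 * x ^ 5 * β := by
      rw [hβ, ← hxh]; ring
    rw [this]
    calc 12 * x ^ 5 * β ≤ 12 * x ^ 10 * (32 * L) := by
          have : x ^ 5 ≤ x ^ 10 := pow_le_pow_right₀ hx (by norm_num)
          gcongr
      _ ≤ 12 * Z * (32 * L) := by gcongr
      _ = _ := by ring
  have t3 : 4 * (h : ℝ) * (3 * Y * B / P ^ 3) ≤ 384 * L * Z := by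
    have : 4 * (h : ℝ) * (3 * Y * B / P ^ 3) = 12 * β * (Y / P ^ 2) := by
      rw [hBβ, ← hxh]; field_simp; ring
    rw [this]
    calc 12 * β * (Y / P ^ 2) ≤ 12 * (32 * L) * Z := by gcongr
      _ = _ := by ring
  have t4 : 4 * (h : ℝ) * (3 * Y * (B : ℝ) ^ 4 / P ^ 4) ≤ 12 * (32 * L) ^ 4 * Z := by
    have : 4 * (h : ℝ) * (3 * Y * (B : ℝ) ^ 4 / P ^ 4) = 12 * β ^ 4 * Z / x := by
      rw [hBβ, ← hxh, hZ]; field_simp; ring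
    rw [this, div_le_iff₀ hx0]
    calc 12 * β ^ 4 * Z ≤ 12 * (32 * L) ^ 4 * Z := by gcongr
      _ = 12 * (32 * L) ^ 4 * Z * 1 := by ring
      _ ≤ 12 * (32 * L) ^ 4 * Z * x := by gcongr
  have hL8 : ∀ k : ℕ, k ≤ 8 → L ^ k ≤ L ^ 8 := fun k hk => pow_le_pow_right₀ hL1 hk
  have s1 : 24 * L * (4 * h * (4 * h + 3 * h * B / P + 3 * Y * B / P ^ 3
    + 3 * Y * (B : ℝ) ^ 4 / P ^ 4)) ≤ 24 * (784 + 12 * 32 ^ 4) * (L ^ 8 * Z) := by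
    have e : 4 * (h : ℝ) * (4 * h + 3 * h * B / P + 3 * Y * B / P ^ 3 + 3 * Y * (B : ℝ) ^ 4 / P ^ 4)
        = 4 * (h : ℝ) * (4 * h) + 4 * (h : ℝ) * (3 * h * B / P) + 4 * (h : ℝ) * (3 * Y * B / P ^ 3)
          + 4 * (h : ℝ) * (3 * Y * (B : ℝ) ^ 4 / P ^ 4) := by ring
    rw [e]
    calc 24 * L * (4 * (h : ℝ) * (4 * h) + 4 * (h : ℝ) * (3 * h * B / P)
          + 4 * (h : ℝ) * (3 * Y * B / P ^ 3) + 4 * (h : ℝ) * (3 * Y * (B : ℝ) ^ 4 / P ^ 4))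
        ≤ 24 * L * (16 * Z + 384 * L * Z + 384 * L * Z + 12 * (32 * L) ^ 4 * Z) := by gcongr
      _ = 24 * (16 * (L ^ 1 * Z) + 768 * (L ^ 2 * Z) + 12 * 32 ^ 4 * (L ^ 5 * Z)) := by ring
      _ ≤ 24 * (16 * (L ^ 8 * Z) + 768 * (L ^ 8 * Z) + 12 * 32 ^ 4 * (L ^ 8 * Z)) := by
          have := hL8 1 (by norm_num)
          have := hL8 2 (by norm_num)
          have := hL8 5 (by norm_num)
          gcongr
      _ = _ := by ring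
  have s2 : (if 12 * (Y : ℝ) / P ^ 3 < h / (24 * L) then 0 else
      24 * L * (12 * (1 + Real.log B) * (h : ℝ) ^ (1 / 3 : ℝ) * (Y : ℝ) ^ (2 / 3 : ℝ) / P))
      ≤ 82944 * (L ^ 8 * Z) := by
    split_ifs with hif
    · positivity
    · push Not at hif
      have hB0 : (0 : ℝ) < B := by
        have : 0 < B := by omega
        exact_mod_cast this
      have hlogB : 1 + Real.log B ≤ L := by
        have h1 : Real.log B ≤ Real.log ((2 : ℝ) ^ i) := by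
          apply Real.log_le_log hB0
          exact_mod_cast hBlt.le
        rw [Real.log_pow] at h1
        have h2 : Real.log 2 ≤ 1 := by have := Real.log_two_lt_d9; linarith
        have h3 : (i : ℝ) * Real.log 2 ≤ i * 1 := by gcongr
        have h4 : (i : ℝ) + 1 ≤ l := by exact_mod_cast hil
        rw [hL]; linarith
      obtain ⟨w, hw⟩ : ∃ w : ℝ, w = (h : ℝ) ^ (1 / 3 : ℝ) * (Y : ℝ) ^ (2 / 3 : ℝ) / P := ⟨_, rfl⟩
      have hw0 : 0 ≤ w := by rw [hw]; positivity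
      have hw3 : w ^ 3 = h * Y ^ 2 / P ^ 3 := by
        rw [hw, div_pow, mul_pow, ← Real.rpow_natCast ((h : ℝ) ^ (1 / 3 : ℝ)),
          ← Real.rpow_natCast ((Y : ℝ) ^ (2 / 3 : ℝ)), ← Real.rpow_mul hh0.le,
          ← Real.rpow_mul hY0.le]
        norm_num
      have hkey : x ^ 5 * P ^ 3 ≤ 288 * L * Y := by
        rw [div_le_div_iff₀ (by positivity) (by positivity), ← hxh] at hif
        nlinarith
      have hwle : w ≤ 288 * L * Z := by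
        have h1 : w ^ 3 ≤ (288 * L * Z) ^ 3 := by
          have h2 : w ^ 3 ≤ 288 * L * Z ^ 3 := by
            rw [hw3, hZ, ← hxh, div_pow, div_le_iff₀ (by positivity)]
            have e1 : 288 * L * ((Y : ℝ) ^ 3 / (x ^ 14) ^ 3) * P ^ 3
              = (288 * L * Y * P ^ 3 / x ^ 42) * Y ^ 2 := by
              field_simp
            rw [e1]
            apply mul_le_mul_of_nonneg_right _ (by positivity)
            rw [le_div_iff₀ (by positivity)]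
            calc x ^ 5 * x ^ 42 = x ^ 5 * (x ^ 7) ^ 3 * (x ^ 7) ^ 3 := by ring
              _ ≤ x ^ 5 * P ^ 3 * P ^ 3 := by gcongr
              _ ≤ 288 * L * Y * P ^ 3 := by gcongr
          have h3 : 288 * L * Z ^ 3 ≤ (288 * L * Z) ^ 3 := by
            have h4 : (1 : ℝ) ≤ 288 * L := by linarith
            have h5 : 288 * L ≤ (288 * L) ^ 3 := by
              calc 288 * L = (288 * L) ^ 1 := by ring
                _ ≤ (288 * L) ^ 3 := pow_le_pow_right₀ h4 (by norm_num)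
            calc 288 * L * Z ^ 3 ≤ (288 * L) ^ 3 * Z ^ 3 := by gcongr
              _ = _ := by ring
          linarith
        exact le_of_pow_le_pow_left₀ (by norm_num) (by positivity) h1
      have hlog0 : 0 ≤ 1 + Real.log B := by
        have : (1 : ℝ) ≤ B := by exact_mod_cast hc3
        have := Real.log_nonneg this
        linarith
      calc 24 * L * (12 * (1 + Real.log B) * (h : ℝ) ^ (1 / 3 : ℝ) * (Y : ℝ) ^ (2 / 3 : ℝ) / P)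
          = 288 * L * (1 + Real.log B) * w := by rw [hw]; ring
        _ ≤ 288 * L * L * (288 * L * Z) := by gcongr
        _ = 82944 * (L ^ 3 * Z) := by ring
        _ ≤ 82944 * (L ^ 8 * Z) := by
            have := hL8 3 (by norm_num)
            gcongr
  calc (A.card : ℝ) ≤ _ := hmain
    _ ≤ 24 * (784 + 12 * 32 ^ 4) * (L ^ 8 * Z) + 82944 * (L ^ 8 * Z) := add_le_add s1 s2
    _ ≤ 10 ^ 9 * L ^ 8 * Z := by
        have : 0 < L ^ 8 * Z := by positivity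
        nlinarith
    _ = _ := by rw [hZ]

end Pool.Agent.SQG
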