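import Mathlib
import Pool.Agent.Lib.SQG.BLK

set_option autoImplicit false

namespace Pool.Agent.SQG

open Finset Pool.Agent.Lib.MP_8739b7_nt

lemma exists_fifth (h : ℕ) (hh : 1 ≤ h) : ∃ x : ℝ, 1 ≤ x ∧ x ^ 5 = h ∧
    x ^ 14 = (h : ℝ) ^ (14 / 5 : ℝ) := by
  have hhR : (1 : ℝ) ≤ h := by exact_mod_cast hh
  refine ⟨(h : ℝ) ^ (1 / 5 : ℝ), Real.one_le_rpow hhR (by norm_num), ?_, ?_⟩
  · rw [← Real.rpow_natCast, ← Real.rpow_mul (by positivity)]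
    norm_num
  · rw [← Real.rpow_natCast, ← Real.rpow_mul (by positivity)]
    norm_num

theorem blk (ht : RTRI_stmt) (hp : RPAIR_stmt) : BLK_stmt := by
  classical
  intro ε hε
  obtain ⟨δ, hδ⟩ : ∃ δ : ℝ, δ = ε / 10 := ⟨_, rfl⟩
  have hδ0 : 0 < δ := by rw [hδ]; positivity
  obtain ⟨CL, hCL1, hCL⟩ := exists_L δ hδ0
  obtain ⟨CT, hCT1, hCT⟩ := exists_T δ hδ0
  obtain ⟨M, hM⟩ : ∃ M : ℝ, M = 18432 ^ 5 * CL ^ 10 := ⟨_, rfl⟩
  have hM1 : 1 ≤ M := by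
    rw [hM]
    have : (1 : ℝ) ≤ CL ^ 10 := one_le_pow₀ hCL1
    nlinarith
  obtain ⟨K, hK⟩ : ∃ K : ℝ, K = 24 * 10 ^ 4 * 32 ^ 7 := ⟨_, rfl⟩
  have hK0 : (10 : ℝ) ^ 9 ≤ K := by rw [hK]; norm_num
  refine ⟨M + K * CL ^ 9 * CT, by positivity, fun Y h hh hY A hA => ?_⟩
  obtain ⟨x, hx, hxh, hx14⟩ := exists_fifth h hh
  rw [← hx14]
  have hx0 : 0 < x := by linarith
  have hY1 : 1 ≤ Y := le_trans (Nat.one_le_pow _ _ hh) hY
  have hYR : (1 : ℝ) ≤ Y := by exact_mod_cast hY1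
  have hY0 : (0 : ℝ) < Y := by linarith
  have hYε : (Y : ℝ) ^ (1 + ε) = Y * (Y : ℝ) ^ ε := by
    rw [Real.rpow_add hY0, Real.rpow_one]
  have hYε1 : 1 ≤ (Y : ℝ) ^ ε := Real.one_le_rpow hYR hε.le
  by_cases hsm : (h : ℝ) ^ 3 < M * (Y : ℝ) ^ ε
  · have hAle : (A.card : ℝ) ≤ Y := by
      have hsub : A ⊆ Ico Y (2 * Y) := by
        intro N hN
        rw [mem_Ico]
        exact ⟨(hA N hN).1, (hA N hN).2.1⟩
      have := Finset.card_le_card hsub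
      rw [Nat.card_Ico] at this
      have h2 : A.card ≤ Y := by omega
      exact_mod_cast h2
    rw [le_div_iff₀ (by positivity)]
    have h1 : x ^ 14 ≤ M * (Y : ℝ) ^ ε := by
      calc x ^ 14 ≤ x ^ 15 := pow_le_pow_right₀ hx (by norm_num)
        _ = (x ^ 5) ^ 3 := by ring
        _ = (h : ℝ) ^ 3 := by rw [hxh]
        _ ≤ _ := hsm.le
    calc (A.card : ℝ) * x ^ 14 ≤ Y * (M * (Y : ℝ) ^ ε) := by gcongr
      _ = M * (Y * (Y : ℝ) ^ ε) := by ring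
      _ ≤ (M + K * CL ^ 9 * CT) * (Y * (Y : ℝ) ^ ε) := by
          apply mul_le_mul_of_nonneg_right _ (by positivity)
          have : 0 ≤ K * CL ^ 9 * CT := by positivity
          linarith
      _ = _ := by rw [hYε]
  · push Not at hsm
    obtain ⟨l, hl⟩ : ∃ l : ℕ, l = Nat.log 2 (3 * Y) + 1 := ⟨_, rfl⟩
    have hlle := hCL Y hY1
    rw [← hl] at hlle
    obtain ⟨L, hL⟩ : ∃ L : ℝ, L = (l : ℝ) := ⟨_, rfl⟩
    rw [← hL] at hlle
    have hL1 : 1 ≤ L := by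
      rw [hL, hl]; push_cast
      have : (0 : ℝ) ≤ (Nat.log 2 (3 * Y) : ℕ) := by positivity
      linarith
    have hYδ : ((Y : ℝ) ^ δ) ^ 10 = (Y : ℝ) ^ ε := by
      rw [← Real.rpow_natCast, ← Real.rpow_mul hY0.le, hδ]
      congr 1; push_cast; ring
    have hbig : 18432 ^ 5 * L ^ 10 ≤ (h : ℝ) ^ 3 := by
      calc 18432 ^ 5 * L ^ 10 ≤ 18432 ^ 5 * (CL * (Y : ℝ) ^ δ) ^ 10 := by gcongr
        _ = M * (Y : ℝ) ^ ε := by rw [mul_pow, hYδ, hM]; ring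
        _ ≤ _ := hsm
    obtain ⟨hb1, hb2⟩ := big_facts h L x hL1 hx hxh hbig
    have h20 : 20 ≤ h := by
      have : (20 : ℝ) ≤ h := by linarith
      exact_mod_cast this
    have hhY : h ≤ Y := le_trans (Nat.le_self_pow (by norm_num) h) hY
    obtain ⟨τ, hτ1, hτle, hτb⟩ := hCT Y h hY1 hhY
    have hτ : ∀ n : ℕ, 1 ≤ n → n ≤ Y → n.divisors.card ≤ τ := by
      intro n hn1 hn2
      apply hτb n hn1
      have hnR : (n : ℝ) ≤ Y := by exact_mod_cast hn2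
      have hhR : (1 : ℝ) ≤ h := by exact_mod_cast hh
      have h1 : (Y : ℝ) ≤ 384 * (3 * (Y : ℝ)) ^ 3 := by
        have : (Y : ℝ) ^ 1 ≤ (Y : ℝ) ^ 3 := pow_le_pow_right₀ hYR (by norm_num)
        rw [pow_one] at this
        nlinarith
      have h2 : (Y : ℝ) ≤ (384 * (3 * (Y : ℝ)) ^ 3) ^ 8 := by
        calc (Y : ℝ) = (Y : ℝ) ^ 1 := (pow_one _).symm
          _ ≤ (Y : ℝ) ^ 8 := pow_le_pow_right₀ hYR (by norm_num)
          _ ≤ _ := by gcongr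
      have h3 : (384 * (3 * (Y : ℝ)) ^ 3) ^ 8 ≤ 512 * (384 * (3 * (Y : ℝ)) ^ 3) ^ 8 * h := by
        have h4 : 0 ≤ (384 * (3 * (Y : ℝ)) ^ 3) ^ 8 := by positivity
        nlinarith
      linarith
    have hτR : (1 : ℝ) ≤ τ := by exact_mod_cast hτ1
    obtain ⟨Ai, hAi⟩ : ∃ Ai : ℕ → Finset ℕ, Ai = fun i => A.filter
      (fun N => (h : ℝ) / (4 * L) ≤ ((SD h N i).card : ℝ) ∧ h < 8 * 2 ^ i) := ⟨_, rfl⟩
    have hcov : A ⊆ (range l).biUnion Ai := by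
      intro N hN
      obtain ⟨hN1, hN2, hN3⟩ := hA N hN
      obtain ⟨i, hi1, hi2, hi3, _⟩ := exists_dyadic Y h N h20 hhY hN2 hN3
      rw [← hl] at hi1 hi2
      rw [← hL] at hi2
      rw [mem_biUnion]
      refine ⟨i, hi1, ?_⟩
      rw [hAi]
      simp only [mem_filter]
      exact ⟨hN, hi2, hi3⟩
    have hper : ∀ i ∈ range l, ((Ai i).card : ℝ) ≤ K * L ^ 8 * τ * (Y / x ^ 14) := by
      intro i hi
      rw [mem_range] at hi
      rcases (Ai i).eq_empty_or_nonempty with hemp | ⟨N0, hN0⟩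
      · rw [hemp, Finset.card_empty]
        push_cast
        positivity
      · have h8 : h < 8 * 2 ^ i := by
          rw [hAi] at hN0
          simp only [mem_filter] at hN0
          exact hN0.2.2
        have hAi' : ∀ N ∈ Ai i, Y ≤ N ∧ N < 2 * Y ∧ (h : ℝ) / (4 * L) ≤ ((SD h N i).card : ℝ) := by
          intro N hN
          rw [hAi] at hN
          simp only [mem_filter] at hN
          exact ⟨(hA N hN.1).1, (hA N hN.1).2.1, hN.2.1⟩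
        rcases le_or_gt ((2 ^ i) ^ 5) (h ^ 7) with hc | hc
        · have := caseS ht Y h i τ L x hL1 hx hxh hh hY hbig h8 hc hτ1 hτ (Ai i) hAi'
          rw [hK]; exact this
        · have := caseL hp Y h i l L x hL hL1 hi hx hxh hh hY hbig h8 hc (Ai i) hAi'
          refine this.trans ?_
          calc (10 : ℝ) ^ 9 * L ^ 8 * (Y / x ^ 14) ≤ K * L ^ 8 * (Y / x ^ 14) := by gcongr
            _ = K * L ^ 8 * 1 * (Y / x ^ 14) := by ring
            _ ≤ K * L ^ 8 * τ * (Y / x ^ 14) := by gcongr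
    have hcard : (A.card : ℝ) ≤ ∑ i ∈ range l, ((Ai i).card : ℝ) := by
      have := (Finset.card_le_card hcov).trans Finset.card_biUnion_le
      exact_mod_cast this
    have hsum : (A.card : ℝ) ≤ L * (K * L ^ 8 * τ * (Y / x ^ 14)) := by
      refine hcard.trans ((Finset.sum_le_sum hper).trans ?_)
      rw [Finset.sum_const, card_range, nsmul_eq_mul, hL]
    refine hsum.trans ?_
    have h1 : L ^ 9 * τ ≤ CL ^ 9 * CT * (Y : ℝ) ^ ε := by
      calc L ^ 9 * τ ≤ (CL * (Y : ℝ) ^ δ) ^ 9 * (CT * (Y : ℝ) ^ δ) := by gcongr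
        _ = CL ^ 9 * CT * ((Y : ℝ) ^ δ) ^ 10 := by ring
        _ = _ := by rw [hYδ]
    calc L * (K * L ^ 8 * τ * (Y / x ^ 14)) = K * (L ^ 9 * τ) * (Y / x ^ 14) := by ring
      _ ≤ K * (CL ^ 9 * CT * (Y : ℝ) ^ ε) * (Y / x ^ 14) := by gcongr
      _ = K * CL ^ 9 * CT * (Y * (Y : ℝ) ^ ε) / x ^ 14 := by ring
      _ ≤ (M + K * CL ^ 9 * CT) * (Y * (Y : ℝ) ^ ε) / x ^ 14 := by
          gcongr
          linarith
      _ = _ := by rw [hYε]

end Pool.Agent.SQG
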