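import Mathlib
import Pool.Agent.Lib.SQG.Defs

/-!
# Gaps between squarefree numbers: second form of the rows for triples (exponent 4)
-/

set_option autoImplicit false

namespace Pool.Agent.SQG

open Finset Pool.Agent.Lib.MP_8739b7_nt

/-- `t = (u, W, f)` with `f` near `- lam * W` and `W q ≡ f (mod 9 b (a + b))`. -/
structure Rel (a b P : ℕ) (R M : ℝ) (t : ℕ × ℤ × ℤ) : Prop where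
  hu : P ≤ t.1
  hu' : t.1 + a < 2 * P
  hW : 1 ≤ t.2.1
  hW' : (t.2.1 : ℝ) ≤ M
  hf : |(t.2.2 : ℝ) + lam a b (t.1 + a) * t.2.1| ≤ R
  hd : ((9 * b * (a + b) : ℕ) : ℤ) ∣ t.2.1 * qq a b t.1 - t.2.2

/-- LAM2: `lam` varies. -/
def LAM2_stmt : Prop := ∀ (a b s s' P B : ℝ), 1 ≤ a → a ≤ B → 1 ≤ b → b ≤ B → 100 * B ≤ P →
  P ≤ s → s ≤ 2 * P → P ≤ s' → s' ≤ 2 * P →
  lam a b s ≤ (a ^ 2 + a * b + b ^ 2) / P ∧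
  (a ^ 2 + a * b + b ^ 2) * |s - s'| / (10 * P ^ 2) ≤ |lam a b s - lam a b s'|

/-- CNT: number of `(u, W, f)` (from LAM, LAM2). -/
def CNT_stmt : Prop := ∀ (a b P B τ : ℕ) (R M : ℝ), 1 ≤ a → a ≤ B → 1 ≤ b → b ≤ B →
  100 * B ≤ P → 1 ≤ R → 0 ≤ M → (9 * b * (a + b)).divisors.card ≤ τ →
  ∀ S : Finset (ℕ × ℤ × ℤ), (∀ t ∈ S, Rel a b P R M t) →
  (S.card : ℝ) ≤ 138 * R * τ * P * M / (9 * b * (a + b)) + (a ^ 2 + a * b + b ^ 2) * M ^ 2 / P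
    + 3 * R * M

/-- EST: second bound (from CNT). -/
def EST_stmt : Prop := ∀ (a b P B τ : ℕ) (R M : ℝ), 1 ≤ a → a ≤ B → 1 ≤ b → b ≤ B →
  100 * B ≤ P → 1 ≤ R → 0 ≤ M → (9 * b * (a + b)).divisors.card ≤ τ →
  ∀ S : Finset (ℕ × ℤ × ℤ), (∀ t ∈ S, Rel a b P R M t) →
  (S.card : ℝ) ≤ 3 * R * P + 3 * R * (Nat.log 2 ⌊M⌋₊ + 1 : ℕ) * M *
    (552 * R * τ * P / (9 * b * (a + b)) + 12 * R + 4 * B)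

/-- PAB: both bounds together (from CNT, EST). -/
def PAB_stmt : Prop := ∀ (a b P B τ : ℕ) (R M : ℝ), 1 ≤ a → a ≤ B → 1 ≤ b → b ≤ B →
  100 * B ≤ P → 1 ≤ R → 0 ≤ M → (9 * b * (a + b)).divisors.card ≤ τ →
  ∀ S : Finset (ℕ × ℤ × ℤ), (∀ t ∈ S, Rel a b P R M t) →
  (S.card : ℝ) ≤ 1800 * R ^ 2 * (Nat.log 2 ⌊M⌋₊ + 1 : ℕ) * τ * M *
    (P / (9 * b * (a + b)) + B)

/-- TRIB: number of triples (from WF, PAB). -/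
def TRIB_stmt : Prop := ∀ (Y h P B τ : ℕ), 1 ≤ P → 1 ≤ h → 1 ≤ B → 100 * B ≤ P →
  h < 8 * P → h ≤ Y → 8 * P ^ 2 * h ≤ Y →
  (∀ n : ℕ, 1 ≤ n → n ≤ 18 * B ^ 2 → n.divisors.card ≤ τ) →
  ∀ T : Finset Q3, (∀ t ∈ T, IsTri Y h P B t) →
  (T.card : ℝ) ≤ 10 ^ 7 * (1 + 28 * h * B / P) ^ 2 * (Nat.log 2 Y + 1 : ℕ) * τ *
    (B ^ 3 * Y / P ^ 3 + B ^ 6 * Y / P ^ 4)

/-- RTRIB: windows with many primes in `[2 ^ i, 2 ^ (i + 1))` and any bound `Z` for the triples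
(from GAP). -/
def RTRIB_stmt : Prop := ∀ (Y h i B : ℕ) (L Z : ℝ), 1 ≤ L → 20 ≤ h → 48 * L ≤ h → h ≤ Y →
  h < 8 * 2 ^ i → 1 ≤ B → 24 * L * 2 ^ i ≤ B * h →
  (∀ T : Finset Q3, (∀ t ∈ T, IsTri Y h (2 ^ i) B t) → (T.card : ℝ) ≤ Z) →
  ∀ A : Finset ℕ, (∀ N ∈ A, Y ≤ N ∧ N < 2 * Y ∧ (h : ℝ) / (4 * L) ≤ ((SD h N i).card : ℝ)) →
  (A.card : ℝ) ≤ 12 * L * Z

/-- BLKB: bad windows in a dyadic block (from TRIB, RTRIB, RPAIR). -/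
def BLKB_stmt : Prop := ∀ ε : ℝ, 0 < ε → ∃ C : ℝ, 0 < C ∧ ∀ Y h : ℕ, 1 ≤ h → h ^ 5 ≤ Y →
  ∀ A : Finset ℕ, (∀ N ∈ A, Y ≤ N ∧ N < 2 * Y ∧ Bad h N) →
  (A.card : ℝ) ≤ C * (Y : ℝ) ^ (1 + ε) / (h : ℝ) ^ 3

/-- FINB: the theorem with exponent 3. -/
def FINB_stmt : Prop := ∀ ε : ℝ, 0 < ε → ∃ C : ℝ, ∀ X h : ℕ, 1 ≤ h → h ^ 5 ≤ X →
  (Set.ncard {n : ℕ | 1 ≤ n ∧ n ≤ X ∧ ∀ m : ℕ, n < m → m ≤ n + h → ¬ Squarefree m} : ℝ) ≤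
    C * (X : ℝ) ^ (1 + ε) / (h : ℝ) ^ 3

end Pool.Agent.SQG
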