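import Mathlib
import Pool.Agent.Lib.SQG.Defs2
import Pool.Agent.Lib.MP_8739b7_nt.Asymp

set_option autoImplicit false

namespace Pool.Agent.SQG

namespace BLKBx

open Finset Pool.Agent.Lib.MP_8739b7_nt

lemma ceil_facts (h i : ℕ) (L : ℝ) (hL : 1 ≤ L) (hh : 1 ≤ h) (h8 : h < 8 * 2 ^ i) :
    24 * L * 2 ^ i ≤ (⌈24 * L * 2 ^ i / h⌉₊ : ℝ) * h ∧
      (⌈24 * L * 2 ^ i / h⌉₊ : ℝ) * h ≤ 32 * L * 2 ^ i ∧ 1 ≤ ⌈24 * L * 2 ^ i / h⌉₊ := by
  have hhR : (0 : ℝ) < h := by exact_mod_cast hh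
  have hP : (0 : ℝ) < 2 ^ i := by positivity
  have h8R : (h : ℝ) < 8 * 2 ^ i := by exact_mod_cast h8
  have h0 : 0 < 24 * L * 2 ^ i / (h : ℝ) := by positivity
  refine ⟨?_, ?_, ?_⟩
  · have := Nat.le_ceil (24 * L * 2 ^ i / (h : ℝ))
    rw [div_le_iff₀ hhR] at this
    exact this
  · have := Nat.ceil_lt_add_one h0.le
    have h2 : (⌈24 * L * 2 ^ i / h⌉₊ : ℝ) * h < (24 * L * 2 ^ i / h + 1) * h :=
      mul_lt_mul_of_pos_right this hhR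
    have h3 : (24 * L * 2 ^ i / h + 1) * (h : ℝ) = 24 * L * 2 ^ i + h := by field_simp
    rw [h3] at h2
    nlinarith
  · exact Nat.one_le_iff_ne_zero.2 (Nat.pos_iff_ne_zero.1 (Nat.ceil_pos.2 h0))

lemma caseS (ht : TRIB_stmt) (hr : RTRIB_stmt) (Y h i τ l : ℕ) (L : ℝ) (hLl : L = l)
    (hl : Nat.log 2 Y + 1 ≤ l) (hL : 1 ≤ L) (hh : 1 ≤ h) (hY : h ^ 5 ≤ Y)
    (hbig : 3200 * L ≤ h) (h8 : h < 8 * 2 ^ i)
    (hP : (2 ^ i) ^ 2 ≤ h ^ 3) (hτ1 : 1 ≤ τ) (hτ : ∀ n : ℕ, 1 ≤ n → n ≤ Y → n.divisors.card ≤ τ)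
    (A : Finset ℕ)
    (hA : ∀ N ∈ A, Y ≤ N ∧ N < 2 * Y ∧ (h : ℝ) / (4 * L) ≤ ((SD h N i).card : ℝ)) :
    (A.card : ℝ) ≤ 10 ^ 25 * L ^ 10 * τ * (Y / (h : ℝ) ^ 3) := by
  obtain ⟨hc1, hc2, hc3⟩ := ceil_facts h i L hL hh h8
  obtain ⟨B, hB⟩ : ∃ B : ℕ, B = ⌈24 * L * 2 ^ i / (h : ℝ)⌉₊ := ⟨_, rfl⟩
  rw [← hB] at hc1 hc2 hc3
  have hhR : (1 : ℝ) ≤ h := by exact_mod_cast hh
  have hh0 : (0 : ℝ) < h := by linarith
  have hP0 : (0 : ℝ) < 2 ^ i := by positivity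
  have hL0 : 0 < L := by linarith
  have hYR : (h : ℝ) ^ 5 ≤ Y := by exact_mod_cast hY
  have hY0 : (0 : ℝ) < Y := by
    have : (0 : ℝ) < (h : ℝ) ^ 5 := by positivity
    linarith
  have hPx : ((2 : ℝ) ^ i) ^ 2 ≤ (h : ℝ) ^ 3 := by exact_mod_cast hP
  have hhY : h ≤ Y := le_trans (Nat.le_self_pow (by norm_num) h) hY
  have h100R : (100 : ℝ) * B ≤ 2 ^ i := by
    have h1 : 100 * (B : ℝ) * h ≤ 2 ^ i * h := by
      calc 100 * (B : ℝ) * h = 100 * (B * h) := by ring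
        _ ≤ 100 * (32 * L * 2 ^ i) := by gcongr
        _ = 2 ^ i * (3200 * L) := by ring
        _ ≤ 2 ^ i * h := by gcongr
    exact le_of_mul_le_mul_right h1 hh0
  have h100 : 100 * B ≤ 2 ^ i := by exact_mod_cast h100R
  have h3200R : (3200 : ℝ) ≤ h := by nlinarith
  have h3200 : 3200 ≤ h := by exact_mod_cast h3200R
  have hPY : 8 * (2 ^ i) ^ 2 * h ≤ Y := by
    calc 8 * (2 ^ i) ^ 2 * h ≤ h * h ^ 3 * h := by
          have : 8 ≤ h := by omega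
          gcongr
      _ = h ^ 5 := by ring
      _ ≤ Y := hY
  have hP1 : 1 ≤ 2 ^ i := Nat.one_le_two_pow
  have hB2Y : 18 * B ^ 2 ≤ Y := by
    have h1 : B ≤ 2 ^ i := by omega
    have h2 : B ^ 2 ≤ (2 ^ i) ^ 2 := Nat.pow_le_pow_left h1 2
    calc 18 * B ^ 2 ≤ 18 * (2 ^ i) ^ 2 := by omega
      _ ≤ 8 * (2 ^ i) ^ 2 * h := by nlinarith
      _ ≤ Y := hPY
  have hτR : (1 : ℝ) ≤ τ := by exact_mod_cast hτ1
  obtain ⟨P, hPdef⟩ : ∃ P : ℝ, P = 2 ^ i := ⟨_, rfl⟩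
  obtain ⟨β, hβ⟩ : ∃ β : ℝ, β = B * h / P := ⟨_, rfl⟩
  have hPpos : 0 < P := by rw [hPdef]; exact hP0
  have hβ0 : 0 ≤ β := by rw [hβ]; positivity
  have hβL : β ≤ 32 * L := by
    rw [hβ, div_le_iff₀ hPpos, hPdef]; exact hc2
  have hBβ : (B : ℝ) = β * P / h := by rw [hβ]; field_simp
  obtain ⟨Z, hZ⟩ : ∃ Z : ℝ, Z = Y / (h : ℝ) ^ 3 := ⟨_, rfl⟩
  have hZ0 : 0 < Z := by rw [hZ]; positivity
  have hPr : P ^ 2 / (h : ℝ) ^ 3 ≤ 1 := by
    rw [div_le_one (by positivity), hPdef]; exact hPx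
  have hPr0 : 0 ≤ P ^ 2 / (h : ℝ) ^ 3 := by positivity
  have hbound : ∀ T : Finset Q3, (∀ t ∈ T, IsTri Y h (2 ^ i) B t) →
      (T.card : ℝ) ≤ 10 ^ 23 * L ^ 9 * τ * Z := by
    intro T hT
    have h1 := ht Y h (2 ^ i) B τ hP1 hh hc3 h100 h8 hhY hPY
      (fun n hn1 hn2 => hτ n hn1 (hn2.trans hB2Y)) T hT
    push_cast at h1
    rw [← hPdef] at h1
    refine h1.trans ?_
    have e1 : 28 * (h : ℝ) * B / P = 28 * β := by rw [hβ]; ring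
    have e2 : (B : ℝ) ^ 3 * Y / P ^ 3 = β ^ 3 * Z := by rw [hBβ, hZ]; field_simp
    have e3 : (B : ℝ) ^ 6 * Y / P ^ 4 = β ^ 6 * (P ^ 2 / (h : ℝ) ^ 3) * Z := by
      rw [hBβ, hZ]; field_simp
    rw [e1, e2, e3]
    have hlog : ((Nat.log 2 Y : ℕ) : ℝ) + 1 ≤ L := by
      rw [hLl]; exact_mod_cast hl
    have f1 : 1 + 28 * β ≤ 897 * L := by linarith
    have f2 : β ^ 3 * Z + β ^ 6 * (P ^ 2 / (h : ℝ) ^ 3) * Z ≤ 2 * 32 ^ 6 * L ^ 6 * Z := by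
      have g1 : β ^ 3 * Z ≤ 32 ^ 6 * L ^ 6 * Z := by
        have hL3 : L ^ 3 ≤ L ^ 6 := pow_le_pow_right₀ hL (by norm_num)
        calc β ^ 3 * Z ≤ (32 * L) ^ 3 * Z := by gcongr
          _ = 32 ^ 3 * L ^ 3 * Z := by ring
          _ ≤ 32 ^ 6 * L ^ 6 * Z := by
              have : (32 : ℝ) ^ 3 ≤ 32 ^ 6 := by norm_num
              gcongr
      have g2 : β ^ 6 * (P ^ 2 / (h : ℝ) ^ 3) * Z ≤ 32 ^ 6 * L ^ 6 * Z := by
        calc β ^ 6 * (P ^ 2 / (h : ℝ) ^ 3) * Z ≤ (32 * L) ^ 6 * 1 * Z := by gcongr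
          _ = _ := by ring
      linarith
    calc 10 ^ 7 * (1 + 28 * β) ^ 2 * (((Nat.log 2 Y : ℕ) : ℝ) + 1) * τ
          * (β ^ 3 * Z + β ^ 6 * (P ^ 2 / (h : ℝ) ^ 3) * Z)
        ≤ 10 ^ 7 * (897 * L) ^ 2 * L * τ * (2 * 32 ^ 6 * L ^ 6 * Z) := by gcongr
      _ = (10 ^ 7 * 897 ^ 2 * (2 * 32 ^ 6)) * (L ^ 9 * τ * Z) := by ring
      _ ≤ 10 ^ 23 * (L ^ 9 * τ * Z) :=
          mul_le_mul_of_nonneg_right (by norm_num) (by positivity)
      _ = _ := by ring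
  have hmain := hr Y h i B L (10 ^ 23 * L ^ 9 * τ * Z) hL (by omega) (by linarith) hhY h8 hc3
    (by exact_mod_cast hc1) hbound A hA
  rw [← hZ]
  calc (A.card : ℝ) ≤ 12 * L * (10 ^ 23 * L ^ 9 * τ * Z) := hmain
    _ = 12 * 10 ^ 23 * (L ^ 10 * τ * Z) := by ring
    _ ≤ 10 ^ 25 * (L ^ 10 * τ * Z) := by
        apply mul_le_mul_of_nonneg_right (by norm_num) (by positivity)
    _ = _ := by ring

lemma caseL (ht : RPAIR_stmt) (Y h i l : ℕ) (L : ℝ) (hL : L = l) (hL1 : 1 ≤ L) (hil : i < l)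
    (hh : 1 ≤ h) (hY : h ^ 5 ≤ Y)
    (hbig : 3200 * L ≤ h) (h8 : h < 8 * 2 ^ i)
    (hP : h ^ 3 < (2 ^ i) ^ 2)
    (A : Finset ℕ)
    (hA : ∀ N ∈ A, Y ≤ N ∧ N < 2 * Y ∧ (h : ℝ) / (4 * L) ≤ ((SD h N i).card : ℝ)) :
    (A.card : ℝ) ≤ 10 ^ 9 * L ^ 8 * (Y / (h : ℝ) ^ 3) := by
  obtain ⟨hc1, hc2, hc3⟩ := ceil_facts h i L hL1 hh h8
  obtain ⟨B, hB⟩ : ∃ B : ℕ, B = ⌈24 * L * 2 ^ i / (h : ℝ)⌉₊ := ⟨_, rfl⟩
  rw [← hB] at hc1 hc2 hc3
  have hhR : (1 : ℝ) ≤ h := by exact_mod_cast hh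
  have hh0 : (0 : ℝ) < h := by linarith
  have hP0 : (0 : ℝ) < 2 ^ i := by positivity
  have hL0 : 0 < L := by linarith
  have hYR : (h : ℝ) ^ 5 ≤ Y := by exact_mod_cast hY
  have hY0 : (0 : ℝ) < Y := by
    have : (0 : ℝ) < (h : ℝ) ^ 5 := by positivity
    linarith
  have hPx : (h : ℝ) ^ 3 ≤ ((2 : ℝ) ^ i) ^ 2 := by exact_mod_cast hP.le
  have hhY : h ≤ Y := le_trans (Nat.le_self_pow (by norm_num) h) hY
  have h20R : (3200 : ℝ) ≤ h := by nlinarith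
  have h20 : 3200 ≤ h := by exact_mod_cast h20R
  have h2h : 2 * h ≤ 2 ^ i := by
    by_contra hcon
    push Not at hcon
    have h1 : (2 ^ i) ^ 2 < (2 * h) ^ 2 := Nat.pow_lt_pow_left hcon (by norm_num)
    have h2 : (2 * h) ^ 2 ≤ h ^ 3 := by
      calc (2 * h) ^ 2 = 4 * h ^ 2 := by ring
        _ ≤ h * h ^ 2 := by
            have : 4 ≤ h := by omega
            gcongr
        _ = h ^ 3 := by ring
    omega
  have h1000 : 1000 ≤ 2 ^ i := by omega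
  have hBlt : B < 2 ^ i := by
    have h1 : (B : ℝ) * h < 2 ^ i * h := by
      calc (B : ℝ) * h ≤ 32 * L * 2 ^ i := hc2
        _ = 2 ^ i * (32 * L) := by ring
        _ < 2 ^ i * h := by
            apply mul_lt_mul_of_pos_left _ hP0
            linarith
    have h2 : (B : ℝ) < 2 ^ i := lt_of_mul_lt_mul_right h1 hh0.le
    exact_mod_cast h2
  have hmain := ht Y h i B L hL1 (by omega) (by linarith) hhY h2h h1000 hc3 (by exact_mod_cast hc1)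
    hBlt A hA
  obtain ⟨P, hPdef⟩ : ∃ P : ℝ, P = 2 ^ i := ⟨_, rfl⟩
  obtain ⟨Z, hZ⟩ : ∃ Z : ℝ, Z = Y / (h : ℝ) ^ 3 := ⟨_, rfl⟩
  have hZ0 : 0 < Z := by rw [hZ]; positivity
  obtain ⟨β, hβ⟩ : ∃ β : ℝ, β = B * h / P := ⟨_, rfl⟩
  rw [← hPdef] at hmain hP0 hPx hc2
  have hβ0 : 0 ≤ β := by rw [hβ]; positivity
  have hβL : β ≤ 32 * L := by
    rw [hβ, div_le_iff₀ hP0]; exact hc2
  have hBβ : (B : ℝ) = β * P / h := by rw [hβ]; field_simp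
  have hx24 : (h : ℝ) ^ 2 ≤ Z := by
    rw [hZ, le_div_iff₀ (by positivity)]
    calc (h : ℝ) ^ 2 * (h : ℝ) ^ 3 = (h : ℝ) ^ 5 := by ring
      _ ≤ (Y : ℝ) := hYR
  have hP2 : (Y : ℝ) / P ^ 2 ≤ Z := by
    rw [hZ]
    exact div_le_div_of_nonneg_left hY0.le (by positivity) hPx
  have t1 : 4 * (h : ℝ) * (4 * h) ≤ 16 * Z := by
    calc 4 * (h : ℝ) * (4 * h) = 16 * (h : ℝ) ^ 2 := by ring
      _ ≤ 16 * Z := by gcongr
  have t2 : 4 * (h : ℝ) * (3 * h * B / P) ≤ 384 * L * Z := by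
    have : 4 * (h : ℝ) * (3 * h * B / P) = 12 * h * β := by
      rw [hβ]; ring
    rw [this]
    calc 12 * (h : ℝ) * β ≤ 12 * (h : ℝ) ^ 2 * (32 * L) := by
          have : (h : ℝ) ≤ (h : ℝ) ^ 2 := by nlinarith
          gcongr
      _ ≤ 12 * Z * (32 * L) := by gcongr
      _ = _ := by ring
  have t3 : 4 * (h : ℝ) * (3 * Y * B / P ^ 3) ≤ 384 * L * Z := by
    have : 4 * (h : ℝ) * (3 * Y * B / P ^ 3) = 12 * β * (Y / P ^ 2) := by
      rw [hBβ]; field_simp; ring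
    rw [this]
    calc 12 * β * (Y / P ^ 2) ≤ 12 * (32 * L) * Z := by gcongr
      _ = _ := by ring
  have t4 : 4 * (h : ℝ) * (3 * Y * (B : ℝ) ^ 4 / P ^ 4) ≤ 12 * (32 * L) ^ 4 * Z := by
    have : 4 * (h : ℝ) * (3 * Y * (B : ℝ) ^ 4 / P ^ 4) = 12 * β ^ 4 * Z := by
      rw [hBβ, hZ]; field_simp; ring
    rw [this]
    gcongr
  have hL8 : ∀ k : ℕ, k ≤ 8 → L ^ k ≤ L ^ 8 := fun k hk => pow_le_pow_right₀ hL1 hk
  have s1 : 24 * L * (4 * h * (4 * h + 3 * h * B / P + 3 * Y * B / P ^ 3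
    + 3 * Y * (B : ℝ) ^ 4 / P ^ 4)) ≤ 24 * (784 + 12 * 32 ^ 4) * (L ^ 8 * Z) := by
    have e : 4 * (h : ℝ) * (4 * h + 3 * h * B / P + 3 * Y * B / P ^ 3 + 3 * Y * (B : ℝ) ^ 4 / P ^ 4)
        = 4 * (h : ℝ) * (4 * h) + 4 * (h : ℝ) * (3 * h * B / P) + 4 * (h : ℝ) * (3 * Y * B / P ^ 3)
          + 4 * (h : ℝ) * (3 * Y * (B : ℝ) ^ 4 / P ^ 4) := by ring
    rw [e]
    calc 24 * L * (4 * (h : ℝ) * (4 * h) + 4 * (h : ℝ) * (3 * h * B / P)
          + 4 * (h : ℝ) * (3 * Y * B / P ^ 3) + 4 * (h : ℝ) * (3 * Y * (B : ℝ) ^ 4 / P ^ 4))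
        ≤ 24 * L * (16 * Z + 384 * L * Z + 384 * L * Z + 12 * (32 * L) ^ 4 * Z) := by gcongr
      _ = 24 * (16 * (L ^ 1 * Z) + 768 * (L ^ 2 * Z) + 12 * 32 ^ 4 * (L ^ 5 * Z)) := by ring
      _ ≤ 24 * (16 * (L ^ 8 * Z) + 768 * (L ^ 8 * Z) + 12 * 32 ^ 4 * (L ^ 8 * Z)) := by
          have := hL8 1 (by norm_num)
          have := hL8 2 (by norm_num)
          have := hL8 5 (by norm_num)
          gcongr
      _ = _ := by ring
  have s2 : (if 12 * (Y : ℝ) / P ^ 3 < h / (24 * L) then 0 else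
      24 * L * (12 * (1 + Real.log B) * (h : ℝ) ^ (1 / 3 : ℝ) * (Y : ℝ) ^ (2 / 3 : ℝ) / P))
      ≤ 82944 * (L ^ 8 * Z) := by
    split_ifs with hif
    · positivity
    · push Not at hif
      have hB0 : (0 : ℝ) < B := by
        have : 0 < B := by omega
        exact_mod_cast this
      have hlogB : 1 + Real.log B ≤ L := by
        have h1 : Real.log B ≤ Real.log ((2 : ℝ) ^ i) := by
          apply Real.log_le_log hB0
          exact_mod_cast hBlt.le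
        rw [Real.log_pow] at h1
        have h2 : Real.log 2 ≤ 1 := by have := Real.log_two_lt_d9; linarith
        have h3 : (i : ℝ) * Real.log 2 ≤ i * 1 := by gcongr
        have h4 : (i : ℝ) + 1 ≤ l := by exact_mod_cast hil
        rw [hL]; linarith
      obtain ⟨w, hw⟩ : ∃ w : ℝ, w = (h : ℝ) ^ (1 / 3 : ℝ) * (Y : ℝ) ^ (2 / 3 : ℝ) / P := ⟨_, rfl⟩
      have hw0 : 0 ≤ w := by rw [hw]; positivity
      have hw3 : w ^ 3 = h * Y ^ 2 / P ^ 3 := by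
        rw [hw, div_pow, mul_pow, ← Real.rpow_natCast ((h : ℝ) ^ (1 / 3 : ℝ)),
          ← Real.rpow_natCast ((Y : ℝ) ^ (2 / 3 : ℝ)), ← Real.rpow_mul hh0.le,
          ← Real.rpow_mul hY0.le]
        norm_num
      have hkey : h * P ^ 3 ≤ 288 * L * Y := by
        rw [div_le_div_iff₀ (by positivity) (by positivity)] at hif
        nlinarith
      have hwle : w ≤ 288 * L * Z := by
        have h1 : w ^ 3 ≤ (288 * L * Z) ^ 3 := by
          have h2 : w ^ 3 ≤ 288 * L * Z ^ 3 := by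
            rw [hw3, hZ, div_pow, div_le_iff₀ (by positivity)]
            have e1 : 288 * L * ((Y : ℝ) ^ 3 / ((h : ℝ) ^ 3) ^ 3) * P ^ 3
              = (288 * L * Y * P ^ 3 / (h : ℝ) ^ 9) * Y ^ 2 := by
              field_simp
            rw [e1]
            apply mul_le_mul_of_nonneg_right _ (by positivity)
            rw [le_div_iff₀ (by positivity)]
            calc (h : ℝ) * (h : ℝ) ^ 9 = h * ((h : ℝ) ^ 3) ^ 3 := by ring
              _ ≤ h * (P ^ 2) ^ 3 := by gcongr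
              _ = h * P ^ 3 * P ^ 3 := by ring
              _ ≤ 288 * L * Y * P ^ 3 := by gcongr
          have h3 : 288 * L * Z ^ 3 ≤ (288 * L * Z) ^ 3 := by
            have h4 : (1 : ℝ) ≤ 288 * L := by linarith
            have h5 : 288 * L ≤ (288 * L) ^ 3 := by
              calc 288 * L = (288 * L) ^ 1 := by ring
                _ ≤ (288 * L) ^ 3 := pow_le_pow_right₀ h4 (by norm_num)
            calc 288 * L * Z ^ 3 ≤ (288 * L) ^ 3 * Z ^ 3 := by gcongr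
              _ = _ := by ring
          linarith
        exact le_of_pow_le_pow_left₀ (by norm_num) (by positivity) h1
      have hlog0 : 0 ≤ 1 + Real.log B := by
        have : (1 : ℝ) ≤ B := by exact_mod_cast hc3
        have := Real.log_nonneg this
        linarith
      calc 24 * L * (12 * (1 + Real.log B) * (h : ℝ) ^ (1 / 3 : ℝ) * (Y : ℝ) ^ (2 / 3 : ℝ) / P)
          = 288 * L * (1 + Real.log B) * w := by rw [hw]; ring
        _ ≤ 288 * L * L * (288 * L * Z) := by gcongr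
        _ = 82944 * (L ^ 3 * Z) := by ring
        _ ≤ 82944 * (L ^ 8 * Z) := by
            have := hL8 3 (by norm_num)
            gcongr
  rw [← hZ]
  calc (A.card : ℝ) ≤ _ := hmain
    _ ≤ 24 * (784 + 12 * 32 ^ 4) * (L ^ 8 * Z) + 82944 * (L ^ 8 * Z) := add_le_add s1 s2
    _ ≤ 10 ^ 9 * L ^ 8 * Z := by
        have : 0 < L ^ 8 * Z := by positivity
        nlinarith

end BLKBx

open Finset Pool.Agent.Lib.MP_8739b7_nt BLKBx

theorem blkb (ht : TRIB_stmt) (hr : RTRIB_stmt) (hp : RPAIR_stmt) : BLKB_stmt := by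
  classical
  intro ε hε
  obtain ⟨δ, hδ⟩ : ∃ δ : ℝ, δ = ε / 12 := ⟨_, rfl⟩
  have hδ0 : 0 < δ := by rw [hδ]; positivity
  obtain ⟨CL, hCL1, hCL⟩ := exists_L δ hδ0
  obtain ⟨CT, hCT1, hCT⟩ := exists_T δ hδ0
  obtain ⟨M, hM⟩ : ∃ M : ℝ, M = 3200 ^ 3 * CL ^ 3 := ⟨_, rfl⟩
  have hM1 : 1 ≤ M := by
    rw [hM]
    have : (1 : ℝ) ≤ CL ^ 3 := one_le_pow₀ hCL1
    nlinarith
  obtain ⟨K, hK⟩ : ∃ K : ℝ, K = 10 ^ 25 := ⟨_, rfl⟩
  have hK0 : (10 : ℝ) ^ 9 ≤ K := by rw [hK]; norm_num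
  refine ⟨M + K * CL ^ 11 * CT, by positivity, fun Y h hh hY A hA => ?_⟩
  have hhR : (1 : ℝ) ≤ h := by exact_mod_cast hh
  have hh0 : (0 : ℝ) < h := by linarith
  have hY1 : 1 ≤ Y := le_trans (Nat.one_le_pow _ _ hh) hY
  have hYR : (1 : ℝ) ≤ Y := by exact_mod_cast hY1
  have hY0 : (0 : ℝ) < Y := by linarith
  have hYε : (Y : ℝ) ^ (1 + ε) = Y * (Y : ℝ) ^ ε := by
    rw [Real.rpow_add hY0, Real.rpow_one]
  have hYε1 : 1 ≤ (Y : ℝ) ^ ε := Real.one_le_rpow hYR hε.le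
  by_cases hsm : (h : ℝ) ^ 3 < M * (Y : ℝ) ^ ε
  · have hAle : (A.card : ℝ) ≤ Y := by
      have hsub : A ⊆ Ico Y (2 * Y) := by
        intro N hN
        rw [mem_Ico]
        exact ⟨(hA N hN).1, (hA N hN).2.1⟩
      have := Finset.card_le_card hsub
      rw [Nat.card_Ico] at this
      have h2 : A.card ≤ Y := by omega
      exact_mod_cast h2
    rw [le_div_iff₀ (by positivity)]
    calc (A.card : ℝ) * (h : ℝ) ^ 3 ≤ Y * (M * (Y : ℝ) ^ ε) := by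
          have := hsm.le
          gcongr
      _ = M * (Y * (Y : ℝ) ^ ε) := by ring
      _ ≤ (M + K * CL ^ 11 * CT) * (Y * (Y : ℝ) ^ ε) := by
          apply mul_le_mul_of_nonneg_right _ (by positivity)
          have : 0 ≤ K * CL ^ 11 * CT := by positivity
          linarith
      _ = _ := by rw [hYε]
  · push Not at hsm
    obtain ⟨l, hl⟩ : ∃ l : ℕ, l = Nat.log 2 (3 * Y) + 1 := ⟨_, rfl⟩
    have hlle := hCL Y hY1
    rw [← hl] at hlle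
    obtain ⟨L, hL⟩ : ∃ L : ℝ, L = (l : ℝ) := ⟨_, rfl⟩
    rw [← hL] at hlle
    have hL1 : 1 ≤ L := by
      rw [hL, hl]; push_cast
      have : (0 : ℝ) ≤ (Nat.log 2 (3 * Y) : ℕ) := by positivity
      linarith
    have hlY : Nat.log 2 Y + 1 ≤ l := by
      have := Nat.log_mono_right (b := 2) (show Y ≤ 3 * Y by omega)
      omega
    have hYδ : ((Y : ℝ) ^ δ) ^ 12 = (Y : ℝ) ^ ε := by
      rw [← Real.rpow_natCast, ← Real.rpow_mul hY0.le, hδ]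
      congr 1; push_cast; ring
    have hYδ1 : 1 ≤ (Y : ℝ) ^ δ := Real.one_le_rpow hYR hδ0.le
    have hbig : 3200 * L ≤ h := by
      have h1 : (3200 * L) ^ 3 ≤ (h : ℝ) ^ 3 := by
        calc (3200 * L) ^ 3 ≤ (3200 * (CL * (Y : ℝ) ^ δ)) ^ 3 := by gcongr
          _ = M * ((Y : ℝ) ^ δ) ^ 3 := by rw [hM]; ring
          _ ≤ M * ((Y : ℝ) ^ δ) ^ 12 := by
              have := pow_le_pow_right₀ hYδ1 (show 3 ≤ 12 by norm_num)
              gcongr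
          _ = M * (Y : ℝ) ^ ε := by rw [hYδ]
          _ ≤ _ := hsm
      exact le_of_pow_le_pow_left₀ (by norm_num) (by positivity) h1
    have h20 : 20 ≤ h := by
      have : (20 : ℝ) ≤ h := by linarith
      exact_mod_cast this
    have hhY : h ≤ Y := le_trans (Nat.le_self_pow (by norm_num) h) hY
    obtain ⟨τ, hτ1, hτle, hτb⟩ := hCT Y h hY1 hhY
    have hτ : ∀ n : ℕ, 1 ≤ n → n ≤ Y → n.divisors.card ≤ τ := by
      intro n hn1 hn2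
      apply hτb n hn1
      have hnR : (n : ℝ) ≤ Y := by exact_mod_cast hn2
      have h1 : (Y : ℝ) ≤ 384 * (3 * (Y : ℝ)) ^ 3 := by
        have : (Y : ℝ) ^ 1 ≤ (Y : ℝ) ^ 3 := pow_le_pow_right₀ hYR (by norm_num)
        rw [pow_one] at this
        nlinarith
      have h2 : (Y : ℝ) ≤ (384 * (3 * (Y : ℝ)) ^ 3) ^ 8 := by
        calc (Y : ℝ) = (Y : ℝ) ^ 1 := (pow_one _).symm
          _ ≤ (Y : ℝ) ^ 8 := pow_le_pow_right₀ hYR (by norm_num)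
          _ ≤ _ := by gcongr
      have h3 : (384 * (3 * (Y : ℝ)) ^ 3) ^ 8 ≤ 512 * (384 * (3 * (Y : ℝ)) ^ 3) ^ 8 * h := by
        have h4 : 0 ≤ (384 * (3 * (Y : ℝ)) ^ 3) ^ 8 := by positivity
        nlinarith
      linarith
    have hτR : (1 : ℝ) ≤ τ := by exact_mod_cast hτ1
    obtain ⟨Ai, hAi⟩ : ∃ Ai : ℕ → Finset ℕ, Ai = fun i => A.filter
      (fun N => (h : ℝ) / (4 * L) ≤ ((SD h N i).card : ℝ) ∧ h < 8 * 2 ^ i) := ⟨_, rfl⟩
    have hcov : A ⊆ (range l).biUnion Ai := by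
      intro N hN
      obtain ⟨hN1, hN2, hN3⟩ := hA N hN
      obtain ⟨i, hi1, hi2, hi3, _⟩ := exists_dyadic Y h N h20 hhY hN2 hN3
      rw [← hl] at hi1 hi2
      rw [← hL] at hi2
      rw [mem_biUnion]
      refine ⟨i, hi1, ?_⟩
      rw [hAi]
      simp only [mem_filter]
      exact ⟨hN, hi2, hi3⟩
    have hper : ∀ i ∈ range l, ((Ai i).card : ℝ) ≤ K * L ^ 10 * τ * (Y / (h : ℝ) ^ 3) := by
      intro i hi
      rw [mem_range] at hi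
      rcases (Ai i).eq_empty_or_nonempty with hemp | ⟨N0, hN0⟩
      · rw [hemp, Finset.card_empty]
        push_cast
        positivity
      · have h8 : h < 8 * 2 ^ i := by
          rw [hAi] at hN0
          simp only [mem_filter] at hN0
          exact hN0.2.2
        have hAi' : ∀ N ∈ Ai i, Y ≤ N ∧ N < 2 * Y ∧ (h : ℝ) / (4 * L) ≤ ((SD h N i).card : ℝ) := by
          intro N hN
          rw [hAi] at hN
          simp only [mem_filter] at hN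
          exact ⟨(hA N hN.1).1, (hA N hN.1).2.1, hN.2.1⟩
        rcases le_or_gt ((2 ^ i) ^ 2) (h ^ 3) with hc | hc
        · have := caseS ht hr Y h i τ l L hL hlY hL1 hh hY hbig h8 hc hτ1 hτ (Ai i) hAi'
          rw [hK]; exact this
        · have := caseL hp Y h i l L hL hL1 hi hh hY hbig h8 hc (Ai i) hAi'
          refine this.trans ?_
          have hL10 : L ^ 8 ≤ L ^ 10 := pow_le_pow_right₀ hL1 (by norm_num)
          calc (10 : ℝ) ^ 9 * L ^ 8 * (Y / (h : ℝ) ^ 3) ≤ K * L ^ 10 * (Y / (h : ℝ) ^ 3) := by gcongr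
            _ = K * L ^ 10 * 1 * (Y / (h : ℝ) ^ 3) := by ring
            _ ≤ K * L ^ 10 * τ * (Y / (h : ℝ) ^ 3) := by gcongr
    have hcard : (A.card : ℝ) ≤ ∑ i ∈ range l, ((Ai i).card : ℝ) := by
      have := (Finset.card_le_card hcov).trans Finset.card_biUnion_le
      exact_mod_cast this
    have hsum : (A.card : ℝ) ≤ L * (K * L ^ 10 * τ * (Y / (h : ℝ) ^ 3)) := by
      refine hcard.trans ((Finset.sum_le_sum hper).trans ?_)
      rw [Finset.sum_const, card_range, nsmul_eq_mul, hL]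
    refine hsum.trans ?_
    have h1 : L ^ 11 * τ ≤ CL ^ 11 * CT * (Y : ℝ) ^ ε := by
      calc L ^ 11 * τ ≤ (CL * (Y : ℝ) ^ δ) ^ 11 * (CT * (Y : ℝ) ^ δ) := by gcongr
        _ = CL ^ 11 * CT * ((Y : ℝ) ^ δ) ^ 12 := by ring
        _ = _ := by rw [hYδ]
    calc L * (K * L ^ 10 * τ * (Y / (h : ℝ) ^ 3)) = K * (L ^ 11 * τ) * (Y / (h : ℝ) ^ 3) := by ring
      _ ≤ K * (CL ^ 11 * CT * (Y : ℝ) ^ ε) * (Y / (h : ℝ) ^ 3) := by gcongr
      _ = K * CL ^ 11 * CT * (Y * (Y : ℝ) ^ ε) / (h : ℝ) ^ 3 := by ring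
      _ ≤ (M + K * CL ^ 11 * CT) * (Y * (Y : ℝ) ^ ε) / (h : ℝ) ^ 3 := by
          gcongr
          linarith
      _ = _ := by rw [hYε]

end Pool.Agent.SQG
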