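import Pool.Agent.Lib.SQG.Defs2

/-!
Row CNT: number of `(u, W, f)`.
-/

set_option autoImplicit false

namespace Pool.Agent.SQG

open Finset

namespace CntAux

/-- Points of a progression in an interval. -/
theorem ap_card (U : Finset ℕ) (q : ℕ) (L : ℝ) (hL : 0 ≤ L)
    (h1 : ∀ u ∈ U, ∀ v ∈ U, u ≤ v → q ∣ v - u)
    (h2 : ∀ u ∈ U, ∀ v ∈ U, u ≤ v → ((v - u : ℕ) : ℝ) ≤ L) : (U.card : ℝ) ≤ L / q + 1 := by
  rcases U.eq_empty_or_nonempty with rfl | hne
  · simp only [Finset.card_empty, Nat.cast_zero]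
    positivity
  · have hm := U.min'_mem hne
    have hle : ∀ u ∈ U, U.min' hne ≤ u := fun u hu => U.min'_le u hu
    have h3 : U.card ≤ (range (⌊L / q⌋₊ + 1)).card := by
      refine Finset.card_le_card_of_injOn (fun u => (u - U.min' hne) / q) ?_ ?_
      · intro u hu
        have hu' : u ∈ U := hu
        refine Finset.mem_coe.2 (Finset.mem_range.2 (Nat.lt_succ_of_le (Nat.le_floor ?_)))
        refine Nat.cast_div_le.trans ?_
        exact div_le_div_of_nonneg_right (h2 _ hm u hu' (hle u hu')) (Nat.cast_nonneg q)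
      · intro u hu v hv huv
        have hu' : u ∈ U := hu
        have hv' : v ∈ U := hv
        have e1 := Nat.div_mul_cancel (h1 _ hm u hu' (hle u hu'))
        have e2 := Nat.div_mul_cancel (h1 _ hm v hv' (hle v hv'))
        have e3 : (u - U.min' hne) / q = (v - U.min' hne) / q := huv
        rw [e3, e2] at e1
        have := hle u hu'
        have := hle v hv'
        omega
    rw [Finset.card_range] at h3
    have h4 : (U.card : ℝ) ≤ (⌊L / q⌋₊ : ℝ) + 1 := by exact_mod_cast h3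
    have h5 := Nat.floor_le (show (0 : ℝ) ≤ L / q by positivity)
    linarith

/-- Average of a greatest common divisor. -/
theorem gcd_avg (N K : ℕ) (hN : 1 ≤ N) : ∑ W ∈ Ioc 0 K, Nat.gcd (6 * W) N ≤
    6 * (N.divisors.card * K) := by
  have h1 : ∀ W, Nat.gcd (6 * W) N ≤ 6 * Nat.gcd N W := by
    intro W
    rw [Nat.gcd_comm]
    have h2 := Nat.gcd_mul_right_dvd_mul_gcd N 6 W
    have h3 : Nat.gcd N 6 * Nat.gcd N W ≤ 6 * Nat.gcd N W :=
      Nat.mul_le_mul_right _ (Nat.gcd_le_right _ (by norm_num))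
    have h4 : 0 < Nat.gcd N 6 * Nat.gcd N W :=
      Nat.mul_pos (Nat.gcd_pos_of_pos_left _ hN) (Nat.gcd_pos_of_pos_left _ hN)
    exact (Nat.le_of_dvd h4 h2).trans h3
  have h5 : ∀ W ∈ Ioc 0 K, Nat.gcd N W ≤ ∑ δ ∈ N.divisors, if δ ∣ W then δ else 0 := by
    intro W _
    have h6 : Nat.gcd N W ∈ N.divisors :=
      Nat.mem_divisors.2 ⟨Nat.gcd_dvd_left _ _, by omega⟩
    have h7 := Finset.single_le_sum (f := fun δ => if δ ∣ W then δ else 0)
      (fun _ _ => Nat.zero_le _) h6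
    simp only [Nat.gcd_dvd_right, if_true] at h7
    exact h7
  calc ∑ W ∈ Ioc 0 K, Nat.gcd (6 * W) N ≤ ∑ W ∈ Ioc 0 K, 6 * Nat.gcd N W :=
        Finset.sum_le_sum fun W _ => h1 W
    _ = 6 * ∑ W ∈ Ioc 0 K, Nat.gcd N W := by rw [Finset.mul_sum]
    _ ≤ 6 * ∑ W ∈ Ioc 0 K, ∑ δ ∈ N.divisors, (if δ ∣ W then δ else 0) :=
        Nat.mul_le_mul_left _ (Finset.sum_le_sum h5)
    _ = 6 * ∑ δ ∈ N.divisors, ∑ W ∈ Ioc 0 K, (if δ ∣ W then δ else 0) := by
        rw [Finset.sum_comm]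
    _ ≤ 6 * ∑ δ ∈ N.divisors, K := by
        refine Nat.mul_le_mul_left _ (Finset.sum_le_sum fun δ _ => ?_)
        rw [← Finset.sum_filter, Finset.sum_const, Nat.Ioc_filter_dvd_card_eq_div, smul_eq_mul]
        exact Nat.div_mul_le_self K δ
    _ = 6 * (N.divisors.card * K) := by rw [Finset.sum_const, smul_eq_mul]

end CntAux

open CntAux

theorem cnt (hl : LAM_stmt) (hl2 : LAM2_stmt) : CNT_stmt := by
  intro a b P B τ R M ha haB hb hbB hPB hR hM hτ S hS
  obtain ⟨N, hN⟩ : ∃ N, N = 9 * b * (a + b) := ⟨_, rfl⟩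
  have hNpos : 1 ≤ N := by
    rw [hN]
    have : 1 ≤ b * (a + b) := Nat.one_le_iff_ne_zero.2 (by positivity)
    nlinarith
  obtain ⟨ka, hka⟩ : ∃ ka : ℝ, ka = (a : ℝ) ^ 2 + a * b + b ^ 2 := ⟨_, rfl⟩
  have ha' : (1 : ℝ) ≤ a := by exact_mod_cast ha
  have hb' : (1 : ℝ) ≤ b := by exact_mod_cast hb
  have haB' : (a : ℝ) ≤ B := by exact_mod_cast haB
  have hbB' : (b : ℝ) ≤ B := by exact_mod_cast hbB
  have hPB' : 100 * (B : ℝ) ≤ P := by exact_mod_cast hPB
  have hkapos : 0 < ka := by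
    rw [hka]
    positivity
  have hP0 : (0 : ℝ) < P := by linarith
  have hN0 : (0 : ℝ) < N := by exact_mod_cast hNpos
  have hNcast : 9 * (b : ℝ) * (a + b) = N := by
    rw [hN]
    push_cast
    ring
  rw [← hN] at hτ
  rw [hNcast, ← hka]
  -- the facts on one element
  have hs : ∀ t ∈ S, (P : ℝ) ≤ (t.1 : ℝ) + a ∧ (t.1 : ℝ) + a ≤ 2 * P := by
    intro t ht
    have h1 := (hS t ht).hu
    have h2 := (hS t ht).hu'
    have h1' : (P : ℝ) ≤ (t.1 : ℝ) := by exact_mod_cast h1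
    have h2' : (t.1 : ℝ) + a < 2 * P := by exact_mod_cast h2
    exact ⟨by linarith, h2'.le⟩
  have hlam : ∀ t ∈ S, 0 < lam a b (t.1 + a) ∧ lam a b (t.1 + a) ≤ ka / P := by
    intro t ht
    obtain ⟨h1, h2⟩ := hs t ht
    refine ⟨(hl a b _ P B ha' haB' hb' hbB' hPB' h1 h2).1, ?_⟩
    rw [hka]
    exact (hl2 a b _ _ P B ha' haB' hb' hbB' hPB' h1 h2 h1 h2).1
  -- one value of `W` and one of `f`
  have hfib : ∀ (W : ℕ) (f : ℤ) (L : ℝ), 0 ≤ L → (∀ t ∈ S, ∀ t' ∈ S, t.2 = ((W : ℤ), f) →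
      t'.2 = ((W : ℤ), f) → t.1 ≤ t'.1 → ((t'.1 - t.1 : ℕ) : ℝ) ≤ L) →
      ((S.filter fun t => t.2 = ((W : ℤ), f)).card : ℝ) ≤
        L * (Nat.gcd (6 * W) N : ℝ) / N + 1 := by
    intro W f L hL0 hL
    obtain ⟨w', N', hco, e1, e2⟩ := Nat.exists_coprime (6 * W) N
    have hg0 : 0 < Nat.gcd (6 * W) N := Nat.gcd_pos_of_pos_right _ hNpos
    have hg0' : (0 : ℝ) < (Nat.gcd (6 * W) N : ℝ) := by exact_mod_cast hg0
    have hN'0 : (0 : ℝ) < N' := by
      have : N' ≠ 0 := by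
        rintro rfl
        omega
      exact_mod_cast Nat.pos_of_ne_zero this
    have hinj : Set.InjOn (fun t : ℕ × ℤ × ℤ => t.1)
        (S.filter fun t => t.2 = ((W : ℤ), f) : Finset (ℕ × ℤ × ℤ)) := by
      intro t ht t' ht' e
      have h1 := (Finset.mem_filter.1 (Finset.mem_coe.1 ht)).2
      have h2 := (Finset.mem_filter.1 (Finset.mem_coe.1 ht')).2
      exact Prod.ext e (h1.trans h2.symm)
    rw [← Finset.card_image_of_injOn hinj]
    have h3 := ap_card (Finset.image (fun t : ℕ × ℤ × ℤ => t.1)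
      (S.filter fun t => t.2 = ((W : ℤ), f))) N' L hL0 ?_ ?_
    · refine h3.trans (le_of_eq ?_)
      congr 1
      rw [div_eq_div_iff hN'0.ne' hN0.ne']
      have e3 : (N : ℝ) = N' * (Nat.gcd (6 * W) N : ℝ) := by exact_mod_cast e2
      rw [mul_assoc, mul_comm (Nat.gcd (6 * W) N : ℝ) (N' : ℝ), ← e3]
    · intro u hu v hv huv
      obtain ⟨t, ht, rfl⟩ := Finset.mem_image.1 hu
      obtain ⟨t', ht', rfl⟩ := Finset.mem_image.1 hv
      obtain ⟨h4, h5⟩ := Finset.mem_filter.1 ht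
      obtain ⟨h6, h7⟩ := Finset.mem_filter.1 ht'
      have h8 := (hS t h4).hd
      have h9 := (hS t' h6).hd
      rw [← hN] at h8 h9
      rw [h5] at h8
      rw [h7] at h9
      have h10 : (N : ℤ) ∣ (6 * W : ℕ) * ((t'.1 - t.1 : ℕ) : ℤ) := by
        have h11 := dvd_sub h9 h8
        have e3 : ((W : ℤ) * (qq a b t'.1 : ℤ) - f) - ((W : ℤ) * (qq a b t.1 : ℤ) - f) =
            (6 * W : ℕ) * ((t'.1 - t.1 : ℕ) : ℤ) := by
          rw [Nat.cast_sub huv]
          unfold qq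
          push_cast
          ring
        rw [← e3]
        exact h11
      have h11 : N ∣ (6 * W) * (t'.1 - t.1) := by exact_mod_cast h10
      have h12 : N' ∣ w' * (t'.1 - t.1) := by
        generalize Nat.gcd (6 * W) N = g at e1 e2 hg0
        rw [e1, e2] at h11
        rw [mul_comm N' g, mul_comm w' g, mul_assoc] at h11
        exact Nat.dvd_of_mul_dvd_mul_left hg0 h11
      exact hco.symm.dvd_of_dvd_mul_left h12
    · intro u hu v hv huv
      obtain ⟨t, ht, rfl⟩ := Finset.mem_image.1 hu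
      obtain ⟨t', ht', rfl⟩ := Finset.mem_image.1 hv
      obtain ⟨h4, h5⟩ := Finset.mem_filter.1 ht
      obtain ⟨h6, h7⟩ := Finset.mem_filter.1 ht'
      exact hL t h4 t' h6 h5 h7 huv
  -- both bounds for the lengths
  have hL1 : ∀ t ∈ S, ∀ t' ∈ S, ((t'.1 - t.1 : ℕ) : ℝ) ≤ P := by
    intro t ht t' ht'
    have h1 := (hS t ht).hu
    have h2 := (hS t' ht').hu'
    have h3 : t'.1 - t.1 ≤ P := by omega
    exact_mod_cast h3
  have hL2 : ∀ (W : ℕ) (f : ℤ), 1 ≤ W → ∀ t ∈ S, ∀ t' ∈ S, t.2 = ((W : ℤ), f) →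
      t'.2 = ((W : ℤ), f) → t.1 ≤ t'.1 →
      ((t'.1 - t.1 : ℕ) : ℝ) ≤ 20 * R * P ^ 2 / (ka * W) := by
    intro W f hW t ht t' ht' h1 h2 hle
    have hW0 : (0 : ℝ) < W := by exact_mod_cast hW
    have h3 := (hS t ht).hf
    have h4 := (hS t' ht').hf
    rw [h1] at h3
    rw [h2] at h4
    obtain ⟨g1, g2⟩ := hs t ht
    obtain ⟨g3, g4⟩ := hs t' ht'
    have h5 := (hl2 a b _ _ P B ha' haB' hb' hbB' hPB' g3 g4 g1 g2).2
    rw [← hka] at h5
    have h6 : |(t'.1 : ℝ) + a - (t.1 + a)| = ((t'.1 - t.1 : ℕ) : ℝ) := by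
      have h6a : (t.1 : ℝ) ≤ t'.1 := by exact_mod_cast hle
      rw [Nat.cast_sub hle, add_sub_add_right_eq_sub, abs_of_nonneg (by linarith)]
    rw [h6] at h5
    have h7 : |lam a b (t'.1 + a) - lam a b (t.1 + a)| * W ≤ 2 * R := by
      have h8 : (lam a b (t'.1 + a) - lam a b (t.1 + a)) * W =
          ((f : ℝ) + lam a b (t'.1 + a) * ((W : ℤ) : ℝ)) -
            ((f : ℝ) + lam a b (t.1 + a) * ((W : ℤ) : ℝ)) := by
        push_cast
        ring
      have h9 : |lam a b (t'.1 + a) - lam a b (t.1 + a)| * W =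
          |(lam a b (t'.1 + a) - lam a b (t.1 + a)) * W| := by
        rw [abs_mul, abs_of_pos hW0]
      rw [h9, h8]
      have h10 := abs_sub ((f : ℝ) + lam a b (t'.1 + a) * ((W : ℤ) : ℝ))
            ((f : ℝ) + lam a b (t.1 + a) * ((W : ℤ) : ℝ))
      have h11 : |(f : ℝ) + lam a b (t.1 + a) * ((W : ℤ) : ℝ)| ≤ R := h3
      have h12 : |(f : ℝ) + lam a b (t'.1 + a) * ((W : ℤ) : ℝ)| ≤ R := h4
      linarith
    rw [le_div_iff₀ (by positivity)]
    have h8 := mul_le_mul_of_nonneg_right h5 hW0.le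
    have h9 := h8.trans h7
    rw [div_mul_eq_mul_div, div_le_iff₀ (by positivity)] at h9
    nlinarith
  -- one value of `W`
  have hrow : ∀ W : ℕ, 1 ≤ W → ((S.filter fun t => t.2.1 = (W : ℤ)).card : ℝ) ≤
      23 * R * P * (Nat.gcd (6 * W) N : ℝ) / N + ka * W / P + 3 * R := by
    intro W hW
    have hW0 : (0 : ℝ) < W := by exact_mod_cast hW
    have hg0' : (0 : ℝ) ≤ (Nat.gcd (6 * W) N : ℝ) := Nat.cast_nonneg _
    obtain ⟨g, hg⟩ : ∃ g : ℝ, g = (Nat.gcd (6 * W) N : ℝ) / N := ⟨_, rfl⟩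
    have hgnn : 0 ≤ g := by
      rw [hg]
      positivity
    obtain ⟨X, hX⟩ : ∃ X : ℝ, X = min (P : ℝ) (20 * R * P ^ 2 / (ka * W)) := ⟨_, rfl⟩
    have hXnn : 0 ≤ X := by
      rw [hX]
      exact le_min hP0.le (by positivity)
    obtain ⟨F, hF⟩ : ∃ F : Finset ℤ, F = Finset.Icc ⌈-(ka * W / P) - R⌉ ⌊R⌋ := ⟨_, rfl⟩
    have hmaps : Set.MapsTo (fun t : ℕ × ℤ × ℤ => t.2.2)
        (S.filter fun t => t.2.1 = (W : ℤ) : Finset (ℕ × ℤ × ℤ)) (F : Set ℤ) := by
      intro t ht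
      obtain ⟨h1, h2⟩ := Finset.mem_filter.1 (Finset.mem_coe.1 ht)
      have h3 := (hS t h1).hf
      rw [h2] at h3
      obtain ⟨h4, h5⟩ := hlam t h1
      have h6 : lam a b (t.1 + a) * ((W : ℤ) : ℝ) ≤ ka * W / P := by
        have := mul_le_mul_of_nonneg_right h5 hW0.le
        rw [div_mul_eq_mul_div] at this
        push_cast
        exact this
      have h7 : 0 ≤ lam a b (t.1 + a) * ((W : ℤ) : ℝ) := by
        push_cast
        positivity
      obtain ⟨h8, h9⟩ := abs_le.1 h3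
      rw [hF]
      refine Finset.mem_coe.2 (Finset.mem_Icc.2 ⟨Int.ceil_le.2 ?_, Int.le_floor.2 ?_⟩)
      · linarith
      · linarith
    have hFc : (F.card : ℝ) ≤ ka * W / P + 2 * R + 1 := by
      rw [hF, Int.card_Icc]
      have h1 : (⌊R⌋ : ℝ) ≤ R := Int.floor_le R
      have h2 : -(ka * W / P) - R ≤ (⌈-(ka * W / P) - R⌉ : ℝ) := Int.le_ceil _
      rcases le_total 0 (⌊R⌋ + 1 - ⌈-(ka * W / P) - R⌉) with h3 | h3
      · have h4 : (((⌊R⌋ + 1 - ⌈-(ka * W / P) - R⌉).toNat : ℕ) : ℝ) =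
            (⌊R⌋ : ℝ) + 1 - (⌈-(ka * W / P) - R⌉ : ℝ) := by
          have h5 : (((⌊R⌋ + 1 - ⌈-(ka * W / P) - R⌉).toNat : ℕ) : ℤ) =
            ⌊R⌋ + 1 - ⌈-(ka * W / P) - R⌉ := Int.toNat_of_nonneg h3
          exact_mod_cast h5
        rw [h4]
        linarith
      · rw [Int.toNat_of_nonpos h3]
        have : 0 ≤ ka * W / P := by positivity
        push_cast
        linarith
    rw [Finset.card_eq_sum_card_fiberwise hmaps]
    push_cast
    have h1 : ∀ f ∈ F, (((S.filter fun t => t.2.1 = (W : ℤ)).filter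
        fun t => t.2.2 = f).card : ℝ) ≤ X * g + 1 := by
      intro f _
      have e1 : ((S.filter fun t => t.2.1 = (W : ℤ)).filter fun t => t.2.2 = f) =
          S.filter fun t => t.2 = ((W : ℤ), f) := by
        ext t
        simp only [Finset.mem_filter, Prod.ext_iff]
        tauto
      rw [e1]
      have h2 := hfib W f P hP0.le fun t ht t' ht' _ _ _ => hL1 t ht t' ht'
      have h3 := hfib W f (20 * R * P ^ 2 / (ka * W)) (by positivity) (hL2 W f hW)
      rw [mul_div_assoc, ← hg] at h2 h3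
      rcases min_choice (P : ℝ) (20 * R * P ^ 2 / (ka * W)) with h4 | h4
      · rw [hX, h4]
        exact h2
      · rw [hX, h4]
        exact h3
    have h2 := Finset.sum_le_sum h1
    rw [Finset.sum_const, nsmul_eq_mul] at h2
    refine h2.trans ?_
    have h3 : (F.card : ℝ) * (X * g + 1) ≤ (ka * W / P + 2 * R + 1) * (X * g + 1) :=
      mul_le_mul_of_nonneg_right hFc (by positivity)
    refine h3.trans ?_
    have h4 : X * g ≤ P * g := mul_le_mul_of_nonneg_right (by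
      rw [hX]
      exact min_le_left _ _) hgnn
    have h5 : ka * W / P * (X * g) ≤ 20 * R * P * g := by
      have h6 : X * g ≤ 20 * R * P ^ 2 / (ka * W) * g := mul_le_mul_of_nonneg_right (by
        rw [hX]
        exact min_le_right _ _) hgnn
      have h7 : ka * W / P * (X * g) ≤ ka * W / P * (20 * R * P ^ 2 / (ka * W) * g) :=
        mul_le_mul_of_nonneg_left h6 (by positivity)
      refine h7.trans (le_of_eq ?_)
      field_simp
    have h6 : (2 * R + 1) * (X * g) ≤ 3 * R * (P * g) := by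
      have h7 : (2 * R + 1) * (X * g) ≤ (3 * R) * (X * g) :=
        mul_le_mul_of_nonneg_right (by linarith) (by positivity)
      have h8 : 3 * R * (X * g) ≤ 3 * R * (P * g) :=
        mul_le_mul_of_nonneg_left h4 (by linarith)
      linarith
    have e1 : 23 * R * P * (Nat.gcd (6 * W) N : ℝ) / N = 23 * R * P * g := by
      rw [hg]
      ring
    rw [e1]
    nlinarith
  -- sum over `W`
  have hmaps : Set.MapsTo (fun t : ℕ × ℤ × ℤ => t.2.1.toNat) (S : Set (ℕ × ℤ × ℤ))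
      (Ioc 0 ⌊M⌋₊ : Finset ℕ) := by
    intro t ht
    have h1 := (hS t ht).hW
    have h2 := (hS t ht).hW'
    refine Finset.mem_coe.2 (Finset.mem_Ioc.2 ⟨show 0 < t.2.1.toNat by omega, Nat.le_floor ?_⟩)
    have h3 : ((t.2.1.toNat : ℕ) : ℤ) = t.2.1 := Int.toNat_of_nonneg (by omega)
    have h4 : ((t.2.1.toNat : ℕ) : ℝ) = (t.2.1 : ℝ) := by exact_mod_cast h3
    rw [h4]
    exact h2
  rw [Finset.card_eq_sum_card_fiberwise hmaps]
  push_cast
  have h1 : ∀ W ∈ Ioc 0 ⌊M⌋₊, ((S.filter fun t => t.2.1.toNat = W).card : ℝ) ≤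
      23 * R * P / N * (Nat.gcd (6 * W) N : ℝ) + ka / P * M + 3 * R := by
    intro W hW
    obtain ⟨hW1, hW2⟩ := Finset.mem_Ioc.1 hW
    have hW0 : (0 : ℝ) < W := by exact_mod_cast hW1
    have hWM : (W : ℝ) ≤ M := (Nat.cast_le.2 hW2).trans (Nat.floor_le hM)
    have e1 : (S.filter fun t => t.2.1.toNat = W) = S.filter fun t => t.2.1 = (W : ℤ) := by
      refine Finset.filter_congr fun t ht => ?_
      have := (hS t ht).hW
      omega
    rw [e1]
    have h2 := hrow W hW1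
    have e2 : 23 * R * P * (Nat.gcd (6 * W) N : ℝ) / N =
        23 * R * P / N * (Nat.gcd (6 * W) N : ℝ) := by ring
    have h3 : ka * W / P ≤ ka / P * M := by
      rw [mul_div_right_comm]
      exact mul_le_mul_of_nonneg_left hWM (by positivity)
    rw [e2] at h2
    linarith
  have h2 := Finset.sum_le_sum h1
  refine h2.trans ?_
  rw [Finset.sum_add_distrib, Finset.sum_add_distrib, ← Finset.mul_sum, Finset.sum_const,
    Finset.sum_const, Nat.card_Ioc, nsmul_eq_mul, nsmul_eq_mul, Nat.sub_zero]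
  have hfl := Nat.floor_le hM
  have hgs : (∑ W ∈ Ioc 0 ⌊M⌋₊, (Nat.gcd (6 * W) N : ℝ)) ≤ 6 * (τ * M) := by
    have h3 := gcd_avg N ⌊M⌋₊ hNpos
    have h4 : (∑ W ∈ Ioc 0 ⌊M⌋₊, (Nat.gcd (6 * W) N : ℝ)) ≤
        6 * ((N.divisors.card : ℝ) * (⌊M⌋₊ : ℝ)) := by exact_mod_cast h3
    have h5 : (N.divisors.card : ℝ) ≤ τ := by exact_mod_cast hτ
    have h6 : (N.divisors.card : ℝ) * (⌊M⌋₊ : ℝ) ≤ τ * M :=
      mul_le_mul h5 hfl (Nat.cast_nonneg _) (Nat.cast_nonneg _)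
    linarith
  have h3 : 23 * R * P / N * (∑ W ∈ Ioc 0 ⌊M⌋₊, (Nat.gcd (6 * W) N : ℝ)) ≤
      23 * R * P / N * (6 * (τ * M)) := mul_le_mul_of_nonneg_left hgs (by positivity)
  have h4 : (⌊M⌋₊ : ℝ) * (ka / P * M) ≤ M * (ka / P * M) :=
    mul_le_mul_of_nonneg_right hfl (by positivity)
  have h5 : (⌊M⌋₊ : ℝ) * (3 * R) ≤ M * (3 * R) := mul_le_mul_of_nonneg_right hfl (by positivity)
  have e1 : 138 * R * τ * P * M / N = 23 * R * P / N * (6 * (τ * M)) := by ring
  have e2 : ka * M ^ 2 / P = M * (ka / P * M) := by ring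
  rw [e1, e2]
  linarith

end Pool.Agent.SQG
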