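import Mathlib
import Pool.Agent.Lib.SQG.Defs2

/-!
# Gaps between squarefree numbers: longest gaps and moments, statements of the rows

FT rows: every interval `(n, n + n ^ (1 / 5 + ε)]`, `n` large, contains a squarefree number.
MOM rows: the moments of the gaps of every order below `4`.
-/

set_option autoImplicit false

namespace Pool.Agent.SQG

open Finset Filter Pool.Agent.Lib.MP_8739b7_nt
open scoped Topology

/-- Window and range for the rows FTA, FTB, FTC, FTD. -/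
structure Rng (N Y h P B : ℕ) : Prop where
  hP : 1 ≤ P
  hh : 1 ≤ h
  hhY : h ≤ Y
  hN : Y ≤ N
  hN' : N < 2 * Y
  hB : 12 * B ≤ P
  h1 : 8 * P ^ 2 * h ≤ Y
  h2 : 256 * h * P ≤ Y
  hP2 : h ≤ P ^ 2

/-- FTA: two pairs with the same `a` and the same `v` in one window are close. -/
def FTA_stmt : Prop := ∀ (N Y h P B : ℕ) (t s : Q2), Rng N Y h P B → IsPairAt N h P B t →
  IsPairAt N h P B s → t.a = s.a → vv t = vv s → t.u ≤ s.u →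
  (t.a : ℝ) ^ 3 * Y * ((s.u : ℝ) - t.u) ≤ 512 * h * P ^ 4

/-- FTB: three pairs with the same `a` and the same `v` in one window are not close. -/
def FTB_stmt : Prop := ∀ (N Y h P B : ℕ) (t1 t2 t3 : Q2), Rng N Y h P B →
  IsPairAt N h P B t1 → IsPairAt N h P B t2 → IsPairAt N h P B t3 → t1.a = t2.a → t2.a = t3.a →
  vv t1 = vv t2 → vv t2 = vv t3 → t1.u < t2.u → t2.u < t3.u →
  (P : ℝ) ^ 5 ≤ 23 * t1.a * Y * ((t3.u : ℝ) - t1.u) ^ 3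

/-- FTC: number of pairs with given `a`, `v` in one window (from FTA, FTB). -/
def FTC_stmt : Prop := ∀ (N Y h P B : ℕ) (l : ℝ), Rng N Y h P B → 0 < l →
  23 * B * Y * l ^ 3 ≤ P ^ 5 → ∀ (a : ℕ) (v : ℤ) (T : Finset Q2), 1 ≤ a →
  (∀ t ∈ T, IsPairAt N h P B t ∧ t.a = a ∧ vv t = v) →
  (T.card : ℝ) ≤ 2 * (512 * h * P ^ 4 / ((a : ℝ) ^ 3 * Y * l) + 1)

/-- FTD: number of pairs with `v ≠ 0` in one window (from FTC; the size of `v` is `Pr.vv_le` in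
`PAIR.lean`). -/
def FTD_stmt : Prop := ∀ (N Y h P B : ℕ) (l : ℝ), Rng N Y h P B → 1 ≤ B →
  331776 * h ^ 4 ≤ Y → 0 < l → 23 * B * Y * l ^ 3 ≤ P ^ 5 →
  ∀ T : Finset Q2, (∀ t ∈ T, IsPairAt N h P B t ∧ vv t ≠ 0) →
  (T.card : ℝ) ≤ 12 * h * B / P + 12 * B ^ 4 * Y / P ^ 4 + 12288 * h * B / l

/-- FTZ: `v = 0` forces `a` to be small; `v ≠ 0` is impossible for large `P`. -/
def FTZ_stmt : Prop := ∀ (N Y h P B : ℕ) (t : Q2), 1 ≤ P → 1 ≤ h → h ≤ Y → Y ≤ N → N < 2 * Y →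
  B ≤ P → IsPairAt N h P B t →
  (vv t = 0 → t.a ^ 3 * Y < 24 * h * P ^ 3) ∧ (12 * h ≤ P → 6 * B ^ 3 * Y ≤ P ^ 4 → vv t = 0)

/-- FTE: many primes in `[2 ^ i, 2 ^ (i + 1))` give many pairs whose `a` is a multiple of `M`
(from GAP). -/
def FTE_stmt : Prop := ∀ (N Y h i B M : ℕ) (L : ℝ), 1 ≤ L → 1 ≤ M → Even M → 48 * L * M ≤ h →
  h ≤ Y → h < 8 * 2 ^ i → 24 * L * M * 2 ^ i ≤ B * h → B < 2 ^ i → 1 ≤ B → Y ≤ N → N < 2 * Y →
  (h : ℝ) / (4 * L) ≤ ((SD h N i).card : ℝ) →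
  ∃ T : Finset Q2, (∀ t ∈ T, IsPairAt N h (2 ^ i) B t ∧ M ≤ t.a) ∧
    (h : ℝ) / (12 * L * M) ≤ (T.card : ℝ)

/-- FT: the longest gaps (from FTD, FTE, FTZ, VZB). -/
def FT_stmt : Prop := ∀ ε : ℝ, 0 < ε → ∃ N0 : ℕ, ∀ n : ℕ, N0 ≤ n →
  ∃ m : ℕ, n < m ∧ (m : ℝ) ≤ n + (n : ℝ) ^ (1 / 5 + ε) ∧ Squarefree m

/-! ### Moments -/

/-- The distance from `s` to the next squarefree number. -/
noncomputable def gap (s : ℕ) : ℕ := sInf {k : ℕ | 1 ≤ k ∧ Squarefree (s + k)}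

open Classical in
/-- The squarefree `s ≤ X`. -/
noncomputable def SqF (X : ℕ) : Finset ℕ := (Icc 1 X).filter fun s => Squarefree s

open Classical in
/-- The `n ≤ X` with no squarefree number in `(n, n + h]`. -/
noncomputable def Win (X h : ℕ) : Finset ℕ :=
  (Icc 1 X).filter fun n => ∀ m : ℕ, n < m → m ≤ n + h → ¬ Squarefree m

/-- DEN: each gap length has a density. -/
def DEN_stmt : Prop := ∀ g : ℕ, ∃ d : ℝ, 0 ≤ d ∧
  Tendsto (fun X : ℕ => (((SqF X).filter fun s => gap s = g).card : ℝ) / X) atTop (𝓝 d)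

/-- SMW: short windows without squarefree numbers, without loss. -/
def SMW_stmt : Prop := ∃ C : ℝ, 0 < C ∧ ∀ X h : ℕ, 1 ≤ h → h ^ 50 ≤ X →
  ((Win X h).card : ℝ) ≤ C * X / (h : ℝ) ^ 5

/-- SMT: the gaps between `G` and a small power of `X` (from SMW). -/
def SMT_stmt : Prop := ∀ γ : ℝ, 0 ≤ γ → γ < 4 → ∃ δ : ℝ, 0 < δ ∧ ∃ C : ℝ, 0 < C ∧
  ∀ X G : ℕ, 1 ≤ X → 1 ≤ G →
  ∑ s ∈ (SqF X).filter (fun s => G < gap s ∧ (gap s : ℝ) ≤ (X : ℝ) ^ δ), (gap s : ℝ) ^ γ ≤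
    C * X / G

/-- MID: the long gaps (from FINB, FT). -/
def MID_stmt : Prop := ∀ γ : ℝ, 0 ≤ γ → γ < 4 → ∀ δ : ℝ, 0 < δ →
  Tendsto (fun X : ℕ => (∑ s ∈ (SqF X).filter (fun s => (X : ℝ) ^ δ < gap s),
    (gap s : ℝ) ^ γ) / X) atTop (𝓝 0)

/-- MOM: all moments of order below `4` (from DEN, SMT, MID). -/
def MOM_stmt : Prop := ∀ γ : ℝ, 0 ≤ γ → γ < 4 → ∃ b : ℝ, 0 < b ∧
  Tendsto (fun X : ℕ => (∑ s ∈ SqF X, (gap s : ℝ) ^ γ) / X) atTop (𝓝 b)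

end Pool.Agent.SQG
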