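import Mathlib
import Pool.Agent.Lib.SQG.Defs3

/-!
# Row DEN: each gap length between squarefree numbers has a density
-/

set_option autoImplicit false

namespace Pool.Agent.SQG.Den

open Finset Filter Pool.Agent.Lib.MP_8739b7_nt
open scoped Topology Nat

/-- The pattern: `s` and `s + g` in `S`, nothing in between. -/
def Ev (S : ℕ → Prop) (g s : ℕ) : Prop := S s ∧ S (s + g) ∧ ∀ j, 1 ≤ j → j < g → ¬ S (s + j)

/-- Not divisible by a square `k ^ 2` with `2 ≤ k ≤ y`. -/
def Sy (y n : ℕ) : Prop := ∀ k, 2 ≤ k → k ≤ y → ¬ k * k ∣ n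

open Classical in
/-- The `n ≤ Z` divisible by a square `k ^ 2` with `k > y`. -/
noncomputable def E (y Z : ℕ) : Finset ℕ :=
  (Icc 1 Z).filter fun n => ∃ k, y < k ∧ k * k ∣ n

theorem sy_periodic (y : ℕ) : Function.Periodic (Sy y) (y ! * y !) := by
  intro n
  unfold Sy
  apply propext
  have key : ∀ k, 2 ≤ k → k ≤ y → (k * k ∣ n + y ! * y ! ↔ k * k ∣ n) := by
    intro k h2 hk
    have h : k ∣ y ! := Nat.dvd_factorial (by omega) hk
    exact (Nat.dvd_add_left (Nat.mul_dvd_mul h h))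
  constructor
  · intro h k h2 hk hd
    exact h k h2 hk ((key k h2 hk).2 hd)
  · intro h k h2 hk hd
    exact h k h2 hk ((key k h2 hk).1 hd)

theorem ev_periodic (y g : ℕ) : Function.Periodic (Ev (Sy y) g) (y ! * y !) := by
  intro n
  have h := sy_periodic y
  have e : ∀ j, Sy y (n + y ! * y ! + j) = Sy y (n + j) := by
    intro j
    have := h (n + j)
    rw [← this]
    congr 1
    ring
  unfold Ev
  rw [h n, e g]
  simp only [e]

theorem card_E (y Z : ℕ) (hy : 1 ≤ y) : ((E y Z).card : ℝ) ≤ Z / y := by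
  classical
  have h1 : E y Z ⊆ (Ioc y Z).biUnion fun k => (Ioc 0 Z).filter fun n => k * k ∣ n := by
    intro n hn
    unfold E at hn
    simp only [mem_filter, mem_Icc] at hn
    obtain ⟨⟨h1, h2⟩, k, hk, hd⟩ := hn
    simp only [mem_biUnion, mem_Ioc, mem_filter]
    refine ⟨k, ⟨hk, ?_⟩, ⟨by omega, h2⟩, hd⟩
    have := Nat.le_of_dvd (by omega) hd
    nlinarith
  have h2 : ((E y Z).card : ℝ) ≤ ∑ k ∈ Ioc y Z, ((Z : ℝ) * ((k : ℝ) ^ 2)⁻¹) := by
    calc ((E y Z).card : ℝ) ≤ (((Ioc y Z).biUnion fun k =>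
          (Ioc 0 Z).filter fun n => k * k ∣ n).card : ℝ) := by
          exact_mod_cast card_le_card h1
      _ ≤ ((∑ k ∈ Ioc y Z, ((Ioc 0 Z).filter fun n => k * k ∣ n).card : ℕ) : ℝ) := by
          exact_mod_cast card_biUnion_le
      _ = ∑ k ∈ Ioc y Z, ((Z / (k * k) : ℕ) : ℝ) := by
          push_cast
          refine sum_congr rfl fun k _ => ?_
          have := Nat.Ioc_filter_dvd_card_eq_div Z (k * k)
          exact_mod_cast congrArg (fun m : ℕ => (m : ℝ)) this
      _ ≤ ∑ k ∈ Ioc y Z, ((Z : ℝ) * ((k : ℝ) ^ 2)⁻¹) := by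
          refine sum_le_sum fun k _ => ?_
          have : ((Z / (k * k) : ℕ) : ℝ) ≤ (Z : ℝ) / ((k * k : ℕ) : ℝ) := Nat.cast_div_le
          refine this.trans (le_of_eq ?_)
          push_cast
          rw [div_eq_mul_inv, pow_two]
  rw [← mul_sum] at h2
  by_cases hyZ : y ≤ Z
  · have h3 : ∑ k ∈ Ioc y Z, ((k : ℝ) ^ 2)⁻¹ ≤ (y : ℝ)⁻¹ - (Z : ℝ)⁻¹ :=
      sum_Ioc_inv_sq_le_sub (by omega) hyZ
    have h4 : (0 : ℝ) ≤ (Z : ℝ)⁻¹ := by positivity
    calc ((E y Z).card : ℝ) ≤ (Z : ℝ) * ∑ k ∈ Ioc y Z, ((k : ℝ) ^ 2)⁻¹ := h2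
      _ ≤ (Z : ℝ) * (y : ℝ)⁻¹ := by
          apply mul_le_mul_of_nonneg_left _ (by positivity)
          linarith
      _ = Z / y := by rw [div_eq_mul_inv]
  · have : Ioc y Z = ∅ := by
      rw [Ioc_eq_empty]
      omega
    rw [this, sum_empty, mul_zero] at h2
    refine h2.trans (by positivity)

theorem sq_iff {y Z n : ℕ} (h1 : 1 ≤ n) (hn : n ≤ Z) (h : n ∉ E y Z) :
    Squarefree n ↔ Sy y n := by
  constructor
  · intro hs k hk _ hd
    have := hs k hd
    rw [Nat.isUnit_iff] at this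
    omega
  · intro hs x hx
    rw [Nat.isUnit_iff]
    by_contra hne
    have h0 : x ≠ 0 := by
      rintro rfl
      simp at hx
      omega
    by_cases hxy : x ≤ y
    · exact hs x (by omega) hxy hx
    · apply h
      unfold E
      simp only [mem_filter, mem_Icc]
      exact ⟨⟨h1, hn⟩, x, by omega, hx⟩

theorem ev_iff {y X g s : ℕ} (h1 : 1 ≤ s) (hs : s ≤ X) (h : ∀ j, j ≤ g → s + j ∉ E y (X + g)) :
    Ev Squarefree g s ↔ Ev (Sy y) g s := by
  have key : ∀ j, j ≤ g → (Squarefree (s + j) ↔ Sy y (s + j)) := by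
    intro j hj
    exact sq_iff (by omega) (by omega) (h j hj)
  have k0 := key 0 (by omega)
  rw [Nat.add_zero] at k0
  unfold Ev
  rw [k0, key g le_rfl]
  constructor
  · rintro ⟨a, b, c⟩
    exact ⟨a, b, fun j hj1 hj2 hj3 => c j hj1 hj2 ((key j hj2.le).2 hj3)⟩
  · rintro ⟨a, b, c⟩
    exact ⟨a, b, fun j hj1 hj2 hj3 => c j hj1 hj2 ((key j hj2.le).1 hj3)⟩

theorem gap_eq_iff {g s : ℕ} (hg : 1 ≤ g) :
    gap s = g ↔ Squarefree (s + g) ∧ ∀ j, 1 ≤ j → j < g → ¬ Squarefree (s + j) := by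
  unfold gap
  constructor
  · intro h
    have hne : {k : ℕ | 1 ≤ k ∧ Squarefree (s + k)}.Nonempty := by
      rw [Set.nonempty_iff_ne_empty]
      intro he
      rw [he, Nat.sInf_empty] at h
      omega
    have hm := Nat.sInf_mem hne
    rw [h] at hm
    refine ⟨hm.2, fun j hj1 hj2 hj3 => ?_⟩
    rw [← h] at hj2
    exact Nat.notMem_of_lt_sInf hj2 ⟨hj1, hj3⟩
  · rintro ⟨h1, h2⟩
    have hmem : g ∈ {k : ℕ | 1 ≤ k ∧ Squarefree (s + k)} := ⟨hg, h1⟩
    have hle := Nat.sInf_le hmem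
    have hm := Nat.sInf_mem ⟨g, hmem⟩
    rcases hle.lt_or_eq with hlt | heq
    · exact absurd hm.2 (h2 _ hm.1 hlt)
    · exact heq

theorem gap_pos (s : ℕ) : 1 ≤ gap s := by
  unfold gap
  obtain ⟨p, hp, hpp⟩ := Nat.exists_infinite_primes (s + 1)
  have hne : {k : ℕ | 1 ≤ k ∧ Squarefree (s + k)}.Nonempty := by
    refine ⟨p - s, by omega, ?_⟩
    rw [show s + (p - s) = p by omega]
    exact hpp.prime.squarefree
  exact (Nat.sInf_mem hne).1

open Classical in
theorem card_bad (y X g : ℕ) (hy : 1 ≤ y) :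
    ((((Icc 1 X).filter fun s => ∃ j, j ≤ g ∧ s + j ∈ E y (X + g))).card : ℝ) ≤
      (g + 1) * ((X + g) / y) := by
  have h1 : ((Icc 1 X).filter fun s => ∃ j, j ≤ g ∧ s + j ∈ E y (X + g)) ⊆
      (range (g + 1)).biUnion fun j => (Icc 1 X).filter fun s => s + j ∈ E y (X + g) := by
    intro s hs
    simp only [mem_filter, mem_Icc] at hs
    obtain ⟨hs, j, hj, hjE⟩ := hs
    simp only [mem_biUnion, mem_range, mem_filter, mem_Icc]
    exact ⟨j, by omega, hs, hjE⟩
  have h2 : ∀ j ∈ range (g + 1), ((Icc 1 X).filter fun s => s + j ∈ E y (X + g)).card ≤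
      (E y (X + g)).card := by
    intro j _
    apply card_le_card_of_injOn (fun s => s + j)
    · intro s hs
      simp only [coe_filter, Set.mem_ofPred_eq] at hs
      exact hs.2
    · intro a _ b _ hab
      simpa using hab
  have h3 := (card_le_card h1).trans (card_biUnion_le.trans (sum_le_sum h2))
  rw [sum_const, card_range, smul_eq_mul] at h3
  have h4 := card_E y (X + g) hy
  calc ((((Icc 1 X).filter fun s => ∃ j, j ≤ g ∧ s + j ∈ E y (X + g))).card : ℝ)
      ≤ (((g + 1) * (E y (X + g)).card : ℕ) : ℝ) := by exact_mod_cast h3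
    _ = (g + 1) * ((E y (X + g)).card : ℝ) := by push_cast; ring
    _ ≤ (g + 1) * ((X + g) / y) := by
        apply mul_le_mul_of_nonneg_left _ (by positivity)
        push_cast at h4
        exact h4

theorem count_full (p : ℕ → Prop) [DecidablePred p] (a : ℕ) (pp : Function.Periodic p a) (q : ℕ) :
    ((Ico 1 (1 + q * a)).filter p).card = q * a.count p := by
  induction q with
  | zero => simp
  | succ q ih =>
    have h1 : Ico 1 (1 + (q + 1) * a) = Ico 1 (1 + q * a) ∪ Ico (1 + q * a) (1 + q * a + a) := by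
      rw [show 1 + (q + 1) * a = 1 + q * a + a by ring]
      rw [Ico_union_Ico_eq_Ico (by omega) (by omega)]
    have h2 : Disjoint ((Ico 1 (1 + q * a)).filter p)
        ((Ico (1 + q * a) (1 + q * a + a)).filter p) := by
      apply disjoint_filter_filter
      rw [Finset.disjoint_left]
      intro x hx hx2
      simp only [mem_Ico] at hx hx2
      omega
    rw [h1, filter_union, card_union_of_disjoint h2, ih,
      Nat.filter_Ico_card_eq_of_periodic (1 + q * a) a p pp]
    ring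

theorem count_bd (p : ℕ → Prop) [DecidablePred p] (a : ℕ) (ha : 0 < a)
    (pp : Function.Periodic p a) (X : ℕ) :
    |(((Icc 1 X).filter p).card : ℝ) - X * ((a.count p : ℝ) / a)| ≤ a := by
  set c := a.count p with hc
  have hca : c ≤ a := Nat.count_le p
  set q := X / a with hq
  set r := X % a with hr
  have hX : X = q * a + r := by
    have := Nat.div_add_mod X a
    rw [hq, hr]
    linarith [this, Nat.mul_comm a (X / a)]
  have hra : r < a := Nat.mod_lt _ ha
  have h1 := count_full p a pp q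
  rw [← hc] at h1
  have h2 : (Ico 1 (1 + q * a)).filter p ⊆ (Icc 1 X).filter p := by
    apply filter_subset_filter
    intro x hx
    simp only [mem_Ico, mem_Icc] at hx ⊢
    omega
  have h3 : (Icc 1 X).filter p ⊆ (Ico 1 (1 + q * a)).filter p ∪ Ico (1 + q * a) (1 + q * a + r) := by
    intro x hx
    simp only [mem_filter, mem_Icc, mem_union, mem_Ico] at hx ⊢
    by_cases hh : x < 1 + q * a
    · left
      exact ⟨⟨hx.1.1, hh⟩, hx.2⟩
    · right
      omega
  have h4 := card_le_card h2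
  have h5 := (card_le_card h3).trans (card_union_le _ _)
  rw [Nat.card_Ico, Nat.add_sub_cancel_left] at h5
  rw [h1] at h4 h5
  have h4' : (q : ℝ) * c ≤ (((Icc 1 X).filter p).card : ℝ) := by exact_mod_cast h4
  have h5' : (((Icc 1 X).filter p).card : ℝ) ≤ (q : ℝ) * c + r := by exact_mod_cast h5
  have ha' : (0 : ℝ) < a := by exact_mod_cast ha
  have h6 : (X : ℝ) * ((c : ℝ) / a) = q * c + r * ((c : ℝ) / a) := by
    have : (X : ℝ) = q * a + r := by exact_mod_cast hX
    rw [this]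
    field_simp
  have h7 : (c : ℝ) / a ≤ 1 := by
    rw [div_le_one ha']
    exact_mod_cast hca
  have h8 : (0 : ℝ) ≤ (c : ℝ) / a := by positivity
  have h9 : (r : ℝ) ≤ a := by exact_mod_cast hra.le
  have h10 : (0 : ℝ) ≤ (r : ℝ) := by positivity
  have h11 : (r : ℝ) * ((c : ℝ) / a) ≤ r := by nlinarith
  have h12 : 0 ≤ (r : ℝ) * ((c : ℝ) / a) := by positivity
  rw [h6, abs_le]
  constructor <;> linarith

open Classical in
theorem close (g y : ℕ) (hg : 1 ≤ g) (hy : 1 ≤ y) : ∃ κ : ℝ, ∀ X : ℕ, 1 ≤ X →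
    |(((SqF X).filter fun s => gap s = g).card : ℝ) / X - κ| ≤
      (g + 1) * (g + 1) / y + ((y ! * y ! : ℕ) : ℝ) / X := by
  set a := y ! * y ! with ha
  have ha0 : 0 < a := Nat.mul_pos (Nat.factorial_pos y) (Nat.factorial_pos y)
  refine ⟨((a.count (Ev (Sy y) g) : ℕ) : ℝ) / a, fun X hX => ?_⟩
  set A := (SqF X).filter fun s => gap s = g with hA
  set P := (Icc 1 X).filter (Ev (Sy y) g) with hP
  set D := (Icc 1 X).filter fun s => ∃ j, j ≤ g ∧ s + j ∈ E y (X + g) with hD
  have memA : ∀ s, s ∈ A ↔ (1 ≤ s ∧ s ≤ X) ∧ Ev Squarefree g s := by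
    intro s
    rw [hA]
    unfold SqF
    simp only [mem_filter, mem_Icc]
    rw [gap_eq_iff hg]
    unfold Ev
    tauto
  have hAP : A ⊆ P ∪ D := by
    intro s hs
    rw [memA] at hs
    simp only [hP, hD, mem_union, mem_filter, mem_Icc]
    by_cases hb : ∃ j, j ≤ g ∧ s + j ∈ E y (X + g)
    · right
      exact ⟨hs.1, hb⟩
    · left
      refine ⟨hs.1, (ev_iff hs.1.1 hs.1.2 ?_).1 hs.2⟩
      intro j hj hh
      exact hb ⟨j, hj, hh⟩
  have hPA : P ⊆ A ∪ D := by
    intro s hs
    rw [mem_union, memA]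
    simp only [hP, hD, mem_filter, mem_Icc] at hs ⊢
    by_cases hb : ∃ j, j ≤ g ∧ s + j ∈ E y (X + g)
    · right
      exact ⟨hs.1, hb⟩
    · left
      refine ⟨hs.1, (ev_iff hs.1.1 hs.1.2 ?_).2 hs.2⟩
      intro j hj hh
      exact hb ⟨j, hj, hh⟩
  have h1 : (A.card : ℝ) ≤ P.card + D.card := by
    exact_mod_cast (card_le_card hAP).trans (card_union_le _ _)
  have h2 : (P.card : ℝ) ≤ A.card + D.card := by
    exact_mod_cast (card_le_card hPA).trans (card_union_le _ _)
  have h3 : (D.card : ℝ) ≤ (g + 1) * ((X + g) / y) := card_bad y X g hy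
  have h4 := count_bd (Ev (Sy y) g) a ha0 (ev_periodic y g) X
  rw [← hP] at h4
  have hX' : (0 : ℝ) < X := by exact_mod_cast hX
  have hX1 : (1 : ℝ) ≤ X := by exact_mod_cast hX
  have hy' : (0 : ℝ) < y := by exact_mod_cast hy
  have h5 : ((g : ℝ) + 1) * ((X + g) / y) ≤ X * ((g + 1) * (g + 1) / y) := by
    have : (X : ℝ) + g ≤ X * (g + 1) := by
      have hg0 : (0 : ℝ) ≤ g := by positivity
      nlinarith
    calc ((g : ℝ) + 1) * ((X + g) / y) ≤ (g + 1) * (X * (g + 1) / y) := by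
          gcongr
      _ = X * ((g + 1) * (g + 1) / y) := by ring
  set κ : ℝ := ((a.count (Ev (Sy y) g) : ℕ) : ℝ) / a with hκ
  have h6 : |(A.card : ℝ) - X * κ| ≤ X * ((g + 1) * (g + 1) / y) + a := by
    rw [abs_le] at h4 ⊢
    constructor <;> linarith [h4.1, h4.2]
  have h7 : (A.card : ℝ) / X - κ = ((A.card : ℝ) - X * κ) / X := by
    field_simp
  rw [h7, abs_div, abs_of_pos hX', div_le_iff₀ hX']
  calc |(A.card : ℝ) - X * κ| ≤ X * ((g + 1) * (g + 1) / y) + a := h6
    _ = ((g + 1) * (g + 1) / y + (a : ℝ) / X) * X := by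
        field_simp

end Pool.Agent.SQG.Den

namespace Pool.Agent.SQG

open Finset Filter Pool.Agent.Lib.MP_8739b7_nt
open scoped Topology Nat

theorem den : DEN_stmt := by
  intro g
  rcases Nat.eq_zero_or_pos g with rfl | hg
  · refine ⟨0, le_rfl, ?_⟩
    have : (fun X : ℕ => (((SqF X).filter fun s => gap s = 0).card : ℝ) / X) = fun _ => 0 := by
      funext X
      have h : (SqF X).filter (fun s => gap s = 0) = ∅ := by
        rw [filter_eq_empty_iff]
        intro s _ h0
        have := Den.gap_pos s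
        omega
      rw [h]
      simp
    rw [this]
    exact tendsto_const_nhds
  · set f : ℕ → ℝ := fun X : ℕ => (((SqF X).filter fun s => gap s = g).card : ℝ) / X with hf
    have hc : CauchySeq f := by
      rw [Metric.cauchySeq_iff']
      intro ε hε
      obtain ⟨y, hy⟩ := exists_nat_gt (4 * ((g + 1) * (g + 1)) / ε : ℝ)
      have hy0 : (0 : ℝ) < y := lt_of_le_of_lt (by positivity) hy
      have hy1 : 1 ≤ y := by
        have : 0 < y := by exact_mod_cast hy0
        exact this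
      obtain ⟨κ, hκ⟩ := Den.close g y hg hy1
      obtain ⟨N, hN⟩ := exists_nat_gt (4 * ((y ! * y ! : ℕ) : ℝ) / ε)
      have hN0 : (0 : ℝ) < N := lt_of_le_of_lt (by positivity) hN
      have hN1 : 1 ≤ N := by
        have : 0 < N := by exact_mod_cast hN0
        exact this
      have key : ∀ X, N ≤ X → |f X - κ| < ε / 2 := by
        intro X hX
        have hX0 : (0 : ℝ) < X := by
          have : (N : ℝ) ≤ X := by exact_mod_cast hX
          linarith
        have h1 := hκ X (by omega)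
        have h2 : ((g : ℝ) + 1) * (g + 1) / y < ε / 4 := by
          rw [div_lt_iff₀ hε] at hy
          rw [div_lt_iff₀ hy0]
          linarith
        have h3 : ((y ! * y ! : ℕ) : ℝ) / X < ε / 4 := by
          rw [div_lt_iff₀ hε] at hN
          rw [div_lt_iff₀ hX0]
          have : (N : ℝ) ≤ X := by exact_mod_cast hX
          nlinarith
        calc |f X - κ| ≤ (g + 1) * (g + 1) / y + ((y ! * y ! : ℕ) : ℝ) / X := h1
          _ < ε / 2 := by linarith
      refine ⟨N, fun n hn => ?_⟩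
      rw [Real.dist_eq]
      have h1 := key n hn
      have h2 := key N le_rfl
      rw [abs_lt] at h1 h2 ⊢
      constructor <;> linarith [h1.1, h1.2, h2.1, h2.2]
    obtain ⟨d, hd⟩ := cauchySeq_tendsto_of_complete hc
    refine ⟨d, ?_, hd⟩
    exact ge_of_tendsto' hd fun X => by positivity

end Pool.Agent.SQG
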