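import Pool.Agent.Lib.SQG.Defs2

/-!
Row EST: second bound for the number of `(u, W, f)`.
-/

set_option autoImplicit false

namespace Pool.Agent.SQG

open Finset

namespace EstAux

/-- Points with large gaps in an interval. -/
theorem gap_card (U : Finset ℕ) (q : ℕ) (hq : 1 ≤ q) (L : ℝ) (hL : 0 ≤ L)
    (h1 : ∀ u ∈ U, ∀ v ∈ U, u < v → q ≤ v - u)
    (h2 : ∀ u ∈ U, ∀ v ∈ U, u ≤ v → ((v - u : ℕ) : ℝ) ≤ L) : (U.card : ℝ) ≤ L / q + 1 := by
  rcases U.eq_empty_or_nonempty with rfl | hne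
  · simp only [Finset.card_empty, Nat.cast_zero]
    positivity
  · have hm := U.min'_mem hne
    have hle : ∀ u ∈ U, U.min' hne ≤ u := fun u hu => U.min'_le u hu
    have h3 : U.card ≤ (range (⌊L / q⌋₊ + 1)).card := by
      refine Finset.card_le_card_of_injOn (fun u => (u - U.min' hne) / q) ?_ ?_
      · intro u hu
        have hu' : u ∈ U := hu
        refine Finset.mem_coe.2 (Finset.mem_range.2 (Nat.lt_succ_of_le (Nat.le_floor ?_)))
        refine Nat.cast_div_le.trans ?_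
        exact div_le_div_of_nonneg_right (h2 _ hm u hu' (hle u hu')) (Nat.cast_nonneg q)
      · intro u hu v hv huv
        have hu' : u ∈ U := hu
        have hv' : v ∈ U := hv
        have e3 : (u - U.min' hne) / q = (v - U.min' hne) / q := huv
        have g1 := hle u hu'
        have g2 := hle v hv'
        have e1 := Nat.div_add_mod (u - U.min' hne) q
        have e2 := Nat.div_add_mod (v - U.min' hne) q
        have e4 := Nat.mod_lt (u - U.min' hne) hq
        have e5 := Nat.mod_lt (v - U.min' hne) hq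
        rw [e3] at e1
        by_contra hne'
        rcases Nat.lt_or_gt_of_ne hne' with h4 | h4
        · have := h1 u hu' v hv' h4
          omega
        · have := h1 v hv' u hu' h4
          omega
    rw [Finset.card_range] at h3
    have h4 : (U.card : ℝ) ≤ (⌊L / q⌋₊ : ℝ) + 1 := by exact_mod_cast h3
    have h5 := Nat.floor_le (show (0 : ℝ) ≤ L / q by positivity)
    linarith

/-- Integers in an interval. -/
theorem int_card (F : Finset ℤ) (x R : ℝ) (hR : 1 ≤ R) (h : ∀ f ∈ F, |(f : ℝ) + x| ≤ R) :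
    (F.card : ℝ) ≤ 3 * R := by
  have h1 : F ⊆ Finset.Icc ⌈-x - R⌉ ⌊-x + R⌋ := by
    intro f hf
    obtain ⟨h2, h3⟩ := abs_le.1 (h f hf)
    exact Finset.mem_Icc.2 ⟨Int.ceil_le.2 (by linarith), Int.le_floor.2 (by linarith)⟩
  have h2 := Finset.card_le_card h1
  rw [Int.card_Icc] at h2
  have h3 : (F.card : ℝ) ≤ (((⌊-x + R⌋ + 1 - ⌈-x - R⌉).toNat : ℕ) : ℝ) := by exact_mod_cast h2
  refine h3.trans ?_
  have h4 := Int.floor_le (-x + R)
  have h5 := Int.le_ceil (-x - R)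
  rcases le_total 0 (⌊-x + R⌋ + 1 - ⌈-x - R⌉) with h6 | h6
  · have h7 : (((⌊-x + R⌋ + 1 - ⌈-x - R⌉).toNat : ℕ) : ℝ) =
        (⌊-x + R⌋ : ℝ) + 1 - (⌈-x - R⌉ : ℝ) := by
      have h8 : (((⌊-x + R⌋ + 1 - ⌈-x - R⌉).toNat : ℕ) : ℤ) =
        ⌊-x + R⌋ + 1 - ⌈-x - R⌉ := Int.toNat_of_nonneg h6
      exact_mod_cast h8
    rw [h7]
    linarith
  · rw [Int.toNat_of_nonpos h6]
    push_cast
    linarith

end EstAux

open EstAux

theorem est (hc : CNT_stmt) : EST_stmt := by
  classical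
  intro a b P B τ R M ha haB hb hbB hPB hR hM hτ S hS
  obtain ⟨N, hN⟩ : ∃ N, N = 9 * b * (a + b) := ⟨_, rfl⟩
  have hcnt := hc a b P B τ (2 * R)
  have hNpos : 1 ≤ N := by
    rw [hN]
    have : 1 ≤ b * (a + b) := Nat.one_le_iff_ne_zero.2 (by positivity)
    nlinarith
  obtain ⟨ka, hka⟩ : ∃ ka : ℝ, ka = (a : ℝ) ^ 2 + a * b + b ^ 2 := ⟨_, rfl⟩
  have ha' : (1 : ℝ) ≤ a := by exact_mod_cast ha
  have hb' : (1 : ℝ) ≤ b := by exact_mod_cast hb
  have haB' : (a : ℝ) ≤ B := by exact_mod_cast haB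
  have hbB' : (b : ℝ) ≤ B := by exact_mod_cast hbB
  have hPB' : 100 * (B : ℝ) ≤ P := by exact_mod_cast hPB
  have hkapos : 0 < ka := by
    rw [hka]
    positivity
  have hkaB : ka ≤ 3 * B ^ 2 := by
    rw [hka]
    nlinarith
  have hP0 : (0 : ℝ) < P := by linarith
  have hN0 : (0 : ℝ) < N := by exact_mod_cast hNpos
  have hNcast : 9 * (b : ℝ) * (a + b) = N := by
    rw [hN]
    push_cast
    ring
  rw [hNcast, ← hka] at hcnt
  rw [hNcast]
  obtain ⟨K, hK⟩ : ∃ K, K = ⌊M⌋₊ := ⟨_, rfl⟩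
  have hKM : (K : ℝ) ≤ M := by
    rw [hK]
    exact Nat.floor_le hM
  rw [← hK]
  -- the differences
  obtain ⟨Dp, hDp⟩ : ∃ Dp : ℕ → ℕ → Prop, Dp = fun (u w : ℕ) => ∃ g : ℤ,
      |(g : ℝ) + lam a b (u + a) * w| ≤ 2 * R ∧ (N : ℤ) ∣ (w : ℤ) * qq a b u - g := ⟨_, rfl⟩
  have hex : ∀ u : ℕ, ∃ w : ℕ, (w = 0 ∧ ∀ w', 1 ≤ w' → w' ≤ K → ¬ Dp u w') ∨
      (1 ≤ w ∧ w ≤ K ∧ Dp u w ∧ ∀ w', 1 ≤ w' → w' ≤ K → Dp u w' → w ≤ w') := by
    intro u
    by_cases h : ∃ w, 1 ≤ w ∧ w ≤ K ∧ Dp u w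
    · refine ⟨Nat.find h, Or.inr ⟨(Nat.find_spec h).1, (Nat.find_spec h).2.1,
        (Nat.find_spec h).2.2, fun w' h1 h2 h3 => Nat.find_min' h ⟨h1, h2, h3⟩⟩⟩
    · refine ⟨0, Or.inl ⟨rfl, fun w' h1 h2 h3 => h ⟨w', h1, h2, h3⟩⟩⟩
  choose w1 hw1 using hex
  obtain ⟨U, hU⟩ : ∃ U : Finset ℕ, U = S.image (fun t => t.1) := ⟨_, rfl⟩
  have hUr : ∀ u ∈ U, P ≤ u ∧ u + a < 2 * P := by
    intro u hu
    rw [hU] at hu
    obtain ⟨t, ht, rfl⟩ := Finset.mem_image.1 hu
    exact ⟨(hS t ht).hu, (hS t ht).hu'⟩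
  have hsub : ∀ U' : Finset ℕ, U' ⊆ U → (U'.card : ℝ) ≤ P := by
    intro U' hU'
    have h1 : U' ⊆ Ico P (2 * P) := by
      intro u hu
      obtain ⟨h2, h3⟩ := hUr u (hU' hu)
      exact Finset.mem_Ico.2 ⟨h2, by omega⟩
    have h2 := Finset.card_le_card h1
    rw [Nat.card_Ico] at h2
    have h3 : U'.card ≤ P := by omega
    exact_mod_cast h3
  -- the triples with a given `u`
  have hW : ∀ t ∈ S, ((t.2.1.toNat : ℕ) : ℤ) = t.2.1 ∧ 1 ≤ t.2.1.toNat ∧ t.2.1.toNat ≤ K := by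
    intro t ht
    have h1 := (hS t ht).hW
    have h2 := (hS t ht).hW'
    have h3 : ((t.2.1.toNat : ℕ) : ℤ) = t.2.1 := Int.toNat_of_nonneg (by omega)
    have h4 : ((t.2.1.toNat : ℕ) : ℝ) = (t.2.1 : ℝ) := by exact_mod_cast h3
    refine ⟨h3, by omega, ?_⟩
    rw [hK]
    refine Nat.le_floor ?_
    rw [h4]
    exact h2
  have hdiff : ∀ t ∈ S, ∀ t' ∈ S, t.1 = t'.1 → t.2.1.toNat < t'.2.1.toNat →
      Dp t.1 (t'.2.1.toNat - t.2.1.toNat) := by
    intro t ht t' ht' e hlt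
    obtain ⟨g1, -, -⟩ := hW t ht
    obtain ⟨g2, -, -⟩ := hW t' ht'
    have g3 := (hS t ht).hf
    have g4 := (hS t' ht').hf
    have g5 := (hS t ht).hd
    have g6 := (hS t' ht').hd
    rw [← hN] at g5 g6
    rw [← e] at g4 g6
    rw [hDp]
    have e1 : ((t'.2.1.toNat - t.2.1.toNat : ℕ) : ℤ) = t'.2.1 - t.2.1 := by
      rw [Nat.cast_sub hlt.le, g1, g2]
    have e2 : ((t'.2.1.toNat - t.2.1.toNat : ℕ) : ℝ) = (t'.2.1 : ℝ) - t.2.1 := by
      exact_mod_cast e1
    refine ⟨t'.2.2 - t.2.2, ?_, ?_⟩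
    · rw [e2]
      have e3 : (((t'.2.2 - t.2.2 : ℤ)) : ℝ) + lam a b (t.1 + a) * ((t'.2.1 : ℝ) - t.2.1) =
          ((t'.2.2 : ℝ) + lam a b (t.1 + a) * t'.2.1) -
            ((t.2.2 : ℝ) + lam a b (t.1 + a) * t.2.1) := by
        push_cast
        ring
      rw [e3]
      have h10 := abs_sub ((t'.2.2 : ℝ) + lam a b (t.1 + a) * t'.2.1)
        ((t.2.2 : ℝ) + lam a b (t.1 + a) * t.2.1)
      linarith
    · rw [e1]
      have e3 : (t'.2.1 - t.2.1) * (qq a b t.1 : ℤ) - (t'.2.2 - t.2.2) =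
          (t'.2.1 * (qq a b t.1 : ℤ) - t'.2.2) - (t.2.1 * (qq a b t.1 : ℤ) - t.2.2) := by ring
      rw [e3]
      exact dvd_sub g6 g5
  have hrow : ∀ u ∈ U, ((S.filter fun t => t.1 = u).card : ℝ) ≤
      3 * R * (1 + if w1 u = 0 then 0 else M / w1 u) := by
    intro u hu
    obtain ⟨Wf, hWf⟩ : ∃ Wf : Finset ℕ, Wf = (S.filter fun t => t.1 = u).image
      (fun t => t.2.1.toNat) := ⟨_, rfl⟩
    have hmaps : Set.MapsTo (fun t : ℕ × ℤ × ℤ => t.2.1.toNat)
        (S.filter fun t => t.1 = u : Finset (ℕ × ℤ × ℤ)) (Wf : Set ℕ) := by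
      intro t ht
      rw [hWf]
      exact Finset.mem_coe.2 (Finset.mem_image_of_mem _ (Finset.mem_coe.1 ht))
    have h1 : ∀ W ∈ Wf, (((S.filter fun t => t.1 = u).filter
        fun t => t.2.1.toNat = W).card : ℝ) ≤ 3 * R := by
      intro W _
      have hinj : Set.InjOn (fun t : ℕ × ℤ × ℤ => t.2.2)
          ((S.filter fun t => t.1 = u).filter fun t => t.2.1.toNat = W :
            Finset (ℕ × ℤ × ℤ)) := by
        intro t ht t' ht' e
        obtain ⟨h2, h3⟩ := Finset.mem_filter.1 (Finset.mem_coe.1 ht)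
        obtain ⟨h4, h5⟩ := Finset.mem_filter.1 h2
        obtain ⟨h6, h7⟩ := Finset.mem_filter.1 (Finset.mem_coe.1 ht')
        obtain ⟨h8, h9⟩ := Finset.mem_filter.1 h6
        have e1 := (hW t h4).1
        have e2 := (hW t' h8).1
        have e3 : t.2.1 = t'.2.1 := by
          rw [← e1, ← e2, h3, h7]
        exact Prod.ext (h5.trans h9.symm) (Prod.ext e3 e)
      rw [← Finset.card_image_of_injOn hinj]
      refine int_card _ (lam a b (u + a) * W) R hR ?_
      intro f hf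
      obtain ⟨t, ht, rfl⟩ := Finset.mem_image.1 hf
      obtain ⟨h2, h3⟩ := Finset.mem_filter.1 ht
      obtain ⟨h4, h5⟩ := Finset.mem_filter.1 h2
      have h6 := (hS t h4).hf
      have e1 := (hW t h4).1
      rw [h3] at e1
      have e2 : (W : ℝ) = (t.2.1 : ℝ) := by exact_mod_cast e1
      rw [e2, ← h5]
      exact h6
    have h2 : (Wf.card : ℝ) ≤ 1 + if w1 u = 0 then 0 else M / w1 u := by
      have h3 : ∀ x ∈ Wf, ∀ y ∈ Wf, x < y → 1 ≤ y - x ∧ y - x ≤ K ∧ Dp u (y - x) := by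
        intro x hx y hy hxy
        rw [hWf] at hx hy
        obtain ⟨t, ht, rfl⟩ := Finset.mem_image.1 hx
        obtain ⟨t', ht', rfl⟩ := Finset.mem_image.1 hy
        obtain ⟨h4, h5⟩ := Finset.mem_filter.1 ht
        obtain ⟨h6, h7⟩ := Finset.mem_filter.1 ht'
        have h8 := hdiff t h4 t' h6 (h5.trans h7.symm) hxy
        rw [h5] at h8
        have := (hW t' h6).2.2
        exact ⟨by omega, by omega, h8⟩
      rcases hw1 u with ⟨h4, h5⟩ | ⟨h4, h5, h6, h7⟩
      · rw [if_pos h4, add_zero]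
        have h6 : Wf.card ≤ 1 := by
          refine Finset.card_le_one.2 fun x hx y hy => ?_
          by_contra hne
          rcases Nat.lt_or_gt_of_ne hne with h8 | h8
          · obtain ⟨g1, g2, g3⟩ := h3 x hx y hy h8
            exact h5 _ g1 g2 g3
          · obtain ⟨g1, g2, g3⟩ := h3 y hy x hx h8
            exact h5 _ g1 g2 g3
        exact_mod_cast h6
      · rw [if_neg (by omega), add_comm]
        refine gap_card Wf (w1 u) h4 M hM (fun x hx y hy hxy => ?_) fun x hx y hy hxy => ?_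
        · obtain ⟨g1, g2, g3⟩ := h3 x hx y hy hxy
          exact h7 _ g1 g2 g3
        · rcases Nat.lt_or_ge x y with h8 | h8
          · obtain ⟨g1, g2, g3⟩ := h3 x hx y hy h8
            have : ((y - x : ℕ) : ℝ) ≤ K := by exact_mod_cast g2
            exact this.trans hKM
          · have : y - x = 0 := by omega
            rw [this, Nat.cast_zero]
            exact hM
    rw [Finset.card_eq_sum_card_fiberwise hmaps]
    push_cast
    have h3 := Finset.sum_le_sum h1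
    rw [Finset.sum_const, nsmul_eq_mul] at h3
    refine h3.trans ?_
    rw [mul_comm]
    exact mul_le_mul_of_nonneg_left h2 (by linarith)
  have hmaps : Set.MapsTo (fun t : ℕ × ℤ × ℤ => t.1) (S : Set (ℕ × ℤ × ℤ)) (U : Set ℕ) := by
    intro t ht
    rw [hU]
    exact Finset.mem_coe.2 (Finset.mem_image_of_mem _ (Finset.mem_coe.1 ht))
  rw [Finset.card_eq_sum_card_fiberwise hmaps]
  push_cast
  have h1 := Finset.sum_le_sum hrow
  refine h1.trans ?_
  rw [← Finset.mul_sum, Finset.sum_add_distrib, Finset.sum_const, nsmul_eq_mul, mul_one]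
  have hUP := hsub U (Finset.Subset.refl _)
  obtain ⟨A, hA⟩ : ∃ A : ℝ, A = 552 * R * τ * P / N + 12 * R := ⟨_, rfl⟩
  have hAnn : 0 ≤ A := by
    rw [hA]
    positivity
  -- the sum over `u` with small differences
  have hsum : ∑ u ∈ U, (if w1 u = 0 then (0 : ℝ) else M / w1 u) ≤
      ((Nat.log 2 K + 1 : ℕ) : ℝ) * (M * (A + 4 * B)) := by
    obtain ⟨U1, hU1⟩ : ∃ U1 : Finset ℕ, U1 = U.filter (fun u => w1 u ≠ 0) := ⟨_, rfl⟩
    have hU1U : U1 ⊆ U := by
      rw [hU1]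
      exact Finset.filter_subset _ _
    have hU1w : ∀ u ∈ U1, 1 ≤ w1 u ∧ w1 u ≤ K ∧ Dp u (w1 u) := by
      intro u hu
      rw [hU1] at hu
      have h2 := (Finset.mem_filter.1 hu).2
      rcases hw1 u with ⟨h4, -⟩ | ⟨h4, h5, h6, -⟩
      · exact absurd h4 h2
      · exact ⟨h4, h5, h6⟩
    have e1 : ∑ u ∈ U, (if w1 u = 0 then (0 : ℝ) else M / w1 u) = ∑ u ∈ U1, M / w1 u := by
      rw [hU1, Finset.sum_filter]
      refine Finset.sum_congr rfl fun u _ => ?_
      by_cases h : w1 u = 0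
      · rw [if_pos h, if_neg (by simpa using h)]
      · rw [if_neg h, if_pos h]
    rw [e1]
    have hmaps2 : ∀ u ∈ U1, Nat.log 2 (w1 u) ∈ range (Nat.log 2 K + 1) := by
      intro u hu
      exact Finset.mem_range.2 (Nat.lt_succ_of_le (Nat.log_mono_right (hU1w u hu).2.1))
    rw [← Finset.sum_fiberwise_of_maps_to hmaps2]
    have h2 : ∀ j ∈ range (Nat.log 2 K + 1),
        ∑ u ∈ U1.filter (fun u => Nat.log 2 (w1 u) = j), M / w1 u ≤ M * (A + 4 * B) := by
      intro j _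
      obtain ⟨V, hV⟩ : ∃ V : Finset ℕ, V = U1.filter (fun u => Nat.log 2 (w1 u) = j) := ⟨_, rfl⟩
      rw [← hV]
      have hVm : ∀ u ∈ V, u ∈ U ∧ 1 ≤ w1 u ∧ Dp u (w1 u) ∧ 2 ^ j ≤ w1 u ∧
          w1 u < 2 ^ (j + 1) := by
        intro u hu
        rw [hV] at hu
        obtain ⟨h3, h4⟩ := Finset.mem_filter.1 hu
        obtain ⟨h5, h6, h7⟩ := hU1w u h3
        refine ⟨hU1U h3, h5, h7, ?_, ?_⟩
        · rw [← h4]
          exact Nat.pow_log_le_self 2 (by omega)
        · rw [← h4]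
          exact Nat.lt_pow_succ_log_self (by norm_num) _
      have hVP := hsub V fun u hu => (hVm u hu).1
      have hj0 : (0 : ℝ) < 2 ^ j := by positivity
      -- count the smallest differences
      have hVc : (V.card : ℝ) ≤ A * 2 ^ j + 4 * ka / P * (2 ^ j) ^ 2 := by
        have hg : ∀ u, ∃ g : ℤ, u ∈ V → |(g : ℝ) + lam a b (u + a) * w1 u| ≤ 2 * R ∧
            (N : ℤ) ∣ (w1 u : ℤ) * qq a b u - g := by
          intro u
          by_cases hu : u ∈ V
          · have h3 := (hVm u hu).2.2.1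
            rw [hDp] at h3
            obtain ⟨g, hg⟩ := h3
            exact ⟨g, fun _ => hg⟩
          · exact ⟨0, fun h => absurd h hu⟩
        choose g hg using hg
        have hinj : Function.Injective (fun u : ℕ => ((u, ((w1 u : ℕ) : ℤ), g u) : ℕ × ℤ × ℤ)) :=
          fun u v h => (Prod.ext_iff.1 h).1
        have h3 := hcnt (2 ^ (j + 1)) ha haB hb hbB hPB (by linarith) (by positivity) hτ
          (V.image fun u => ((u, ((w1 u : ℕ) : ℤ), g u) : ℕ × ℤ × ℤ)) (by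
            intro t ht
            obtain ⟨u, hu, rfl⟩ := Finset.mem_image.1 ht
            obtain ⟨g1, g2, g3, g4, g5⟩ := hVm u hu
            obtain ⟨g6, g7⟩ := hUr u g1
            obtain ⟨g8, g9⟩ := hg u hu
            refine ⟨g6, g7, ?_, ?_, ?_, ?_⟩
            · show (1 : ℤ) ≤ ((w1 u : ℕ) : ℤ)
              exact_mod_cast g2
            · show (((w1 u : ℕ) : ℤ) : ℝ) ≤ 2 ^ (j + 1)
              exact_mod_cast g5.le
            · show |((g u : ℤ) : ℝ) + lam a b (u + a) * (((w1 u : ℕ) : ℤ) : ℝ)| ≤ 2 * R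
              rw [Int.cast_natCast]
              exact g8
            · show ((9 * b * (a + b) : ℕ) : ℤ) ∣ ((w1 u : ℕ) : ℤ) * qq a b u - g u
              rw [← hN]
              exact g9)
        rw [Finset.card_image_of_injective _ hinj] at h3
        refine h3.trans (le_of_eq ?_)
        rw [hA]
        ring
      have h4 : ∑ u ∈ V, M / w1 u ≤ ∑ u ∈ V, M / 2 ^ j := by
        refine Finset.sum_le_sum fun u hu => ?_
        have h5 : ((2 : ℝ) ^ j) ≤ w1 u := by exact_mod_cast (hVm u hu).2.2.2.1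
        exact div_le_div_of_nonneg_left hM hj0 h5
      refine h4.trans ?_
      rw [Finset.sum_const, nsmul_eq_mul, mul_comm, div_mul_eq_mul_div, mul_div_assoc]
      refine mul_le_mul_of_nonneg_left ?_ hM
      rw [div_le_iff₀ hj0]
      by_cases h5 : 4 * ka / P * 2 ^ j ≤ 4 * B
      · have h6 := mul_le_mul_of_nonneg_right h5 hj0.le
        nlinarith
      · push Not at h5
        have h6 : (P : ℝ) ≤ 4 * B * 2 ^ j := by
          rw [div_mul_eq_mul_div, lt_div_iff₀ hP0] at h5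
          have h7 : 4 * ka * 2 ^ j ≤ 4 * (3 * B ^ 2) * 2 ^ j := by
            refine mul_le_mul_of_nonneg_right ?_ hj0.le
            linarith
          have hB0 : (0 : ℝ) < B := by linarith
          have h8 : (B : ℝ) * P ≤ B * (3 * B * 2 ^ j) := by nlinarith
          have h9 := le_of_mul_le_mul_left h8 hB0
          have h10 : 0 ≤ (B : ℝ) * 2 ^ j := by positivity
          linarith
        have h7 : 0 ≤ A * 2 ^ j := by positivity
        nlinarith
    have h3 := Finset.sum_le_sum h2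
    rw [Finset.sum_const, Finset.card_range, nsmul_eq_mul] at h3
    exact h3
  have h3R : 0 ≤ 3 * R := by linarith
  have h2 := mul_le_mul_of_nonneg_left (add_le_add hUP hsum) h3R
  refine h2.trans (le_of_eq ?_)
  rw [hA]
  push_cast
  ring

end Pool.Agent.SQG
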