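import Mathlib
import Pool.Agent.Lib.SQG.Defs
import Pool.Agent.Lib.MP_8739b7_nt.Asymp

set_option autoImplicit false

namespace Pool.Agent.SQG

open Finset Pool.Agent.Lib.MP_8739b7_nt

/-- one block, also for `h` larger than `Y ^ (1/5)` -/
lemma blk_all (ε C : ℝ) (hε : 0 < ε) (hC0 : 0 < C)
    (hC : ∀ Y h : ℕ, 1 ≤ h → h ^ 5 ≤ Y →
      ∀ A : Finset ℕ, (∀ N ∈ A, Y ≤ N ∧ N < 2 * Y ∧ Bad h N) →
      (A.card : ℝ) ≤ C * (Y : ℝ) ^ (1 + ε) / (h : ℝ) ^ (14 / 5 : ℝ))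
    (X Y h : ℕ) (hh : 1 ≤ h) (hX : h ^ 5 ≤ X) (hY1 : 1 ≤ Y) (hYX : Y ≤ X) (A : Finset ℕ)
    (hA : ∀ N ∈ A, Y ≤ N ∧ N < 2 * Y ∧ Bad h N) :
    (A.card : ℝ) ≤ 8 * C * (X : ℝ) ^ (1 + ε) / (h : ℝ) ^ (14 / 5 : ℝ) := by
  have hYR : (1 : ℝ) ≤ Y := by exact_mod_cast hY1
  have hY0 : (0 : ℝ) < Y := by linarith
  have hYX' : (Y : ℝ) ≤ X := by exact_mod_cast hYX
  have hX0 : (0 : ℝ) < X := by linarith
  have hhR : (1 : ℝ) ≤ h := by exact_mod_cast hh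
  have hh0 : (0 : ℝ) < h := by linarith
  have hhp : 0 < (h : ℝ) ^ (14 / 5 : ℝ) := by positivity
  rcases le_or_gt (h ^ 5) Y with hc | hc
  · refine (hC Y h hh hc A hA).trans ?_
    have h1 : (Y : ℝ) ^ (1 + ε) ≤ (X : ℝ) ^ (1 + ε) :=
      Real.rpow_le_rpow hY0.le hYX' (by linarith)
    have h2 : 0 ≤ (X : ℝ) ^ (1 + ε) := by positivity
    have h3 : C * (Y : ℝ) ^ (1 + ε) ≤ 8 * C * (X : ℝ) ^ (1 + ε) := by
      calc C * (Y : ℝ) ^ (1 + ε) ≤ C * (X : ℝ) ^ (1 + ε) := by gcongr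
        _ ≤ 8 * C * (X : ℝ) ^ (1 + ε) := by nlinarith [mul_nonneg hC0.le h2]
    gcongr
  · -- use a shorter window
    obtain ⟨g, hg⟩ : ∃ g : ℕ, g = ⌊(Y : ℝ) ^ (1 / 5 : ℝ)⌋₊ := ⟨_, rfl⟩
    have hYp : 1 ≤ (Y : ℝ) ^ (1 / 5 : ℝ) := Real.one_le_rpow hYR (by norm_num)
    have hg1 : 1 ≤ g := by
      rw [hg]; exact Nat.le_floor (by exact_mod_cast hYp)
    have hgle : (g : ℝ) ≤ (Y : ℝ) ^ (1 / 5 : ℝ) := by
      rw [hg]; exact Nat.floor_le (by positivity)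
    have hglt : (Y : ℝ) ^ (1 / 5 : ℝ) < g + 1 := by
      rw [hg]; exact Nat.lt_floor_add_one _
    have hg1R : (1 : ℝ) ≤ g := by exact_mod_cast hg1
    have hY5 : ((Y : ℝ) ^ (1 / 5 : ℝ)) ^ 5 = Y := by
      rw [← Real.rpow_natCast, ← Real.rpow_mul hY0.le]; norm_num
    have hg5 : g ^ 5 ≤ Y := by
      have : (g : ℝ) ^ 5 ≤ Y := by
        calc (g : ℝ) ^ 5 ≤ ((Y : ℝ) ^ (1 / 5 : ℝ)) ^ 5 := by gcongr
          _ = (Y : ℝ) := hY5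
      exact_mod_cast this
    have hgh : g ≤ h := by
      by_contra hcon
      push Not at hcon
      have : h ^ 5 ≤ g ^ 5 := Nat.pow_le_pow_left hcon.le 5
      omega
    have hb : ∀ N ∈ A, Y ≤ N ∧ N < 2 * Y ∧ Bad g N := by
      intro N hN
      obtain ⟨h1, h2, h3⟩ := hA N hN
      refine ⟨h1, h2, fun j hj => h3 j ?_⟩
      rw [mem_Icc] at hj ⊢
      omega
    refine (hC Y g hg1 hg5 A hb).trans ?_
    -- `Y ^ (1/5) ≤ 2 g`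
    have h2g : (Y : ℝ) ^ (1 / 5 : ℝ) ≤ 2 * g := by linarith
    have hpow : (Y : ℝ) ^ (14 / 25 : ℝ) ≤ 8 * (g : ℝ) ^ (14 / 5 : ℝ) := by
      have h1 : ((Y : ℝ) ^ (1 / 5 : ℝ)) ^ (14 / 5 : ℝ) ≤ (2 * (g : ℝ)) ^ (14 / 5 : ℝ) :=
        Real.rpow_le_rpow (by positivity) h2g (by norm_num)
      rw [← Real.rpow_mul hY0.le, Real.mul_rpow (by norm_num) (by positivity)] at h1
      have h2 : (2 : ℝ) ^ (14 / 5 : ℝ) ≤ 8 := by
        calc (2 : ℝ) ^ (14 / 5 : ℝ) ≤ (2 : ℝ) ^ (3 : ℝ) :=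
              Real.rpow_le_rpow_of_exponent_le (by norm_num) (by norm_num)
          _ = 8 := by norm_num
      have e : (1 / 5 : ℝ) * (14 / 5) = 14 / 25 := by norm_num
      rw [e] at h1
      refine h1.trans ?_
      gcongr
    have hg0 : 0 < (g : ℝ) ^ (14 / 5 : ℝ) := by
      have : (0 : ℝ) < g := by linarith
      positivity
    -- `Y ^ (11/25) ≤ X / h ^ (14/5)`
    have hYh : (Y : ℝ) < (h : ℝ) ^ 5 := by exact_mod_cast hc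
    have hXh : (h : ℝ) ^ 5 ≤ X := by exact_mod_cast hX
    have hfin : (Y : ℝ) ^ (11 / 25 : ℝ) * (h : ℝ) ^ (14 / 5 : ℝ) ≤ X := by
      have h1 : (Y : ℝ) ^ (11 / 25 : ℝ) ≤ (h : ℝ) ^ (11 / 5 : ℝ) := by
        calc (Y : ℝ) ^ (11 / 25 : ℝ) ≤ ((h : ℝ) ^ 5) ^ (11 / 25 : ℝ) :=
              Real.rpow_le_rpow hY0.le hYh.le (by norm_num)
          _ = (h : ℝ) ^ (11 / 5 : ℝ) := by
              rw [← Real.rpow_natCast, ← Real.rpow_mul hh0.le]; norm_num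
      calc (Y : ℝ) ^ (11 / 25 : ℝ) * (h : ℝ) ^ (14 / 5 : ℝ)
          ≤ (h : ℝ) ^ (11 / 5 : ℝ) * (h : ℝ) ^ (14 / 5 : ℝ) := by gcongr
        _ = (h : ℝ) ^ (5 : ℝ) := by rw [← Real.rpow_add hh0]; norm_num
        _ = (h : ℝ) ^ 5 := by exact_mod_cast Real.rpow_natCast (h : ℝ) 5
        _ ≤ X := hXh
    have hYε : (Y : ℝ) ^ ε ≤ (X : ℝ) ^ ε := Real.rpow_le_rpow hY0.le hYX' hε.le
    have hsplit : (Y : ℝ) ^ (1 + ε) = (Y : ℝ) ^ (14 / 25 : ℝ) * (Y : ℝ) ^ (11 / 25 : ℝ) * (Y : ℝ) ^ ε := by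
      rw [← Real.rpow_add hY0, ← Real.rpow_add hY0]; congr 1; ring
    have hXs : (X : ℝ) ^ (1 + ε) = X * (X : ℝ) ^ ε := by
      rw [Real.rpow_add hX0, Real.rpow_one]
    rw [div_le_div_iff₀ hg0 hhp, hsplit, hXs]
    calc C * ((Y : ℝ) ^ (14 / 25 : ℝ) * (Y : ℝ) ^ (11 / 25 : ℝ) * (Y : ℝ) ^ ε)
          * (h : ℝ) ^ (14 / 5 : ℝ)
        = C * (Y : ℝ) ^ (14 / 25 : ℝ) * ((Y : ℝ) ^ (11 / 25 : ℝ) * (h : ℝ) ^ (14 / 5 : ℝ))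
          * (Y : ℝ) ^ ε := by ring
      _ ≤ C * (8 * (g : ℝ) ^ (14 / 5 : ℝ)) * X * (X : ℝ) ^ ε := by gcongr
      _ = 8 * C * (X * (X : ℝ) ^ ε) * (g : ℝ) ^ (14 / 5 : ℝ) := by ring

theorem fin (hb : BLK_stmt) : FIN_stmt := by
  classical
  intro ε hε
  obtain ⟨η, hη⟩ : ∃ η : ℝ, η = ε / 2 := ⟨_, rfl⟩
  have hη0 : 0 < η := by rw [hη]; positivity
  obtain ⟨C, hC0, hC⟩ := hb η hη0
  obtain ⟨CL, hCL1, hCL⟩ := exists_L η hη0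
  refine ⟨8 * C * CL, fun X h hh hX => ?_⟩
  have hX1 : 1 ≤ X := le_trans (Nat.one_le_pow _ _ hh) hX
  have hXR : (1 : ℝ) ≤ X := by exact_mod_cast hX1
  have hX0 : (0 : ℝ) < X := by linarith
  have hhR : (1 : ℝ) ≤ h := by exact_mod_cast hh
  have hh0 : (0 : ℝ) < h := by linarith
  obtain ⟨Bm, hBm⟩ : ∃ Bm : ℕ → Finset ℕ, Bm = fun m => (Ico (2^m) (2*2^m)).filter
    (fun n => Bad h n) := ⟨_, rfl⟩
  have hsub : {n : ℕ | 1 ≤ n ∧ n ≤ X ∧ ∀ m : ℕ, n < m → m ≤ n + h → ¬ Squarefree m}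
      ⊆ (((range (Nat.log 2 X + 1)).biUnion Bm : Finset ℕ) : Set ℕ) := by
    rintro n ⟨hn1, hnX, hn⟩
    rw [Finset.mem_coe, mem_biUnion]
    have hpow1 : 2^(Nat.log 2 n) ≤ n := Nat.pow_log_le_self 2 (by omega)
    have hpow2 : n < 2^(Nat.log 2 n + 1) := Nat.lt_pow_succ_log_self (by norm_num) n
    refine ⟨Nat.log 2 n, ?_, ?_⟩
    · rw [mem_range]
      have := Nat.log_mono_right (b := 2) hnX
      omega
    · rw [hBm]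
      simp only [mem_filter, mem_Ico]
      refine ⟨⟨hpow1, by rw [pow_succ] at hpow2; omega⟩, ?_⟩
      intro j hj
      rw [mem_Icc] at hj
      exact hn (n+j) (by omega) (by omega)
  have h1 := Set.ncard_le_ncard hsub (Finset.finite_toSet _)
  rw [Set.ncard_coe_finset] at h1
  have h2 : ((((range (Nat.log 2 X + 1)).biUnion Bm).card : ℕ) : ℝ)
      ≤ ∑ m ∈ range (Nat.log 2 X + 1), ((Bm m).card : ℝ) := by
    exact_mod_cast Finset.card_biUnion_le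
  have h3 : ∀ m ∈ range (Nat.log 2 X + 1), ((Bm m).card : ℝ)
      ≤ 8 * C * (X : ℝ) ^ (1 + η) / (h : ℝ) ^ (14 / 5 : ℝ) := by
    intro m hm
    rw [mem_range] at hm
    have hle : 2^m ≤ X := by
      have h5 : 2^m ≤ 2^(Nat.log 2 X) := Nat.pow_le_pow_right (by norm_num) (by omega)
      have h6 : 2^(Nat.log 2 X) ≤ X := Nat.pow_log_le_self 2 (by omega)
      exact h5.trans h6
    exact blk_all η C hη0 hC0 hC X (2^m) h hh hX (Nat.one_le_two_pow) hle (Bm m) (by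
      intro N hN
      rw [hBm] at hN
      simp only [mem_filter, mem_Ico] at hN
      exact ⟨hN.1.1, hN.1.2, hN.2⟩)
  have h4 : ((Nat.log 2 X + 1 : ℕ) : ℝ) ≤ CL * (X:ℝ)^η := by
    have h5 : Nat.log 2 X + 1 ≤ Nat.log 2 (3*X) + 1 := by
      have := Nat.log_mono_right (b := 2) (show X ≤ 3*X by omega)
      omega
    have h6 : ((Nat.log 2 X + 1 : ℕ) : ℝ) ≤ ((Nat.log 2 (3*X) + 1 : ℕ) : ℝ) := by exact_mod_cast h5
    exact h6.trans (hCL X hX1)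
  calc (Set.ncard {n : ℕ | 1 ≤ n ∧ n ≤ X ∧ ∀ m : ℕ, n < m → m ≤ n + h → ¬ Squarefree m} : ℝ)
      ≤ ((((range (Nat.log 2 X + 1)).biUnion Bm).card : ℕ) : ℝ) := by exact_mod_cast h1
    _ ≤ ∑ m ∈ range (Nat.log 2 X + 1), ((Bm m).card : ℝ) := h2
    _ ≤ ∑ m ∈ range (Nat.log 2 X + 1), 8 * C * (X : ℝ) ^ (1 + η) / (h : ℝ) ^ (14 / 5 : ℝ) :=
        Finset.sum_le_sum h3
    _ = ((Nat.log 2 X + 1 : ℕ) : ℝ) * (8 * C * (X : ℝ) ^ (1 + η) / (h : ℝ) ^ (14 / 5 : ℝ)) := by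
        rw [Finset.sum_const, card_range, nsmul_eq_mul]
    _ ≤ (CL * (X:ℝ)^η) * (8 * C * (X : ℝ) ^ (1 + η) / (h : ℝ) ^ (14 / 5 : ℝ)) := by gcongr
    _ = 8 * C * CL * (X : ℝ) ^ (1 + ε) / (h : ℝ) ^ (14 / 5 : ℝ) := by
        have : (X:ℝ)^(1 + ε) = (X:ℝ)^η * (X:ℝ)^(1 + η) := by
          rw [← Real.rpow_add hX0]; congr 1; rw [hη]; ring
        rw [this]; ring

end Pool.Agent.SQG
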