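import Pool.Agent.Lib.SQG.Defs

/-!
# SQG, row PAIR: number of pairs with `v ≠ 0`
-/

set_option autoImplicit false

namespace Pool.Agent.SQG

namespace Pr

open Finset

/-- The integer `d` of a pair. -/
def dd (t : Q2) : ℤ := (t.u : ℤ) ^ 2 * t.m - ((t.u : ℤ) + t.a) ^ 2 * t.m'

theorem id3 (t : Q2) : vv t * ((t.u : ℤ) + t.a) ^ 2 =
    dd t * (2 * ((t.u : ℤ) + t.a) + t.a) - (t.a : ℤ) ^ 3 * t.m := by
  unfold vv dd
  ring

theorem dd_lt {N h P B : ℕ} {t : Q2} (ht : IsPairAt N h P B t) : |dd t| < h := by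
  have h0 := ht.h0
  have h0' := ht.h0'
  have h1 := ht.h1
  have h1' := ht.h1'
  zify at h0 h0' h1 h1'
  unfold dd
  rw [abs_lt]
  constructor <;> linarith

/-- Size of `v`. -/
theorem vv_le {N Y h P B : ℕ} {t : Q2} (ht : IsPairAt N h P B t) (hP : 1 ≤ P) (hY : N < 2 * Y)
    (hh : h ≤ Y) (hB : B ≤ P) :
    |(vv t : ℝ)| ≤ 3 * h / P + 3 * (t.a : ℝ) ^ 3 * Y / P ^ 4 := by
  have hd := dd_lt ht
  have hid : ((vv t : ℤ) : ℝ) * ((t.u : ℝ) + t.a) ^ 2 =
      (dd t : ℝ) * (2 * ((t.u : ℝ) + t.a) + t.a) - (t.a : ℝ) ^ 3 * t.m := by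
    exact_mod_cast id3 t
  have hP0 : (1 : ℝ) ≤ P := by exact_mod_cast hP
  have hu : (P : ℝ) ≤ t.u := by exact_mod_cast ht.hu
  have ha : (1 : ℝ) ≤ t.a := by exact_mod_cast ht.ha
  have haP : (t.a : ℝ) ≤ P := by exact_mod_cast ht.haB.trans hB
  have hm0 : (0 : ℝ) ≤ t.m := Nat.cast_nonneg _
  have hY0 : (0 : ℝ) ≤ Y := Nat.cast_nonneg _
  have hh0 : (0 : ℝ) ≤ h := Nat.cast_nonneg _
  have hmY : (t.u : ℝ) ^ 2 * t.m ≤ 3 * Y := by
    have h2 := ht.h0'
    have h3 : t.u ^ 2 * t.m ≤ 3 * Y := by omega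
    exact_mod_cast h3
  have hm : (P : ℝ) ^ 2 * t.m ≤ 3 * Y := by
    refine le_trans ?_ hmY
    have : (P : ℝ) ^ 2 ≤ (t.u : ℝ) ^ 2 := by gcongr
    exact mul_le_mul_of_nonneg_right this hm0
  set z : ℝ := (t.u : ℝ) + t.a with hz
  have hzP : (P : ℝ) ≤ z := by linarith
  have hz0 : 0 < z := by linarith
  have hd' : |(dd t : ℝ)| ≤ h := by
    have : |dd t| ≤ (h : ℤ) := hd.le
    exact_mod_cast this
  have h1 : |(vv t : ℝ)| * z ^ 2 ≤ h * (3 * z) + (t.a : ℝ) ^ 3 * t.m := by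
    have h2 : |(vv t : ℝ)| * z ^ 2 = |(dd t : ℝ) * (2 * z + t.a) - (t.a : ℝ) ^ 3 * t.m| := by
      rw [← hid, abs_mul, abs_of_nonneg (sq_nonneg z)]
    rw [h2]
    refine (abs_sub _ _).trans ?_
    have h3 : |(dd t : ℝ) * (2 * z + t.a)| ≤ h * (3 * z) := by
      rw [abs_mul, abs_of_nonneg (by linarith : (0 : ℝ) ≤ 2 * z + t.a)]
      exact mul_le_mul hd' (by linarith) (by linarith) hh0
    have h4 : |(t.a : ℝ) ^ 3 * t.m| = (t.a : ℝ) ^ 3 * t.m := abs_of_nonneg (by positivity)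
    rw [h4]
    linarith
  have hP1 : (0 : ℝ) < P := by linarith
  have h5 : |(vv t : ℝ)| ≤ (h * (3 * z) + (t.a : ℝ) ^ 3 * t.m) / z ^ 2 := by
    rw [le_div_iff₀ (by positivity)]
    exact h1
  refine h5.trans ?_
  rw [add_div]
  refine add_le_add ?_ ?_
  · rw [div_le_div_iff₀ (by positivity) hP1]
    have : (h : ℝ) * z * P ≤ h * z * z := mul_le_mul_of_nonneg_left hzP (by positivity)
    nlinarith
  · have hm' : (t.m : ℝ) ≤ 3 * Y / P ^ 2 := by
      rw [le_div_iff₀ (by positivity)]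
      linarith
    calc (t.a : ℝ) ^ 3 * t.m / z ^ 2 ≤ (t.a : ℝ) ^ 3 * (3 * Y / P ^ 2) / P ^ 2 := by
          gcongr
      _ = 3 * (t.a : ℝ) ^ 3 * Y / P ^ 4 := by
          field_simp

/-- Elements of a residue class in an interval of length `P`. -/
theorem card_res (P M : ℕ) (Z : Finset ℕ)
    (hZ : ∀ z ∈ Z, P ≤ z ∧ z < 2 * P) (hc : ∀ z ∈ Z, ∀ w ∈ Z, (M : ℤ) ∣ (w : ℤ) - z) :
    (Z.card : ℝ) ≤ P / M + 1 := by
  have h1 : Z.card ≤ P / M + 1 := by
    have h2 : Z.card ≤ (range (P / M + 1)).card := by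
      refine card_le_card_of_injOn (fun z => (z - P) / M) ?_ ?_
      · intro z hz
        have h3 := hZ z hz
        simp only [coe_range, Set.mem_Iio]
        have h4 : (z - P) / M ≤ P / M := Nat.div_le_div_right (by omega)
        omega
      · intro z hz w hw hzw
        simp only at hzw
        have h3 := hZ z hz
        have h4 := hZ w hw
        have h5 := hc z hz w hw
        have h6 : (M : ℤ) ∣ ((w - P : ℕ) : ℤ) - ((z - P : ℕ) : ℤ) := by
          rw [Nat.cast_sub h4.1, Nat.cast_sub h3.1]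
          convert h5 using 1
          ring
        have h7 : (z - P) % M = (w - P) % M := by
          have := (Nat.modEq_iff_dvd (n := M) (a := z - P) (b := w - P)).2 h6
          exact this
        have h8 := Nat.div_add_mod (z - P) M
        have h9 := Nat.div_add_mod (w - P) M
        rw [hzw, h7] at h8
        omega
    simpa using h2
  calc (Z.card : ℝ) ≤ ((P / M + 1 : ℕ) : ℝ) := by exact_mod_cast h1
    _ = ((P / M : ℕ) : ℝ) + 1 := by push_cast; ring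
    _ ≤ P / M + 1 := by
        have := @Nat.cast_div_le ℝ _ _ _ P M
        linarith

/-- Nonzero multiples of `g` of size at most `V`. -/
theorem card_mult (g : ℕ) (hg : 1 ≤ g) (V : ℝ) (hV : 0 ≤ V) (S : Finset ℤ)
    (hS : ∀ v ∈ S, v ≠ 0 ∧ (g : ℤ) ∣ v ∧ |(v : ℝ)| ≤ V) : (S.card : ℝ) ≤ 2 * V / g := by
  have hg0 : (0 : ℝ) < g := by exact_mod_cast hg
  set K : ℕ := ⌊V / g⌋₊ with hK
  have h1 : S.card ≤ 2 * K := by
    have h2 : S.card ≤ ((Icc (-(K : ℤ)) K).erase 0).card := by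
      refine card_le_card_of_injOn (fun v => v / g) ?_ ?_
      · intro v hv
        obtain ⟨h3, ⟨w, hw⟩, h4⟩ := hS v hv
        have hw0 : w ≠ 0 := by
          rintro rfl
          exact h3 (by simpa using hw)
        have hvw : v / (g : ℤ) = w := by
          rw [hw]
          exact Int.mul_ediv_cancel_left _ (by exact_mod_cast (by omega : g ≠ 0))
        have h5 : |(w : ℝ)| ≤ V / g := by
          rw [le_div_iff₀ hg0]
          have h6 : |(v : ℝ)| = g * |(w : ℝ)| := by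
            rw [hw]
            push_cast
            rw [abs_mul, abs_of_pos hg0]
          linarith
        have h7 : w.natAbs ≤ K := by
          rw [hK]
          refine Nat.le_floor ?_
          have : ((w.natAbs : ℕ) : ℝ) = |(w : ℝ)| := by
            rw [Nat.cast_natAbs, Int.cast_abs]
          rw [this]
          exact h5
        simp only [coe_erase, coe_Icc, Set.mem_sdiff, Set.mem_Icc, Set.mem_singleton_iff, hvw]
        refine ⟨⟨by omega, by omega⟩, hw0⟩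
      · intro v hv w hw hvw
        simp only at hvw
        obtain ⟨-, h3, -⟩ := hS v hv
        obtain ⟨-, h4, -⟩ := hS w hw
        rw [← Int.mul_ediv_cancel' h3, ← Int.mul_ediv_cancel' h4, hvw]
    have h3 : ((Icc (-(K : ℤ)) K).erase 0).card = 2 * K := by
      rw [card_erase_of_mem (by simp)]
      simp only [Int.card_Icc]
      omega
    omega
  calc (S.card : ℝ) ≤ ((2 * K : ℕ) : ℝ) := by exact_mod_cast h1
    _ = 2 * (K : ℝ) := by push_cast; ring
    _ ≤ 2 * (V / g) := by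
        have := Nat.floor_le (div_nonneg hV hg0.le)
        rw [← hK] at this
        linarith
    _ = 2 * V / g := by ring

theorem cop_add {x a : ℤ} (h : IsCoprime x a) : IsCoprime (x + a) a := by
  obtain ⟨s, t, h⟩ := h
  exact ⟨s, t - s, by linear_combination h⟩

/-- Congruence of the `z` of two pairs with the same `a`, `d`, `v`. -/
theorem congr_z (a' z1 z2 d v m1 m2 : ℤ) (hz1 : Odd z1) (hz2 : Odd z2)
    (hc1 : IsCoprime z1 (2 * a')) (hc2 : IsCoprime z2 (2 * a'))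
    (h1 : v * z1 ^ 2 = d * (2 * z1 + 2 * a') - (2 * a') ^ 3 * m1)
    (h2 : v * z2 ^ 2 = d * (2 * z2 + 2 * a') - (2 * a') ^ 3 * m2) :
    (2 * a') ^ 3 ∣ 2 * d * (z2 - z1) := by
  have h3 : (2 * a') ^ 3 ∣ 2 * d * (z2 - z1) * (z1 * z2 + a' * (z1 + z2)) := by
    refine ⟨m1 * z2 ^ 2 - m2 * z1 ^ 2, ?_⟩
    linear_combination (-z2 ^ 2) * h1 + z1 ^ 2 * h2
  have h4 : IsCoprime (2 * a') (z1 * z2 + a' * (z1 + z2)) := by
    refine IsCoprime.mul_left ?_ ?_
    · obtain ⟨x, hx⟩ := hz1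
      obtain ⟨y, hy⟩ := hz2
      have h5 : z1 * z2 + a' * (z1 + z2) = 2 * (2 * x * y + x + y + a' * (x + y + 1)) + 1 := by
        rw [hx, hy]
        ring
      rw [h5]
      exact ⟨-(2 * x * y + x + y + a' * (x + y + 1)), 1, by ring⟩
    · have h5 : IsCoprime a' (z1 * z2) := by
        refine IsCoprime.mul_right ?_ ?_
        · exact (hc1.of_mul_right_right).symm
        · exact (hc2.of_mul_right_right).symm
      exact (IsCoprime.add_mul_left_right_iff (z := z1 + z2)).2 h5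
  exact (IsCoprime.pow_left h4).dvd_of_dvd_mul_right h3

/-- The pairs with given `a`, `d`, `v`. -/
theorem card_adv (Y h P B : ℕ) (T : Finset Q2) (a : ℕ) (d v : ℤ) (ha : 1 ≤ a)
    (hT : ∀ t ∈ T, IsPair Y h P B t ∧ t.a = a ∧ dd t = d ∧ vv t = v) :
    (T.card : ℝ) ≤ P * (Nat.gcd (a ^ 3) (2 * d.natAbs) : ℝ) / a ^ 3 + 1 := by
  set g : ℕ := Nat.gcd (a ^ 3) (2 * d.natAbs) with hg
  have ha3 : 0 < a ^ 3 := by positivity
  have hg0 : 0 < g := Nat.gcd_pos_of_pos_left _ ha3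
  obtain ⟨M, hM⟩ : g ∣ a ^ 3 := Nat.gcd_dvd_left _ _
  obtain ⟨D, hD⟩ : g ∣ 2 * d.natAbs := Nat.gcd_dvd_right _ _
  have hcop : Nat.Coprime M D := by
    have h1 := Nat.coprime_div_gcd_div_gcd (m := a ^ 3) (n := 2 * d.natAbs) hg0
    rw [← hg] at h1
    have h2 : a ^ 3 / g = M := by
      rw [hM]
      exact Nat.mul_div_cancel_left _ hg0
    have h3 : 2 * d.natAbs / g = D := by
      rw [hD]
      exact Nat.mul_div_cancel_left _ hg0
    rwa [h2, h3] at h1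
  have hM0 : 0 < M := by
    rcases Nat.eq_zero_or_pos M with h | h
    · rw [h] at hM
      omega
    · exact h
  have hinj : (T.image fun t => t.u).card = T.card := by
    refine card_image_of_injOn ?_
    intro t ht s hs hts
    simp only at hts
    obtain ⟨⟨N, -, -, h1⟩, h2, h3, h4⟩ := hT t ht
    obtain ⟨⟨N', -, -, h1'⟩, h2', h3', h4'⟩ := hT s hs
    have e1 := id3 t
    have e2 := id3 s
    rw [h4, h3, h2, hts] at e1
    rw [h4', h3', h2'] at e2
    have e3 : (a : ℤ) ^ 3 * t.m = (a : ℤ) ^ 3 * s.m := by linarith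
    have ha0 : ((a : ℤ) ^ 3) ≠ 0 := by positivity
    have e4 : (t.m : ℤ) = s.m := mul_left_cancel₀ ha0 e3
    have e5 := h3
    have e6 := h3'
    unfold dd at e5 e6
    rw [h2, hts, e4] at e5
    rw [h2'] at e6
    have hz : ((s.u : ℤ) + a) ^ 2 ≠ 0 := by positivity
    have e7 : ((s.u : ℤ) + a) ^ 2 * t.m' = ((s.u : ℤ) + a) ^ 2 * s.m' := by linarith
    have e8 : (t.m' : ℤ) = s.m' := mul_left_cancel₀ hz e7
    cases t
    cases s
    simp only [Q2.mk.injEq] at *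
    exact ⟨by omega, by omega, by exact_mod_cast e4, by exact_mod_cast e8⟩
  rw [← hinj]
  have key := card_res P M (T.image fun t => t.u) ?_ ?_
  · refine key.trans (le_of_eq ?_)
    have hM0' : (M : ℝ) ≠ 0 := by positivity
    have hg0' : (g : ℝ) ≠ 0 := by positivity
    have h5 : (a : ℝ) ^ 3 = g * M := by exact_mod_cast hM
    rw [h5]
    field_simp
  · intro z hz
    obtain ⟨t, ht, rfl⟩ := mem_image.1 hz
    obtain ⟨⟨N, -, -, h1⟩, -⟩ := hT t ht
    have := h1.hu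
    have := h1.hw
    exact ⟨by omega, by omega⟩
  · intro z hz w hw
    obtain ⟨t, ht, rfl⟩ := mem_image.1 hz
    obtain ⟨s, hs, rfl⟩ := mem_image.1 hw
    obtain ⟨⟨N, -, -, h1⟩, h2, h3, h4⟩ := hT t ht
    obtain ⟨⟨N', -, -, h1'⟩, h2', h3', h4'⟩ := hT s hs
    obtain ⟨a', ha'⟩ : Even a := h2 ▸ h1.hev
    have haa : (a : ℤ) = 2 * a' := by rw [ha']; push_cast; ring
    have hodd : ∀ x : ℕ, Nat.Coprime x a → Odd ((x : ℤ) + a) ∧
        IsCoprime ((x : ℤ) + a) (2 * a') := by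
      intro x hx
      constructor
      · have hxo : Odd x := by
          rcases Nat.even_or_odd x with he | ho
          · exfalso
            have h2x : 2 ∣ Nat.gcd x a := Nat.dvd_gcd he.two_dvd ⟨a', by omega⟩
            rw [hx] at h2x
            omega
          · exact ho
        obtain ⟨k, hk⟩ := hxo
        exact ⟨k + a', by rw [haa, hk]; push_cast; ring⟩
      · rw [← haa]
        have h6 : IsCoprime (x : ℤ) (a : ℤ) := Nat.isCoprime_iff_coprime.2 hx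
        exact cop_add h6
    have hc1 := hodd t.u (h2 ▸ h1.hco)
    have hc2 := hodd s.u (h2' ▸ h1'.hco)
    have e1 := id3 t
    have e2 := id3 s
    rw [h4, h3, h2] at e1
    rw [h4', h3', h2'] at e2
    have h8 := congr_z (a' : ℤ) ((t.u : ℤ) + a) ((s.u : ℤ) + a) d v t.m s.m hc1.1 hc2.1 hc1.2
      hc2.2 (by rw [e1, haa]) (by rw [e2, haa])
    rw [← haa] at h8
    have h9 : (s.u : ℤ) + a - ((t.u : ℤ) + a) = (s.u : ℤ) - t.u := by ring
    rw [h9] at h8
    have h10 : a ^ 3 ∣ 2 * d.natAbs * ((s.u : ℤ) - t.u).natAbs := by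
      have := Int.natAbs_dvd_natAbs.2 h8
      rwa [Int.natAbs_pow, Int.natAbs_natCast, Int.natAbs_mul, Int.natAbs_mul] at this
    rw [hM, hD, mul_assoc] at h10
    have h11 : M ∣ D * ((s.u : ℤ) - t.u).natAbs := Nat.dvd_of_mul_dvd_mul_left hg0 h10
    have h12 : M ∣ ((s.u : ℤ) - t.u).natAbs := hcop.dvd_of_dvd_mul_left h11
    exact Int.natCast_dvd.2 h12

/-- The pairs with given `a`, `d`. -/
theorem card_ad (Y h P B : ℕ) (hP : 1 ≤ P) (hh : h ≤ Y) (hB : B ≤ P) (T : Finset Q2) (a : ℕ)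
    (d : ℤ) (ha : 1 ≤ a) (hT : ∀ t ∈ T, (IsPair Y h P B t ∧ vv t ≠ 0) ∧ t.a = a ∧ dd t = d) :
    (T.card : ℝ) ≤ 2 * (3 * h / P + 3 * (a : ℝ) ^ 3 * Y / P ^ 4) * (P / (a : ℝ) ^ 3 + 1) := by
  classical
  set V : ℝ := 3 * h / P + 3 * (a : ℝ) ^ 3 * Y / P ^ 4 with hV
  have hV0 : 0 ≤ V := by positivity
  set g : ℕ := Nat.gcd (a ^ 3) (2 * d.natAbs) with hg
  have ha3 : 0 < a ^ 3 := by positivity
  have hg0 : 0 < g := Nat.gcd_pos_of_pos_left _ ha3
  have hg1 : (1 : ℝ) ≤ g := by exact_mod_cast hg0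
  have ha0 : (0 : ℝ) < (a : ℝ) ^ 3 := by positivity
  have h1 : (T.card : ℝ) = ∑ v ∈ T.image vv, ((T.filter fun t => vv t = v).card : ℝ) := by
    rw [card_eq_sum_card_image vv T]
    push_cast
    rfl
  have h2 : ∀ v ∈ T.image vv, ((T.filter fun t => vv t = v).card : ℝ) ≤
      P * (g : ℝ) / a ^ 3 + 1 := by
    intro v _
    refine card_adv Y h P B _ a d v ha ?_
    intro t ht
    rw [mem_filter] at ht
    obtain ⟨⟨h3, -⟩, h4, h5⟩ := hT t ht.1
    exact ⟨h3, h4, h5, ht.2⟩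
  have h3 : ((T.image vv).card : ℝ) ≤ 2 * V / g := by
    refine card_mult g hg0 V hV0 _ ?_
    intro v hv
    obtain ⟨t, ht, rfl⟩ := mem_image.1 hv
    obtain ⟨⟨⟨N, hN, hN', h4⟩, h5⟩, h6, h7⟩ := hT t ht
    refine ⟨h5, ?_, ?_⟩
    · obtain ⟨a', ha'⟩ : Even a := h6 ▸ h4.hev
      have haa : (a : ℤ) = 2 * a' := by rw [ha']; push_cast; ring
      have e1 := id3 t
      rw [h7, h6] at e1
      have hga : (g : ℤ) ∣ (a : ℤ) ^ 3 := by
        have : g ∣ a ^ 3 := Nat.gcd_dvd_left _ _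
        exact_mod_cast this
      have hgd : (g : ℤ) ∣ 2 * d := by
        have h8 : g ∣ 2 * d.natAbs := Nat.gcd_dvd_right _ _
        have h9 : g ∣ (2 * d).natAbs := by
          rwa [Int.natAbs_mul]
        exact Int.natCast_dvd.2 h9
      have h8 : (g : ℤ) ∣ vv t * ((t.u : ℤ) + a) ^ 2 := by
        rw [e1]
        have h9 : d * (2 * ((t.u : ℤ) + a) + a) = 2 * d * ((t.u : ℤ) + a + a') := by
          rw [haa]
          ring
        rw [h9]
        exact dvd_sub (hgd.mul_right _) (hga.mul_right _)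
      have h9 : IsCoprime (g : ℤ) (((t.u : ℤ) + a) ^ 2) := by
        refine IsCoprime.pow_right ?_
        have h10 : IsCoprime ((t.u : ℤ) + a) (a : ℤ) := by
          have h6' : IsCoprime (t.u : ℤ) (a : ℤ) := Nat.isCoprime_iff_coprime.2 (h6 ▸ h4.hco)
          exact cop_add h6'
        exact (h10.pow_right (n := 3)).symm.of_isCoprime_of_dvd_left hga
      exact h9.dvd_of_dvd_mul_right h8
    · have := vv_le h4 hP hN' hh hB
      rwa [h6] at this
  calc (T.card : ℝ) ≤ ∑ v ∈ T.image vv, (P * (g : ℝ) / a ^ 3 + 1) := by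
        rw [h1]
        exact sum_le_sum h2
    _ = (T.image vv).card * (P * (g : ℝ) / a ^ 3 + 1) := by
        rw [sum_const, nsmul_eq_mul]
    _ ≤ 2 * V / g * (P * (g : ℝ) / a ^ 3 + 1) := by
        refine mul_le_mul_of_nonneg_right h3 ?_
        positivity
    _ = 2 * V * (P / (a : ℝ) ^ 3) + 2 * V / g := by
        field_simp
    _ ≤ 2 * V * (P / (a : ℝ) ^ 3) + 2 * V := by
        have : 2 * V / g ≤ 2 * V := div_le_self (by positivity) hg1
        linarith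
    _ = 2 * V * (P / (a : ℝ) ^ 3 + 1) := by ring

theorem sum_cube (B : ℕ) : ∑ a ∈ Icc 1 B, 1 / (a : ℝ) ^ 3 ≤ 4 / 3 := by
  have key : ∀ B : ℕ, 1 ≤ B → ∑ a ∈ Icc 1 B, 1 / (a : ℝ) ^ 3 ≤
      5 / 4 - 1 / (2 * (B : ℝ) * (B + 1)) := by
    intro B hB
    induction B, hB using Nat.le_induction with
    | base => norm_num
    | succ n hn ih =>
      rw [sum_Icc_succ_top (by omega)]
      have hn0 : (0 : ℝ) < n := by exact_mod_cast hn
      have h1 : 1 / ((n + 1 : ℕ) : ℝ) ^ 3 ≤ 1 / (2 * n * (n + 1)) -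
          1 / (2 * ((n + 1 : ℕ) : ℝ) * (((n + 1 : ℕ) : ℝ) + 1)) := by
        push_cast
        have h2 : 1 / (2 * (n : ℝ) * (n + 1)) - 1 / (2 * ((n : ℝ) + 1) * ((n : ℝ) + 1 + 1)) =
            1 / (n * (n + 1) * (n + 2)) := by
          field_simp
          ring
        rw [h2]
        apply one_div_le_one_div_of_le (by positivity)
        nlinarith
      linarith
  rcases Nat.eq_zero_or_pos B with h | h
  · subst h
    norm_num
  · have h1 := key B h
    have h2 : (0 : ℝ) ≤ 1 / (2 * (B : ℝ) * (B + 1)) := by positivity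
    linarith

end Pr

open Finset Pr in
/-- **PAIR**: number of pairs with `v ≠ 0`. -/
theorem pair : PAIR_stmt := by
  classical
  intro Y h P B hP hh hhY hB T hT
  have hP0 : (0 : ℝ) < P := by exact_mod_cast hP
  have hmaps : ∀ t ∈ T, (t.a, dd t) ∈ Icc 1 B ×ˢ Ioo (-(h : ℤ)) h := by
    intro t ht
    obtain ⟨⟨N, -, -, h1⟩, -⟩ := hT t ht
    have h2 := abs_lt.1 (dd_lt h1)
    simp only [mem_product, mem_Icc, mem_Ioo]
    exact ⟨⟨h1.ha, h1.haB⟩, h2.1, h2.2⟩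
  have h1 : (T.card : ℝ) = ∑ x ∈ Icc 1 B ×ˢ Ioo (-(h : ℤ)) h,
      ((T.filter fun t => (t.a, dd t) = x).card : ℝ) := by
    rw [card_eq_sum_card_fiberwise hmaps]
    push_cast
    rfl
  rw [h1, sum_product]
  have h2 : ∀ a ∈ Icc 1 B, ∑ d ∈ Ioo (-(h : ℤ)) h,
      ((T.filter fun t => (t.a, dd t) = (a, d)).card : ℝ) ≤
      2 * h * (2 * (3 * h / P + 3 * (a : ℝ) ^ 3 * Y / P ^ 4) * (P / (a : ℝ) ^ 3 + 1)) := by
    intro a ha
    rw [mem_Icc] at ha
    have h3 : ∀ d ∈ Ioo (-(h : ℤ)) h, ((T.filter fun t => (t.a, dd t) = (a, d)).card : ℝ) ≤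
        2 * (3 * h / P + 3 * (a : ℝ) ^ 3 * Y / P ^ 4) * (P / (a : ℝ) ^ 3 + 1) := by
      intro d _
      refine card_ad Y h P B hP hhY hB _ a d ha.1 ?_
      intro t ht
      rw [mem_filter, Prod.mk.injEq] at ht
      exact ⟨hT t ht.1, ht.2.1, ht.2.2⟩
    refine (sum_le_sum h3).trans ?_
    rw [sum_const, nsmul_eq_mul]
    refine mul_le_mul_of_nonneg_right ?_ (by positivity)
    rw [Int.card_Ioo]
    have h4 : ((h : ℤ) - -(h : ℤ) - 1).toNat ≤ 2 * h := by omega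
    exact_mod_cast h4
  refine (sum_le_sum h2).trans ?_
  have h3 : ∀ a ∈ Icc 1 B, 2 * (h : ℝ) * (2 * (3 * h / P + 3 * (a : ℝ) ^ 3 * Y / P ^ 4) *
      (P / (a : ℝ) ^ 3 + 1)) ≤ 4 * h * (3 * h * (1 / (a : ℝ) ^ 3) + 3 * h / P + 3 * Y / P ^ 3 +
        3 * Y * B ^ 3 / P ^ 4) := by
    intro a ha
    rw [mem_Icc] at ha
    have ha0 : (0 : ℝ) < a := by exact_mod_cast ha.1
    have haB : (a : ℝ) ≤ B := by exact_mod_cast ha.2
    have h4 : (3 * h / P + 3 * (a : ℝ) ^ 3 * Y / P ^ 4) * (P / (a : ℝ) ^ 3 + 1) =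
        3 * h * (1 / (a : ℝ) ^ 3) + 3 * h / P + 3 * Y / P ^ 3 + 3 * Y * (a : ℝ) ^ 3 / P ^ 4 := by
      field_simp
      ring
    have h5 : 3 * (Y : ℝ) * (a : ℝ) ^ 3 / P ^ 4 ≤ 3 * Y * (B : ℝ) ^ 3 / P ^ 4 := by gcongr
    have h6 : 2 * (h : ℝ) * (2 * (3 * h / P + 3 * (a : ℝ) ^ 3 * Y / P ^ 4) *
      (P / (a : ℝ) ^ 3 + 1)) = 4 * h * ((3 * h / P + 3 * (a : ℝ) ^ 3 * Y / P ^ 4) *
      (P / (a : ℝ) ^ 3 + 1)) := by ring
    rw [h6, h4]
    refine mul_le_mul_of_nonneg_left ?_ (by positivity)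
    linarith
  refine (sum_le_sum h3).trans ?_
  rw [← mul_sum]
  refine mul_le_mul_of_nonneg_left ?_ (by positivity)
  rw [sum_add_distrib, sum_add_distrib, sum_add_distrib, ← mul_sum, sum_const, sum_const, sum_const,
    Nat.card_Icc, Nat.add_sub_cancel, nsmul_eq_mul, nsmul_eq_mul, nsmul_eq_mul]
  have h4 := sum_cube B
  have h5 : 3 * (h : ℝ) * ∑ a ∈ Icc 1 B, 1 / (a : ℝ) ^ 3 ≤ 3 * h * (4 / 3) :=
    mul_le_mul_of_nonneg_left h4 (by positivity)
  have h6 : (B : ℝ) * (3 * h / P) = 3 * h * B / P := by ring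
  have h7 : (B : ℝ) * (3 * Y / P ^ 3) = 3 * Y * B / P ^ 3 := by ring
  have h8 : (B : ℝ) * (3 * Y * B ^ 3 / P ^ 4) = 3 * Y * B ^ 4 / P ^ 4 := by ring
  rw [h6, h7, h8]
  linarith

end Pool.Agent.SQG
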