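import Pool.Agent.Lib.SQG.Defs

/-!
# Windows with many primes in a dyadic range, by pairs
-/

set_option autoImplicit false

namespace Pool.Agent.SQG

open Finset Pool.Agent.Lib.MP_8739b7_nt

namespace Rpx

lemma mem_SD' {h N i p : ℕ} (hp : p ∈ SD h N i) : 2 ^ i ≤ p ∧ p < 2 * 2 ^ i ∧ p.Prime ∧
    ∃ m, N < p ^ 2 * m ∧ p ^ 2 * m ≤ N + h := by
  unfold SD at hp
  rw [mem_filter, mem_SS] at hp
  obtain ⟨⟨_, hpp, j, hj, m, hm⟩, h1, h2⟩ := hp
  rw [mem_Icc] at hj
  refine ⟨h1, by rw [pow_succ] at h2; omega, hpp, m, by omega, by omega⟩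

/-- Many pairs for one window. -/
lemma exists_G (hG : GAP_stmt) (N h i B : ℕ) (L : ℝ) (hL : 1 ≤ L) (h48 : 48 * L ≤ h)
    (hP : 1000 ≤ 2 ^ i) (hB1 : 1 ≤ B) (hBh : 24 * L * 2 ^ i ≤ B * h) (hBP : B < 2 ^ i)
    (hcard : (h : ℝ) / (4 * L) ≤ ((SD h N i).card : ℝ)) :
    ∃ G : Finset Q2, (∀ t ∈ G, IsPairAt N h (2 ^ i) B t) ∧ (h : ℝ) / (12 * L) ≤ G.card := by
  classical
  have hL0 : (0 : ℝ) < L := by linarith
  have hS12 : 12 ≤ (SD h N i).card := by
    have h1 : (12 : ℝ) ≤ (h : ℝ) / (4 * L) := by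
      rw [le_div_iff₀ (by positivity)]; linarith
    exact_mod_cast h1.trans hcard
  have hS6 : 6 * 2 ^ i ≤ B * (SD h N i).card := by
    have h1 : (6 : ℝ) * 2 ^ i ≤ B * ((h : ℝ) / (4 * L)) := by
      rw [← mul_div_assoc, le_div_iff₀ (by positivity)]; linarith
    have h2 : (B : ℝ) * ((h : ℝ) / (4 * L)) ≤ B * ((SD h N i).card : ℝ) := by gcongr
    exact_mod_cast h1.trans h2
  have hgap := hG (2 ^ i) B (SD h N i) hB1
    (fun s hs => ⟨(mem_SD' hs).1, (mem_SD' hs).2.1⟩) hS12 hS6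
  set good := (SD h N i).filter (fun s => (∃ u ∈ SD h N i, u < s ∧ s ≤ u + B) ∧
    ∃ w ∈ SD h N i, s < w ∧ w ≤ s + B) with hgood
  have hmc : ∀ p, ∃ m, p ∈ SD h N i → (N < p ^ 2 * m ∧ p ^ 2 * m ≤ N + h) := by
    intro p
    by_cases hp : p ∈ SD h N i
    · obtain ⟨_, _, _, m, hm⟩ := mem_SD' hp
      exact ⟨m, fun _ => hm⟩
    · exact ⟨0, fun hp' => absurd hp' hp⟩
  choose mc hmc using hmc
  have huf : ∀ s, ∃ u, s ∈ good → (u ∈ SD h N i ∧ u < s ∧ s ≤ u + B) := by
    intro s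
    by_cases hs : s ∈ good
    · rw [hgood, mem_filter] at hs
      obtain ⟨_, ⟨u, hu, hu1, hu2⟩, _⟩ := hs
      exact ⟨u, fun _ => ⟨hu, hu1, hu2⟩⟩
    · exact ⟨0, fun hs' => absurd hs' hs⟩
  choose uf huf using huf
  refine ⟨good.image (fun s => (⟨s - uf s, uf s, mc (uf s), mc s⟩ : Q2)), ?_, ?_⟩
  · intro t ht
    rw [mem_image] at ht
    obtain ⟨s, hs, rfl⟩ := ht
    obtain ⟨hu, hu1, hu2⟩ := huf s hs
    have hsS : s ∈ SD h N i := (mem_filter.1 hs).1
    obtain ⟨s1, s2, s3, _⟩ := mem_SD' hsS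
    obtain ⟨u1, u2, u3, _⟩ := mem_SD' hu
    have hsu : uf s + (s - uf s) = s := by omega
    refine ⟨u1, ?_, ?_, ?_, ?_, ?_, (hmc _ hu).1, (hmc _ hu).2, ?_, ?_⟩
    · show uf s + (s - uf s) < 2 * 2 ^ i
      rw [hsu]; exact s2
    · show 1 ≤ s - uf s
      omega
    · show s - uf s ≤ B
      omega
    · show Even (s - uf s)
      have o1 : Odd s := s3.odd_of_ne_two (by omega)
      have o2 : Odd (uf s) := u3.odd_of_ne_two (by omega)
      exact Nat.Odd.sub_odd o1 o2
    · show Nat.Coprime (uf s) (s - uf s)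
      rw [u3.coprime_iff_not_dvd]
      intro hd
      have h7 := Nat.le_of_dvd (by omega) hd
      have h8 : s - uf s < 2 ^ i := lt_of_le_of_lt (by omega) hBP
      omega
    · show N < (uf s + (s - uf s)) ^ 2 * mc s
      rw [hsu]; exact (hmc _ hsS).1
    · show (uf s + (s - uf s)) ^ 2 * mc s ≤ N + h
      rw [hsu]; exact (hmc _ hsS).2
  · rw [card_image_of_injOn]
    · have h1 : ((SD h N i).card : ℝ) ≤ 3 * (good.card : ℝ) := by exact_mod_cast hgap
      have h2 : (h : ℝ) / (12 * L) = (h : ℝ) / (4 * L) / 3 := by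
        rw [div_div]; congr 1; ring
      rw [h2]
      linarith
    · intro s hs s' hs' heq
      simp only [Q2.mk.injEq] at heq
      obtain ⟨e1, e2, _, _⟩ := heq
      obtain ⟨_, hu1, _⟩ := huf s hs
      obtain ⟨_, hu1', _⟩ := huf s' hs'
      omega

/-- Double counting: a pair belongs to at most `h` windows. -/
lemma count_le (h : ℕ) (A : Finset ℕ) (T : Finset Q2) (g : ℕ → Finset Q2) (κ : ℝ)
    (h1 : ∀ N ∈ A, κ ≤ ((g N).card : ℝ))
    (h2 : ∀ N ∈ A, ∀ t ∈ g N, t ∈ T ∧ N < t.u ^ 2 * t.m ∧ t.u ^ 2 * t.m ≤ N + h) :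
    (A.card : ℝ) * κ ≤ h * T.card := by
  classical
  have h3 : (A.sigma g).card ≤ h * T.card := by
    apply Finset.card_le_mul_card_image_of_maps_to (f := fun x : (_ : ℕ) × Q2 => x.2)
    · intro x hx
      rw [mem_sigma] at hx
      exact (h2 x.1 hx.1 x.2 hx.2).1
    · intro t _
      have h4 : ((A.sigma g).filter (fun x => x.2 = t)).card
          ≤ (Ico (t.u ^ 2 * t.m - h) (t.u ^ 2 * t.m)).card := by
        apply Finset.card_le_card_of_injOn (fun x : (_ : ℕ) × Q2 => x.1)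
        · intro x hx
          rw [mem_coe, mem_filter, mem_sigma] at hx
          obtain ⟨⟨ha, hb⟩, hc⟩ := hx
          obtain ⟨_, h5, h6⟩ := h2 x.1 ha x.2 hb
          rw [hc] at h5 h6
          rw [mem_coe, mem_Ico]
          dsimp only
          omega
        · intro x hx y hy hxy
          rw [mem_coe, mem_filter] at hx hy
          obtain ⟨x1, x2⟩ := x
          obtain ⟨y1, y2⟩ := y
          simp only at hxy hx hy
          obtain ⟨_, hx⟩ := hx
          obtain ⟨_, hy⟩ := hy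
          subst hxy
          rw [hx, hy]
      rw [Nat.card_Ico] at h4
      omega
  rw [card_sigma] at h3
  have h5 : (A.card : ℝ) * κ ≤ ∑ N ∈ A, ((g N).card : ℝ) := by
    rw [← nsmul_eq_mul]
    exact Finset.card_nsmul_le_sum A _ κ h1
  have h6 : (∑ N ∈ A, ((g N).card : ℝ)) ≤ h * T.card := by exact_mod_cast h3
  linarith

end Rpx

open Rpx

/-- Row RPAIR. -/
theorem rpair (hG : GAP_stmt) (hP : PAIR_stmt) (hVA : VZA_stmt) (hVB : VZB_stmt) :
    RPAIR_stmt := by
  intro Y h i B L hL hh h48 hhY h2P hP1000 hB1 hBh hBP A hA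
  classical
  have hL0 : (0 : ℝ) < L := by linarith
  have hh0 : (0 : ℝ) < h := by
    have : 0 < h := by omega
    exact_mod_cast this
  have hex : ∀ N, ∃ G : Finset Q2, N ∈ A → (∀ t ∈ G, IsPairAt N h (2 ^ i) B t) ∧
      (h : ℝ) / (12 * L) ≤ G.card := by
    intro N
    by_cases hN : N ∈ A
    · obtain ⟨G, hG1, hG2⟩ := exists_G hG N h i B L hL h48 hP1000 hB1 hBh hBP (hA N hN).2.2
      exact ⟨G, fun _ => ⟨hG1, hG2⟩⟩
    · exact ⟨∅, fun hN' => absurd hN' hN⟩
  choose G hGs using hex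
  set κ : ℝ := (h : ℝ) / (24 * L) with hκ
  have hκ0 : 0 < κ := by positivity
  have hκ2 : (h : ℝ) / (12 * L) = 2 * κ := by
    rw [hκ]; field_simp; ring
  set A1 := A.filter (fun N => κ ≤ (((G N).filter (fun t => vv t ≠ 0)).card : ℝ)) with hA1
  set A2 := A.filter (fun N => ¬ κ ≤ (((G N).filter (fun t => vv t ≠ 0)).card : ℝ)) with hA2
  have hsum : A1.card + A2.card = A.card := by
    rw [hA1, hA2]; exact Finset.card_filter_add_card_filter_not _
  have hG2 : ∀ N ∈ A2, κ ≤ (((G N).filter (fun t => vv t = 0)).card : ℝ) := by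
    intro N hN
    rw [hA2, mem_filter] at hN
    obtain ⟨hNA, hN2⟩ := hN
    have h1 := (hGs N hNA).2
    have h2 : ((G N).filter (fun t => vv t = 0)).card + ((G N).filter (fun t => ¬ vv t = 0)).card
        = (G N).card := Finset.card_filter_add_card_filter_not _
    have h3 : (((G N).filter (fun t => vv t = 0)).card : ℝ)
        + (((G N).filter (fun t => ¬ vv t = 0)).card : ℝ) = ((G N).card : ℝ) := by
      exact_mod_cast h2
    push Not at hN2
    have h4 : (((G N).filter (fun t => ¬ vv t = 0)).card : ℝ) < κ := hN2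
    rw [hκ2] at h1
    linarith
  have hP1 : 1 ≤ 2 ^ i := by omega
  have hBP' : B ≤ 2 ^ i := hBP.le
  -- pairs with v ≠ 0
  have hb1 : (A1.card : ℝ) ≤ 24 * L * (4 * h * (4 * h + 3 * h * B / 2 ^ i
      + 3 * Y * B / (2 ^ i) ^ 3 + 3 * Y * B ^ 4 / (2 ^ i) ^ 4)) := by
    set T1 := A1.biUnion (fun N => (G N).filter (fun t => vv t ≠ 0)) with hT1
    have hc := count_le h A1 T1 (fun N => (G N).filter (fun t => vv t ≠ 0)) κ
      (fun N hN => (mem_filter.1 hN).2) (by
        intro N hN t ht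
        have hNA : N ∈ A := (mem_filter.1 hN).1
        have ht' := (hGs N hNA).1 t (mem_filter.1 ht).1
        exact ⟨mem_biUnion.2 ⟨N, hN, ht⟩, ht'.h0, ht'.h0'⟩)
    have hT := hP Y h (2 ^ i) B hP1 (by omega) hhY hBP' T1 (by
      intro t ht
      rw [hT1, mem_biUnion] at ht
      obtain ⟨N, hN, ht⟩ := ht
      have hNA : N ∈ A := (mem_filter.1 hN).1
      rw [mem_filter] at ht
      exact ⟨⟨N, (hA N hNA).1, (hA N hNA).2.1, (hGs N hNA).1 t ht.1⟩, ht.2⟩)
    push_cast at hT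
    have h3 : (A1.card : ℝ) ≤ 24 * L * T1.card := by
      have h4 : (A1.card : ℝ) * κ = A1.card * h / (24 * L) := by rw [hκ]; ring
      rw [h4, div_le_iff₀ (by positivity)] at hc
      have h5 : (A1.card : ℝ) * h ≤ (24 * L * T1.card) * h := by linarith
      exact le_of_mul_le_mul_right h5 hh0
    refine h3.trans ?_
    gcongr
  -- pairs with v = 0
  have hb2 : (A2.card : ℝ) ≤ (if 12 * (Y : ℝ) / (2 ^ i) ^ 3 < h / (24 * L) then 0 else
      24 * L * (12 * (1 + Real.log B) * (h : ℝ) ^ (1 / 3 : ℝ) * (Y : ℝ) ^ (2 / 3 : ℝ) / 2 ^ i)) := by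
    split_ifs with hif
    · have hemp : A2 = ∅ := by
        rw [Finset.eq_empty_iff_forall_notMem]
        intro N hN
        have h1 := hG2 N hN
        have hNA : N ∈ A := (mem_filter.1 hN).1
        have h2 := hVB N Y h (2 ^ i) B h2P hP1000 (by omega) hhY (hA N hNA).1 (hA N hNA).2.1 hBP'
          ((G N).filter (fun t => vv t = 0)) (by
            intro t ht
            rw [mem_filter] at ht
            exact ⟨(hGs N hNA).1 t ht.1, ht.2⟩)
        push_cast at h2
        linarith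
      rw [hemp]; simp
    · set T2 := A2.biUnion (fun N => (G N).filter (fun t => vv t = 0)) with hT2
      have hc := count_le h A2 T2 (fun N => (G N).filter (fun t => vv t = 0)) κ
        (fun N hN => hG2 N hN) (by
          intro N hN t ht
          have hNA : N ∈ A := (mem_filter.1 hN).1
          have ht' := (hGs N hNA).1 t (mem_filter.1 ht).1
          exact ⟨mem_biUnion.2 ⟨N, hN, ht⟩, ht'.h0, ht'.h0'⟩)
      have hT := hVA Y h (2 ^ i) B hP1 (by omega) hB1 hhY hBP' T2 (by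
        intro t ht
        rw [hT2, mem_biUnion] at ht
        obtain ⟨N, hN, ht⟩ := ht
        have hNA : N ∈ A := (mem_filter.1 hN).1
        rw [mem_filter] at ht
        exact ⟨⟨N, (hA N hNA).1, (hA N hNA).2.1, (hGs N hNA).1 t ht.1⟩, ht.2⟩)
      push_cast at hT
      have h3 : (A2.card : ℝ) ≤ 24 * L * T2.card := by
        have h4 : (A2.card : ℝ) * κ = A2.card * h / (24 * L) := by rw [hκ]; ring
        rw [h4, div_le_iff₀ (by positivity)] at hc
        have h5 : (A2.card : ℝ) * h ≤ (24 * L * T2.card) * h := by linarith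
        exact le_of_mul_le_mul_right h5 hh0
      refine h3.trans ?_
      gcongr
  have h9 : (A.card : ℝ) = A1.card + A2.card := by exact_mod_cast hsum.symm
  rw [h9]
  exact add_le_add hb1 hb2

end Pool.Agent.SQG
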