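import Pool.Agent.Lib.SQG.Defs

/-!
# Pairs with `v = 0` in one window
-/

set_option autoImplicit false

namespace Pool.Agent.SQG

open Finset

namespace VZ

/-- structure of the pairs with `v = 0` -/
theorem str {N h P B : ℕ} {t : Q2} (ht : IsPairAt N h P B t) (hv : vv t = 0) :
    ∃ a d : ℕ, 1 ≤ a ∧ t.a = 2 * a ∧ 1 ≤ d ∧ 4 * t.m = d * (t.u + 3 * a) ∧
      4 * (t.m' : ℤ) = d * (t.u - a) ∧
      (t.u : ℤ) ^ 2 * t.m - (t.u + 2 * a) ^ 2 * t.m' = a ^ 3 * d ∧ a ^ 3 * d < h := by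
  obtain ⟨a, ha⟩ := ht.hev
  have ha2 : t.a = 2 * a := by omega
  have ha1 : 1 ≤ a := by have := ht.ha; omega
  have hco := ht.hco
  have h0 := ht.h0
  have h0' := ht.h0'
  have h1 := ht.h1
  have h1' := ht.h1'
  have hu := ht.hu
  rw [ha2] at hco h1 h1'
  have hm : 1 ≤ t.m := by
    rcases Nat.eq_zero_or_pos t.m with h | h
    · rw [h, mul_zero] at h0
      omega
    · exact h
  unfold vv at hv
  rw [ha2] at hv
  push_cast at hv
  have hv' : ((t.u : ℤ) - a) * t.m = (t.u + 3 * a) * t.m' := by linarith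
  have hid : ((t.u : ℤ) ^ 2 * t.m - (t.u + 2 * a) ^ 2 * t.m') * (t.u + 3 * a) =
      a ^ 3 * (4 * t.m) := by
    linear_combination ((t.u : ℤ) + 2 * a) ^ 2 * hv'
  have hcop : IsCoprime ((a : ℤ) ^ 3) ((t.u : ℤ) + 3 * a) := by
    have h2 : Nat.Coprime a (t.u + 3 * a) := by
      have h3 : Nat.Coprime t.u a := Nat.Coprime.coprime_mul_left_right hco
      have h4 : Nat.Coprime a t.u := h3.symm
      exact (Nat.coprime_add_mul_right_right a t.u 3).mpr h4
    have h5 := (Nat.isCoprime_iff_coprime.mpr h2)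
    push_cast at h5
    exact h5.pow_left
  obtain ⟨d, hd⟩ : (a : ℤ) ^ 3 ∣ (t.u : ℤ) ^ 2 * t.m - (t.u + 2 * a) ^ 2 * t.m' := by
    exact hcop.dvd_of_dvd_mul_right ⟨4 * t.m, hid⟩
  have ha3 : (0 : ℤ) < (a : ℤ) ^ 3 := by positivity
  have hdm : d * ((t.u : ℤ) + 3 * a) = 4 * t.m := by
    rw [hd, mul_assoc] at hid
    exact mul_left_cancel₀ ha3.ne' hid
  have hupos : (0 : ℤ) < (t.u : ℤ) + 3 * a := by positivity
  have hd0 : 0 < d := by
    by_contra hcon
    have h6 : d ≤ 0 := not_lt.mp hcon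
    have h7 : d * ((t.u : ℤ) + 3 * a) ≤ 0 := mul_nonpos_of_nonpos_of_nonneg h6 hupos.le
    have h8 : (0 : ℤ) < t.m := by exact_mod_cast hm
    linarith
  obtain ⟨e, rfl⟩ : ∃ e : ℕ, d = e := ⟨d.toNat, (Int.toNat_of_nonneg hd0.le).symm⟩
  refine ⟨a, e, ha1, ha2, by exact_mod_cast hd0, ?_, ?_, hd, ?_⟩
  · have h9 : (4 * t.m : ℤ) = e * (t.u + 3 * a) := hdm.symm
    exact_mod_cast h9
  · have h9 : ((t.u : ℤ) + 3 * a) * (4 * t.m') = (t.u + 3 * a) * (e * (t.u - a)) := by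
      linear_combination -4 * hv' + (((t.u : ℤ)) - a) * (-hdm)
    exact mul_left_cancel₀ hupos.ne' h9
  · have h9 : (a : ℤ) ^ 3 * e < h := by
      rw [← hd]
      have h10 : (t.u : ℤ) ^ 2 * t.m ≤ N + h := by exact_mod_cast h0'
      have h11 : (N : ℤ) < (t.u + 2 * a) ^ 2 * t.m' := by exact_mod_cast h1
      linarith
    exact_mod_cast h9

/-- size of `d` -/
theorem d_le {N h P B Y : ℕ} {t : Q2} (ht : IsPairAt N h P B t) {a d : ℕ}
    (h4 : 4 * t.m = d * (t.u + 3 * a)) (hN : N < 2 * Y) (hh : h ≤ Y) :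
    d * P ^ 3 ≤ 12 * Y := by
  have hu := ht.hu
  have h0' := ht.h0'
  calc d * P ^ 3 = P ^ 2 * (d * P) := by ring
    _ ≤ t.u ^ 2 * (d * (t.u + 3 * a)) := by
        apply Nat.mul_le_mul (Nat.pow_le_pow_left hu 2)
        exact Nat.mul_le_mul_left _ (by omega)
    _ = 4 * (t.u ^ 2 * t.m) := by rw [← h4]; ring
    _ ≤ 12 * Y := by omega

/-- the key to the injectivity -/
theorem inj_aux {P h c a c' a' : ℤ} (hP : 1000 ≤ P) (h2 : 2 * h ≤ P) (hc : P ≤ c) (hc2 : c ≤ 2 * P)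
    (ha : 1 ≤ a) (ha3 : a ^ 3 < h) (ha' : 1 ≤ a') (hcc : c' < c) (hc' : P ≤ c')
    (hG : (c ^ 3 - 3 * a ^ 2 * c) - (c' ^ 3 - 3 * a' ^ 2 * c') < 4 * h) : False := by
  have h3 : 4 * a ^ 2 ≤ P := by
    rcases le_or_gt a 7 with h7 | h7
    · nlinarith
    · nlinarith [sq_nonneg a, mul_nonneg (sq_nonneg a) (by linarith : (0 : ℤ) ≤ a - 8)]
  have h4 : 3 * P ^ 2 ≤ c ^ 3 - c' ^ 3 := by
    have h5 : c ^ 3 - c' ^ 3 = (c - c') * (c ^ 2 + c * c' + c' ^ 2) := by ring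
    rw [h5]
    have h6 : P ^ 2 ≤ c ^ 2 := by nlinarith
    have h7 : P ^ 2 ≤ c * c' := by nlinarith
    have h8 : P ^ 2 ≤ c' ^ 2 := by nlinarith
    nlinarith
  have h5 : 4 * (3 * a ^ 2 * c) ≤ 6 * P ^ 2 := by nlinarith
  have h6 : 0 ≤ 3 * a' ^ 2 * c' := mul_nonneg (by positivity) (by linarith)
  nlinarith

theorem inj_aux2 {P h c a b : ℤ} (hP : 1000 ≤ P) (h2 : 2 * h ≤ P) (hc : P ≤ c) (ha : 1 ≤ a)
    (hab : a < b) (hG : (c ^ 3 - 3 * a ^ 2 * c) - (c ^ 3 - 3 * b ^ 2 * c) < 4 * h) : False := by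
  have h3 : 1 ≤ b ^ 2 - a ^ 2 := by nlinarith
  have h4 : 3 * c * 1 ≤ 3 * c * (b ^ 2 - a ^ 2) :=
    mul_le_mul_of_nonneg_left h3 (by linarith)
  linarith

end VZ

theorem vzb : VZB_stmt := by
  intro N Y h P B h2 hP hh hY hYN hN2 hB T hT
  have hP0 : 0 < P ^ 3 := by positivity
  have key : T.card ≤ 12 * Y / P ^ 3 := by
    classical
    have hcard : (Finset.Icc 1 (12 * Y / P ^ 3)).card = 12 * Y / P ^ 3 := by simp
    rw [← hcard]
    have hex : ∀ t ∈ T, ∃ a d : ℕ, 1 ≤ a ∧ t.a = 2 * a ∧ 1 ≤ d ∧ 4 * t.m = d * (t.u + 3 * a) ∧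
      4 * (t.m' : ℤ) = d * (t.u - a) ∧
      (t.u : ℤ) ^ 2 * t.m - (t.u + 2 * a) ^ 2 * t.m' = a ^ 3 * d ∧ a ^ 3 * d < h :=
      fun t ht => VZ.str (hT t ht).1 (hT t ht).2
    choose! fa fd hfa using hex
    apply Finset.card_le_card_of_injOn fd
    · intro t ht
      obtain ⟨g1, g2, g3, g4, g5, g6, g7⟩ := hfa t ht
      have h3 := VZ.d_le (hT t ht).1 g4 hN2 hY
      rw [Finset.coe_Icc]
      exact ⟨g3, (Nat.le_div_iff_mul_le hP0).mpr h3⟩
    · intro t ht s hs hts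
      obtain ⟨g1, g2, g3, g4, g5, g6, g7⟩ := hfa t ht
      obtain ⟨k1, k2, k3, k4, k5, k6, k7⟩ := hfa s hs
      have hti := (hT t ht).1
      have hsi := (hT s hs).1
      rw [← hts] at k3 k4 k5 k6 k7
      -- the two middle values
      set d := fd t with hd
      set a := fa t with ha
      set b := fa s with hb
      have w1 := hti.h0
      have w1' := hti.h0'
      have w2 := hti.h1
      have w2' := hti.h1'
      have v1 := hsi.h0
      have v1' := hsi.h0'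
      have v2 := hsi.h1
      have v2' := hsi.h1'
      have hut := hti.hu
      have hus := hsi.hu
      have hwt := hti.hw
      have hws := hsi.hw
      rw [g2] at w2 w2' hwt
      rw [k2] at v2 v2' hws
      zify at w1 w1' w2 w2' v1 v1' v2 v2' g4 k4 g1 k1 g3 g7 k7 h2 hP hut hus hwt hws
      have m1 : (d : ℤ) * (2 * (((t.u : ℤ) + a) ^ 3 - 3 * a ^ 2 * (t.u + a))) =
          4 * (t.u ^ 2 * t.m + (t.u + 2 * a) ^ 2 * t.m') := by
        linear_combination -(t.u : ℤ) ^ 2 * g4 - ((t.u : ℤ) + 2 * a) ^ 2 * g5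
      have m2 : (d : ℤ) * (2 * (((s.u : ℤ) + b) ^ 3 - 3 * b ^ 2 * (s.u + b))) =
          4 * (s.u ^ 2 * s.m + (s.u + 2 * b) ^ 2 * s.m') := by
        linear_combination -(s.u : ℤ) ^ 2 * k4 - ((s.u : ℤ) + 2 * b) ^ 2 * k5
      have hat : (a : ℤ) ^ 3 < h := by
        have : (a : ℤ) ^ 3 * 1 ≤ (a : ℤ) ^ 3 * d := mul_le_mul_of_nonneg_left g3 (by positivity)
        linarith
      have hbt : (b : ℤ) ^ 3 < h := by
        have : (b : ℤ) ^ 3 * 1 ≤ (b : ℤ) ^ 3 * d := mul_le_mul_of_nonneg_left g3 (by positivity)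
        linarith
      have hG : ((((t.u : ℤ) + a) ^ 3 - 3 * a ^ 2 * (t.u + a)) -
          (((s.u : ℤ) + b) ^ 3 - 3 * b ^ 2 * (s.u + b))) < 4 * h := by
        by_contra hcon
        push Not at hcon
        have h5 : (1 : ℤ) * (4 * h) ≤ d * ((((t.u : ℤ) + a) ^ 3 - 3 * a ^ 2 * (t.u + a)) -
          (((s.u : ℤ) + b) ^ 3 - 3 * b ^ 2 * (s.u + b))) :=
          mul_le_mul g3 hcon (by positivity) (by linarith)
        linarith
      have hG' : ((((s.u : ℤ) + b) ^ 3 - 3 * b ^ 2 * (s.u + b)) -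
          (((t.u : ℤ) + a) ^ 3 - 3 * a ^ 2 * (t.u + a))) < 4 * h := by
        by_contra hcon
        push Not at hcon
        have h5 : (1 : ℤ) * (4 * h) ≤ d * ((((s.u : ℤ) + b) ^ 3 - 3 * b ^ 2 * (s.u + b)) -
          (((t.u : ℤ) + a) ^ 3 - 3 * a ^ 2 * (t.u + a))) :=
          mul_le_mul g3 hcon (by positivity) (by linarith)
        linarith
      have hc : (t.u : ℤ) + a = s.u + b := by
        rcases lt_trichotomy ((t.u : ℤ) + a) (s.u + b) with h6 | h6 | h6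
        · exact (VZ.inj_aux hP h2 (by linarith) (by linarith) k1 hbt g1 h6 (by linarith)
            hG').elim
        · exact h6
        · exact (VZ.inj_aux hP h2 (by linarith) (by linarith) g1 hat k1 h6 (by linarith)
            hG).elim
      have hab : (a : ℤ) = b := by
        rw [hc] at hG hG'
        rcases lt_trichotomy (a : ℤ) b with h6 | h6 | h6
        · exact (VZ.inj_aux2 hP h2 (by linarith) g1 h6 hG).elim
        · exact h6
        · exact (VZ.inj_aux2 hP h2 (by linarith) k1 h6 hG').elim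
      have huu : (t.u : ℤ) = s.u := by linarith
      have hab' : a = b := by exact_mod_cast hab
      have huu' : t.u = s.u := by exact_mod_cast huu
      have hmm : t.m = s.m := by
        have : (4 * t.m : ℤ) = 4 * s.m := by rw [g4, k4, hab, huu]
        omega
      have hmm' : t.m' = s.m' := by
        have : (4 * t.m' : ℤ) = 4 * s.m' := by rw [g5, k5, hab, huu]
        omega
      have haa : t.a = s.a := by rw [g2, k2, hab']
      cases t
      cases s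
      simp only at haa huu' hmm hmm'
      subst haa huu' hmm hmm'
      rfl
  calc (T.card : ℝ) ≤ ((12 * Y / P ^ 3 : ℕ) : ℝ) := by exact_mod_cast key
    _ ≤ ((12 * Y : ℕ) : ℝ) / ((P ^ 3 : ℕ) : ℝ) := Nat.cast_div_le
    _ = 12 * Y / P ^ 3 := by push_cast; ring

end Pool.Agent.SQG
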