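import Mathlib
import Pool.Agent.Lib.SQG.Defs3
import Pool.Agent.Lib.MP_8739b7_nt.Asymp
import Pool.Agent.Lib.SQG.PAIR
import Pool.Agent.Lib.SQG.VZB
import Pool.Agent.Lib.SQG.Rpair

/-!
# Gaps between squarefree numbers: the longest gaps

Row FT: every interval `(n, n + n ^ (1 / 5 + ε)]`, `n` large, contains a squarefree number.
-/

set_option autoImplicit false

namespace Pool.Agent.SQG

open Finset Filter Topology Pool.Agent.Lib.MP_8739b7_nt

namespace FTx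

/-- No bad window for `h` a power of `log N` above `N ^ (1 / 5)`. -/
def NBW : Prop := ∃ C : ℝ, ∀ N h : ℕ, 1 ≤ h →
  C * ((Nat.log 2 (3 * N) + 1 : ℕ) : ℝ) ^ 60 * N ≤ (h : ℝ) ^ 5 → C * (h : ℝ) ^ 4 ≤ N → ¬ Bad h N

lemma small (C ε : ℝ) (hε : 0 < ε) (hε1 : ε ≤ 1 / 100) :
    ∃ N0 : ℕ, ∀ n : ℕ, N0 ≤ n → 1 ≤ n ∧ 2 ≤ (n : ℝ) ^ (1 / 5 + ε) ∧
      32 * C * ((Nat.log 2 (3 * n) + 1 : ℕ) : ℝ) ^ 60 ≤ (n : ℝ) ^ (5 * ε) ∧
      C ≤ (n : ℝ) ^ (4 / 25 : ℝ) := by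
  obtain ⟨C1, hC1, hL⟩ := exists_L (ε / 60) (by positivity)
  have t1 : ∀ᶠ n : ℕ in atTop, (1 : ℕ) ≤ n := eventually_ge_atTop 1
  have t2 : ∀ᶠ n : ℕ in atTop, (2 : ℝ) ≤ (n : ℝ) ^ (1 / 5 + ε) :=
    ((tendsto_rpow_atTop (by linarith : (0 : ℝ) < 1 / 5 + ε)).comp
      tendsto_natCast_atTop_atTop).eventually (eventually_ge_atTop 2)
  have t3 : ∀ᶠ n : ℕ in atTop, 32 * |C| * C1 ^ 60 ≤ (n : ℝ) ^ (4 * ε) :=
    ((tendsto_rpow_atTop (by linarith : (0 : ℝ) < 4 * ε)).comp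
      tendsto_natCast_atTop_atTop).eventually (eventually_ge_atTop _)
  have t4 : ∀ᶠ n : ℕ in atTop, C ≤ (n : ℝ) ^ (4 / 25 : ℝ) :=
    ((tendsto_rpow_atTop (by norm_num : (0 : ℝ) < 4 / 25)).comp
      tendsto_natCast_atTop_atTop).eventually (eventually_ge_atTop _)
  obtain ⟨N0, hN0⟩ := eventually_atTop.1 (t1.and (t2.and (t3.and t4)))
  refine ⟨N0, fun n hn => ?_⟩
  obtain ⟨h1, h2, h3, h4⟩ := hN0 n hn
  refine ⟨h1, h2, ?_, h4⟩
  have hnR : (1 : ℝ) ≤ n := by exact_mod_cast h1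
  have hn0 : (0 : ℝ) < n := by linarith
  have h5 := hL n h1
  have h6 : ((Nat.log 2 (3 * n) + 1 : ℕ) : ℝ) ^ 60 ≤ (C1 * (n : ℝ) ^ (ε / 60)) ^ 60 :=
    pow_le_pow_left₀ (by positivity) h5 60
  have h7 : (C1 * (n : ℝ) ^ (ε / 60)) ^ 60 = C1 ^ 60 * (n : ℝ) ^ ε := by
    rw [mul_pow, ← Real.rpow_natCast ((n : ℝ) ^ (ε / 60)) 60, ← Real.rpow_mul hn0.le]
    congr 2
    push_cast
    ring
  calc 32 * C * ((Nat.log 2 (3 * n) + 1 : ℕ) : ℝ) ^ 60
      ≤ 32 * |C| * ((Nat.log 2 (3 * n) + 1 : ℕ) : ℝ) ^ 60 := by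
        have := le_abs_self C
        gcongr
    _ ≤ 32 * |C| * (C1 ^ 60 * (n : ℝ) ^ ε) := by
        rw [← h7]
        gcongr
    _ = (32 * |C| * C1 ^ 60) * (n : ℝ) ^ ε := by ring
    _ ≤ (n : ℝ) ^ (4 * ε) * (n : ℝ) ^ ε := by
        gcongr
    _ = (n : ℝ) ^ (5 * ε) := by
        rw [← Real.rpow_add hn0]
        congr 1
        ring

/-- Many pairs in one window, with differences divisible by `M`. -/
lemma exists_G (hG : GAP_stmt) (N h i B M : ℕ) (S : Finset ℕ) (hS : S ⊆ SD h N i)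
    (hP : 1000 ≤ 2 ^ i) (hB1 : 1 ≤ B) (hBP : B < 2 ^ i) (hM : ∀ s ∈ S, ∀ t ∈ S, s % M = t % M)
    (hS12 : 12 ≤ S.card) (hS6 : 6 * 2 ^ i ≤ B * S.card) :
    ∃ G : Finset Q2, (∀ t ∈ G, IsPairAt N h (2 ^ i) B t ∧ M ∣ t.a ∧ Odd t.u) ∧
      S.card ≤ 3 * G.card := by
  classical
  have hgap := hG (2 ^ i) B S hB1
    (fun s hs => ⟨(Rpx.mem_SD' (hS hs)).1, (Rpx.mem_SD' (hS hs)).2.1⟩) hS12 hS6
  set good := S.filter (fun s => (∃ u ∈ S, u < s ∧ s ≤ u + B) ∧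
    ∃ w ∈ S, s < w ∧ w ≤ s + B) with hgood
  have hmc : ∀ p, ∃ m, p ∈ SD h N i → (N < p ^ 2 * m ∧ p ^ 2 * m ≤ N + h) := by
    intro p
    by_cases hp : p ∈ SD h N i
    · obtain ⟨_, _, _, m, hm⟩ := Rpx.mem_SD' hp
      exact ⟨m, fun _ => hm⟩
    · exact ⟨0, fun hp' => absurd hp' hp⟩
  choose mc hmc using hmc
  have huf : ∀ s, ∃ u, s ∈ good → (u ∈ S ∧ u < s ∧ s ≤ u + B) := by
    intro s
    by_cases hs : s ∈ good
    · rw [hgood, mem_filter] at hs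
      obtain ⟨_, ⟨u, hu, hu1, hu2⟩, _⟩ := hs
      exact ⟨u, fun _ => ⟨hu, hu1, hu2⟩⟩
    · exact ⟨0, fun hs' => absurd hs' hs⟩
  choose uf huf using huf
  refine ⟨good.image (fun s => (⟨s - uf s, uf s, mc (uf s), mc s⟩ : Q2)), ?_, ?_⟩
  · intro t ht
    rw [mem_image] at ht
    obtain ⟨s, hs, rfl⟩ := ht
    obtain ⟨hu0, hu1, hu2⟩ := huf s hs
    have hsS0 : s ∈ S := (mem_filter.1 hs).1
    have hsS : s ∈ SD h N i := hS hsS0
    have hu : uf s ∈ SD h N i := hS hu0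
    obtain ⟨s1, s2, s3, _⟩ := Rpx.mem_SD' hsS
    obtain ⟨u1, u2, u3, _⟩ := Rpx.mem_SD' hu
    have hsu : uf s + (s - uf s) = s := by omega
    have o1 : Odd s := s3.odd_of_ne_two (by omega)
    have o2 : Odd (uf s) := u3.odd_of_ne_two (by omega)
    refine ⟨⟨u1, ?_, ?_, ?_, ?_, ?_, (hmc _ hu).1, (hmc _ hu).2, ?_, ?_⟩, ?_, o2⟩
    · show uf s + (s - uf s) < 2 * 2 ^ i
      rw [hsu]; exact s2
    · show 1 ≤ s - uf s
      omega
    · show s - uf s ≤ B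
      omega
    · show Even (s - uf s)
      exact Nat.Odd.sub_odd o1 o2
    · show Nat.Coprime (uf s) (s - uf s)
      rw [u3.coprime_iff_not_dvd]
      intro hd
      have h7 := Nat.le_of_dvd (by omega) hd
      have h8 : s - uf s < 2 ^ i := lt_of_le_of_lt (by omega) hBP
      omega
    · show N < (uf s + (s - uf s)) ^ 2 * mc s
      rw [hsu]; exact (hmc _ hsS).1
    · show (uf s + (s - uf s)) ^ 2 * mc s ≤ N + h
      rw [hsu]; exact (hmc _ hsS).2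
    · show M ∣ s - uf s
      exact (Nat.modEq_iff_dvd' hu1.le).1 (hM _ hu0 _ hsS0)
  · rw [card_image_of_injOn]
    · exact hgap
    · intro s hs s' hs' heq
      simp only [Q2.mk.injEq] at heq
      obtain ⟨e1, e2, _, _⟩ := heq
      obtain ⟨_, hu1, _⟩ := huf s hs
      obtain ⟨_, hu1', _⟩ := huf s' hs'
      omega

/-- One residue class has its share. -/
lemma exists_class (S : Finset ℕ) (M : ℕ) (hM : 1 ≤ M) :
    ∃ S' ⊆ S, (∀ s ∈ S', ∀ t ∈ S', s % M = t % M) ∧ S.card ≤ M * S'.card := by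
  classical
  by_contra hcon
  push Not at hcon
  have h1 : ∀ r ∈ range M, M * (S.filter (fun s => s % M = r)).card < S.card := by
    intro r _
    apply hcon _ (filter_subset _ _)
    intro s hs t ht
    rw [mem_filter] at hs ht
    rw [hs.2, ht.2]
  have h2 : S.card = ∑ r ∈ range M, (S.filter (fun s => s % M = r)).card := by
    apply Finset.card_eq_sum_card_fiberwise
    intro s _
    simp only [coe_range, Set.mem_Iio]
    exact Nat.mod_lt _ hM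
  have h3 : ∑ r ∈ range M, M * (S.filter (fun s => s % M = r)).card < ∑ _r ∈ range M, S.card :=
    Finset.sum_lt_sum_of_nonempty ⟨0, by simp; omega⟩ h1
  rw [← Finset.mul_sum, ← h2, Finset.sum_const, card_range, smul_eq_mul] at h3
  exact absurd h3 (lt_irrefl _)

/-- Pairs with `v = 0`: size. -/
lemma vz_size {N Y h P B : ℕ} {t : Q2} (ht : IsPairAt N h P B t) (hv : vv t = 0) (hY : Y ≤ N)
    (hBP : B ≤ P) : t.a ^ 3 * Y < 24 * h * P ^ 3 := by
  obtain ⟨a, d, h1, h2, h3, h4, h5, h6, h7⟩ := VZ.str ht hv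
  have hu := ht.hu
  have hw := ht.hw
  have h0 := ht.h0
  have haB := ht.haB
  have e1 : 4 * (t.u ^ 2 * t.m) = t.u ^ 2 * (d * (t.u + 3 * a)) := by rw [← h4]; ring
  have e2 : 4 * Y < t.u ^ 2 * (d * (t.u + 3 * a)) := by omega
  have e3 : t.u ^ 2 * (t.u + 3 * a) ≤ (2 * P) ^ 2 * (3 * P) := by
    apply Nat.mul_le_mul
    · exact Nat.pow_le_pow_left (by omega) 2
    · omega
  have ha3 : 0 < a ^ 3 := by positivity
  have e4 : a ^ 3 * (4 * Y) < h * (12 * P ^ 3) := by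
    calc a ^ 3 * (4 * Y) < a ^ 3 * (t.u ^ 2 * (d * (t.u + 3 * a))) :=
          Nat.mul_lt_mul_of_pos_left e2 ha3
      _ = (a ^ 3 * d) * (t.u ^ 2 * (t.u + 3 * a)) := by ring
      _ ≤ h * ((2 * P) ^ 2 * (3 * P)) := Nat.mul_le_mul h7.le e3
      _ = h * (12 * P ^ 3) := by ring
  calc t.a ^ 3 * Y = 2 * (a ^ 3 * (4 * Y)) := by rw [h2]; ring
    _ < 2 * (h * (12 * P ^ 3)) := by omega
    _ = 24 * h * P ^ 3 := by ring

/-- numerics -/
lemma num1 (x P y b lm : ℝ) (hl : 24 ≤ lm) (hx : 0 < x) (hy : 0 ≤ y) (hb0 : 0 ≤ b)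
    (hP0 : 0 < P) (hxy : 10 ^ 60 * lm ^ 60 * y ≤ x ^ 5) (hb : b * x ≤ 600 * lm ^ 2 * P)
    (hP : x < 8 * P) : 23 * b * y * (42467328 * lm ^ 2 * b) ^ 3 ≤ P ^ 5 := by
  have hl0 : 0 < lm := by linarith
  have hl1 : 1 ≤ lm := by linarith
  have h1 : (b * x) ^ 4 ≤ (600 * lm ^ 2 * P) ^ 4 := pow_le_pow_left₀ (by positivity) hb 4
  have h2 : lm ^ 14 ≤ lm ^ 60 := pow_le_pow_right₀ hl1 (by norm_num)
  have h3 : 10 ^ 60 * lm ^ 60 * y * P ^ 4 ≤ 8 * P ^ 5 * x ^ 4 := by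
    calc 10 ^ 60 * lm ^ 60 * y * P ^ 4 ≤ x ^ 5 * P ^ 4 := by gcongr
      _ = x * (x ^ 4 * P ^ 4) := by ring
      _ ≤ 8 * P * (x ^ 4 * P ^ 4) := by gcongr
      _ = 8 * P ^ 5 * x ^ 4 := by ring
  have h4 : (23 * b * y * (42467328 * lm ^ 2 * b) ^ 3) * x ^ 4 ≤ P ^ 5 * x ^ 4 := by
    calc (23 * b * y * (42467328 * lm ^ 2 * b) ^ 3) * x ^ 4
        = 23 * 42467328 ^ 3 * lm ^ 6 * y * (b * x) ^ 4 := by ring
      _ ≤ 23 * 42467328 ^ 3 * lm ^ 6 * y * (600 * lm ^ 2 * P) ^ 4 := by gcongr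
      _ = (23 * 42467328 ^ 3 * 600 ^ 4) * (lm ^ 14 * (y * P ^ 4)) := by ring
      _ ≤ (10 ^ 60 / 8) * (lm ^ 60 * (y * P ^ 4)) := by
          apply mul_le_mul
          · norm_num
          · gcongr
          · positivity
          · positivity
      _ = (10 ^ 60 * lm ^ 60 * y * P ^ 4) / 8 := by ring
      _ ≤ P ^ 5 * x ^ 4 := by linarith
  exact le_of_mul_le_mul_right h4 (by positivity)

lemma num2 (x P y b lm : ℝ) (hl : 24 ≤ lm) (hx : 0 < x) (hy : 0 ≤ y) (hb0 : 0 ≤ b)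
    (hP0 : 0 < P) (hbig : 10 ^ 120 * lm ^ 60 ≤ x)
    (hxy : 10 ^ 60 * lm ^ 60 * y ≤ x ^ 5) (hb : b * x ≤ 600 * lm ^ 2 * P) :
    12 * x * b / P + 12 * b ^ 4 * y / P ^ 4 + 12288 * x * b / (42467328 * lm ^ 2 * b) ≤
      x / (1152 * lm ^ 2) := by
  have hl0 : 0 < lm := by linarith
  have hl1 : 1 ≤ lm := by linarith
  have e1 : 12 * x * b / P ≤ x / (3456 * lm ^ 2) := by
    have h1 : 12 * x * b / P ≤ 7200 * lm ^ 2 := by
      rw [div_le_iff₀ hP0]
      linarith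
    have h2 : 7200 * lm ^ 2 ≤ x / (3456 * lm ^ 2) := by
      rw [le_div_iff₀ (by positivity)]
      have h3 : lm ^ 4 ≤ lm ^ 60 := pow_le_pow_right₀ hl1 (by norm_num)
      have h4 : 0 < lm ^ 60 := by positivity
      nlinarith
    exact h1.trans h2
  have e2 : 12 * b ^ 4 * y / P ^ 4 ≤ x / (3456 * lm ^ 2) := by
    rw [div_le_div_iff₀ (by positivity) (by positivity)]
    have h1 : (b * x) ^ 4 ≤ (600 * lm ^ 2 * P) ^ 4 := pow_le_pow_left₀ (by positivity) hb 4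
    have h2 : lm ^ 10 ≤ lm ^ 60 := pow_le_pow_right₀ hl1 (by norm_num)
    have h3 : 12 * b ^ 4 * y * (3456 * lm ^ 2) * x ^ 4 ≤ x * P ^ 4 * x ^ 4 := by
      calc 12 * b ^ 4 * y * (3456 * lm ^ 2) * x ^ 4 = 41472 * lm ^ 2 * y * (b * x) ^ 4 := by ring
        _ ≤ 41472 * lm ^ 2 * y * (600 * lm ^ 2 * P) ^ 4 := by gcongr
        _ = (41472 * 600 ^ 4) * (lm ^ 10 * (y * P ^ 4)) := by ring
        _ ≤ 10 ^ 60 * (lm ^ 60 * (y * P ^ 4)) := by
            apply mul_le_mul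
            · norm_num
            · gcongr
            · positivity
            · positivity
        _ = (10 ^ 60 * lm ^ 60 * y) * P ^ 4 := by ring
        _ ≤ x ^ 5 * P ^ 4 := by gcongr
        _ = x * P ^ 4 * x ^ 4 := by ring
    exact le_of_mul_le_mul_right h3 (by positivity)
  have e3 : 12288 * x * b / (42467328 * lm ^ 2 * b) ≤ x / (3456 * lm ^ 2) := by
    rcases eq_or_lt_of_le hb0 with hb1 | hb1
    · rw [← hb1]
      simp only [mul_zero, zero_div]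
      positivity
    · rw [div_le_div_iff₀ (by positivity) (by positivity)]
      nlinarith
  have e4 : x / (1152 * lm ^ 2) = 3 * (x / (3456 * lm ^ 2)) := by
    field_simp
    norm_num
  rw [e4]
  linarith

lemma num3 (x P y b lm : ℝ) (hl : 24 ≤ lm) (hx : 0 < x) (hy : 0 < y) (hb0 : 0 ≤ b)
    (hP0 : 0 < P) (hbig : 10 ^ 120 * lm ^ 60 ≤ x) (hyx : 10 ^ 60 * x ^ 4 ≤ y)
    (hxy : 10 ^ 60 * lm ^ 60 * y ≤ x ^ 5) (hb : b * x ≤ 600 * lm ^ 2 * P)
    (hP : y < 8 * P ^ 2 * x) : 3 * x / P + 3 * b ^ 3 * y / P ^ 4 < 1 := by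
  have hl0 : 0 < lm := by linarith
  have hl1 : 1 ≤ lm := by linarith
  have hx1 : 1 ≤ x := by
    have : (1 : ℝ) ≤ lm ^ 60 := one_le_pow₀ hl1
    nlinarith
  have e1 : 3 * x / P ≤ 1 / 4 := by
    rw [div_le_iff₀ hP0]
    have h1 : (12 * x) ^ 2 ≤ P ^ 2 := by
      have h2 : (12 * x) ^ 2 * (8 * x) ≤ P ^ 2 * (8 * x) := by
        calc (12 * x) ^ 2 * (8 * x) = 1152 * x ^ 3 := by ring
          _ ≤ 10 ^ 60 * x ^ 4 := by
              have : x ^ 3 ≤ x ^ 4 := pow_le_pow_right₀ hx1 (by norm_num)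
              have h3 : 0 < x ^ 3 := by positivity
              nlinarith
          _ ≤ y := hyx
          _ ≤ P ^ 2 * (8 * x) := by linarith
      exact le_of_mul_le_mul_right h2 (by positivity)
    have h4 : 12 * x ≤ P := le_of_pow_le_pow_left₀ (by norm_num) hP0.le h1
    linarith
  have e2 : 3 * b ^ 3 * y / P ^ 4 ≤ 1 / 4 := by
    rw [div_le_iff₀ (by positivity)]
    have h1 : (12 * 600 ^ 3 * lm ^ 6 * y) ^ 2 ≤ (P * x ^ 3) ^ 2 := by
      have h2 : lm ^ 12 ≤ lm ^ 60 := pow_le_pow_right₀ hl1 (by norm_num)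
      calc (12 * 600 ^ 3 * lm ^ 6 * y) ^ 2 = (144 * 600 ^ 6) * (lm ^ 12 * y ^ 2) := by ring
        _ ≤ (10 ^ 60 / 8) * (lm ^ 60 * y ^ 2) := by
            apply mul_le_mul
            · norm_num
            · gcongr
            · positivity
            · positivity
        _ = (10 ^ 60 * lm ^ 60 * y) * y / 8 := by ring
        _ ≤ x ^ 5 * (8 * P ^ 2 * x) / 8 := by
            have := hP.le
            gcongr
        _ = (P * x ^ 3) ^ 2 := by ring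
    have h3 : 12 * 600 ^ 3 * lm ^ 6 * y ≤ P * x ^ 3 :=
      le_of_pow_le_pow_left₀ (by norm_num) (by positivity) h1
    have h4 : (b * x) ^ 3 ≤ (600 * lm ^ 2 * P) ^ 3 := pow_le_pow_left₀ (by positivity) hb 3
    have h5 : 12 * b ^ 3 * y * x ^ 3 ≤ P ^ 4 * x ^ 3 := by
      calc 12 * b ^ 3 * y * x ^ 3 = 12 * y * (b * x) ^ 3 := by ring
        _ ≤ 12 * y * (600 * lm ^ 2 * P) ^ 3 := by gcongr
        _ = (12 * 600 ^ 3 * lm ^ 6 * y) * P ^ 3 := by ring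
        _ ≤ (P * x ^ 3) * P ^ 3 := by gcongr
        _ = P ^ 4 * x ^ 3 := by ring
    have h6 : 12 * b ^ 3 * y ≤ P ^ 4 := le_of_mul_le_mul_right h5 (by positivity)
    linarith
  linarith

theorem of_nbw (hc : NBW) : FT_stmt := by
  intro ε0 hε0
  obtain ⟨C, hC⟩ := hc
  obtain ⟨ε, hεd⟩ : ∃ ε : ℝ, ε = min ε0 (1 / 100) := ⟨_, rfl⟩
  have hε : 0 < ε := by rw [hεd]; exact lt_min hε0 (by norm_num)
  have hε1 : ε ≤ 1 / 100 := by rw [hεd]; exact min_le_right _ _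
  have hεε : ε ≤ ε0 := by rw [hεd]; exact min_le_left _ _
  obtain ⟨N0, hN0⟩ := small C ε hε hε1
  refine ⟨N0, fun n hn => ?_⟩
  obtain ⟨h1, h2, h3, h4⟩ := hN0 n hn
  have hnR : (1 : ℝ) ≤ n := by exact_mod_cast h1
  have hn0 : (0 : ℝ) < n := by linarith
  obtain ⟨x, hx⟩ : ∃ x : ℝ, x = (n : ℝ) ^ (1 / 5 + ε) := ⟨_, rfl⟩
  rw [← hx] at h2
  obtain ⟨h, hh⟩ : ∃ h : ℕ, h = ⌊x⌋₊ := ⟨_, rfl⟩
  have hhx : (h : ℝ) ≤ x := by rw [hh]; exact Nat.floor_le (by linarith)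
  have hxh : x < h + 1 := by rw [hh]; exact Nat.lt_floor_add_one x
  have hx2 : x / 2 ≤ h := by linarith
  have hh1 : 1 ≤ h := by
    have : (0 : ℝ) < h := by linarith
    exact_mod_cast this
  have hx5 : x ^ 5 = n * (n : ℝ) ^ (5 * ε) := by
    rw [hx, ← Real.rpow_natCast, ← Real.rpow_mul hn0.le]
    have : (1 / 5 + ε) * ((5 : ℕ) : ℝ) = 1 + 5 * ε := by push_cast; ring
    rw [this, Real.rpow_add hn0, Real.rpow_one]
  have hx4 : x ^ 4 ≤ (n : ℝ) ^ (21 / 25 : ℝ) := by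
    rw [hx, ← Real.rpow_natCast, ← Real.rpow_mul hn0.le]
    apply Real.rpow_le_rpow_of_exponent_le hnR
    push_cast
    linarith
  have hA : C * ((Nat.log 2 (3 * n) + 1 : ℕ) : ℝ) ^ 60 * n ≤ (h : ℝ) ^ 5 := by
    have h5 : (x / 2) ^ 5 ≤ (h : ℝ) ^ 5 := pow_le_pow_left₀ (by linarith) hx2 5
    have h6 : (x / 2) ^ 5 = x ^ 5 / 32 := by ring
    rw [h6, hx5] at h5
    have h7 : 32 * C * ((Nat.log 2 (3 * n) + 1 : ℕ) : ℝ) ^ 60 * n ≤ (n : ℝ) ^ (5 * ε) * n :=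
      mul_le_mul_of_nonneg_right h3 hn0.le
    linarith
  have hB : C * (h : ℝ) ^ 4 ≤ n := by
    have h5 : (h : ℝ) ^ 4 ≤ x ^ 4 := pow_le_pow_left₀ (by positivity) hhx 4
    calc C * (h : ℝ) ^ 4 ≤ (n : ℝ) ^ (4 / 25 : ℝ) * (n : ℝ) ^ (21 / 25 : ℝ) := by
          apply mul_le_mul h4 (h5.trans hx4) (by positivity) (by positivity)
      _ = n := by
          rw [← Real.rpow_add hn0]
          norm_num
  have hbad := hC n h hh1 hA hB
  unfold Bad at hbad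
  push Not at hbad
  obtain ⟨j, hj, hj2⟩ := hbad
  rw [mem_Icc] at hj
  refine ⟨n + j, by omega, ?_, hj2⟩
  have hjR : (j : ℝ) ≤ h := by exact_mod_cast hj.2
  have hexp : x ≤ (n : ℝ) ^ (1 / 5 + ε0) := by
    rw [hx]
    exact Real.rpow_le_rpow_of_exponent_le hnR (by linarith)
  push_cast
  linarith

theorem nbw (hG : GAP_stmt) (hD : FTD_stmt) (hVB : VZB_stmt) : NBW := by
  classical
  refine ⟨10 ^ 60, fun N h hh hA hB hbad => ?_⟩
  obtain ⟨l0, hl0⟩ : ∃ l0 : ℕ, l0 = Nat.log 2 (3 * N) + 1 := ⟨_, rfl⟩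
  obtain ⟨lm, hlm⟩ : ∃ lm : ℝ, lm = (l0 : ℝ) := ⟨_, rfl⟩
  obtain ⟨x, hx⟩ : ∃ x : ℝ, x = (h : ℝ) := ⟨_, rfl⟩
  obtain ⟨y, hy⟩ : ∃ y : ℝ, y = (N : ℝ) := ⟨_, rfl⟩
  rw [← hl0, ← hlm, ← hx, ← hy] at hA
  rw [← hx, ← hy] at hB
  have hx1 : 1 ≤ x := by rw [hx]; exact_mod_cast hh
  have hx0 : 0 < x := by linarith
  have hx4 : 1 ≤ x ^ 4 := one_le_pow₀ hx1
  have hy60 : (10 : ℝ) ^ 60 ≤ y := by nlinarith
  have hy0 : 0 < y := by
    have : (0 : ℝ) < 10 ^ 60 := by positivity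
    linarith
  have hN60 : 10 ^ 60 ≤ N := by
    rw [hy] at hy60
    exact_mod_cast hy60
  have hl24 : 24 ≤ l0 := by
    rw [hl0]
    have : 23 ≤ Nat.log 2 (3 * N) := by
      apply Nat.le_log_of_pow_le (by norm_num)
      have : 2 ^ 23 ≤ 10 ^ 60 := by norm_num
      omega
    omega
  have hlm24 : 24 ≤ lm := by rw [hlm]; exact_mod_cast hl24
  have hlm0 : 0 < lm := by linarith
  have hbig : 10 ^ 120 * lm ^ 60 ≤ x := by
    have h1 : (10 ^ 120 * lm ^ 60) * x ^ 4 ≤ x * x ^ 4 := by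
      calc (10 ^ 120 * lm ^ 60) * x ^ 4 = 10 ^ 60 * lm ^ 60 * (10 ^ 60 * x ^ 4) := by ring
        _ ≤ 10 ^ 60 * lm ^ 60 * y := by gcongr
        _ ≤ x ^ 5 := hA
        _ = x * x ^ 4 := by ring
    exact le_of_mul_le_mul_right h1 (by positivity)
  have hlm60 : lm ≤ lm ^ 60 := le_self_pow₀ (by linarith) (by norm_num)
  have hlm2 : lm ^ 2 ≤ lm ^ 60 := pow_le_pow_right₀ (by linarith) (by norm_num)
  have hxbig : (10 : ℝ) ^ 100 * lm ^ 2 ≤ x := by
    have h2 : 0 < lm ^ 60 := by positivity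
    calc (10 : ℝ) ^ 100 * lm ^ 2 ≤ 10 ^ 120 * lm ^ 60 := by
          apply mul_le_mul (by norm_num) hlm2 (by positivity) (by positivity)
      _ ≤ x := hbig
  have hlm2' : 1 ≤ lm ^ 2 := one_le_pow₀ (by linarith)
  have hx100 : (10 : ℝ) ^ 100 ≤ x := by nlinarith
  have hh100 : 10 ^ 100 ≤ h := by
    rw [hx] at hx100
    exact_mod_cast hx100
  have hh20 : 8000 ≤ h := by
    have : (8000 : ℕ) ≤ 10 ^ 100 := by norm_num
    omega
  have hhN4 : 10 ^ 60 * h ^ 4 ≤ N := by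
    rw [hx, hy] at hB
    exact_mod_cast hB
  have hhN : h ≤ N := by
    have h1 : h ≤ h ^ 4 := Nat.le_self_pow (by norm_num) h
    have h2 : (1 : ℕ) ≤ 10 ^ 60 := Nat.one_le_pow _ _ (by norm_num)
    nlinarith
  obtain ⟨i, -, hcard, h8, -⟩ := exists_dyadic N h N (by omega) hhN (by omega) hbad
  rw [← hl0, ← hlm, ← hx] at hcard
  obtain ⟨M, hM⟩ : ∃ M : ℕ, M = 24 * l0 := ⟨_, rfl⟩
  obtain ⟨S, hSS, hSM, hSc⟩ := exists_class (SD h N i) M (by omega)
  obtain ⟨P, hP⟩ : ∃ P : ℝ, P = 2 ^ i := ⟨_, rfl⟩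
  have hP0 : 0 < P := by rw [hP]; positivity
  have hPc : ((2 ^ i : ℕ) : ℝ) = P := by rw [hP]; push_cast; rfl
  have h8R : x < 8 * P := by
    rw [hx, ← hPc]
    exact_mod_cast h8
  have hP1000 : 1000 ≤ 2 ^ i := by omega
  obtain ⟨k, hk⟩ : ∃ k : ℝ, k = (S.card : ℝ) := ⟨_, rfl⟩
  have hSk : x ≤ 96 * lm ^ 2 * k := by
    have h1 : ((SD h N i).card : ℝ) ≤ M * k := by
      rw [hk]
      exact_mod_cast hSc
    have h2 : (M : ℝ) = 24 * lm := by rw [hM, hlm]; push_cast; ring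
    rw [h2] at h1
    rw [div_le_iff₀ (by positivity)] at hcard
    calc x ≤ ((SD h N i).card : ℝ) * (4 * lm) := hcard
      _ ≤ (24 * lm * k) * (4 * lm) := by gcongr
      _ = 96 * lm ^ 2 * k := by ring
  obtain ⟨B, hBd⟩ : ∃ B : ℕ, B = ⌈576 * lm ^ 2 * P / x⌉₊ := ⟨_, rfl⟩
  obtain ⟨b, hb⟩ : ∃ b : ℝ, b = (B : ℝ) := ⟨_, rfl⟩
  have hq0 : 0 < 576 * lm ^ 2 * P / x := by positivity
  have hb1 : 576 * lm ^ 2 * P ≤ b * x := by
    have h1 := Nat.le_ceil (576 * lm ^ 2 * P / x)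
    rw [← hBd, ← hb, div_le_iff₀ hx0] at h1
    exact h1
  have hb2 : b * x ≤ 600 * lm ^ 2 * P := by
    have h1 := Nat.ceil_lt_add_one hq0.le
    rw [← hBd, ← hb] at h1
    have h2 : b * x < (576 * lm ^ 2 * P / x + 1) * x := mul_lt_mul_of_pos_right h1 hx0
    have h3 : (576 * lm ^ 2 * P / x + 1) * x = 576 * lm ^ 2 * P + x := by field_simp
    rw [h3] at h2
    nlinarith
  have hB1 : 1 ≤ B := by rw [hBd]; exact Nat.one_le_iff_ne_zero.2 (Nat.ceil_pos.2 hq0).ne'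
  have hb0 : 0 < b := by
    rw [hb]
    exact_mod_cast hB1
  have h12B : 12 * B ≤ 2 ^ i := by
    have h1 : 12 * b ≤ P := by
      have h2 : 12 * b * x ≤ P * x := by
        calc 12 * b * x = 12 * (b * x) := by ring
          _ ≤ 12 * (600 * lm ^ 2 * P) := by gcongr
          _ = P * (7200 * lm ^ 2) := by ring
          _ ≤ P * x := by
              have : 7200 * lm ^ 2 ≤ x := by
                refine le_trans ?_ hxbig
                have : (7200 : ℝ) ≤ 10 ^ 100 := by norm_num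
                gcongr
              gcongr
      exact le_of_mul_le_mul_right h2 hx0
    rw [hb, ← hPc] at h1
    exact_mod_cast h1
  have hS12 : 12 ≤ S.card := by
    have h1 : (12 : ℝ) ≤ k := by
      have h2 : 96 * lm ^ 2 * 12 ≤ 96 * lm ^ 2 * k := by
        refine le_trans ?_ hSk
        refine le_trans ?_ hxbig
        have : (1152 : ℝ) ≤ 10 ^ 100 := by norm_num
        nlinarith
      exact le_of_mul_le_mul_left h2 (by positivity)
    rw [hk] at h1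
    exact_mod_cast h1
  have hS6 : 6 * 2 ^ i ≤ B * S.card := by
    have h1 : 6 * P ≤ b * k := by
      have h2 : (6 * P) * (96 * lm ^ 2) ≤ (b * k) * (96 * lm ^ 2) := by
        calc (6 * P) * (96 * lm ^ 2) = 576 * lm ^ 2 * P := by ring
          _ ≤ b * x := hb1
          _ ≤ b * (96 * lm ^ 2 * k) := by gcongr
          _ = (b * k) * (96 * lm ^ 2) := by ring
      exact le_of_mul_le_mul_right h2 (by positivity)
    rw [← hPc, hb, hk] at h1
    exact_mod_cast h1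
  obtain ⟨G, hGp, hGc⟩ := exists_G hG N h i B M S hSS hP1000 hB1 (by omega) hSM hS12 hS6
  have hGR : x / (288 * lm ^ 2) ≤ (G.card : ℝ) := by
    rw [div_le_iff₀ (by positivity)]
    have h1 : k ≤ 3 * (G.card : ℝ) := by
      rw [hk]
      exact_mod_cast hGc
    calc x ≤ 96 * lm ^ 2 * k := hSk
      _ ≤ 96 * lm ^ 2 * (3 * (G.card : ℝ)) := by gcongr
      _ = (G.card : ℝ) * (288 * lm ^ 2) := by ring
  have hsplit : (G.filter (fun t => vv t = 0)).card + (G.filter (fun t => ¬ vv t = 0)).card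
      = G.card := Finset.card_filter_add_card_filter_not _
  -- pairs with `v = 0`
  have hG0 : ((G.filter (fun t => vv t = 0)).card : ℝ) ≤ x / (1152 * lm ^ 2) := by
    rcases Finset.eq_empty_or_nonempty (G.filter (fun t => vv t = 0)) with he | ⟨t, ht⟩
    · rw [he, card_empty]
      push_cast
      positivity
    · rw [mem_filter] at ht
      obtain ⟨htG, htv⟩ := ht
      obtain ⟨ht1, ht2, -⟩ := hGp t htG
      have h1 := vz_size ht1 htv (le_refl N) (by omega)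
      have h2 : M ≤ t.a := Nat.le_of_dvd ht1.ha ht2
      have h3 : M ^ 3 * N < 24 * h * (2 ^ i) ^ 3 :=
        lt_of_le_of_lt (Nat.mul_le_mul_right _ (Nat.pow_le_pow_left h2 3)) h1
      have h4 : 2 * h ≤ 2 ^ i := by
        by_contra hcon
        push Not at hcon
        have h5 : N ≤ M ^ 3 * N := by
          have : 1 ≤ M ^ 3 := Nat.one_le_pow _ _ (by omega)
          nlinarith
        have h6 : 24 * h * (2 ^ i) ^ 3 ≤ 24 * h * (2 * h) ^ 3 :=
          Nat.mul_le_mul_left _ (Nat.pow_le_pow_left hcon.le 3)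
        have h7 : 24 * h * (2 * h) ^ 3 = 192 * h ^ 4 := by ring
        have h8 : 192 * h ^ 4 ≤ 10 ^ 60 * h ^ 4 := Nat.mul_le_mul_right _ (by norm_num)
        omega
      have h5 := hVB N N h (2 ^ i) B h4 hP1000 hh hhN (le_refl N) (by omega) (by omega)
        (G.filter (fun t => vv t = 0)) (by
          intro s hs
          rw [mem_filter] at hs
          exact ⟨(hGp s hs.1).1, hs.2⟩)
      refine h5.trans ?_
      rw [hPc, ← hy]
      have h6 : (24 * lm) ^ 3 * y < 24 * x * P ^ 3 := by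
        have h7 : (M : ℝ) = 24 * lm := by rw [hM, hlm]; push_cast; ring
        rw [← h7, hx, hy, ← hPc]
        exact_mod_cast h3
      rw [div_le_div_iff₀ (by positivity) (by positivity)]
      have h8 : 24 * (12 * y * (1152 * lm ^ 2)) ≤ 24 * (x * P ^ 3) := by
        calc 24 * (12 * y * (1152 * lm ^ 2)) = 24 * (13824 * lm ^ 2 * y) := by ring
          _ ≤ lm * (13824 * lm ^ 2 * y) := by gcongr
          _ = (24 * lm) ^ 3 * y := by ring
          _ ≤ 24 * (x * P ^ 3) := by linarith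
      linarith
  -- pairs with `v ≠ 0`
  have hG1 : ((G.filter (fun t => ¬ vv t = 0)).card : ℝ) ≤ x / (1152 * lm ^ 2) := by
    by_cases hPY : 8 * (2 ^ i) ^ 2 * h ≤ N
    · obtain ⟨l, hl⟩ : ∃ l : ℕ, l = 42467328 * l0 ^ 2 * B := ⟨_, rfl⟩
      have hlR : (l : ℝ) = 42467328 * lm ^ 2 * b := by
        rw [hl, hlm, hb]; push_cast; ring
      have hl1 : 1 ≤ l := by
        rw [hl]
        have : 0 < l0 ^ 2 := by positivity
        have : 0 < 42467328 * l0 ^ 2 * B := by positivity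
        omega
      have hc1 : 256 * h * 2 ^ i ≤ N := by
        have h1 : 256 * h * 2 ^ i ≤ 8 * (2 ^ i) ^ 2 * h := by
          have h2 : 32 ≤ 2 ^ i := by omega
          calc 256 * h * 2 ^ i = 32 * (8 * h * 2 ^ i) := by ring
            _ ≤ 2 ^ i * (8 * h * 2 ^ i) := Nat.mul_le_mul_right _ h2
            _ = 8 * (2 ^ i) ^ 2 * h := by ring
        exact h1.trans hPY
      have hc2 : 331776 * h ^ 4 ≤ N := by
        have : 331776 * h ^ 4 ≤ 10 ^ 60 * h ^ 4 := Nat.mul_le_mul_right _ (by norm_num)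
        exact this.trans hhN4
      have hrng : Rng N N h (2 ^ i) B :=
        { hP := by omega
          hh := hh
          hhY := hhN
          hN := le_refl N
          hN' := by omega
          hB := h12B
          h1 := hPY
          h2 := hc1
          hP2 := by nlinarith }
      have hlR1 : (0 : ℝ) < l := by exact_mod_cast hl1
      have hc3 : 23 * (B : ℝ) * (N : ℝ) * (l : ℝ) ^ 3 ≤ (((2 ^ i : ℕ) : ℝ)) ^ 5 := by
        have h1 := num1 x P y b lm hlm24 hx0 hy0.le hb0.le hP0 hA hb2 h8R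
        rw [← hlR, hb, hy, ← hPc] at h1
        exact h1
      have h5 := hD N N h (2 ^ i) B l hrng hB1 hc2 hlR1 hc3
        (G.filter (fun t => ¬ vv t = 0)) (by
          intro s hs
          rw [mem_filter] at hs
          exact ⟨(hGp s hs.1).1, hs.2⟩)
      refine h5.trans ?_
      rw [hPc, ← hy, ← hx, ← hb, hlR]
      exact num2 x P y b lm hlm24 hx0 hy0.le hb0.le hP0 hbig hA hb2
    · have he : G.filter (fun t => ¬ vv t = 0) = ∅ := by
        rw [Finset.filter_eq_empty_iff]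
        intro t ht hv
        apply hv
        obtain ⟨ht1, -, -⟩ := hGp t ht
        have h1 := Pr.vv_le ht1 (by omega) (by omega : N < 2 * N) hhN (by omega)
        rw [hPc, ← hx, ← hy] at h1
        push Not at hPY
        have h2 : y < 8 * P ^ 2 * x := by
          rw [hy, hx, ← hPc]
          exact_mod_cast hPY
        have h3 := num3 x P y b lm hlm24 hx0 hy0 hb0.le hP0 hbig hB hA hb2 h2
        have h4 : (t.a : ℝ) ≤ b := by
          rw [hb]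
          exact_mod_cast ht1.haB
        have h5 : 3 * (t.a : ℝ) ^ 3 * y / P ^ 4 ≤ 3 * b ^ 3 * y / P ^ 4 := by gcongr
        have h6 : |(vv t : ℝ)| < 1 := by linarith
        have h7 : |vv t| < 1 := by exact_mod_cast h6
        exact Int.abs_lt_one_iff.1 h7
      rw [he, card_empty]
      push_cast
      positivity
  have hsR : (G.card : ℝ) ≤ x / (1152 * lm ^ 2) + x / (1152 * lm ^ 2) := by
    have : (G.card : ℝ) = ((G.filter (fun t => vv t = 0)).card : ℝ) +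
        ((G.filter (fun t => ¬ vv t = 0)).card : ℝ) := by exact_mod_cast hsplit.symm
    rw [this]
    linarith
  have hfin : x / (288 * lm ^ 2) = 4 * (x / (1152 * lm ^ 2)) := by
    field_simp
    norm_num
  have hpos : 0 < x / (1152 * lm ^ 2) := by positivity
  rw [hfin] at hGR
  linarith

end FTx

theorem ft (hG : GAP_stmt) (hD : FTD_stmt) (hVB : VZB_stmt) : FT_stmt :=
  FTx.of_nbw (FTx.nbw hG hD hVB)

end Pool.Agent.SQG
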