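import Pool.Agent.Lib.SQG.Defs3
import Pool.Agent.Lib.SQG.PAIR

/-!
# SQG, row FTA: two pairs with the same `a` and the same `v` in one window are close (helper87)
-/

set_option autoImplicit false

namespace Pool.Agent.SQG

namespace FTAx

/-- Size of `v + a ^ 3 N / (u z) ^ 2`. -/
theorem bd {N h P B : ℕ} {t : Q2} (ht : IsPairAt N h P B t) (hP : 1 ≤ P) (hB : B ≤ P) :
    |(vv t : ℝ) + (t.a : ℝ) ^ 3 * N / ((t.u : ℝ) * ((t.u : ℝ) + t.a)) ^ 2| ≤ 4 * h / P := by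
  have hd := Pr.dd_lt ht
  have hid : ((vv t : ℤ) : ℝ) * ((t.u : ℝ) + t.a) ^ 2 =
      (Pr.dd t : ℝ) * (2 * ((t.u : ℝ) + t.a) + t.a) - (t.a : ℝ) ^ 3 * t.m := by
    exact_mod_cast Pr.id3 t
  have hP0 : (1 : ℝ) ≤ P := by exact_mod_cast hP
  have hu : (P : ℝ) ≤ t.u := by exact_mod_cast ht.hu
  have ha : (1 : ℝ) ≤ t.a := by exact_mod_cast ht.ha
  have haP : (t.a : ℝ) ≤ P := by exact_mod_cast ht.haB.trans hB
  have hh0 : (0 : ℝ) ≤ h := Nat.cast_nonneg _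
  have h0 : (N : ℝ) < (t.u : ℝ) ^ 2 * t.m := by exact_mod_cast ht.h0
  have h0' : (t.u : ℝ) ^ 2 * t.m ≤ N + h := by exact_mod_cast ht.h0'
  have hd' : |(Pr.dd t : ℝ)| ≤ h := by
    have : |Pr.dd t| ≤ (h : ℤ) := hd.le
    exact_mod_cast this
  obtain ⟨u, hu'⟩ : ∃ u : ℝ, u = t.u := ⟨_, rfl⟩
  obtain ⟨a, ha'⟩ : ∃ a : ℝ, a = t.a := ⟨_, rfl⟩
  obtain ⟨z, hz⟩ : ∃ z : ℝ, z = u + a := ⟨_, rfl⟩
  rw [← hu', ← ha', ← hz] at hid ⊢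
  rw [← hu'] at hu h0 h0'
  rw [← ha'] at ha haP
  have hu0 : 0 < u := by linarith
  have hzP : (P : ℝ) ≤ z := by linarith
  have hz0 : 0 < z := by linarith
  have e1 : (vv t : ℝ) + a ^ 3 * N / (u * z) ^ 2 =
      ((Pr.dd t : ℝ) * (2 * z + a) - a ^ 3 * ((u ^ 2 * t.m - N) / u ^ 2)) / z ^ 2 := by
    rw [eq_div_iff (by positivity), add_mul, hid]
    field_simp
    ring
  have h1 : |(Pr.dd t : ℝ) * (2 * z + a) - a ^ 3 * ((u ^ 2 * t.m - N) / u ^ 2)| ≤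
      h * (3 * z) + a ^ 3 * (h / u ^ 2) := by
    refine (abs_sub _ _).trans (add_le_add ?_ ?_)
    · rw [abs_mul, abs_of_nonneg (by linarith : (0 : ℝ) ≤ 2 * z + a)]
      exact mul_le_mul hd' (by linarith) (by linarith) hh0
    · have h2 : 0 ≤ (u ^ 2 * t.m - N) / u ^ 2 := div_nonneg (by linarith) (by positivity)
      rw [abs_of_nonneg (mul_nonneg (by positivity) h2)]
      have h3 : (u ^ 2 * t.m - N) / u ^ 2 ≤ h / u ^ 2 :=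
        div_le_div_of_nonneg_right (by linarith) (by positivity)
      exact mul_le_mul_of_nonneg_left h3 (by positivity)
  have hP1 : (0 : ℝ) < P := by linarith
  rw [e1, abs_div, abs_of_pos (by positivity : (0 : ℝ) < z ^ 2)]
  have h4 : |(Pr.dd t : ℝ) * (2 * z + a) - a ^ 3 * ((u ^ 2 * t.m - N) / u ^ 2)| / z ^ 2 ≤
      (h * (3 * z) + a ^ 3 * (h / u ^ 2)) / z ^ 2 :=
    div_le_div_of_nonneg_right h1 (by positivity)
  refine h4.trans ?_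
  rw [add_div]
  have h5 : h * (3 * z) / z ^ 2 ≤ 3 * h / P := by
    rw [div_le_div_iff₀ (by positivity) hP1]
    have : (h : ℝ) * z * P ≤ h * z * z := mul_le_mul_of_nonneg_left hzP (by positivity)
    nlinarith
  have h6 : a ^ 3 * (h / u ^ 2) / z ^ 2 ≤ (h : ℝ) / P := by
    calc a ^ 3 * (h / u ^ 2) / z ^ 2 ≤ (P : ℝ) ^ 3 * (h / P ^ 2) / P ^ 2 := by gcongr
      _ = (h : ℝ) / P := by
        field_simp
  calc h * (3 * z) / z ^ 2 + a ^ 3 * (h / u ^ 2) / z ^ 2 ≤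
          3 * (h : ℝ) / P + (h : ℝ) / P := add_le_add h5 h6
    _ = 4 * (h : ℝ) / P := by ring

end FTAx

/-- **Row FTA.** -/
theorem fta : FTA_stmt := by
  intro N Y h P B t s hR ht hs hat hv htu
  have hB : B ≤ P := by have := hR.hB; omega
  have b1 := FTAx.bd ht hR.hP hB
  have b2 := FTAx.bd hs hR.hP hB
  rw [← hv, ← hat] at b2
  have hP0 : (1 : ℝ) ≤ P := by exact_mod_cast hR.hP
  have hP1 : (0 : ℝ) < P := by linarith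
  have hu1 : (P : ℝ) ≤ t.u := by exact_mod_cast ht.hu
  have hu2 : (t.u : ℝ) ≤ s.u := by exact_mod_cast htu
  have ha : (1 : ℝ) ≤ t.a := by exact_mod_cast ht.ha
  have hz2 : (s.u : ℝ) + t.a ≤ 2 * P := by
    have h1 : s.u + s.a ≤ 2 * P := hs.hw.le
    rw [← hat] at h1
    exact_mod_cast h1
  have hN : (Y : ℝ) ≤ N := by exact_mod_cast hR.hN
  have hY0 : (0 : ℝ) ≤ Y := Nat.cast_nonneg _
  have hh0 : (0 : ℝ) ≤ h := Nat.cast_nonneg _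
  obtain ⟨a, ha'⟩ : ∃ a : ℝ, a = t.a := ⟨_, rfl⟩
  obtain ⟨u1, hu1'⟩ : ∃ u : ℝ, u = t.u := ⟨_, rfl⟩
  obtain ⟨u2, hu2'⟩ : ∃ u : ℝ, u = s.u := ⟨_, rfl⟩
  rw [← ha', ← hu1'] at b1
  rw [← ha', ← hu2'] at b2
  rw [← ha', ← hu1', ← hu2']
  rw [← hu1'] at hu1 hu2
  rw [← hu2'] at hu2 hz2
  rw [← ha'] at ha hz2
  obtain ⟨x1, hx1⟩ : ∃ x : ℝ, x = u1 * (u1 + a) := ⟨_, rfl⟩
  obtain ⟨x2, hx2⟩ : ∃ x : ℝ, x = u2 * (u2 + a) := ⟨_, rfl⟩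
  rw [← hx1] at b1
  rw [← hx2] at b2
  have hx1P : (P : ℝ) ^ 2 ≤ x1 := by rw [hx1]; nlinarith
  have hx2P : x2 ≤ 4 * (P : ℝ) ^ 2 := by rw [hx2]; nlinarith
  have hx12 : 2 * (u2 - u1) * P ≤ x2 - x1 := by
    rw [hx1, hx2]
    nlinarith [mul_nonneg (sub_nonneg.2 hu2) (by linarith : (0 : ℝ) ≤ u1 + u2 + a - 2 * P)]
  have hc0 : 0 ≤ u2 - u1 := by linarith
  have hP2 : 0 < (P : ℝ) ^ 2 := by positivity
  have hx10 : 0 < x1 := by linarith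
  have hx12' : x1 ≤ x2 := by
    have : 0 ≤ 2 * (u2 - u1) * P := by positivity
    linarith
  have hx20 : 0 < x2 := by linarith
  have k1 : a ^ 3 * N / x1 ^ 2 - a ^ 3 * N / x2 ^ 2 ≤ 8 * h / P := by
    have c1 := (abs_le.1 b1).2
    have c2 := (abs_le.1 b2).1
    have : 8 * (h : ℝ) / P = 4 * h / P + 4 * h / P := by ring
    rw [this]
    linarith
  have k2 : a ^ 3 * N * (x2 ^ 2 - x1 ^ 2) =
      (a ^ 3 * N / x1 ^ 2 - a ^ 3 * N / x2 ^ 2) * (x1 ^ 2 * x2 ^ 2) := by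
    field_simp
  have k3 : x1 ^ 2 * x2 ^ 2 ≤ 256 * (P : ℝ) ^ 8 := by
    calc x1 ^ 2 * x2 ^ 2 ≤ (4 * (P : ℝ) ^ 2) ^ 2 * (4 * (P : ℝ) ^ 2) ^ 2 := by
          have : x1 ≤ 4 * (P : ℝ) ^ 2 := by linarith
          gcongr
      _ = 256 * (P : ℝ) ^ 8 := by ring
  have k4 : a ^ 3 * N * (x2 ^ 2 - x1 ^ 2) ≤ 8 * h / P * (256 * (P : ℝ) ^ 8) := by
    rw [k2]
    have h8 : 0 ≤ 8 * (h : ℝ) / P := by positivity
    calc (a ^ 3 * N / x1 ^ 2 - a ^ 3 * N / x2 ^ 2) * (x1 ^ 2 * x2 ^ 2) ≤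
          8 * h / P * (x1 ^ 2 * x2 ^ 2) := mul_le_mul_of_nonneg_right k1 (by positivity)
      _ ≤ 8 * h / P * (256 * (P : ℝ) ^ 8) := mul_le_mul_of_nonneg_left k3 h8
  have k5 : 2 * (u2 - u1) * P * (2 * (P : ℝ) ^ 2) ≤ x2 ^ 2 - x1 ^ 2 := by
    have h9 : x2 ^ 2 - x1 ^ 2 = (x2 - x1) * (x2 + x1) := by ring
    rw [h9]
    exact mul_le_mul hx12 (by linarith) (by positivity) (by linarith)
  have k6 : a ^ 3 * Y * (2 * (u2 - u1) * P * (2 * (P : ℝ) ^ 2)) ≤ a ^ 3 * N * (x2 ^ 2 - x1 ^ 2) := by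
    have h10 : 0 ≤ 2 * (u2 - u1) * P * (2 * (P : ℝ) ^ 2) := by positivity
    have h11 : a ^ 3 * (Y : ℝ) ≤ a ^ 3 * N := by gcongr
    exact mul_le_mul h11 k5 h10 (by positivity)
  have k7 : 8 * (h : ℝ) / P * (256 * (P : ℝ) ^ 8) = 4 * (P : ℝ) ^ 3 * (512 * h * P ^ 4) := by
    field_simp
    ring
  have k8 : a ^ 3 * Y * (2 * (u2 - u1) * P * (2 * (P : ℝ) ^ 2)) =
      4 * (P : ℝ) ^ 3 * (a ^ 3 * Y * (u2 - u1)) := by ring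
  have k9 : 4 * (P : ℝ) ^ 3 * (a ^ 3 * Y * (u2 - u1)) ≤ 4 * (P : ℝ) ^ 3 * (512 * h * P ^ 4) := by
    rw [← k8, ← k7]
    exact k6.trans k4
  exact le_of_mul_le_mul_left k9 (by positivity)

end Pool.Agent.SQG
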