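import Pool.Agent.Lib.SQG.Defs3
import Pool.Agent.Lib.SQG.PAIR

/-!
# SQG, row FTB: three pairs with the same `a` and the same `v` in one window are not close
-/

set_option autoImplicit false

namespace Pool.Agent.SQG

namespace Fb

/-- The second divided difference of `1 / (z ^ 2 * y)`. -/
noncomputable def HH (z1 z2 z3 y1 y2 y3 : ℝ) : ℝ :=
  4 / (z1 * z1 * y1 * y2 * y3) + 2 / (z1 * z2 * z2 * y2 * y3) + 2 / (z1 * z1 * z2 * y2 * y3) +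
    1 / (z1 * z2 * z3 * z3 * y3) + 1 / (z1 * z2 * z2 * z3 * y3) + 1 / (z1 * z1 * z2 * z3 * y3)

theorem dd_y (y1 y2 y3 c k : ℝ) (h1 : y1 ≠ 0) (h2 : y2 ≠ 0) (h3 : y3 ≠ 0)
    (e2 : y2 = y1 + 2 * c) (e3 : y3 = y2 + 2 * k) :
    k * (1 / y1) - (c + k) * (1 / y2) + c * (1 / y3) =
      c * k * (c + k) * (4 / (y1 * y2 * y3)) := by
  field_simp
  rw [e3, e2]
  ring

theorem dd_zy (z1 z2 z3 y1 y2 y3 c k : ℝ) (g1 : z1 ≠ 0) (g2 : z2 ≠ 0) (g3 : z3 ≠ 0)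
    (h1 : y1 ≠ 0) (h2 : y2 ≠ 0) (h3 : y3 ≠ 0)
    (e2 : y2 = y1 + 2 * c) (e3 : y3 = y2 + 2 * k) (f2 : z2 = z1 + c) (f3 : z3 = z2 + k) :
    k * (1 / (z1 ^ 2 * y1)) - (c + k) * (1 / (z2 ^ 2 * y2)) + c * (1 / (z3 ^ 2 * y3)) =
      c * k * (c + k) * HH z1 z2 z3 y1 y2 y3 := by
  unfold HH
  field_simp
  rw [e3, e2, f3, f2]
  ring

theorem HH_le {P z1 z2 z3 y1 y2 y3 : ℝ} (hP : 0 < P) (a1 : P ≤ z1) (a2 : P ≤ z2) (a3 : P ≤ z3)
    (b1 : P ≤ y1) (b2 : P ≤ y2) (b3 : P ≤ y3) : HH z1 z2 z3 y1 y2 y3 ≤ 11 / P ^ 5 := by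
  have p1 : 0 < z1 := by linarith
  have p2 : 0 < z2 := by linarith
  have p3 : 0 < z3 := by linarith
  have q1 : 0 < y1 := by linarith
  have q2 : 0 < y2 := by linarith
  have q3 : 0 < y3 := by linarith
  have e1 : 4 / (z1 * z1 * y1 * y2 * y3) ≤ 4 / (P * P * P * P * P) := by gcongr
  have e2 : 2 / (z1 * z2 * z2 * y2 * y3) ≤ 2 / (P * P * P * P * P) := by gcongr
  have e3 : 2 / (z1 * z1 * z2 * y2 * y3) ≤ 2 / (P * P * P * P * P) := by gcongr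
  have e4 : 1 / (z1 * z2 * z3 * z3 * y3) ≤ 1 / (P * P * P * P * P) := by gcongr
  have e5 : 1 / (z1 * z2 * z2 * z3 * y3) ≤ 1 / (P * P * P * P * P) := by gcongr
  have e6 : 1 / (z1 * z1 * z2 * z3 * y3) ≤ 1 / (P * P * P * P * P) := by gcongr
  have e7 : 11 / P ^ 5 = 4 / (P * P * P * P * P) + 2 / (P * P * P * P * P) +
      2 / (P * P * P * P * P) + 1 / (P * P * P * P * P) + 1 / (P * P * P * P * P) +
      1 / (P * P * P * P * P) := by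
    field_simp
    norm_num
  unfold HH
  rw [e7]
  linarith

theorem le_HH {P z1 z2 z3 y1 y2 y3 : ℝ} (hP : 0 < P) (a1 : P ≤ z1) (a2 : P ≤ z2) (a3 : P ≤ z3)
    (b1 : P ≤ y1) (b2 : P ≤ y2) (b3 : P ≤ y3) (a1' : z1 ≤ 2 * P) (a2' : z2 ≤ 2 * P)
    (a3' : z3 ≤ 2 * P) (b1' : y1 ≤ 4 * P) (b2' : y2 ≤ 4 * P) (b3' : y3 ≤ 4 * P) :
    3 / (32 * P ^ 5) ≤ HH z1 z2 z3 y1 y2 y3 := by
  have p1 : 0 < z1 := by linarith
  have p2 : 0 < z2 := by linarith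
  have p3 : 0 < z3 := by linarith
  have q1 : 0 < y1 := by linarith
  have q2 : 0 < y2 := by linarith
  have q3 : 0 < y3 := by linarith
  have e1 : 4 / ((2 * P) * (2 * P) * (4 * P) * (4 * P) * (4 * P)) ≤
      4 / (z1 * z1 * y1 * y2 * y3) := by gcongr
  have e2 : 2 / ((2 * P) * (2 * P) * (2 * P) * (4 * P) * (4 * P)) ≤
      2 / (z1 * z2 * z2 * y2 * y3) := by gcongr
  have e3 : 2 / ((2 * P) * (2 * P) * (2 * P) * (4 * P) * (4 * P)) ≤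
      2 / (z1 * z1 * z2 * y2 * y3) := by gcongr
  have e4 : 1 / ((2 * P) * (2 * P) * (2 * P) * (2 * P) * (4 * P)) ≤
      1 / (z1 * z2 * z3 * z3 * y3) := by gcongr
  have e5 : 1 / ((2 * P) * (2 * P) * (2 * P) * (2 * P) * (4 * P)) ≤
      1 / (z1 * z2 * z2 * z3 * y3) := by gcongr
  have e6 : 1 / ((2 * P) * (2 * P) * (2 * P) * (2 * P) * (4 * P)) ≤
      1 / (z1 * z1 * z2 * z3 * y3) := by gcongr
  have e7 : 3 / (32 * P ^ 5) = 4 / ((2 * P) * (2 * P) * (4 * P) * (4 * P) * (4 * P)) +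
      2 / ((2 * P) * (2 * P) * (2 * P) * (4 * P) * (4 * P)) +
      2 / ((2 * P) * (2 * P) * (2 * P) * (4 * P) * (4 * P)) +
      1 / ((2 * P) * (2 * P) * (2 * P) * (2 * P) * (4 * P)) +
      1 / ((2 * P) * (2 * P) * (2 * P) * (2 * P) * (4 * P)) +
      1 / ((2 * P) * (2 * P) * (2 * P) * (2 * P) * (4 * P)) := by
    field_simp
    norm_num
  unfold HH
  rw [e7]
  linarith

theorem vV_le {a Y h P v V : ℝ} (ha : 2 ≤ a) (haP : 12 * a ≤ P) (hh : 0 ≤ h) (hY0 : 0 ≤ Y)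
    (hP : 0 < P) (h2 : 256 * h * P ≤ Y) (hv : |v| ≤ 3 * h / P + 3 * a ^ 3 * Y / P ^ 4)
    (V0 : 0 ≤ V) (V1 : V ≤ 4 / P ^ 3) : |v * V| ≤ a * Y / P ^ 5 / 8 := by
  have ha0 : 0 < a := by linarith
  rw [abs_mul, abs_of_nonneg V0]
  have h3 : |v| * V ≤ (3 * h / P + 3 * a ^ 3 * Y / P ^ 4) * (4 / P ^ 3) :=
    mul_le_mul hv V1 V0 (by positivity)
  refine h3.trans ?_
  have h4 : (3 * h / P + 3 * a ^ 3 * Y / P ^ 4) * (4 / P ^ 3) =
      (12 * h * P ^ 3 + 12 * (a ^ 3 * Y)) / P ^ 7 := by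
    field_simp
    ring
  have h5 : a * Y / P ^ 5 / 8 = (a * Y * P ^ 2 / 8) / P ^ 7 := by
    field_simp
  rw [h4, h5]
  apply div_le_div_of_nonneg_right _ (by positivity)
  have h6 : 2 * Y * P ^ 2 ≤ a * Y * P ^ 2 := by
    have : 2 * Y ≤ a * Y := mul_le_mul_of_nonneg_right ha hY0
    exact mul_le_mul_of_nonneg_right this (by positivity)
  have h7 : 256 * h * P * P ^ 2 ≤ Y * P ^ 2 := mul_le_mul_of_nonneg_right h2 (by positivity)
  have h8 : (12 * a) ^ 2 ≤ P ^ 2 := by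
    apply pow_le_pow_left₀ (by positivity) haP
  have h9 : a * Y * (12 * a) ^ 2 ≤ a * Y * P ^ 2 :=
    mul_le_mul_of_nonneg_left h8 (by positivity)
  have h10 : a * Y * (12 * a) ^ 2 = 144 * (a ^ 3 * Y) := by ring
  have h11 : 256 * h * P * P ^ 2 = 256 * (h * P ^ 3) := by ring
  have h12 : 12 * h * P ^ 3 = 12 * (h * P ^ 3) := by ring
  rw [h10] at h9
  rw [h11] at h7
  rw [h12]
  have h13 : 0 ≤ a * Y * P ^ 2 := by positivity
  linarith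

/-- The real core: `D` is the second difference of the `e`. -/
theorem core {a Y N h P v z1 z2 z3 y1 y2 y3 c k : ℝ} (ha : 2 ≤ a) (haP : 12 * a ≤ P) (hh : 0 < h)
    (hY : Y ≤ N) (hN : N ≤ 2 * Y) (h1 : 8 * P ^ 2 * h ≤ Y) (h2 : 256 * h * P ≤ Y)
    (hv : |v| ≤ 3 * h / P + 3 * a ^ 3 * Y / P ^ 4)
    (hz2 : z2 = z1 + c) (hz3 : z3 = z2 + k) (hy2 : y2 = y1 + 2 * c) (hy3 : y3 = y2 + 2 * k)
    (hz : P ≤ z1) (hz' : z3 ≤ 2 * P) (hy : P ≤ y1) (hy' : y3 ≤ 4 * P)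
    (hc : 2 ≤ c) (hk : 2 ≤ k) {θ1 θ2 θ3 e1 e2 e3 : ℝ} (t1 : 0 ≤ θ1) (t1' : θ1 ≤ h)
    (t2 : 0 ≤ θ2) (t2' : θ2 ≤ h) (t3 : 0 ≤ θ3) (t3' : θ3 ≤ h)
    (E1 : y1 * e1 = v + 4 * a * ((N + θ1) / z1 ^ 2))
    (E2 : y2 * e2 = v + 4 * a * ((N + θ2) / z2 ^ 2))
    (E3 : y3 * e3 = v + 4 * a * ((N + θ3) / z3 ^ 2)) :
    0 < k * e1 - (c + k) * e2 + c * e3 ∧
      (k * e1 - (c + k) * e2 + c * e3) * P ^ 5 ≤ 23 * a * Y * (c + k) ^ 3 := by
  have hP : 0 < P := by linarith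
  have hY0 : 0 < Y := lt_of_lt_of_le (by positivity) h1
  have hN0 : 0 < N := lt_of_lt_of_le hY0 hY
  have pz1 : 0 < z1 := by linarith
  have pz2 : 0 < z2 := by linarith
  have pz3 : 0 < z3 := by linarith
  have py1 : 0 < y1 := by linarith
  have py2 : 0 < y2 := by linarith
  have py3 : 0 < y3 := by linarith
  have hz22 : P ≤ z2 := by linarith
  have hz33 : P ≤ z3 := by linarith
  have hy22 : P ≤ y2 := by linarith
  have hy33 : P ≤ y3 := by linarith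
  -- the decomposition
  have dec : ∀ y z e θ : ℝ, 0 < y → 0 < z → y * e = v + 4 * a * ((N + θ) / z ^ 2) →
      e = v * (1 / y) + 4 * a * N * (1 / (z ^ 2 * y)) + 4 * a * θ / (z ^ 2 * y) := by
    intro y z e θ hy hz hE
    have h3 : e = (v + 4 * a * ((N + θ) / z ^ 2)) / y := by
      rw [← hE]
      field_simp
    rw [h3]
    field_simp
    ring
  have f1 := dec y1 z1 e1 θ1 py1 pz1 E1
  have f2 := dec y2 z2 e2 θ2 py2 pz2 E2
  have f3 := dec y3 z3 e3 θ3 py3 pz3 E3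
  obtain ⟨q1, hq1⟩ : ∃ q, q = 4 * a * θ1 / (z1 ^ 2 * y1) := ⟨_, rfl⟩
  obtain ⟨q2, hq2⟩ : ∃ q, q = 4 * a * θ2 / (z2 ^ 2 * y2) := ⟨_, rfl⟩
  obtain ⟨q3, hq3⟩ : ∃ q, q = 4 * a * θ3 / (z3 ^ 2 * y3) := ⟨_, rfl⟩
  rw [← hq1] at f1
  rw [← hq2] at f2
  rw [← hq3] at f3
  have g1 := dd_y y1 y2 y3 c k py1.ne' py2.ne' py3.ne' hy2 hy3
  have g2 := dd_zy z1 z2 z3 y1 y2 y3 c k pz1.ne' pz2.ne' pz3.ne' py1.ne' py2.ne' py3.ne'
    hy2 hy3 hz2 hz3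
  have H1 : HH z1 z2 z3 y1 y2 y3 ≤ 11 / P ^ 5 := HH_le hP hz hz22 hz33 hy hy22 hy33
  have H2 : 3 / (32 * P ^ 5) ≤ HH z1 z2 z3 y1 y2 y3 := le_HH hP hz hz22 hz33 hy hy22 hy33
    (by linarith) (by linarith) hz' (by linarith) (by linarith) hy'
  have V1 : 4 / (y1 * y2 * y3) ≤ 4 / P ^ 3 := by
    have h3 : 4 / (y1 * y2 * y3) ≤ 4 / (P * P * P) := by gcongr
    refine h3.trans (le_of_eq ?_)
    congr 1
    ring
  have V0 : 0 ≤ 4 / (y1 * y2 * y3) := by positivity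
  obtain ⟨H, hH⟩ : ∃ H, H = HH z1 z2 z3 y1 y2 y3 := ⟨_, rfl⟩
  obtain ⟨V, hV⟩ : ∃ V, V = 4 / (y1 * y2 * y3) := ⟨_, rfl⟩
  rw [← hH] at g2 H1 H2
  rw [← hV] at g1 V0 V1
  have D : k * e1 - (c + k) * e2 + c * e3 = c * k * (c + k) * (v * V + 4 * a * N * H) +
      (k * q1 - (c + k) * q2 + c * q3) := by
    rw [f1, f2, f3]
    linear_combination v * g1 + 4 * a * N * g2
  -- sizes
  have H0 : 0 ≤ H := le_trans (by positivity) H2
  obtain ⟨W, hW⟩ : ∃ W, W = a * Y / P ^ 5 := ⟨_, rfl⟩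
  have W0 : 0 < W := by rw [hW]; positivity
  have hvV : |v * V| ≤ W / 8 := by
    rw [hW]
    exact vV_le ha haP hh.le hY0.le hP h2 hv V0 V1
  have hNH1 : 4 * a * N * H ≤ 88 * W := by
    have h3 : 4 * a * N * H ≤ 4 * a * (2 * Y) * (11 / P ^ 5) := by gcongr
    refine h3.trans (le_of_eq ?_)
    rw [hW]
    ring
  have hNH2 : 3 / 8 * W ≤ 4 * a * N * H := by
    have h3 : 4 * a * Y * (3 / (32 * P ^ 5)) ≤ 4 * a * N * H := by gcongr
    refine le_trans (le_of_eq ?_) h3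
    rw [hW]
    field_simp
    norm_num
  have hv1 := abs_le.1 hvV
  -- the small terms
  have hq : ∀ θ Z Y' : ℝ, 0 ≤ θ → θ ≤ h → P ≤ Z → P ≤ Y' →
      0 ≤ 4 * a * θ / (Z ^ 2 * Y') ∧ 4 * a * θ / (Z ^ 2 * Y') ≤ W / 2 := by
    intro θ Z Y' hθ hθ' hZ hY'
    have hZ0 : 0 < Z := by linarith
    have hY0' : 0 < Y' := by linarith
    refine ⟨by positivity, ?_⟩
    have h3 : 4 * a * θ / (Z ^ 2 * Y') ≤ 4 * a * h / (P ^ 2 * P) := by gcongr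
    refine h3.trans ?_
    rw [hW, div_le_iff₀ (by positivity)]
    have h4 : a * Y / P ^ 5 / 2 * (P ^ 2 * P) = a * Y / (2 * P ^ 2) := by
      field_simp
    rw [h4, le_div_iff₀ (by positivity)]
    have h5 : a * (8 * P ^ 2 * h) ≤ a * Y := mul_le_mul_of_nonneg_left h1 (by linarith)
    linarith
  have r1 := hq θ1 z1 y1 t1 t1' hz hy
  have r2 := hq θ2 z2 y2 t2 t2' hz22 hy22
  have r3 := hq θ3 z3 y3 t3 t3' hz33 hy33
  rw [← hq1] at r1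
  rw [← hq2] at r2
  rw [← hq3] at r3
  have s1 : 0 ≤ k * q1 := mul_nonneg (by linarith) r1.1
  have s2 : k * q1 ≤ k * (W / 2) := mul_le_mul_of_nonneg_left r1.2 (by linarith)
  have s3 : 0 ≤ (c + k) * q2 := mul_nonneg (by linarith) r2.1
  have s4 : (c + k) * q2 ≤ (c + k) * (W / 2) := mul_le_mul_of_nonneg_left r2.2 (by linarith)
  have s5 : 0 ≤ c * q3 := mul_nonneg (by linarith) r3.1
  have s6 : c * q3 ≤ c * (W / 2) := mul_le_mul_of_nonneg_left r3.2 (by linarith)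
  have hck : 4 ≤ c * k := by nlinarith
  have hA : 0 ≤ c * k * (c + k) := by positivity
  have lowA : c * k * (c + k) * (W / 4) ≤ c * k * (c + k) * (v * V + 4 * a * N * H) :=
    mul_le_mul_of_nonneg_left (by linarith [hv1.1]) hA
  have uppA : c * k * (c + k) * (v * V + 4 * a * N * H) ≤ c * k * (c + k) * (88 * W + W / 8) :=
    mul_le_mul_of_nonneg_left (by linarith [hv1.2]) hA
  have hcW0 : 0 < (c + k) * W := by positivity
  have hcW : (c + k) * W ≤ c * k * (c + k) * (W / 4) := by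
    have h3 : (c + k) * W * 4 ≤ (c + k) * W * (c * k) := mul_le_mul_of_nonneg_left hck hcW0.le
    linarith
  rw [D]
  constructor
  · linarith
  · have h3 : c * k * (c + k) * (v * V + 4 * a * N * H) + (k * q1 - (c + k) * q2 + c * q3) ≤
        23 * (c + k) ^ 3 * W := by
      have h4 : c * k ≤ (c + k) ^ 2 / 4 := by nlinarith [sq_nonneg (c - k)]
      have h5 : c * k * (c + k) ≤ (c + k) ^ 3 / 4 := by
        have := mul_le_mul_of_nonneg_right h4 (by linarith : 0 ≤ c + k)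
        linarith
      have h6 : c * k * (c + k) * W ≤ (c + k) ^ 3 / 4 * W := mul_le_mul_of_nonneg_right h5 W0.le
      have h7 : k * q1 - (c + k) * q2 + c * q3 ≤ (c + k) * W / 2 := by linarith
      have h8 : c * k * (c + k) * (88 * W + W / 8) = (88 + 1 / 8) * (c * k * (c + k) * W) := by ring
      have h9 : c * k * (c + k) * (W / 4) = 1 / 4 * (c * k * (c + k) * W) := by ring
      rw [h9] at hcW
      rw [h8] at uppA
      have h10 : 0 ≤ (c + k) ^ 3 * W := by positivity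
      linarith
    have h4 : 23 * (c + k) ^ 3 * W * P ^ 5 = 23 * a * Y * (c + k) ^ 3 := by
      rw [hW]
      field_simp
    rw [← h4]
    exact mul_le_mul_of_nonneg_right h3 (by positivity)

theorem odd_u {N h P B : ℕ} {t : Q2} (ht : IsPairAt N h P B t) : t.u % 2 = 1 := by
  by_contra hne
  have h0 : 2 ∣ t.u := by omega
  have h1 : 2 ∣ t.a := ht.hev.two_dvd
  have h2 : 2 ∣ Nat.gcd t.u t.a := Nat.dvd_gcd h0 h1
  rw [ht.hco] at h2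
  omega

/-- The relation between `v`, `m - m'` and `m'`. -/
theorem rel {N h P B : ℕ} {t : Q2} (ht : IsPairAt N h P B t) :
    (2 * (t.u : ℝ) - t.a) * ((t.m : ℝ) - t.m') = (vv t : ℝ) +
      4 * t.a * ((N + (((t.u : ℝ) + t.a) ^ 2 * t.m' - N)) / ((t.u : ℝ) + t.a) ^ 2) := by
  have ha : (1 : ℝ) ≤ t.a := by exact_mod_cast ht.ha
  have hz : ((t.u : ℝ) + t.a) ^ 2 ≠ 0 := by positivity
  have h1 : ((N : ℝ) + (((t.u : ℝ) + t.a) ^ 2 * t.m' - N)) / ((t.u : ℝ) + t.a) ^ 2 = t.m' := by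
    rw [div_eq_iff hz]
    ring
  rw [h1]
  unfold vv
  push_cast
  ring

theorem theta {N h P B : ℕ} {t : Q2} (ht : IsPairAt N h P B t) :
    0 ≤ ((t.u : ℝ) + t.a) ^ 2 * t.m' - N ∧ ((t.u : ℝ) + t.a) ^ 2 * t.m' - N ≤ h := by
  have h1 : (N : ℝ) ≤ ((t.u : ℝ) + t.a) ^ 2 * t.m' := by exact_mod_cast ht.h1.le
  have h2 : ((t.u : ℝ) + t.a) ^ 2 * t.m' ≤ (N : ℝ) + h := by exact_mod_cast ht.h1'
  exact ⟨by linarith, by linarith⟩

end Fb

/-- **FTB**: three pairs with the same `a` and the same `v` in one window are not close. -/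
theorem ftb : FTB_stmt := by
  intro N Y h P B t1 t2 t3 hR p1 p2 p3 ha12 ha23 hv12 hv23 hu12 hu23
  have o1 := Fb.odd_u p1
  have o2 := Fb.odd_u p2
  have o3 := Fb.odd_u p3
  obtain ⟨a', ha'⟩ := p1.hev
  have ha2 : 2 ≤ t1.a := by
    have := p1.ha
    omega
  have hBP := hR.hB
  have haB := p1.haB
  have hBP' : B ≤ P := by omega
  have key := Fb.core (a := (t1.a : ℝ)) (Y := (Y : ℝ)) (N := (N : ℝ)) (h := (h : ℝ)) (P := (P : ℝ))
    (v := (vv t1 : ℝ)) (z1 := (t1.u : ℝ) + t1.a) (z2 := (t2.u : ℝ) + t1.a)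
    (z3 := (t3.u : ℝ) + t1.a) (y1 := 2 * (t1.u : ℝ) - t1.a) (y2 := 2 * (t2.u : ℝ) - t1.a)
    (y3 := 2 * (t3.u : ℝ) - t1.a) (c := (t2.u : ℝ) - t1.u) (k := (t3.u : ℝ) - t2.u)
    (by exact_mod_cast ha2)
    (by
      have : 12 * t1.a ≤ P := by omega
      exact_mod_cast this)
    (by exact_mod_cast hR.hh)
    (by exact_mod_cast hR.hN) (by exact_mod_cast hR.hN'.le) (by exact_mod_cast hR.h1)
    (by exact_mod_cast hR.h2) (Pr.vv_le p1 hR.hP hR.hN' hR.hhY hBP')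
    (by ring) (by ring) (by ring) (by ring)
    (by
      have : P ≤ t1.u + t1.a := by
        have := p1.hu
        omega
      exact_mod_cast this)
    (by
      have : t3.u + t1.a ≤ 2 * P := by
        have := p3.hw
        omega
      exact_mod_cast this)
    (by
      have h3 : P + t1.a ≤ 2 * t1.u := by
        have := p1.hu
        omega
      have h4 : (P : ℝ) + t1.a ≤ 2 * t1.u := by exact_mod_cast h3
      linarith)
    (by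
      have h3 : 2 * t3.u ≤ 4 * P := by
        have := p3.hw
        omega
      have h4 : 2 * (t3.u : ℝ) ≤ 4 * P := by exact_mod_cast h3
      have h5 : (0 : ℝ) ≤ t1.a := Nat.cast_nonneg _
      linarith)
    (by
      have h3 : t1.u + 2 ≤ t2.u := by omega
      have h4 : (t1.u : ℝ) + 2 ≤ t2.u := by exact_mod_cast h3
      linarith)
    (by
      have h3 : t2.u + 2 ≤ t3.u := by omega
      have h4 : (t2.u : ℝ) + 2 ≤ t3.u := by exact_mod_cast h3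
      linarith)
    (θ1 := ((t1.u : ℝ) + t1.a) ^ 2 * t1.m' - N) (θ2 := ((t2.u : ℝ) + t1.a) ^ 2 * t2.m' - N)
    (θ3 := ((t3.u : ℝ) + t1.a) ^ 2 * t3.m' - N) (e1 := (t1.m : ℝ) - t1.m')
    (e2 := (t2.m : ℝ) - t2.m') (e3 := (t3.m : ℝ) - t3.m')
    (Fb.theta p1).1 (Fb.theta p1).2
    (by rw [ha12]; exact (Fb.theta p2).1) (by rw [ha12]; exact (Fb.theta p2).2)
    (by rw [ha12, ha23]; exact (Fb.theta p3).1) (by rw [ha12, ha23]; exact (Fb.theta p3).2)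
    (Fb.rel p1) (by rw [hv12, ha12]; exact Fb.rel p2)
    (by rw [hv12, hv23, ha12, ha23]; exact Fb.rel p3)
  obtain ⟨k1, k2⟩ := key
  have hD : (1 : ℝ) ≤ ((t3.u : ℝ) - t2.u) * ((t1.m : ℝ) - t1.m') -
      ((t2.u : ℝ) - t1.u + ((t3.u : ℝ) - t2.u)) * ((t2.m : ℝ) - t2.m') +
      ((t2.u : ℝ) - t1.u) * ((t3.m : ℝ) - t3.m') := by
    have h3 : (0 : ℤ) < ((t3.u : ℤ) - t2.u) * ((t1.m : ℤ) - t1.m') -
      ((t2.u : ℤ) - t1.u + ((t3.u : ℤ) - t2.u)) * ((t2.m : ℤ) - t2.m') +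
      ((t2.u : ℤ) - t1.u) * ((t3.m : ℤ) - t3.m') := by
      exact_mod_cast k1
    have h4 : (1 : ℤ) ≤ ((t3.u : ℤ) - t2.u) * ((t1.m : ℤ) - t1.m') -
      ((t2.u : ℤ) - t1.u + ((t3.u : ℤ) - t2.u)) * ((t2.m : ℤ) - t2.m') +
      ((t2.u : ℤ) - t1.u) * ((t3.m : ℤ) - t3.m') := h3
    exact_mod_cast h4
  have h5 : (1 : ℝ) * (P : ℝ) ^ 5 ≤ (((t3.u : ℝ) - t2.u) * ((t1.m : ℝ) - t1.m') -
      ((t2.u : ℝ) - t1.u + ((t3.u : ℝ) - t2.u)) * ((t2.m : ℝ) - t2.m') +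
      ((t2.u : ℝ) - t1.u) * ((t3.m : ℝ) - t3.m')) * (P : ℝ) ^ 5 :=
    mul_le_mul_of_nonneg_right hD (by positivity)
  rw [one_mul] at h5
  have h6 := h5.trans k2
  have h7 : (t2.u : ℝ) - t1.u + ((t3.u : ℝ) - t2.u) = (t3.u : ℝ) - t1.u := by ring
  rw [h7] at h6
  exact h6

end Pool.Agent.SQG
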