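import Pool.Agent.Lib.SQG.Defs3

/-!
Row FTC: number of pairs with given `a` and `v` in one window.
-/

set_option autoImplicit false

namespace Pool.Agent.SQG

open Finset

namespace FtcAux

/-- A pair is determined by `u`, `a`, `v` and the window. -/
theorem inj {N Y h P B : ℕ} (hR : Rng N Y h P B) {t s : Q2} (ht : IsPairAt N h P B t)
    (hs : IsPairAt N h P B s) (hu : t.u = s.u) (ha : t.a = s.a) : t = s := by
  have hP2 := hR.hP2
  have key : ∀ x m m' : ℕ, P ≤ x → N < x ^ 2 * m → x ^ 2 * m ≤ N + h → N < x ^ 2 * m' →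
      x ^ 2 * m' ≤ N + h → m ≤ m' := by
    intro x m m' hx h1 h2 h3 h4
    by_contra hlt
    push Not at hlt
    have h5 : x ^ 2 * m' + x ^ 2 ≤ x ^ 2 * m := by
      have : x ^ 2 * (m' + 1) ≤ x ^ 2 * m := Nat.mul_le_mul_left _ hlt
      linarith
    have h6 : P ^ 2 ≤ x ^ 2 := Nat.pow_le_pow_left hx 2
    omega
  have e1 : t.m = s.m := by
    have h1 := ht.h0
    have h2 := ht.h0'
    have h3 := hs.h0
    have h4 := hs.h0'
    rw [hu] at h1 h2
    exact le_antisymm (key _ _ _ hs.hu h1 h2 h3 h4) (key _ _ _ hs.hu h3 h4 h1 h2)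
  have e2 : t.m' = s.m' := by
    have h1 := ht.h1
    have h2 := ht.h1'
    have h3 := hs.h1
    have h4 := hs.h1'
    rw [hu, ha] at h1 h2
    have h5 : P ≤ s.u + s.a := hs.hu.trans (Nat.le_add_right _ _)
    exact le_antisymm (key _ _ _ h5 h1 h2 h3 h4) (key _ _ _ h5 h3 h4 h1 h2)
  cases t
  cases s
  simp only [Q2.mk.injEq] at *
  exact ⟨ha, hu, e1, e2⟩

end FtcAux

open FtcAux

theorem ftc (hA : FTA_stmt) (hB : FTB_stmt) : FTC_stmt := by
  classical
  intro N Y h P B l hR hl hlB a v T ha1 hT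
  have hY1 : 1 ≤ Y := hR.hh.trans hR.hhY
  have hY0 : (0 : ℝ) < Y := by exact_mod_cast hY1
  have ha0 : (0 : ℝ) < a := by exact_mod_cast ha1
  have hh0 : (0 : ℝ) < h := by exact_mod_cast hR.hh
  have hP0 : (0 : ℝ) < P := by exact_mod_cast hR.hP
  rcases T.eq_empty_or_nonempty with rfl | hne
  · simp only [Finset.card_empty, Nat.cast_zero]
    positivity
  · obtain ⟨t0, ht0, hmin⟩ := Finset.exists_min_image T (fun t => t.u) hne
    obtain ⟨c, hc⟩ : ∃ c : ℝ, c = 512 * h * P ^ 4 / ((a : ℝ) ^ 3 * Y) := ⟨_, rfl⟩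
    have hc0 : 0 ≤ c := by
      rw [hc]
      positivity
    have hdist : ∀ t ∈ T, (t.u : ℝ) - t0.u ≤ c := by
      intro t ht
      obtain ⟨h1, h2, h3⟩ := hT t ht
      obtain ⟨g1, g2, g3⟩ := hT t0 ht0
      have h4 := hA N Y h P B t0 t hR g1 h1 (g2.trans h2.symm) (g3.trans h3.symm) (hmin t ht)
      rw [hc, le_div_iff₀ (by positivity), mul_comm]
      rw [g2] at h4
      exact h4
    have hmaps : ∀ t ∈ T, ⌊((t.u : ℝ) - t0.u) / l⌋₊ ∈ range (⌊c / l⌋₊ + 1) := by
      intro t ht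
      refine Finset.mem_range.2 (Nat.lt_succ_of_le (Nat.floor_le_floor ?_))
      exact div_le_div_of_nonneg_right (hdist t ht) hl.le
    have hfib : ∀ j ∈ range (⌊c / l⌋₊ + 1),
        (T.filter fun t => ⌊((t.u : ℝ) - t0.u) / l⌋₊ = j).card ≤ 2 := by
      intro j _
      by_contra hcon
      push Not at hcon
      obtain ⟨F, hF⟩ : ∃ F : Finset Q2, F = T.filter fun t => ⌊((t.u : ℝ) - t0.u) / l⌋₊ = j :=
        ⟨_, rfl⟩
      rw [← hF] at hcon
      have hFT : ∀ t ∈ F, t ∈ T ∧ ⌊((t.u : ℝ) - t0.u) / l⌋₊ = j := by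
        intro t ht
        rw [hF] at ht
        exact Finset.mem_filter.1 ht
      obtain ⟨W, hW⟩ : ∃ W : Finset ℕ, W = F.image (fun t => t.u) := ⟨_, rfl⟩
      have hWc : W.card = F.card := by
        rw [hW]
        refine Finset.card_image_of_injOn ?_
        intro t ht s hs e
        obtain ⟨h1, h2, h3⟩ := hT t (hFT t ht).1
        obtain ⟨g1, g2, g3⟩ := hT s (hFT s hs).1
        exact inj hR h1 g1 e (h2.trans g2.symm)
      have hWne : W.Nonempty := Finset.card_pos.1 (by omega)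
      obtain ⟨m1, hm1, hm1'⟩ : ∃ m1 ∈ W, ∀ x ∈ W, m1 ≤ x :=
        ⟨W.min' hWne, W.min'_mem hWne, fun x hx => W.min'_le x hx⟩
      obtain ⟨m3, hm3, hm3'⟩ : ∃ m3 ∈ W, ∀ x ∈ W, x ≤ m3 :=
        ⟨W.max' hWne, W.max'_mem hWne, fun x hx => W.le_max' x hx⟩
      obtain ⟨m2, hm2⟩ : ((W.erase m1).erase m3).Nonempty := by
        refine Finset.card_pos.1 ?_
        have h1 := Finset.pred_card_le_card_erase (s := W) (a := m1)
        have h2 := Finset.pred_card_le_card_erase (s := W.erase m1) (a := m3)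
        omega
      obtain ⟨h1, h2⟩ := Finset.mem_erase.1 hm2
      obtain ⟨h3, h4⟩ := Finset.mem_erase.1 h2
      have h5 := lt_of_le_of_ne (hm1' m2 h4) (Ne.symm h3)
      have h6 := lt_of_le_of_ne (hm3' m2 h4) h1
      rw [hW] at h4 hm1 hm3
      obtain ⟨t1, ht1, e1⟩ := Finset.mem_image.1 hm1
      obtain ⟨t2, ht2, e2⟩ := Finset.mem_image.1 h4
      obtain ⟨t3, ht3, e3⟩ := Finset.mem_image.1 hm3
      obtain ⟨a1, a2, a3⟩ := hT t1 (hFT t1 ht1).1
      obtain ⟨b1, b2, b3⟩ := hT t2 (hFT t2 ht2).1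
      obtain ⟨c1, c2, c3⟩ := hT t3 (hFT t3 ht3).1
      rw [← e1, ← e2] at h5
      rw [← e2, ← e3] at h6
      have h7 := hB N Y h P B t1 t2 t3 hR a1 b1 c1 (a2.trans b2.symm) (b2.trans c2.symm)
        (a3.trans b3.symm) (b3.trans c3.symm) h5 h6
      have h8 : (t3.u : ℝ) - t1.u < l := by
        have g1 := (hFT t1 ht1).2
        have g3 := (hFT t3 ht3).2
        have hn1 : 0 ≤ ((t1.u : ℝ) - t0.u) / l := by
          have : (t0.u : ℝ) ≤ t1.u := by exact_mod_cast hmin t1 (hFT t1 ht1).1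
          exact div_nonneg (by linarith) hl.le
        have g4 := Nat.floor_le hn1
        have g5 := Nat.lt_floor_add_one (((t3.u : ℝ) - t0.u) / l)
        rw [g1] at g4
        rw [g3] at g5
        rw [le_div_iff₀ hl] at g4
        rw [div_lt_iff₀ hl] at g5
        linarith
      have h9 : 0 < (t3.u : ℝ) - t1.u := by
        have : (t1.u : ℝ) < t3.u := by exact_mod_cast h5.trans h6
        linarith
      have h10 : ((t3.u : ℝ) - t1.u) ^ 3 < l ^ 3 := pow_lt_pow_left₀ h8 h9.le (by norm_num)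
      have h11 : (t1.a : ℝ) ≤ B := by exact_mod_cast a1.haB
      have h12 : (0 : ℝ) < t1.a := by
        rw [a2]
        exact ha0
      have h13 : 23 * (t1.a : ℝ) * Y * ((t3.u : ℝ) - t1.u) ^ 3 < 23 * (t1.a : ℝ) * Y * l ^ 3 :=
        mul_lt_mul_of_pos_left h10 (by positivity)
      have h14 : 23 * (t1.a : ℝ) * Y * l ^ 3 ≤ 23 * B * Y * l ^ 3 := by gcongr
      linarith
    have h1 := Finset.card_le_mul_card_image_of_maps_to hmaps 2 hfib
    rw [Finset.card_range] at h1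
    have h2 : (T.card : ℝ) ≤ 2 * ((⌊c / l⌋₊ : ℝ) + 1) := by exact_mod_cast h1
    have h3 := Nat.floor_le (show 0 ≤ c / l by positivity)
    have e : 512 * (h : ℝ) * P ^ 4 / ((a : ℝ) ^ 3 * Y * l) = c / l := by
      rw [hc, div_div]
    rw [e]
    linarith

end Pool.Agent.SQG
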