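import Pool.Agent.Lib.SQG.Defs3
import Pool.Agent.Lib.SQG.PAIR

/-!
Row FTD: number of pairs with `v ≠ 0` in one window.
-/

set_option autoImplicit false

namespace Pool.Agent.SQG

open Finset

theorem ftd (hC : FTC_stmt) : FTD_stmt := by
  classical
  intro N Y h P B l hR hB1 hhY4 hl hlB T hT
  have hY1 : 1 ≤ Y := hR.hh.trans hR.hhY
  have hY0 : (0 : ℝ) < Y := by exact_mod_cast hY1
  have hh0 : (0 : ℝ) < h := by exact_mod_cast hR.hh
  have hP0 : (0 : ℝ) < P := by exact_mod_cast hR.hP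
  have hBP : B ≤ P := by
    have := hR.hB
    omega
  have hY4 : 331776 * (h : ℝ) ^ 4 ≤ Y := by exact_mod_cast hhY4
  have hmaps : Set.MapsTo (fun t : Q2 => t.a) (T : Set Q2) (Icc 1 B : Finset ℕ) := by
    intro t ht
    have h1 := (hT t ht).1
    exact Finset.mem_coe.2 (Finset.mem_Icc.2 ⟨h1.ha, h1.haB⟩)
  have hrow : ∀ a ∈ Icc 1 B, ((T.filter fun t => t.a = a).card : ℝ) ≤
      12 * h / P + 12 * (B : ℝ) ^ 3 * Y / P ^ 4 + 12288 * h / l := by
    intro a haB
    obtain ⟨ha1, haB⟩ := Finset.mem_Icc.1 haB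
    have ha0 : (0 : ℝ) < a := by exact_mod_cast ha1
    have ha1' : (1 : ℝ) ≤ a := by exact_mod_cast ha1
    obtain ⟨F, hF⟩ : ∃ F : Finset Q2, F = T.filter fun t => t.a = a := ⟨_, rfl⟩
    have hFT : ∀ t ∈ F, IsPairAt N h P B t ∧ vv t ≠ 0 ∧ t.a = a := by
      intro t ht
      rw [hF] at ht
      obtain ⟨h1, h2⟩ := Finset.mem_filter.1 ht
      exact ⟨(hT t h1).1, (hT t h1).2, h2⟩
    rw [← hF]
    obtain ⟨V, hV⟩ : ∃ V : ℝ, V = 3 * h / P + 3 * (a : ℝ) ^ 3 * Y / P ^ 4 := ⟨_, rfl⟩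
    have hV0 : 0 ≤ V := by
      rw [hV]
      positivity
    have hvV : ∀ t ∈ F, |(vv t : ℝ)| ≤ V := by
      intro t ht
      obtain ⟨h1, h2, h3⟩ := hFT t ht
      have := Pr.vv_le h1 hR.hP hR.hN' hR.hhY hBP
      rw [h3, ← hV] at this
      exact this
    have hV3 : 3 * (a : ℝ) ^ 3 * Y / P ^ 4 ≤ 3 * (B : ℝ) ^ 3 * Y / P ^ 4 := by
      have : (a : ℝ) ≤ B := by exact_mod_cast haB
      gcongr
    by_cases hV1 : V < 1
    · have hFe : F = ∅ := by
        rw [Finset.eq_empty_iff_forall_notMem]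
        intro t ht
        have h1 := hvV t ht
        have h2 : |(vv t : ℝ)| < 1 := by linarith
        have h3 : |vv t| < 1 := by exact_mod_cast h2
        exact (hFT t ht).2.1 (Int.abs_lt_one_iff.1 h3)
      rw [hFe]
      simp only [Finset.card_empty, Nat.cast_zero]
      positivity
    · push Not at hV1
      have h1 : ∀ v ∈ F.image vv, ((F.filter fun t => vv t = v).card : ℝ) ≤
          2 * (512 * h * P ^ 4 / ((a : ℝ) ^ 3 * Y * l) + 1) := by
        intro v _
        refine hC N Y h P B l hR hl hlB a v _ ha1 fun t ht => ?_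
        obtain ⟨h2, h3⟩ := Finset.mem_filter.1 ht
        obtain ⟨h4, h5, h6⟩ := hFT t h2
        exact ⟨h4, h6, h3⟩
      have h2 : ((F.image vv).card : ℝ) ≤ 2 * V := by
        have h3 := Pr.card_mult 1 le_rfl V hV0 (F.image vv) fun v hv => by
          obtain ⟨t, ht, rfl⟩ := Finset.mem_image.1 hv
          exact ⟨(hFT t ht).2.1, by simp, hvV t ht⟩
        rw [Nat.cast_one, div_one] at h3
        exact h3
      have h3 : (F.card : ℝ) ≤ 2 * V * (2 * (512 * h * P ^ 4 / ((a : ℝ) ^ 3 * Y * l) + 1)) := by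
        rw [Finset.card_eq_sum_card_image vv F]
        push_cast
        have h4 := Finset.sum_le_sum h1
        rw [Finset.sum_const, nsmul_eq_mul] at h4
        refine h4.trans ?_
        exact mul_le_mul_of_nonneg_right h2 (by positivity)
      refine h3.trans ?_
      have h4 : V * (512 * h * P ^ 4 / ((a : ℝ) ^ 3 * Y)) ≤ 3072 * h := by
        rw [mul_div_assoc', div_le_iff₀ (by positivity)]
        by_cases h6 : 6 * h ≤ P
        · have h6' : 6 * (h : ℝ) ≤ P := by exact_mod_cast h6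
          have h7 : 3 * (h : ℝ) / P ≤ 1 / 2 := by
            rw [div_le_iff₀ hP0]
            linarith
          have h8 : V ≤ 6 * (a : ℝ) ^ 3 * Y / P ^ 4 := by
            have e : 6 * (a : ℝ) ^ 3 * Y / P ^ 4 = 2 * (3 * (a : ℝ) ^ 3 * Y / P ^ 4) := by ring
            rw [e]
            linarith
          rw [le_div_iff₀ (by positivity)] at h8
          nlinarith
        · push Not at h6
          have h6' : (P : ℝ) < 6 * h := by exact_mod_cast h6
          have e : V * (512 * h * P ^ 4) = 1536 * h ^ 2 * P ^ 3 + 1536 * h * ((a : ℝ) ^ 3 * Y) := by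
            rw [hV]
            field_simp
            ring
          rw [e]
          have h7 : (P : ℝ) ^ 3 ≤ (6 * h) ^ 3 := by gcongr
          have h8 : 1536 * (h : ℝ) ^ 2 * P ^ 3 ≤ 331776 * h ^ 4 * h := by
            have h9 : 1536 * (h : ℝ) ^ 2 * P ^ 3 ≤ 1536 * (h : ℝ) ^ 2 * (6 * h) ^ 3 :=
              mul_le_mul_of_nonneg_left h7 (by positivity)
            linarith
          have h9 : 331776 * (h : ℝ) ^ 4 * h ≤ Y * h := mul_le_mul_of_nonneg_right hY4 hh0.le
          have h10 : (Y : ℝ) * h ≤ (a : ℝ) ^ 3 * Y * h := by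
            have h11 : (1 : ℝ) ≤ (a : ℝ) ^ 3 := one_le_pow₀ ha1'
            have h12 : 0 ≤ (Y : ℝ) * h := by positivity
            nlinarith
          have h11 : 0 ≤ (a : ℝ) ^ 3 * Y * h := by positivity
          linarith
      have e : 2 * V * (2 * (512 * h * P ^ 4 / ((a : ℝ) ^ 3 * Y * l) + 1)) =
          4 * (V * (512 * h * P ^ 4 / ((a : ℝ) ^ 3 * Y))) / l + 4 * V := by
        field_simp
        norm_num
      rw [e]
      have h5 : 4 * (V * (512 * h * P ^ 4 / ((a : ℝ) ^ 3 * Y))) / l ≤ 12288 * h / l := by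
        refine div_le_div_of_nonneg_right ?_ hl.le
        linarith
      have h6 : 4 * V ≤ 12 * h / P + 12 * (B : ℝ) ^ 3 * Y / P ^ 4 := by
        have e1 : 12 * (h : ℝ) / P = 4 * (3 * h / P) := by ring
        have e2 : 12 * (B : ℝ) ^ 3 * Y / P ^ 4 = 4 * (3 * (B : ℝ) ^ 3 * Y / P ^ 4) := by ring
        rw [e1, e2, hV]
        linarith
      linarith
  rw [Finset.card_eq_sum_card_fiberwise hmaps]
  push_cast
  have h1 := Finset.sum_le_sum hrow
  rw [Finset.sum_const, Nat.card_Icc, nsmul_eq_mul, Nat.add_sub_cancel] at h1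
  refine h1.trans (le_of_eq ?_)
  ring

end Pool.Agent.SQG
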