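import Pool.Agent.Lib.SQG.Defs3

/-!
# Windows with many primes in a dyadic range: pairs at a distance divisible by `M`
-/

set_option autoImplicit false

namespace Pool.Agent.SQG

open Finset Pool.Agent.Lib.MP_8739b7_nt

namespace Ftx

lemma mem_SD' {h N i p : ℕ} (hp : p ∈ SD h N i) : 2 ^ i ≤ p ∧ p < 2 * 2 ^ i ∧ p.Prime ∧
    ∃ m, N < p ^ 2 * m ∧ p ^ 2 * m ≤ N + h := by
  unfold SD at hp
  rw [mem_filter, mem_SS] at hp
  obtain ⟨⟨_, hpp, j, hj, m, hm⟩, h1, h2⟩ := hp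
  rw [mem_Icc] at hj
  refine ⟨h1, by rw [pow_succ] at h2; omega, hpp, m, by omega, by omega⟩

/-- Many pairs in one residue class. -/
lemma exists_T (hG : GAP_stmt) (N h i B M : ℕ) (hP : 3 ≤ 2 ^ i) (hB1 : 1 ≤ B) (hBP : B < 2 ^ i)
    (S : Finset ℕ) (hS : S ⊆ SD h N i) (hM : ∀ s ∈ S, ∀ u ∈ S, s % M = u % M)
    (hS12 : 12 ≤ S.card) (hS6 : 6 * 2 ^ i ≤ B * S.card) :
    ∃ G : Finset Q2, (∀ t ∈ G, IsPairAt N h (2 ^ i) B t ∧ M ≤ t.a) ∧ S.card ≤ 3 * G.card := by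
  classical
  have hgap := hG (2 ^ i) B S hB1
    (fun s hs => ⟨(mem_SD' (hS hs)).1, (mem_SD' (hS hs)).2.1⟩) hS12 hS6
  set good := S.filter (fun s => (∃ u ∈ S, u < s ∧ s ≤ u + B) ∧
    ∃ w ∈ S, s < w ∧ w ≤ s + B) with hgood
  have hmc : ∀ p, ∃ m, p ∈ SD h N i → (N < p ^ 2 * m ∧ p ^ 2 * m ≤ N + h) := by
    intro p
    by_cases hp : p ∈ SD h N i
    · obtain ⟨_, _, _, m, hm⟩ := mem_SD' hp
      exact ⟨m, fun _ => hm⟩
    · exact ⟨0, fun hp' => absurd hp' hp⟩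
  choose mc hmc using hmc
  have huf : ∀ s, ∃ u, s ∈ good → (u ∈ S ∧ u < s ∧ s ≤ u + B) := by
    intro s
    by_cases hs : s ∈ good
    · rw [hgood, mem_filter] at hs
      obtain ⟨_, ⟨u, hu, hu1, hu2⟩, _⟩ := hs
      exact ⟨u, fun _ => ⟨hu, hu1, hu2⟩⟩
    · exact ⟨0, fun hs' => absurd hs' hs⟩
  choose uf huf using huf
  refine ⟨good.image (fun s => (⟨s - uf s, uf s, mc (uf s), mc s⟩ : Q2)), ?_, ?_⟩
  · intro t ht
    rw [mem_image] at ht
    obtain ⟨s, hs, rfl⟩ := ht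
    obtain ⟨hu, hu1, hu2⟩ := huf s hs
    have hsS : s ∈ S := (mem_filter.1 hs).1
    obtain ⟨s1, s2, s3, _⟩ := mem_SD' (hS hsS)
    obtain ⟨u1, u2, u3, _⟩ := mem_SD' (hS hu)
    have hsu : uf s + (s - uf s) = s := by omega
    refine ⟨⟨u1, ?_, ?_, ?_, ?_, ?_, (hmc _ (hS hu)).1, (hmc _ (hS hu)).2, ?_, ?_⟩, ?_⟩
    · show uf s + (s - uf s) < 2 * 2 ^ i
      rw [hsu]; exact s2
    · show 1 ≤ s - uf s
      omega
    · show s - uf s ≤ B
      omega
    · show Even (s - uf s)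
      have o1 : Odd s := s3.odd_of_ne_two (by omega)
      have o2 : Odd (uf s) := u3.odd_of_ne_two (by omega)
      exact Nat.Odd.sub_odd o1 o2
    · show Nat.Coprime (uf s) (s - uf s)
      rw [u3.coprime_iff_not_dvd]
      intro hd
      have h7 := Nat.le_of_dvd (by omega) hd
      have h8 : s - uf s < 2 ^ i := lt_of_le_of_lt (by omega) hBP
      omega
    · show N < (uf s + (s - uf s)) ^ 2 * mc s
      rw [hsu]; exact (hmc _ (hS hsS)).1
    · show (uf s + (s - uf s)) ^ 2 * mc s ≤ N + h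
      rw [hsu]; exact (hmc _ (hS hsS)).2
    · show M ≤ s - uf s
      have h1 : M ∣ s - uf s := (Nat.modEq_iff_dvd' hu1.le).1 (hM _ hu _ hsS)
      exact Nat.le_of_dvd (by omega) h1
  · rw [card_image_of_injOn]
    · exact hgap
    · intro s hs s' hs' heq
      simp only [Q2.mk.injEq] at heq
      obtain ⟨e1, e2, _, _⟩ := heq
      obtain ⟨_, hu1, _⟩ := huf s hs
      obtain ⟨_, hu1', _⟩ := huf s' hs'
      omega

end Ftx

/-- Row FTE. -/
theorem fte (hG : GAP_stmt) : FTE_stmt := by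
  intro N Y h i B M L hL hM hMe h48 hhY hh8 hBh hBP hB1 hYN hNY hcard
  classical
  have hL0 : (0 : ℝ) < L := by linarith
  have hM2 : 2 ≤ M := by
    obtain ⟨k, hk⟩ := hMe
    omega
  have hM0 : (0 : ℝ) < M := by
    have : 0 < M := by omega
    exact_mod_cast this
  have hM2' : (2 : ℝ) ≤ M := by exact_mod_cast hM2
  have hP : 3 ≤ 2 ^ i := by
    have h1 : (96 : ℝ) ≤ h := by nlinarith
    have h2 : 96 ≤ h := by exact_mod_cast h1
    omega
  obtain ⟨r, _, hr⟩ := Finset.exists_le_card_fiber_of_nsmul_le_card_of_maps_to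
    (s := SD h N i) (t := range M) (f := fun s => s % M) (b := (h : ℝ) / (4 * L * M))
    (fun s _ => mem_range.2 (Nat.mod_lt _ (by omega))) ⟨0, mem_range.2 (by omega)⟩ (by
      rw [card_range, nsmul_eq_mul]
      refine le_trans (le_of_eq ?_) hcard
      field_simp)
  set S := (SD h N i).filter (fun s => s % M = r) with hS
  have hS12 : 12 ≤ S.card := by
    have h1 : (12 : ℝ) ≤ (h : ℝ) / (4 * L * M) := by
      rw [le_div_iff₀ (by positivity)]
      linarith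
    exact_mod_cast h1.trans hr
  have hS6 : 6 * 2 ^ i ≤ B * S.card := by
    have h1 : (6 : ℝ) * 2 ^ i ≤ B * ((h : ℝ) / (4 * L * M)) := by
      rw [← mul_div_assoc, le_div_iff₀ (by positivity)]
      linarith
    have h2 : (B : ℝ) * ((h : ℝ) / (4 * L * M)) ≤ B * (S.card : ℝ) := by gcongr
    exact_mod_cast h1.trans h2
  obtain ⟨G, hG1, hG2⟩ := Ftx.exists_T hG N h i B M hP hB1 hBP S (filter_subset _ _)
    (fun s hs u hu => by rw [(mem_filter.1 hs).2, (mem_filter.1 hu).2]) hS12 hS6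
  refine ⟨G, hG1, ?_⟩
  have h1 : (S.card : ℝ) ≤ 3 * (G.card : ℝ) := by exact_mod_cast hG2
  have h2 : (h : ℝ) / (12 * L * M) = (h : ℝ) / (4 * L * M) / 3 := by
    rw [div_div]
    congr 1
    ring
  rw [h2]
  linarith

end Pool.Agent.SQG
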