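import Pool.Agent.Lib.SQG.Defs

/-!
Row LAM: size of `lam`.
-/

set_option autoImplicit false

namespace Pool.Agent.SQG

theorem lam_bounds : LAM_stmt := by
  intro a b s P B ha haB hb hbB hP hs hs2
  have hB : 1 ≤ B := ha.trans haB
  have hP0 : 0 < P := by linarith
  have hs0 : 0 < s := by linarith
  have hsB : 100 * B ≤ s := hP.trans hs
  have hab : a * b ≤ B ^ 2 := by nlinarith
  have hab0 : 0 < a * b := by positivity
  -- the denominator
  have h2 : 29 / 10 * s ^ 2 ≤ 3 * s ^ 2 + 2 * (b - a) * s - a * b := by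
    have h3 : (b - a) * s ≥ -(B * s) := by nlinarith
    have h4 : B * s ≤ s ^ 2 / 100 := by nlinarith
    have h5 : B ^ 2 ≤ s ^ 2 / 10000 := by nlinarith
    nlinarith
  have h2' : 0 < 3 * s ^ 2 + 2 * (b - a) * s - a * b := by
    have : 0 < s ^ 2 := by positivity
    linarith
  -- the numerator
  have h6 : 0 < 2 * (a ^ 2 + a * b + b ^ 2) * s - a * b * (b - a) := by
    have h7 : a * b * (b - a) ≤ a * b * s := by
      refine mul_le_mul_of_nonneg_left ?_ hab0.le
      linarith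
    have h8 : 0 < a * b * s := by positivity
    nlinarith [mul_pos (mul_pos (show (0 : ℝ) < a by linarith) (show (0 : ℝ) < a by linarith)) hs0,
      mul_pos (mul_pos (show (0 : ℝ) < b by linarith) (show (0 : ℝ) < b by linarith)) hs0]
  have h9 : 2 * (a ^ 2 + a * b + b ^ 2) * s - a * b * (b - a) ≤ 61 / 10 * B ^ 2 * s := by
    have h10 : a ^ 2 + a * b + b ^ 2 ≤ 3 * B ^ 2 := by nlinarith
    have h11 : (a ^ 2 + a * b + b ^ 2) * s ≤ 3 * B ^ 2 * s :=
      mul_le_mul_of_nonneg_right h10 hs0.le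
    have h12 : a * b * (a - b) ≤ B ^ 2 * B := by
      have h13 : a * b * (a - b) ≤ a * b * B := mul_le_mul_of_nonneg_left (by linarith) hab0.le
      have h14 : a * b * B ≤ B ^ 2 * B := mul_le_mul_of_nonneg_right hab (by linarith)
      linarith
    have h15 : B ^ 2 * B ≤ B ^ 2 * (s / 100) :=
      mul_le_mul_of_nonneg_left (by linarith) (by positivity)
    nlinarith
  unfold lam
  refine ⟨div_pos h6 h2', ?_⟩
  rw [div_le_div_iff₀ h2' hP0]
  have h16 : 61 / 10 * B ^ 2 * s * P ≤ 61 / 10 * B ^ 2 * s * s :=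
    mul_le_mul_of_nonneg_left hs (by positivity)
  have h17 : (2 * (a ^ 2 + a * b + b ^ 2) * s - a * b * (b - a)) * P ≤ 61 / 10 * B ^ 2 * s * P :=
    mul_le_mul_of_nonneg_right h9 hP0.le
  have h18 : 3 * B ^ 2 * (29 / 10 * s ^ 2) ≤
      3 * B ^ 2 * (3 * s ^ 2 + 2 * (b - a) * s - a * b) :=
    mul_le_mul_of_nonneg_left h2 (by positivity)
  have h19 : 0 ≤ B ^ 2 * s ^ 2 := by positivity
  nlinarith

end Pool.Agent.SQG
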