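import Pool.Agent.Lib.SQG.Defs2

/-!
Row LAM2: `lam` varies.
-/

set_option autoImplicit false

namespace Pool.Agent.SQG

namespace LAM2x

theorem den {a b s B : ℝ} (ha : 1 ≤ a) (haB : a ≤ B) (hb : 1 ≤ b) (hbB : b ≤ B)
    (hs : 100 * B ≤ s) : 29 / 10 * s ^ 2 ≤ 3 * s ^ 2 + 2 * (b - a) * s - a * b ∧
      3 * s ^ 2 + 2 * (b - a) * s - a * b ≤ 302 / 100 * s ^ 2 := by
  have hB : 1 ≤ B := ha.trans haB
  have hs0 : 0 < s := by linarith
  have hab : a * b ≤ B ^ 2 := by nlinarith
  have hab0 : 0 < a * b := by positivity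
  have h3 : (b - a) * s ≥ -(B * s) := by nlinarith
  have h3' : (b - a) * s ≤ B * s := by nlinarith
  have h4 : B * s ≤ s ^ 2 / 100 := by nlinarith
  have h5 : B ^ 2 ≤ s ^ 2 / 10000 := by nlinarith
  constructor <;> nlinarith

end LAM2x

open LAM2x

theorem lam2 : LAM2_stmt := by
  intro a b s s' P B ha haB hb hbB hP hs hs2 hs' hs2'
  have hB : 1 ≤ B := ha.trans haB
  have hP0 : 0 < P := by linarith
  have hs0 : 0 < s := by linarith
  have hs0' : 0 < s' := by linarith
  have hsB : 100 * B ≤ s := hP.trans hs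
  have hsB' : 100 * B ≤ s' := hP.trans hs'
  obtain ⟨d1, d2⟩ := den ha haB hb hbB hsB
  obtain ⟨d1', d2'⟩ := den ha haB hb hbB hsB'
  set D : ℝ := 3 * s ^ 2 + 2 * (b - a) * s - a * b with hD
  set D' : ℝ := 3 * s' ^ 2 + 2 * (b - a) * s' - a * b with hD'
  have hD0 : 0 < D := by
    have : 0 < s ^ 2 := by positivity
    linarith
  have hD0' : 0 < D' := by
    have : 0 < s' ^ 2 := by positivity
    linarith
  set κ : ℝ := a ^ 2 + a * b + b ^ 2 with hκ
  have hab0 : 0 < a * b := by positivity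
  have hκ0 : 0 < κ := by positivity
  have hc1 : |a * b * (b - a)| ≤ κ * B := by
    rw [abs_mul, abs_of_pos hab0]
    have h1 : |b - a| ≤ B := by rw [abs_le]; constructor <;> linarith
    have h2 : a * b ≤ κ := by rw [hκ]; nlinarith [sq_nonneg a, sq_nonneg b]
    exact mul_le_mul h2 h1 (abs_nonneg _) hκ0.le
  obtain ⟨c1, c2⟩ := abs_le.mp hc1
  have hab : a * b ≤ B ^ 2 := by nlinarith
  constructor
  · unfold lam
    rw [← hD, div_le_div_iff₀ hD0 hP0]
    have h1 : κ * B * P ≤ κ * (s ^ 2 / 100) := by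
      rw [mul_assoc]
      refine mul_le_mul_of_nonneg_left ?_ hκ0.le
      nlinarith
    have h2 : -(κ * B * P) ≤ a * b * (b - a) * P := by nlinarith
    have h3 : 2 * κ * s * P ≤ 2 * κ * s * s := by
      refine mul_le_mul_of_nonneg_left hs (by positivity)
    have h4 : κ * (29 / 10 * s ^ 2) ≤ κ * D := mul_le_mul_of_nonneg_left d1 hκ0.le
    have h5 : 0 ≤ κ * s ^ 2 := by positivity
    nlinarith
  · set E : ℝ := -(6 * κ * s * s') - 2 * κ * (a * b) + 3 * (a * b * (b - a)) * (s + s') +
      (a * b * (b - a)) * (2 * (b - a)) with hE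
    have h1 : lam a b s - lam a b s' = (s - s') * E / (D * D') := by
      unfold lam
      rw [← hD, ← hD', ← hκ, div_sub_div _ _ hD0.ne' hD0'.ne']
      congr 1
      rw [hD, hD', hE]
      ring
    have hss : 0 < s * s' := by positivity
    have h2 : 5 * κ * (s * s') ≤ |E| := by
      have e1 : 3 * (a * b * (b - a)) * (s + s') ≤ 3 * (κ * B) * (s + s') := by
        refine mul_le_mul_of_nonneg_right (by linarith) (by positivity)
      have e2 : B * (s + s') ≤ s * s' / 50 := by nlinarith
      have e3 : 3 * (κ * B) * (s + s') ≤ 3 * κ * (s * s' / 50) := by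
        have := mul_le_mul_of_nonneg_left e2 (show 0 ≤ 3 * κ by positivity)
        nlinarith
      have e4 : (a * b * (b - a)) * (2 * (b - a)) ≤ κ * B * (2 * B) := by
        have f1 : |(a * b * (b - a)) * (2 * (b - a))| ≤ κ * B * (2 * B) := by
          rw [abs_mul]
          refine mul_le_mul hc1 ?_ (abs_nonneg _) (by positivity)
          rw [abs_le]; constructor <;> linarith
        exact (le_abs_self _).trans f1
      have e5 : B * (2 * B) ≤ s * s' / 50 := by nlinarith
      have e6 : κ * B * (2 * B) ≤ κ * (s * s' / 50) := by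
        rw [mul_assoc]
        exact mul_le_mul_of_nonneg_left e5 hκ0.le
      have e7 : 0 < κ * (s * s') := by positivity
      have e8 : 0 < κ * (a * b) := by positivity
      have e9 : -E ≤ |E| := neg_le_abs E
      have e10 : -E = 6 * (κ * (s * s')) + 2 * (κ * (a * b)) -
          3 * (a * b * (b - a)) * (s + s') - (a * b * (b - a)) * (2 * (b - a)) := by
        rw [hE]; ring
      have e11 : 3 * κ * (s * s' / 50) = 3 / 50 * (κ * (s * s')) := by ring
      have e12 : κ * (s * s' / 50) = 1 / 50 * (κ * (s * s')) := by ring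
      have e13 : 5 * κ * (s * s') = 5 * (κ * (s * s')) := by ring
      rw [e13]
      linarith only [e1, e3, e4, e6, e7, e8, e9, e10, e11, e12]
    rw [h1, abs_div, abs_mul, abs_of_pos (mul_pos hD0 hD0'),
      div_le_div_iff₀ (by positivity) (mul_pos hD0 hD0')]
    have h3 : D * D' ≤ (302 / 100 * s ^ 2) * (302 / 100 * s' ^ 2) :=
      mul_le_mul d2 d2' hD0'.le (by positivity)
    have h4 : s * s' ≤ 4 * P ^ 2 := by nlinarith
    have h5 : D * D' ≤ 40 * (s * s') * P ^ 2 := by
      have f1 : s * s' * (s * s') ≤ s * s' * (4 * P ^ 2) := mul_le_mul_of_nonneg_left h4 hss.le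
      have f2 : (302 / 100 * s ^ 2) * (302 / 100 * s' ^ 2) =
          (302 / 100) ^ 2 * (s * s' * (s * s')) := by ring
      have f3 : 0 < s * s' * P ^ 2 := mul_pos hss (pow_pos hP0 2)
      have f4 : s * s' * (4 * P ^ 2) = 4 * (s * s' * P ^ 2) := by ring
      have f5 : 40 * (s * s') * P ^ 2 = 40 * (s * s' * P ^ 2) := by ring
      rw [f2] at h3
      rw [f4] at f1
      rw [f5]
      linarith only [h3, f1, f3]
    have h6 : κ * (D * D') ≤ |E| * (10 * P ^ 2) := by
      calc κ * (D * D') ≤ κ * (40 * (s * s') * P ^ 2) := mul_le_mul_of_nonneg_left h5 hκ0.le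
        _ ≤ (5 * κ * (s * s')) * (10 * P ^ 2) := by
          have : 0 < κ * (s * s') * P ^ 2 := by positivity
          nlinarith
        _ ≤ _ := mul_le_mul_of_nonneg_right h2 (by positivity)
    calc κ * |s - s'| * (D * D') = |s - s'| * (κ * (D * D')) := by ring
      _ ≤ |s - s'| * (|E| * (10 * P ^ 2)) := mul_le_mul_of_nonneg_left h6 (abs_nonneg _)
      _ = _ := by ring

end Pool.Agent.SQG
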