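import Mathlib
import Pool.Agent.Lib.SQG.Defs3

/-!
# Row MID: the long gaps contribute nothing to the moments of order below `4`
-/

set_option autoImplicit false

namespace Pool.Agent.SQG.MidAux

open Finset Filter Pool.Agent.SQG
open scoped Topology

theorem gap_nonempty (s : ℕ) : {k : ℕ | 1 ≤ k ∧ Squarefree (s + k)}.Nonempty := by
  obtain ⟨p, hp, hpp⟩ := Nat.exists_infinite_primes (s + 1)
  refine ⟨p - s, ?_, ?_⟩
  · omega
  · have : s + (p - s) = p := by omega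
    rw [this]
    exact hpp.squarefree

theorem one_le_gap (s : ℕ) : 1 ≤ gap s := (Nat.sInf_mem (gap_nonempty s)).1

theorem gap_le {s m : ℕ} (h : s < m) (hm : Squarefree m) : gap s ≤ m - s := by
  apply Nat.sInf_le
  refine ⟨by omega, ?_⟩
  have : s + (m - s) = m := by omega
  rwa [this]

theorem not_sqf {s m : ℕ} (h : s < m) (h2 : m < s + gap s) : ¬ Squarefree m := by
  intro hm
  have := gap_le h hm
  omega

theorem card_gap_le (X h : ℕ) (hX : h ≤ X) :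
    ((SqF X).filter fun s => 2 * h ≤ gap s).card * h ≤
      Set.ncard {n : ℕ | 1 ≤ n ∧ n ≤ 2 * X ∧ ∀ m : ℕ, n < m → m ≤ n + h → ¬ Squarefree m} := by
  classical
  set S := (SqF X).filter fun s => 2 * h ≤ gap s with hS
  have hinj : Set.InjOn (fun p : ℕ × ℕ => p.1 + p.2) (S ×ˢ range h : Finset (ℕ × ℕ)) := by
    rintro ⟨s, i⟩ hp ⟨t, j⟩ hq hpq
    simp only [coe_product, Set.mem_prod, mem_coe, mem_range] at hp hq
    simp only at hpq
    have key : ∀ s t i j : ℕ, s ∈ S → t ∈ S → i < h → j < h → s + i = t + j → ¬ s < t := by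
      intro s t i j hs ht hi hj he hlt
      have hs' : 2 * h ≤ gap s := (mem_filter.1 hs).2
      have ht' : Squarefree t := by
        have := (mem_filter.1 ht).1
        unfold SqF at this
        exact (mem_filter.1 this).2
      have := gap_le hlt ht'
      omega
    have h1 := key s t i j hp.1 hq.1 hp.2 hq.2 hpq
    have h2 := key t s j i hq.1 hp.1 hq.2 hp.2 hpq.symm
    have : s = t := by omega
    subst this
    have : i = j := by omega
    subst this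
    rfl
  have hcard : S.card * h = ((S ×ˢ range h).image fun p : ℕ × ℕ => p.1 + p.2).card := by
    rw [card_image_of_injOn hinj, card_product, card_range]
  rw [hcard, ← Set.ncard_coe_finset]
  apply Set.ncard_le_ncard
  · intro n hn
    simp only [coe_image, Set.mem_image, mem_coe, mem_product, mem_range] at hn
    obtain ⟨⟨s, i⟩, ⟨hs, hi⟩, rfl⟩ := hn
    simp only at hs hi ⊢
    have hs' : 2 * h ≤ gap s := (mem_filter.1 hs).2
    have hs1 : 1 ≤ s ∧ s ≤ X := by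
      have := (mem_filter.1 hs).1
      unfold SqF at this
      exact mem_Icc.1 (mem_filter.1 this).1
    refine ⟨by omega, by omega, ?_⟩
    intro m hm hm'
    exact not_sqf (s := s) (by omega) (by omega)
  · exact (Set.finite_Icc 1 (2 * X)).subset fun n hn => ⟨hn.1, hn.2.1⟩

theorem mem_SqF {X s : ℕ} (h : s ∈ SqF X) : 1 ≤ s ∧ s ≤ X ∧ Squarefree s := by
  unfold SqF at h
  obtain ⟨h1, h2⟩ := mem_filter.1 h
  exact ⟨(mem_Icc.1 h1).1, (mem_Icc.1 h1).2, h2⟩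

theorem count_le {C ε : ℝ} (hC : ∀ X h : ℕ, 1 ≤ h → h ^ 5 ≤ X →
    (Set.ncard {n : ℕ | 1 ≤ n ∧ n ≤ X ∧ ∀ m : ℕ, n < m → m ≤ n + h → ¬ Squarefree m} : ℝ) ≤
    C * (X : ℝ) ^ (1 + ε) / (h : ℝ) ^ 3) (X h : ℕ) (h1 : 1 ≤ h) (hX : h ≤ X)
    (h5 : h ^ 5 ≤ 2 * X) :
    (((SqF X).filter fun s => 2 * h ≤ gap s).card : ℝ) * (h : ℝ) ^ 4 ≤
      C * (2 * (X : ℝ)) ^ (1 + ε) := by
  have a := card_gap_le X h hX
  have b := hC (2 * X) h h1 h5
  have hpos : (0 : ℝ) < h := by exact_mod_cast h1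
  rw [le_div_iff₀ (by positivity)] at b
  have a' : (((SqF X).filter fun s => 2 * h ≤ gap s).card : ℝ) * h ≤
      (Set.ncard {n : ℕ | 1 ≤ n ∧ n ≤ 2 * X ∧
        ∀ m : ℕ, n < m → m ≤ n + h → ¬ Squarefree m} : ℝ) := by exact_mod_cast a
  push_cast at b
  calc (((SqF X).filter fun s => 2 * h ≤ gap s).card : ℝ) * (h : ℝ) ^ 4
      = ((((SqF X).filter fun s => 2 * h ≤ gap s).card : ℝ) * h) * (h : ℝ) ^ 3 := by ring
    _ ≤ _ := (mul_le_mul_of_nonneg_right a' (by positivity)).trans b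

theorem gap_long {ε : ℝ} (hε : 0 < ε) {N0 : ℕ} (hN0 : ∀ n : ℕ, N0 ≤ n →
    ∃ m : ℕ, n < m ∧ (m : ℝ) ≤ n + (n : ℝ) ^ (1 / 5 + ε) ∧ Squarefree m) :
    ∃ X0 : ℕ, ∀ X : ℕ, X0 ≤ X → ∀ s ∈ SqF X, (gap s : ℝ) ≤ (X : ℝ) ^ (1 / 5 + ε) := by
  refine ⟨((range N0).sup gap) ^ 5 + 1, fun X hX s hs => ?_⟩
  obtain ⟨hs1, hsX, _⟩ := mem_SqF hs
  have hX1 : (1 : ℝ) ≤ X := by
    have : 1 ≤ X := hs1.trans hsX
    exact_mod_cast this
  rcases lt_or_ge s N0 with h | h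
  · have h1 : gap s ≤ (range N0).sup gap := Finset.le_sup (f := gap) (mem_range.2 h)
    have h2 : gap s ^ 5 ≤ X := (Nat.pow_le_pow_left h1 5).trans (by omega)
    have h3 : ((gap s : ℝ)) ^ (5 : ℕ) ≤ X := by exact_mod_cast h2
    have h4 : (gap s : ℝ) ≤ (X : ℝ) ^ (1 / 5 : ℝ) := by
      have := Real.rpow_le_rpow (by positivity) h3 (by norm_num : (0 : ℝ) ≤ 1 / 5)
      rw [← Real.rpow_natCast, ← Real.rpow_mul (by positivity)] at this
      have h5 : ((5 : ℕ) : ℝ) * (1 / 5) = 1 := by norm_num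
      rw [h5, Real.rpow_one] at this
      exact this
    refine h4.trans (Real.rpow_le_rpow_of_exponent_le hX1 (by linarith))
  · obtain ⟨m, hm1, hm2, hm3⟩ := hN0 s h
    have h1 := gap_le hm1 hm3
    have h2 : gap s + s ≤ m := by omega
    have h3 : (gap s : ℝ) + s ≤ m := by exact_mod_cast h2
    have h4 : (s : ℝ) ^ (1 / 5 + ε) ≤ (X : ℝ) ^ (1 / 5 + ε) :=
      Real.rpow_le_rpow (by positivity) (by exact_mod_cast hsX) (by positivity)
    linarith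

theorem dyadic {X : ℕ} {ε A : ℝ} (hX : 1 ≤ X) (hε : 0 < ε)
    (hg : ∀ s ∈ SqF X, (gap s : ℝ) ≤ (X : ℝ) ^ (1 / 5 + ε))
    (hc : ∀ h : ℕ, 1 ≤ h → h ≤ X → h ^ 5 ≤ 2 * X →
      (((SqF X).filter fun s => 2 * h ≤ gap s).card : ℝ) * (h : ℝ) ^ 4 ≤ A)
    (T : Finset ℕ) (hT : T ⊆ SqF X) (hT2 : ∀ s ∈ T, 2 ≤ gap s) :
    ∑ s ∈ T, (gap s : ℝ) ^ (4 : ℕ) ≤
      ((Nat.log 2 (2 * X) / 5 + 1 : ℕ) : ℝ) * (256 * ((X : ℝ) ^ ε) ^ 4 * A) := by
  classical
  set J := Nat.log 2 (2 * X) / 5 with hJ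
  have hJ1 : (2 ^ J) ^ 5 ≤ 2 * X := by
    rw [← pow_mul]
    exact (Nat.pow_le_pow_right (by norm_num) (by omega)).trans
      (Nat.pow_log_le_self 2 (by omega : 2 * X ≠ 0))
  have hJ2 : 2 * X < (2 ^ (J + 1)) ^ 5 := by
    rw [← pow_mul]
    exact (Nat.lt_pow_succ_log_self (by norm_num) (2 * X)).trans_le
      (Nat.pow_le_pow_right (by norm_num) (by omega))
  have hX1 : (1 : ℝ) ≤ X := by exact_mod_cast hX
  have hE1 : (1 : ℝ) ≤ (X : ℝ) ^ ε := Real.one_le_rpow hX1 hε.le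
  have hX5 : (X : ℝ) ^ (1 / 5 : ℝ) ≤ 2 ^ (J + 1) := by
    have h1 : (X : ℝ) ≤ ((2 : ℝ) ^ (J + 1)) ^ (5 : ℕ) := by
      have : X ≤ (2 ^ (J + 1)) ^ 5 := by omega
      exact_mod_cast this
    have h2 := Real.rpow_le_rpow (by positivity) h1 (by norm_num : (0 : ℝ) ≤ 1 / 5)
    rw [← Real.rpow_natCast ((2 : ℝ) ^ (J + 1)), ← Real.rpow_mul (by positivity)] at h2
    norm_num at h2 ⊢
    exact h2
  let f : ℕ → ℕ := fun s => min (Nat.log 2 (gap s) - 1) J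
  have hf : ∀ s ∈ T, f s ∈ range (J + 1) := fun s _ => mem_range.2 (by
    have := min_le_right (Nat.log 2 (gap s) - 1) J
    show min _ _ < _
    omega)
  rw [← Finset.sum_fiberwise_of_maps_to hf]
  have key : ∀ j ∈ range (J + 1), ∑ s ∈ T.filter (fun s => f s = j), (gap s : ℝ) ^ (4 : ℕ) ≤
      256 * ((X : ℝ) ^ ε) ^ 4 * A := by
    intro j hj
    have hjJ : j ≤ J := by have := mem_range.1 hj; omega
    have h1 : (2 ^ j) ^ 5 ≤ 2 * X :=
      (Nat.pow_le_pow_left (Nat.pow_le_pow_right (by norm_num) hjJ) 5).trans hJ1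
    have h2 : 2 ^ j ≤ X := by
      rcases Nat.eq_zero_or_pos j with h | h
      · subst h; simpa using hX
      · have : 2 * 2 ^ j ≤ (2 ^ j) ^ 5 := by
          have h3 : 2 ≤ 2 ^ j := by
            calc 2 = 2 ^ 1 := by norm_num
              _ ≤ 2 ^ j := Nat.pow_le_pow_right (by norm_num) h
          calc 2 * 2 ^ j ≤ 2 ^ j * 2 ^ j := Nat.mul_le_mul_right _ h3
            _ = (2 ^ j) ^ 2 := by ring
            _ ≤ (2 ^ j) ^ 5 := Nat.pow_le_pow_right (by positivity) (by norm_num)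
        omega
    have h3 := hc (2 ^ j) (Nat.one_le_two_pow) h2 h1
    have hb : ∀ s ∈ T.filter (fun s => f s = j), (gap s : ℝ) ^ (4 : ℕ) ≤
        256 * ((X : ℝ) ^ ε) ^ 4 * ((2 ^ j : ℕ) : ℝ) ^ 4 := by
      intro s hs
      obtain ⟨hsT, hsj⟩ := mem_filter.1 hs
      have hsj : min (Nat.log 2 (gap s) - 1) J = j := hsj
      have hlog : 1 ≤ Nat.log 2 (gap s) := Nat.log_pos (by norm_num) (hT2 s hsT)
      have hb1 : (gap s : ℝ) ≤ 4 * (2 ^ j) * (X : ℝ) ^ ε := by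
        rcases le_total (Nat.log 2 (gap s) - 1) J with h | h
        · rw [min_eq_left h] at hsj
          have h4 : gap s < 2 ^ (Nat.log 2 (gap s) + 1) :=
            Nat.lt_pow_succ_log_self (by norm_num) _
          have h5 : Nat.log 2 (gap s) + 1 = j + 2 := by omega
          rw [h5] at h4
          have h6 : (gap s : ℝ) ≤ 2 ^ (j + 2) := by exact_mod_cast h4.le
          calc (gap s : ℝ) ≤ 2 ^ (j + 2) := h6
            _ = 4 * 2 ^ j * 1 := by ring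
            _ ≤ _ := mul_le_mul_of_nonneg_left hE1 (by positivity)
        · rw [min_eq_right h] at hsj
          subst hsj
          calc (gap s : ℝ) ≤ (X : ℝ) ^ (1 / 5 + ε) := hg s (hT hsT)
            _ = (X : ℝ) ^ (1 / 5 : ℝ) * (X : ℝ) ^ ε := Real.rpow_add (by linarith) _ _
            _ ≤ 2 ^ (J + 1) * (X : ℝ) ^ ε := mul_le_mul_of_nonneg_right hX5 (by positivity)
            _ ≤ 4 * 2 ^ J * (X : ℝ) ^ ε := by
              apply mul_le_mul_of_nonneg_right _ (by positivity)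
              rw [pow_succ]
              have : (0 : ℝ) < 2 ^ J := by positivity
              linarith
      calc (gap s : ℝ) ^ (4 : ℕ) ≤ (4 * (2 ^ j) * (X : ℝ) ^ ε) ^ 4 :=
            pow_le_pow_left₀ (by positivity) hb1 4
        _ = _ := by push_cast; ring
    have hcard : ((T.filter (fun s => f s = j)).card : ℝ) ≤
        (((SqF X).filter fun s => 2 * 2 ^ j ≤ gap s).card : ℝ) := by
      have : (T.filter (fun s => f s = j)).card ≤
          ((SqF X).filter fun s => 2 * 2 ^ j ≤ gap s).card := by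
        apply card_le_card
        intro s hs
        obtain ⟨hsT, hsj⟩ := mem_filter.1 hs
        have hsj : min (Nat.log 2 (gap s) - 1) J = j := hsj
        have hlog : 1 ≤ Nat.log 2 (gap s) := Nat.log_pos (by norm_num) (hT2 s hsT)
        refine mem_filter.2 ⟨hT hsT, ?_⟩
        have h4 : 2 ^ (Nat.log 2 (gap s)) ≤ gap s :=
          Nat.pow_log_le_self 2 (by have := hT2 s hsT; omega)
        have h5 : 2 * 2 ^ j = 2 ^ (j + 1) := by ring
        rw [h5]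
        refine (Nat.pow_le_pow_right (by norm_num) ?_).trans h4
        have := min_le_left (Nat.log 2 (gap s) - 1) J
        omega
      exact_mod_cast this
    calc ∑ s ∈ T.filter (fun s => f s = j), (gap s : ℝ) ^ (4 : ℕ)
        ≤ (T.filter (fun s => f s = j)).card •
          (256 * ((X : ℝ) ^ ε) ^ 4 * ((2 ^ j : ℕ) : ℝ) ^ 4) :=
          Finset.sum_le_card_nsmul _ _ _ hb
      _ = ((T.filter (fun s => f s = j)).card : ℝ) *
          (256 * ((X : ℝ) ^ ε) ^ 4 * ((2 ^ j : ℕ) : ℝ) ^ 4) := by rw [nsmul_eq_mul]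
      _ ≤ (((SqF X).filter fun s => 2 * 2 ^ j ≤ gap s).card : ℝ) *
          (256 * ((X : ℝ) ^ ε) ^ 4 * ((2 ^ j : ℕ) : ℝ) ^ 4) :=
          mul_le_mul_of_nonneg_right hcard (by positivity)
      _ = 256 * ((X : ℝ) ^ ε) ^ 4 * ((((SqF X).filter fun s => 2 * 2 ^ j ≤ gap s).card : ℝ) *
          ((2 ^ j : ℕ) : ℝ) ^ 4) := by ring
      _ ≤ _ := mul_le_mul_of_nonneg_left h3 (by positivity)
  calc _ ≤ ∑ j ∈ range (J + 1), 256 * ((X : ℝ) ^ ε) ^ 4 * A := Finset.sum_le_sum key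
    _ = _ := by rw [sum_const, card_range, nsmul_eq_mul]

theorem log_le {X : ℕ} {ε : ℝ} (hX : 1 ≤ X) (hε : 0 < ε) :
    ((Nat.log 2 (2 * X) / 5 + 1 : ℕ) : ℝ) ≤ (1 + 2 ^ ε / (ε * Real.log 2)) * (X : ℝ) ^ ε := by
  have hX1 : (1 : ℝ) ≤ X := by exact_mod_cast hX
  have hE1 : (1 : ℝ) ≤ (X : ℝ) ^ ε := Real.one_le_rpow hX1 hε.le
  have hl2 : 0 < Real.log 2 := Real.log_pos (by norm_num)
  have h1 : ((2 : ℝ) ^ (Nat.log 2 (2 * X))) ≤ 2 * X := by
    exact_mod_cast Nat.pow_log_le_self 2 (by omega : 2 * X ≠ 0)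
  have h2 : (Nat.log 2 (2 * X) : ℝ) * Real.log 2 ≤ Real.log (2 * X) := by
    rw [← Real.log_pow]
    exact Real.log_le_log (by positivity) h1
  have h3 : Real.log (2 * X) ≤ (2 * (X : ℝ)) ^ ε / ε :=
    Real.log_le_rpow_div (by positivity) hε
  have h4 : (2 * (X : ℝ)) ^ ε = 2 ^ ε * (X : ℝ) ^ ε :=
    Real.mul_rpow (by norm_num) (by positivity)
  rw [h4] at h3
  have h5 : (Nat.log 2 (2 * X) : ℝ) ≤ 2 ^ ε / (ε * Real.log 2) * (X : ℝ) ^ ε := by
    rw [div_mul_eq_mul_div, le_div_iff₀ (by positivity)]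
    rw [le_div_iff₀ hε] at h3
    nlinarith
  have h6 : ((Nat.log 2 (2 * X) / 5 : ℕ) : ℝ) ≤ (Nat.log 2 (2 * X) : ℝ) := by
    exact_mod_cast Nat.div_le_self _ _
  push_cast
  nlinarith

end Pool.Agent.SQG.MidAux

namespace Pool.Agent.SQG

open Finset Filter Pool.Agent.SQG.MidAux
open scoped Topology

theorem mid (hF : FINB_stmt) (hT : FT_stmt) : MID_stmt := by
  intro γ hγ0 hγ4 δ hδ
  obtain ⟨ε, hε, hη⟩ : ∃ ε : ℝ, 0 < ε ∧ δ * (γ - 4) = -(12 * ε) :=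
    ⟨δ * (4 - γ) / 12, by have := mul_pos hδ (sub_pos.2 hγ4); positivity, by ring⟩
  obtain ⟨C0, hC0⟩ := hF ε hε
  obtain ⟨N0, hN0⟩ := hT ε hε
  obtain ⟨X0, hX0⟩ := gap_long hε hN0
  set K : ℝ := (1 + 2 ^ ε / (ε * Real.log 2)) * 256 * |C0| * 2 ^ (1 + ε) with hK
  have hl2 : 0 < Real.log 2 := Real.log_pos (by norm_num)
  have hlim : Tendsto (fun X : ℕ => K * (X : ℝ) ^ (-(6 * ε))) atTop (𝓝 0) := by
    have h1 : Tendsto (fun X : ℕ => (X : ℝ) ^ (-(6 * ε))) atTop (𝓝 0) :=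
      (tendsto_rpow_neg_atTop (by positivity : 0 < 6 * ε)).comp tendsto_natCast_atTop_atTop
    simpa using h1.const_mul K
  refine squeeze_zero' (Eventually.of_forall fun X => by positivity) ?_ hlim
  filter_upwards [eventually_ge_atTop (max X0 1)] with X hX
  have hXX0 : X0 ≤ X := (le_max_left _ _).trans hX
  have hX1 : 1 ≤ X := (le_max_right _ _).trans hX
  have hXr : (1 : ℝ) ≤ X := by exact_mod_cast hX1
  have hXp : (0 : ℝ) < X := by linarith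
  have hA : ∀ h : ℕ, 1 ≤ h → h ≤ X → h ^ 5 ≤ 2 * X →
      (((SqF X).filter fun s => 2 * h ≤ gap s).card : ℝ) * (h : ℝ) ^ 4 ≤
        |C0| * (2 * (X : ℝ)) ^ (1 + ε) := by
    intro h h1 h2 h3
    refine (count_le hC0 X h h1 h2 h3).trans ?_
    exact mul_le_mul_of_nonneg_right (le_abs_self _) (by positivity)
  set S := (SqF X).filter (fun s => (X : ℝ) ^ δ < gap s) with hS
  have hS2 : ∀ s ∈ S, 2 ≤ gap s := by
    intro s hs
    have h1 : (X : ℝ) ^ δ < gap s := (mem_filter.1 hs).2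
    have h2 : (1 : ℝ) ≤ (X : ℝ) ^ δ := Real.one_le_rpow hXr hδ.le
    have h3 : (1 : ℝ) < gap s := by linarith
    have h4 : 1 < gap s := by exact_mod_cast h3
    omega
  have hD := dyadic hX1 hε (hX0 X hXX0) hA S (filter_subset _ _) hS2
  have hpt : ∀ s ∈ S, (gap s : ℝ) ^ γ ≤ (gap s : ℝ) ^ (4 : ℕ) * (X : ℝ) ^ (-(12 * ε)) := by
    intro s hs
    have h1 : (X : ℝ) ^ δ < gap s := (mem_filter.1 hs).2
    have h2 : (0 : ℝ) < (X : ℝ) ^ δ := by positivity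
    have h3 : (0 : ℝ) < gap s := h2.trans h1
    have h4 : (gap s : ℝ) ^ (γ - 4) ≤ ((X : ℝ) ^ δ) ^ (γ - 4) :=
      Real.rpow_le_rpow_of_nonpos h2 h1.le (by linarith)
    rw [← Real.rpow_mul hXp.le, hη] at h4
    calc (gap s : ℝ) ^ γ = (gap s : ℝ) ^ ((4 : ℕ) : ℝ) * (gap s : ℝ) ^ (γ - 4) := by
          rw [← Real.rpow_add h3]; congr 1; push_cast; ring
      _ = (gap s : ℝ) ^ (4 : ℕ) * (gap s : ℝ) ^ (γ - 4) := by rw [Real.rpow_natCast]
      _ ≤ _ := mul_le_mul_of_nonneg_left h4 (by positivity)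
  have hL := log_le hX1 hε
  rw [div_le_iff₀ hXp]
  have e1 : (2 * (X : ℝ)) ^ (1 + ε) = 2 ^ (1 + ε) * (X : ℝ) ^ (1 + ε) :=
    Real.mul_rpow (by norm_num) hXp.le
  calc ∑ s ∈ S, (gap s : ℝ) ^ γ
      ≤ ∑ s ∈ S, (gap s : ℝ) ^ (4 : ℕ) * (X : ℝ) ^ (-(12 * ε)) := Finset.sum_le_sum hpt
    _ = (∑ s ∈ S, (gap s : ℝ) ^ (4 : ℕ)) * (X : ℝ) ^ (-(12 * ε)) := by rw [Finset.sum_mul]
    _ ≤ (((Nat.log 2 (2 * X) / 5 + 1 : ℕ) : ℝ) * (256 * ((X : ℝ) ^ ε) ^ 4 *
          (|C0| * (2 * (X : ℝ)) ^ (1 + ε)))) * (X : ℝ) ^ (-(12 * ε)) :=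
        mul_le_mul_of_nonneg_right hD (by positivity)
    _ ≤ (((1 + 2 ^ ε / (ε * Real.log 2)) * (X : ℝ) ^ ε) * (256 * ((X : ℝ) ^ ε) ^ 4 *
          (|C0| * (2 * (X : ℝ)) ^ (1 + ε)))) * (X : ℝ) ^ (-(12 * ε)) := by
        apply mul_le_mul_of_nonneg_right _ (by positivity)
        exact mul_le_mul_of_nonneg_right hL (by positivity)
    _ = K * (((X : ℝ) ^ ε) ^ (5 : ℕ) * (X : ℝ) ^ (1 + ε) * (X : ℝ) ^ (-(12 * ε))) := by
        rw [e1, hK]; ring
    _ = K * ((X : ℝ) ^ (-(6 * ε)) * (X : ℝ) ^ (1 : ℝ)) := by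
        congr 1
        rw [← Real.rpow_natCast ((X : ℝ) ^ ε) 5, ← Real.rpow_mul hXp.le, ← Real.rpow_add hXp,
          ← Real.rpow_add hXp, ← Real.rpow_add hXp]
        congr 1
        push_cast
        ring
    _ = K * (X : ℝ) ^ (-(6 * ε)) * X := by rw [Real.rpow_one]; ring

end Pool.Agent.SQG
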