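import Pool.Agent.Lib.SQG.Defs3
import Pool.Agent.Lib.MP_8739b7_nt.Tuples

set_option autoImplicit false

namespace Pool.Agent.SQG

open Finset Filter Pool.Agent.Lib.MP_8739b7_nt
open scoped Topology

namespace MomAux

theorem gap_nonempty (s : ℕ) : {k : ℕ | 1 ≤ k ∧ Squarefree (s + k)}.Nonempty := by
  obtain ⟨p, hp, hpp⟩ := Nat.exists_infinite_primes (s + 1)
  refine ⟨p - s, by omega, ?_⟩
  rw [show s + (p - s) = p by omega]
  exact hpp.prime.irreducible.squarefree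

theorem one_le_gap (s : ℕ) : 1 ≤ gap s := (Nat.sInf_mem (gap_nonempty s)).1

theorem card_SqF_ge (X : ℕ) : (X : ℝ) / 2 ≤ ((SqF X).card : ℝ) := by
  classical
  have h1 : (Icc 1 X).filter (fun n => ¬ Squarefree n) ⊆
      (PP X).biUnion fun p => (Ioc 0 X).filter fun n => p ^ 2 ∣ n := by
    intro n hn
    obtain ⟨hn1, hn2⟩ := mem_filter.1 hn
    rw [mem_Icc] at hn1
    rw [Nat.squarefree_iff_prime_squarefree] at hn2
    push Not at hn2
    obtain ⟨p, hp, hpn⟩ := hn2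
    rw [mem_biUnion]
    refine ⟨p, mem_PP.2 ⟨hp, ?_⟩, ?_⟩
    · have h2 := Nat.le_of_dvd (by omega) hpn
      nlinarith [hp.two_le]
    · rw [mem_filter, mem_Ioc]
      exact ⟨⟨by omega, hn1.2⟩, by rwa [pow_two]⟩
  have h2 : (((Icc 1 X).filter (fun n => ¬ Squarefree n)).card : ℝ) ≤ (X : ℝ) / 2 := by
    have h3 : ((Icc 1 X).filter (fun n => ¬ Squarefree n)).card ≤
        ∑ p ∈ PP X, ((Ioc 0 X).filter fun n => p ^ 2 ∣ n).card :=
      (card_le_card h1).trans card_biUnion_le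
    calc (((Icc 1 X).filter (fun n => ¬ Squarefree n)).card : ℝ)
        ≤ ((∑ p ∈ PP X, ((Ioc 0 X).filter fun n => p ^ 2 ∣ n).card : ℕ) : ℝ) := by
          exact_mod_cast h3
      _ = ∑ p ∈ PP X, ((X / p ^ 2 : ℕ) : ℝ) := by
          push_cast
          refine sum_congr rfl fun p _ => ?_
          rw [Nat.Ioc_filter_dvd_card_eq_div]
      _ ≤ ∑ p ∈ PP X, (X : ℝ) * (1 / (p : ℝ) ^ 2) := by
          refine sum_le_sum fun p _ => ?_
          have h4 : ((X / p ^ 2 : ℕ) : ℝ) ≤ (X : ℝ) / ((p ^ 2 : ℕ) : ℝ) := Nat.cast_div_le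
          push_cast at h4
          calc ((X / p ^ 2 : ℕ) : ℝ) ≤ (X : ℝ) / (p : ℝ) ^ 2 := h4
            _ = (X : ℝ) * (1 / (p : ℝ) ^ 2) := by ring
      _ = (X : ℝ) * ∑ p ∈ PP X, 1 / (p : ℝ) ^ 2 := by rw [mul_sum]
      _ ≤ (X : ℝ) * (1 / 2) := mul_le_mul_of_nonneg_left (sum_inv_sq_PP X) (Nat.cast_nonneg X)
      _ = (X : ℝ) / 2 := by ring
  have h3 : ((Icc 1 X).filter (fun n => Squarefree n)).card +
      ((Icc 1 X).filter (fun n => ¬ Squarefree n)).card = X := by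
    rw [card_filter_add_card_filter_not]
    simp
  have h4 : (((Icc 1 X).filter (fun n => Squarefree n)).card : ℝ) +
      (((Icc 1 X).filter (fun n => ¬ Squarefree n)).card : ℝ) = X := by exact_mod_cast h3
  have h5 : ((SqF X).card : ℝ) = (((Icc 1 X).filter (fun n => Squarefree n)).card : ℝ) := by
    unfold SqF
    congr!
  rw [h5]
  linarith

/-- the truncated average -/
noncomputable def A (γ : ℝ) (G X : ℕ) : ℝ :=
  (∑ s ∈ (SqF X).filter (fun s => gap s ≤ G), (gap s : ℝ) ^ γ) / X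

noncomputable def F (γ : ℝ) (X : ℕ) : ℝ := (∑ s ∈ SqF X, (gap s : ℝ) ^ γ) / X

theorem tendsto_A (hD : DEN_stmt) (γ : ℝ) (G : ℕ) : ∃ a : ℝ, Tendsto (A γ G) atTop (𝓝 a) := by
  choose d _ hd using hD
  refine ⟨∑ g ∈ range (G + 1), (g : ℝ) ^ γ * d g, ?_⟩
  have h1 : A γ G = fun X : ℕ => ∑ g ∈ range (G + 1),
      (g : ℝ) ^ γ * ((((SqF X).filter fun s => gap s = g).card : ℝ) / X) := by
    funext X
    unfold A
    have h2 : ∑ s ∈ (SqF X).filter (fun s => gap s ≤ G), (gap s : ℝ) ^ γ =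
        ∑ g ∈ range (G + 1), ∑ s ∈ ((SqF X).filter (fun s => gap s ≤ G)).filter
          (fun s => gap s = g), (gap s : ℝ) ^ γ := by
      rw [sum_fiberwise_of_maps_to]
      intro s hs
      rw [mem_range]
      exact Nat.lt_succ_of_le (mem_filter.1 hs).2
    rw [h2, sum_div]
    refine sum_congr rfl fun g hg => ?_
    have h3 : ((SqF X).filter (fun s => gap s ≤ G)).filter (fun s => gap s = g) =
        (SqF X).filter fun s => gap s = g := by
      ext s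
      simp only [mem_filter]
      constructor
      · rintro ⟨⟨h4, _⟩, h5⟩
        exact ⟨h4, h5⟩
      · rintro ⟨h4, h5⟩
        refine ⟨⟨h4, ?_⟩, h5⟩
        rw [mem_range] at hg
        omega
    rw [h3]
    have h4 : ∑ s ∈ (SqF X).filter (fun s => gap s = g), (gap s : ℝ) ^ γ =
        ∑ _s ∈ (SqF X).filter (fun s => gap s = g), (g : ℝ) ^ γ :=
      sum_congr rfl fun s hs => by rw [(mem_filter.1 hs).2]
    rw [h4, sum_const, nsmul_eq_mul]
    ring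
  rw [h1]
  exact tendsto_finsetSum _ fun g _ => (hd g).const_mul _

theorem approx (hD : DEN_stmt) (hS : SMT_stmt) (hM : MID_stmt) (γ : ℝ) (h0 : 0 ≤ γ) (h4 : γ < 4)
    (ε : ℝ) (hε : 0 < ε) : ∃ a : ℝ, ∀ᶠ X in atTop, |F γ X - a| ≤ ε := by
  obtain ⟨δ, hδ, C, hC, hSC⟩ := hS γ h0 h4
  have hMδ := hM γ h0 h4 δ hδ
  obtain ⟨G, hG⟩ := exists_nat_gt (C / (ε / 3))
  have hG0 : (0 : ℝ) < G := lt_of_le_of_lt (by positivity) hG
  have hG1 : 1 ≤ G := by exact_mod_cast hG0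
  have hCG : C / G < ε / 3 := by
    rw [div_lt_iff₀ (by positivity)] at hG
    rw [div_lt_iff₀ hG0]
    linarith
  obtain ⟨a, ha⟩ := tendsto_A hD γ G
  refine ⟨a, ?_⟩
  have e1 : ∀ᶠ X in atTop, |A γ G X - a| < ε / 3 := by
    have := (Metric.tendsto_nhds.1 ha) (ε / 3) (by positivity)
    simpa only [Real.dist_eq] using this
  have e2 : ∀ᶠ X : ℕ in atTop, |(∑ s ∈ (SqF X).filter (fun s => (X : ℝ) ^ δ < gap s),
      (gap s : ℝ) ^ γ) / X - 0| < ε / 3 := by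
    have := (Metric.tendsto_nhds.1 hMδ) (ε / 3) (by positivity)
    simpa only [Real.dist_eq] using this
  filter_upwards [e1, e2, eventually_ge_atTop 1] with X h1 h2 hX
  have hX0 : (0 : ℝ) < X := by exact_mod_cast hX
  have hnn : ∀ s : ℕ, 0 ≤ (gap s : ℝ) ^ γ := fun s => Real.rpow_nonneg (Nat.cast_nonneg _) _
  have h3 : ∑ s ∈ SqF X, (gap s : ℝ) ^ γ =
      ∑ s ∈ (SqF X).filter (fun s => gap s ≤ G), (gap s : ℝ) ^ γ +
        ∑ s ∈ (SqF X).filter (fun s => ¬ gap s ≤ G), (gap s : ℝ) ^ γ :=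
    (sum_filter_add_sum_filter_not _ _ _).symm
  have h5 : ∑ s ∈ (SqF X).filter (fun s => ¬ gap s ≤ G), (gap s : ℝ) ^ γ ≤
      ∑ s ∈ (SqF X).filter (fun s => G < gap s ∧ (gap s : ℝ) ≤ (X : ℝ) ^ δ), (gap s : ℝ) ^ γ +
        ∑ s ∈ (SqF X).filter (fun s => (X : ℝ) ^ δ < gap s), (gap s : ℝ) ^ γ := by
    classical
    refine (sum_le_sum_of_subset_of_nonneg (t := (SqF X).filter (fun s => G < gap s ∧
      (gap s : ℝ) ≤ (X : ℝ) ^ δ) ∪ (SqF X).filter (fun s => (X : ℝ) ^ δ < gap s)) ?_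
      fun s _ _ => hnn s).trans ?_
    · intro s hs
      obtain ⟨hs1, hs2⟩ := mem_filter.1 hs
      rw [mem_union, mem_filter, mem_filter]
      rcases le_or_gt (gap s : ℝ) ((X : ℝ) ^ δ) with h | h
      · exact Or.inl ⟨hs1, by omega, h⟩
      · exact Or.inr ⟨hs1, h⟩
    · have h6 := sum_union_inter (s₁ := (SqF X).filter (fun s => G < gap s ∧
        (gap s : ℝ) ≤ (X : ℝ) ^ δ)) (s₂ := (SqF X).filter (fun s => (X : ℝ) ^ δ < gap s))
        (f := fun s => (gap s : ℝ) ^ γ)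
      have h7 : 0 ≤ ∑ s ∈ (SqF X).filter (fun s => G < gap s ∧
        (gap s : ℝ) ≤ (X : ℝ) ^ δ) ∩ (SqF X).filter (fun s => (X : ℝ) ^ δ < gap s),
          (gap s : ℝ) ^ γ := sum_nonneg fun s _ => hnn s
      linarith
  have h6 := hSC X G hX hG1
  have h7 : (∑ s ∈ (SqF X).filter (fun s => (X : ℝ) ^ δ < gap s), (gap s : ℝ) ^ γ) / X < ε / 3 := by
    rw [sub_zero] at h2
    exact lt_of_le_of_lt (le_abs_self _) h2
  have h8 : 0 ≤ ∑ s ∈ (SqF X).filter (fun s => ¬ gap s ≤ G), (gap s : ℝ) ^ γ :=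
    sum_nonneg fun s _ => hnn s
  have h9 : F γ X = A γ G X +
      (∑ s ∈ (SqF X).filter (fun s => ¬ gap s ≤ G), (gap s : ℝ) ^ γ) / X := by
    unfold F A
    rw [h3]
    ring
  have h10 : 0 ≤ (∑ s ∈ (SqF X).filter (fun s => ¬ gap s ≤ G), (gap s : ℝ) ^ γ) / X :=
    div_nonneg h8 hX0.le
  have h11 : (∑ s ∈ (SqF X).filter (fun s => ¬ gap s ≤ G), (gap s : ℝ) ^ γ) / X ≤
      ε / 3 + ε / 3 := by
    calc (∑ s ∈ (SqF X).filter (fun s => ¬ gap s ≤ G), (gap s : ℝ) ^ γ) / X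
        ≤ (C * X / G + ∑ s ∈ (SqF X).filter (fun s => (X : ℝ) ^ δ < gap s),
            (gap s : ℝ) ^ γ) / X := by
          apply div_le_div_of_nonneg_right _ hX0.le
          linarith
      _ = C / G + (∑ s ∈ (SqF X).filter (fun s => (X : ℝ) ^ δ < gap s), (gap s : ℝ) ^ γ) / X := by
          rw [add_div]
          congr 1
          field_simp
      _ ≤ ε / 3 + ε / 3 := by linarith
  rw [abs_lt] at h1
  rw [h9, abs_le]
  constructor <;> linarith [h1.1, h1.2]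

theorem F_ge (γ : ℝ) (h0 : 0 ≤ γ) (X : ℕ) (hX : 1 ≤ X) : 1 / 2 ≤ F γ X := by
  have hX0 : (0 : ℝ) < X := by exact_mod_cast hX
  unfold F
  rw [le_div_iff₀ hX0]
  calc 1 / 2 * (X : ℝ) = (X : ℝ) / 2 := by ring
    _ ≤ (SqF X).card := card_SqF_ge X
    _ = ∑ _s ∈ SqF X, (1 : ℝ) := by simp
    _ ≤ ∑ s ∈ SqF X, (gap s : ℝ) ^ γ := by
      refine sum_le_sum fun s _ => Real.one_le_rpow ?_ h0
      exact_mod_cast one_le_gap s

end MomAux

open MomAux in
theorem mom : DEN_stmt → SMT_stmt → MID_stmt → MOM_stmt := by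
  intro hD hS hM γ h0 h4
  have hcau : CauchySeq (F γ) := by
    rw [Metric.cauchySeq_iff]
    intro ε hε
    obtain ⟨a, ha⟩ := approx hD hS hM γ h0 h4 (ε / 3) (by positivity)
    obtain ⟨N, hN⟩ := eventually_atTop.1 ha
    refine ⟨N, fun m hm n hn => ?_⟩
    have h1 := abs_le.1 (hN m hm)
    have h2 := abs_le.1 (hN n hn)
    rw [Real.dist_eq, abs_lt]
    constructor <;> linarith [h1.1, h1.2, h2.1, h2.2]
  obtain ⟨b, hb⟩ := cauchySeq_tendsto_of_complete hcau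
  refine ⟨b, ?_, hb⟩
  have h1 : 1 / 2 ≤ b := by
    refine ge_of_tendsto hb ?_
    filter_upwards [eventually_ge_atTop 1] with X hX
    exact F_ge γ h0 X hX
  linarith

end Pool.Agent.SQG
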