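import Pool.Agent.Lib.SQG.Defs2

/-!
# SQG, row PAB: both bounds for the number of `(u, W, f)` together
-/

set_option autoImplicit false

namespace Pool.Agent.SQG

/-- **PAB** (from CNT and EST). -/
theorem pab (hc : CNT_stmt) (he : EST_stmt) : PAB_stmt := by
  intro a b P B τ R M ha haB hb hbB hBP hR hM hτ S hS
  have h1 := hc a b P B τ R M ha haB hb hbB hBP hR hM hτ S hS
  have h2 := he a b P B τ R M ha haB hb hbB hBP hR hM hτ S hS
  have ha0 : (1 : ℝ) ≤ a := by exact_mod_cast ha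
  have hb0 : (1 : ℝ) ≤ b := by exact_mod_cast hb
  have haB' : (a : ℝ) ≤ B := by exact_mod_cast haB
  have hbB' : (b : ℝ) ≤ B := by exact_mod_cast hbB
  have hB1 : (1 : ℝ) ≤ B := ha0.trans haB'
  have hBP' : 100 * (B : ℝ) ≤ P := by exact_mod_cast hBP
  have hP0 : (0 : ℝ) < P := by linarith
  have hτ1 : (1 : ℝ) ≤ τ := by
    have h3 : 0 < (9 * b * (a + b)).divisors.card := by
      rw [Finset.card_pos, Nat.nonempty_divisors]
      have : 0 < 9 * b * (a + b) := by positivity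
      omega
    have h4 : 1 ≤ τ := by omega
    exact_mod_cast h4
  set L : ℝ := ((Nat.log 2 ⌊M⌋₊ + 1 : ℕ) : ℝ) with hL
  have hL1 : (1 : ℝ) ≤ L := by
    rw [hL]
    push_cast
    have : (0 : ℝ) ≤ (Nat.log 2 ⌊M⌋₊ : ℝ) := Nat.cast_nonneg _
    linarith
  set Q : ℝ := P / (9 * (b : ℝ) * (a + b)) with hQ
  have hQ0 : 0 ≤ Q := by positivity
  have e1 : 138 * R * τ * P * M / (9 * (b : ℝ) * (a + b)) = 138 * (R * τ * M * Q) := by
    rw [hQ]
    ring
  have e2 : 552 * R * τ * P / (9 * (b : ℝ) * (a + b)) = 552 * (R * τ * Q) := by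
    rw [hQ]
    ring
  rw [e1] at h1
  rw [e2] at h2
  -- elementary comparisons
  have hR0 : 0 ≤ R := by linarith
  have hR2 : R ≤ R ^ 2 := by nlinarith
  have hU : 0 ≤ R * τ * M * Q := by positivity
  have c1 : R * τ * M * Q ≤ R ^ 2 * L * τ * M * Q := by
    have : R * τ * M * Q * 1 ≤ R * τ * M * Q * (R * L) :=
      mul_le_mul_of_nonneg_left (by nlinarith) hU
    nlinarith
  have c2 : R * M ≤ R ^ 2 * L * τ * M * B := by
    have hRM : 0 ≤ R * M := by positivity
    have h3 : 1 ≤ R * L := by nlinarith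
    have h4 : 1 ≤ τ * (B : ℝ) := by nlinarith
    have h5 : 1 ≤ (R * L) * (τ * B) := by nlinarith
    have : R * M * 1 ≤ R * M * ((R * L) * (τ * B)) := mul_le_mul_of_nonneg_left h5 hRM
    nlinarith
  have c3 : R ^ 2 * L * M ≤ R ^ 2 * L * τ * M * B := by
    have hRM : 0 ≤ R ^ 2 * L * M := by positivity
    have h4 : 1 ≤ τ * (B : ℝ) := by nlinarith
    have : R ^ 2 * L * M * 1 ≤ R ^ 2 * L * M * (τ * B) := mul_le_mul_of_nonneg_left h4 hRM
    nlinarith
  have c4 : R * L * M * B ≤ R ^ 2 * L * τ * M * B := by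
    have hRM : 0 ≤ R * L * M * B := by positivity
    have h4 : 1 ≤ R * (τ : ℝ) := by nlinarith
    have : R * L * M * B * 1 ≤ R * L * M * B * (R * τ) := mul_le_mul_of_nonneg_left h4 hRM
    nlinarith
  have c5 : R * B * M ≤ R ^ 2 * L * τ * M * B := by
    have hRM : 0 ≤ R * B * M := by positivity
    have h3 : 1 ≤ R * L := by nlinarith
    have h4 : 1 ≤ R * L * (τ : ℝ) := by nlinarith
    have : R * B * M * 1 ≤ R * B * M * (R * L * τ) := mul_le_mul_of_nonneg_left h4 hRM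
    nlinarith
  -- the two bounds
  have key : (S.card : ℝ) ≤ 138 * (R * τ * M * Q) + 3 * R * M + 3 * (R * B * M) +
      3 * R * L * M * (552 * (R * τ * Q) + 12 * R + 4 * B) := by
    rcases le_total (P : ℝ) (B * M) with h3 | h3
    · have h4 : 3 * R * (P : ℝ) ≤ 3 * (R * B * M) := by
        have : R * (P : ℝ) ≤ R * (B * M) := mul_le_mul_of_nonneg_left h3 hR0
        linarith
      have h5 : 0 ≤ 3 * R * M := by positivity
      linarith
    · have h4 : ((a : ℝ) ^ 2 + a * b + b ^ 2) * M ^ 2 / P ≤ 3 * (R * B * M) := by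
        rw [div_le_iff₀ hP0]
        have h5 : (a : ℝ) ^ 2 + a * b + b ^ 2 ≤ 3 * (B : ℝ) ^ 2 := by nlinarith
        have h6 : ((a : ℝ) ^ 2 + a * b + b ^ 2) * M ^ 2 ≤ 3 * (B : ℝ) ^ 2 * M ^ 2 :=
          mul_le_mul_of_nonneg_right h5 (sq_nonneg M)
        have h7 : (B * M) * (B * M) ≤ (B * M) * P :=
          mul_le_mul_of_nonneg_left h3 (by positivity)
        have h8 : (B * M) * P * 1 ≤ (B * M) * P * R :=
          mul_le_mul_of_nonneg_left hR (by positivity)
        nlinarith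
      have h5 : 0 ≤ 3 * R * L * M * (552 * (R * τ * Q) + 12 * R + 4 * B) := by positivity
      linarith
  refine key.trans ?_
  have e3 : 3 * R * L * M * (552 * (R * τ * Q) + 12 * R + 4 * B) =
      1656 * (R ^ 2 * L * τ * M * Q) + 36 * (R ^ 2 * L * M) + 12 * (R * L * M * B) := by ring
  have e4 : 1800 * R ^ 2 * L * τ * M * (Q + B) =
      1800 * (R ^ 2 * L * τ * M * Q) + 1800 * (R ^ 2 * L * τ * M * B) := by ring
  have hV : 0 ≤ R ^ 2 * L * τ * M * Q := by positivity
  have hW : 0 ≤ R ^ 2 * L * τ * M * B := by positivity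
  rw [e3, e4]
  linarith

end Pool.Agent.SQG
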