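import Pool.Agent.Lib.SQG.Defs

/-!
# Row RTRI: windows with many primes in a dyadic range, by triples
-/

set_option autoImplicit false

namespace Pool.Agent.SQG

open Finset Pool.Agent.Lib.MP_8739b7_nt

namespace Rtri

/-- a middle prime gives a triple -/
theorem exists_tri {N h i B s : ℕ}
    (hs : s ∈ SD h N i) (hu : ∃ u ∈ SD h N i, u < s ∧ s ≤ u + B)
    (hw : ∃ w ∈ SD h N i, s < w ∧ w ≤ s + B) :
    ∃ t : Q3, IsTriAt N h (2 ^ i) B t ∧ t.u + t.a = s := by
  obtain ⟨u, hu, hus, hsu⟩ := hu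
  obtain ⟨w, hw, hsw, hws⟩ := hw
  have key : ∀ p ∈ SD h N i, (2 ^ i ≤ p ∧ p < 2 ^ (i + 1)) ∧ ∃ m, N < p ^ 2 * m ∧
      p ^ 2 * m ≤ N + h := by
    intro p hp
    unfold SD at hp
    rw [mem_filter, mem_SS] at hp
    obtain ⟨⟨_, _, j, hj, m, hm⟩, hp2⟩ := hp
    rw [mem_Icc] at hj
    refine ⟨hp2, m, ?_, ?_⟩
    · rw [← hm]
      omega
    · rw [← hm]
      omega
  obtain ⟨hu2, m0, hm0, hm0'⟩ := key u hu
  obtain ⟨_, m1, hm1, hm1'⟩ := key s hs
  obtain ⟨hw2, m2, hm2, hm2'⟩ := key w hw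
  have e1 : u + (s - u) = s := by omega
  have e2 : u + (s - u) + (w - s) = w := by omega
  refine ⟨⟨s - u, w - s, u, m0, m1, m2⟩, ⟨hu2.1, ?_, ?_, ?_, ?_, ?_, hm0, hm0', ?_, ?_, ?_, ?_⟩, e1⟩
  · change u + (s - u) + (w - s) < 2 * 2 ^ i
    rw [e2]
    have := hw2.2
    rw [pow_succ] at this
    omega
  · change 1 ≤ s - u
    omega
  · change s - u ≤ B
    omega
  · change 1 ≤ w - s
    omega
  · change w - s ≤ B
    omega
  · change N < (u + (s - u)) ^ 2 * m1
    rw [e1]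
    exact hm1
  · change (u + (s - u)) ^ 2 * m1 ≤ N + h
    rw [e1]
    exact hm1'
  · change N < (u + (s - u) + (w - s)) ^ 2 * m2
    rw [e2]
    exact hm2
  · change (u + (s - u) + (w - s)) ^ 2 * m2 ≤ N + h
    rw [e2]
    exact hm2'

end Rtri

theorem rtri (hgap : GAP_stmt) (htri : TRI_stmt) : RTRI_stmt := by
  intro Y h i B τ L hL h20 h48 hhY hh8 hB hLB h100 h18 h8 hτ A hA
  classical
  set P : ℕ := 2 ^ i with hP
  have hP1 : 1 ≤ P := Nat.one_le_two_pow
  have hL0 : (0 : ℝ) < L := by linarith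
  have hhR : (0 : ℝ) < h := by exact_mod_cast (by omega : 0 < h)
  -- the good primes
  let good : ℕ → Finset ℕ := fun N => (SD h N i).filter (fun s =>
    (∃ u ∈ SD h N i, u < s ∧ s ≤ u + B) ∧ ∃ w ∈ SD h N i, s < w ∧ w ≤ s + B)
  have hgood : ∀ N ∈ A, (h : ℝ) / (12 * L) ≤ ((good N).card : ℝ) := by
    intro N hN
    obtain ⟨_, _, h3⟩ := hA N hN
    have h12 : (12 : ℝ) ≤ ((SD h N i).card : ℝ) := by
      refine le_trans ?_ h3
      rw [le_div_iff₀ (by positivity)]
      linarith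
    have h6 : (6 : ℝ) * P ≤ B * ((SD h N i).card : ℝ) := by
      have e1 : (B : ℝ) * (h / (4 * L)) ≤ B * ((SD h N i).card : ℝ) :=
        mul_le_mul_of_nonneg_left h3 (by positivity)
      refine le_trans ?_ e1
      rw [← mul_div_assoc, le_div_iff₀ (by positivity)]
      have e2 : ((P : ℕ) : ℝ) = 2 ^ i := by
        rw [hP]
        push_cast
        rfl
      rw [e2]
      linarith
    have h1 := hgap P B (SD h N i) hB (fun s hs => by
      unfold SD at hs
      rw [mem_filter] at hs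
      refine ⟨hs.2.1, ?_⟩
      have := hs.2.2
      rw [pow_succ] at this
      omega) (by exact_mod_cast h12) (by exact_mod_cast h6)
    have h2 : ((SD h N i).card : ℝ) ≤ 3 * ((good N).card : ℝ) := by exact_mod_cast h1
    have h4 : (h : ℝ) / (4 * L) = 3 * (h / (12 * L)) := by
      field_simp
      ring
    rw [h4] at h3
    linarith
  -- the triples
  have hex : ∀ x : (Σ _ : ℕ, ℕ), ∃ t : Q3, x ∈ A.sigma good →
      IsTriAt x.1 h P B t ∧ t.u + t.a = x.2 := by
    intro x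
    by_cases hx : x ∈ A.sigma good
    · obtain ⟨h1, h2⟩ := Finset.mem_sigma.1 hx
      obtain ⟨h3, h4, h5⟩ := Finset.mem_filter.1 h2
      obtain ⟨t, ht⟩ := Rtri.exists_tri h3 h4 h5
      exact ⟨t, fun _ => ht⟩
    · exact ⟨⟨0, 0, 0, 0, 0, 0⟩, fun h => absurd h hx⟩
  choose F hF using hex
  set D : Finset (Σ _ : ℕ, ℕ) := A.sigma good with hD
  set T : Finset Q3 := D.image F with hT
  have hDT : D.card ≤ h * T.card := by
    refine Finset.card_le_mul_card_image D h ?_
    intro t _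
    have h1 : (D.filter fun x => F x = t).card ≤
        (Ico (t.u ^ 2 * t.m0 - h) (t.u ^ 2 * t.m0)).card := by
      refine Finset.card_le_card_of_injOn (fun x => x.1) ?_ ?_
      · intro x hx
        obtain ⟨hx1, hx2⟩ := Finset.mem_filter.1 hx
        have h2 := (hF x hx1).1
        rw [hx2] at h2
        have h3 := h2.h0
        have h4 := h2.h0'
        rw [Finset.mem_coe, Finset.mem_Ico]
        change t.u ^ 2 * t.m0 - h ≤ x.1 ∧ x.1 < t.u ^ 2 * t.m0
        omega
      · intro x hx y hy hxy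
        obtain ⟨hx1, hx2⟩ := Finset.mem_filter.1 hx
        obtain ⟨hy1, hy2⟩ := Finset.mem_filter.1 hy
        have h2 := (hF x hx1).2
        have h3 := (hF y hy1).2
        rw [hx2] at h2
        rw [hy2] at h3
        obtain ⟨x1, x2⟩ := x
        obtain ⟨y1, y2⟩ := y
        have h4 : x1 = y1 := hxy
        have h5 : x2 = y2 := h2.symm.trans h3
        rw [h4, h5]
    refine h1.trans ?_
    rw [Nat.card_Ico]
    omega
  have hDA : (A.card : ℝ) * (h / (12 * L)) ≤ (D.card : ℝ) := by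
    rw [hD, Finset.card_sigma]
    push_cast
    calc (A.card : ℝ) * (h / (12 * L)) = ∑ _N ∈ A, (h : ℝ) / (12 * L) := by
          rw [Finset.sum_const, nsmul_eq_mul]
      _ ≤ ∑ N ∈ A, ((good N).card : ℝ) := Finset.sum_le_sum hgood
  have hTb := htri Y h P B τ hP1 (by omega) hB h100 h18 hh8 hhY h8 hτ T (by
    intro t ht
    obtain ⟨x, hx, rfl⟩ := Finset.mem_image.1 ht
    have h1 := (Finset.mem_sigma.1 hx).1
    obtain ⟨h2, h3, _⟩ := hA x.1 h1
    exact ⟨x.1, h2, h3, (hF x hx).1⟩)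
  have hAT : (A.card : ℝ) ≤ 12 * L * (T.card : ℝ) := by
    have e1 : (D.card : ℝ) ≤ h * T.card := by exact_mod_cast hDT
    have e2 := hDA.trans e1
    rw [← mul_div_assoc, div_le_iff₀ (by positivity)] at e2
    have e3 : (h : ℝ) * A.card ≤ h * (12 * L * T.card) := by linarith
    exact le_of_mul_le_mul_left e3 hhR
  have hPR : ((P : ℕ) : ℝ) = 2 ^ i := by
    rw [hP]
    push_cast
    rfl
  rw [hPR] at hTb
  exact hAT.trans (mul_le_mul_of_nonneg_left hTb (by positivity))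

end Pool.Agent.SQG
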