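import Pool.Agent.Lib.SQG.Defs2
import Pool.Agent.Lib.SQG.RTRI

/-!
# Row RTRIB: windows with many primes in a dyadic range, from any bound for the triples
-/

set_option autoImplicit false

namespace Pool.Agent.SQG

open Finset Pool.Agent.Lib.MP_8739b7_nt

theorem rtrib (hgap : GAP_stmt) : RTRIB_stmt := by
  intro Y h i B L Z hL h20 h48 hhY hh8 hB hLB hZ A hA
  classical
  set P : ℕ := 2 ^ i with hP
  have hP1 : 1 ≤ P := Nat.one_le_two_pow
  have hL0 : (0 : ℝ) < L := by linarith
  have hhR : (0 : ℝ) < h := by exact_mod_cast (by omega : 0 < h)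
  -- the good primes
  let good : ℕ → Finset ℕ := fun N => (SD h N i).filter (fun s =>
    (∃ u ∈ SD h N i, u < s ∧ s ≤ u + B) ∧ ∃ w ∈ SD h N i, s < w ∧ w ≤ s + B)
  have hgood : ∀ N ∈ A, (h : ℝ) / (12 * L) ≤ ((good N).card : ℝ) := by
    intro N hN
    obtain ⟨_, _, h3⟩ := hA N hN
    have h12 : (12 : ℝ) ≤ ((SD h N i).card : ℝ) := by
      refine le_trans ?_ h3
      rw [le_div_iff₀ (by positivity)]
      linarith
    have h6 : (6 : ℝ) * P ≤ B * ((SD h N i).card : ℝ) := by
      have e1 : (B : ℝ) * (h / (4 * L)) ≤ B * ((SD h N i).card : ℝ) :=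
        mul_le_mul_of_nonneg_left h3 (by positivity)
      refine le_trans ?_ e1
      rw [← mul_div_assoc, le_div_iff₀ (by positivity)]
      have e2 : ((P : ℕ) : ℝ) = 2 ^ i := by
        rw [hP]
        push_cast
        rfl
      rw [e2]
      linarith
    have h1 := hgap P B (SD h N i) hB (fun s hs => by
      unfold SD at hs
      rw [mem_filter] at hs
      refine ⟨hs.2.1, ?_⟩
      have := hs.2.2
      rw [pow_succ] at this
      omega) (by exact_mod_cast h12) (by exact_mod_cast h6)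
    have h2 : ((SD h N i).card : ℝ) ≤ 3 * ((good N).card : ℝ) := by exact_mod_cast h1
    have h4 : (h : ℝ) / (4 * L) = 3 * (h / (12 * L)) := by
      field_simp
      ring
    rw [h4] at h3
    linarith
  -- the triples
  have hex : ∀ x : (Σ _ : ℕ, ℕ), ∃ t : Q3, x ∈ A.sigma good →
      IsTriAt x.1 h P B t ∧ t.u + t.a = x.2 := by
    intro x
    by_cases hx : x ∈ A.sigma good
    · obtain ⟨h1, h2⟩ := Finset.mem_sigma.1 hx
      obtain ⟨h3, h4, h5⟩ := Finset.mem_filter.1 h2
      obtain ⟨t, ht⟩ := Rtri.exists_tri h3 h4 h5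
      exact ⟨t, fun _ => ht⟩
    · exact ⟨⟨0, 0, 0, 0, 0, 0⟩, fun h => absurd h hx⟩
  choose F hF using hex
  set D : Finset (Σ _ : ℕ, ℕ) := A.sigma good with hD
  set T : Finset Q3 := D.image F with hT
  have hDT : D.card ≤ h * T.card := by
    refine Finset.card_le_mul_card_image D h ?_
    intro t _
    have h1 : (D.filter fun x => F x = t).card ≤
        (Ico (t.u ^ 2 * t.m0 - h) (t.u ^ 2 * t.m0)).card := by
      refine Finset.card_le_card_of_injOn (fun x => x.1) ?_ ?_
      · intro x hx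
        obtain ⟨hx1, hx2⟩ := Finset.mem_filter.1 hx
        have h2 := (hF x hx1).1
        rw [hx2] at h2
        have h3 := h2.h0
        have h4 := h2.h0'
        rw [Finset.mem_coe, Finset.mem_Ico]
        change t.u ^ 2 * t.m0 - h ≤ x.1 ∧ x.1 < t.u ^ 2 * t.m0
        omega
      · intro x hx y hy hxy
        obtain ⟨hx1, hx2⟩ := Finset.mem_filter.1 hx
        obtain ⟨hy1, hy2⟩ := Finset.mem_filter.1 hy
        have h2 := (hF x hx1).2
        have h3 := (hF y hy1).2
        rw [hx2] at h2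
        rw [hy2] at h3
        obtain ⟨x1, x2⟩ := x
        obtain ⟨y1, y2⟩ := y
        have h4 : x1 = y1 := hxy
        have h5 : x2 = y2 := h2.symm.trans h3
        rw [h4, h5]
    refine h1.trans ?_
    rw [Nat.card_Ico]
    omega
  have hDA : (A.card : ℝ) * (h / (12 * L)) ≤ (D.card : ℝ) := by
    rw [hD, Finset.card_sigma]
    push_cast
    calc (A.card : ℝ) * (h / (12 * L)) = ∑ _N ∈ A, (h : ℝ) / (12 * L) := by
          rw [Finset.sum_const, nsmul_eq_mul]
      _ ≤ ∑ N ∈ A, ((good N).card : ℝ) := Finset.sum_le_sum hgood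
  have hTb := hZ T (by
    intro t ht
    obtain ⟨x, hx, rfl⟩ := Finset.mem_image.1 ht
    have h1 := (Finset.mem_sigma.1 hx).1
    obtain ⟨h2, h3, _⟩ := hA x.1 h1
    exact ⟨x.1, h2, h3, (hF x hx).1⟩)
  have hAT : (A.card : ℝ) ≤ 12 * L * (T.card : ℝ) := by
    have e1 : (D.card : ℝ) ≤ h * T.card := by exact_mod_cast hDT
    have e2 := hDA.trans e1
    rw [← mul_div_assoc, div_le_iff₀ (by positivity)] at e2
    have e3 : (h : ℝ) * A.card ≤ h * (12 * L * T.card) := by linarith
    exact le_of_mul_le_mul_left e3 hhR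
  exact hAT.trans (mul_le_mul_of_nonneg_left hTb (by positivity))

end Pool.Agent.SQG
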