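import Pool.Agent.Lib.SQG.Defs3

/-!
Row SMT: the gaps between `G` and a small power of `X`.
-/

set_option autoImplicit false

namespace Pool.Agent.SQG

open Finset

namespace SMTx

theorem tel (G : ℕ) : ∀ k : ℕ, ((G + 1 + k : ℕ) : ℝ) ^ 4 ≤
    ((G : ℝ) + 1) ^ 4 + ∑ h ∈ Ioc G (G + k), 15 * (h : ℝ) ^ 3
  | 0 => by simp
  | k + 1 => by
    have h1 := tel G k
    have h2 : ∑ h ∈ Ioc G (G + (k + 1)), 15 * (h : ℝ) ^ 3 =
        ∑ h ∈ Ioc G (G + k), 15 * (h : ℝ) ^ 3 + 15 * ((G + k + 1 : ℕ) : ℝ) ^ 3 := by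
      rw [← add_assoc, Finset.sum_Ioc_succ_top (by omega)]
    rw [h2]
    have h3 : (1 : ℝ) ≤ ((G + 1 + k : ℕ) : ℝ) := by
      have : 1 ≤ G + 1 + k := by omega
      exact_mod_cast this
    have h4 : ((G + 1 + (k + 1) : ℕ) : ℝ) = ((G + 1 + k : ℕ) : ℝ) + 1 := by push_cast; ring
    have h5 : ((G + k + 1 : ℕ) : ℝ) = ((G + 1 + k : ℕ) : ℝ) := by push_cast; ring
    rw [h4, h5]
    set x : ℝ := ((G + 1 + k : ℕ) : ℝ)
    have h6 : (x + 1) ^ 4 ≤ x ^ 4 + 15 * x ^ 3 := by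
      have e1 : x ^ 2 ≤ x ^ 3 := by
        calc x ^ 2 = x ^ 2 * 1 := by ring
          _ ≤ x ^ 2 * x := mul_le_mul_of_nonneg_left h3 (by positivity)
          _ = x ^ 3 := by ring
      have e2 : x ≤ x ^ 2 := by nlinarith
      nlinarith
    linarith

theorem mem_Win {X s h : ℕ} (hs : s ∈ SqF X) (hh : h < gap s) : s ∈ Win X h := by
  classical
  unfold SqF at hs
  unfold Win
  rw [Finset.mem_filter] at hs ⊢
  refine ⟨hs.1, fun m hm hm' hsq => ?_⟩
  have h1 : m - s < gap s := by omega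
  refine Nat.notMem_of_lt_sInf h1 ⟨by omega, ?_⟩
  have : s + (m - s) = m := by omega
  rwa [this]

end SMTx

open SMTx

theorem smt (hS : SMW_stmt) : SMT_stmt := by
  classical
  obtain ⟨C, hC, hW⟩ := hS
  intro γ hγ0 hγ4
  refine ⟨1 / 50, by norm_num, 31 * C, by positivity, fun X G hX hG => ?_⟩
  set F := (SqF X).filter (fun s => G < gap s ∧ (gap s : ℝ) ≤ (X : ℝ) ^ (1 / 50 : ℝ)) with hF
  have hGr : (1 : ℝ) ≤ G := by exact_mod_cast hG
  have hG0 : (0 : ℝ) < G := by linarith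
  have hX0 : (0 : ℝ) < X := by exact_mod_cast hX
  rcases F.eq_empty_or_nonempty with hFe | hFn
  · rw [hFe, Finset.sum_empty]; positivity
  set H := ⌊(X : ℝ) ^ (1 / 50 : ℝ)⌋₊ with hH
  have hpow : ∀ h : ℕ, h ≤ H → h ^ 50 ≤ X := by
    intro h hh
    have h1 : (h : ℝ) ≤ (X : ℝ) ^ (1 / 50 : ℝ) :=
      (Nat.cast_le.mpr hh).trans (Nat.floor_le (by positivity))
    have h2 : (h : ℝ) ^ 50 ≤ X := by
      have e1 : (h : ℝ) ^ (50 : ℕ) ≤ ((X : ℝ) ^ (1 / 50 : ℝ)) ^ (50 : ℕ) :=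
        pow_le_pow_left₀ (by positivity) h1 50
      have e2 : ((X : ℝ) ^ (1 / 50 : ℝ)) ^ (50 : ℕ) = (X : ℝ) := by
        rw [← Real.rpow_natCast, ← Real.rpow_mul hX0.le]
        norm_num
      rwa [e2] at e1
    exact_mod_cast h2
  have hgH : ∀ s ∈ F, gap s ≤ H := fun s hs => Nat.le_floor (Finset.mem_filter.mp hs).2.2
  have hGH : G ≤ H := by
    obtain ⟨s, hs⟩ := hFn
    exact (Finset.mem_filter.mp hs).2.1.le.trans (hgH s hs)
  have hpt : ∀ s ∈ F, (gap s : ℝ) ^ γ ≤ ((G : ℝ) + 1) ^ 4 +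
      ∑ h ∈ Ioc G H, if h < gap s then 15 * (h : ℝ) ^ 3 else 0 := by
    intro s hs
    have hGs := (Finset.mem_filter.mp hs).2.1
    have h1 : (1 : ℝ) ≤ gap s := by
      have : 1 ≤ gap s := by omega
      exact_mod_cast this
    have h2 : (gap s : ℝ) ^ γ ≤ (gap s : ℝ) ^ 4 := by
      calc (gap s : ℝ) ^ γ ≤ (gap s : ℝ) ^ (4 : ℝ) :=
            Real.rpow_le_rpow_of_exponent_le h1 hγ4.le
        _ = _ := by norm_cast
    obtain ⟨k, hk⟩ := Nat.exists_eq_add_of_lt hGs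
    have h3 := tel G k
    have h4 : G + 1 + k = gap s := by omega
    rw [h4] at h3
    have h5 : ∑ h ∈ Ioc G (G + k), 15 * (h : ℝ) ^ 3 =
        ∑ h ∈ Ioc G H, if h < gap s then 15 * (h : ℝ) ^ 3 else 0 := by
      rw [← Finset.sum_filter]
      refine Finset.sum_congr ?_ fun _ _ => rfl
      ext h
      have := hgH s hs
      simp only [Finset.mem_Ioc, Finset.mem_filter]
      omega
    rw [h5] at h3
    exact h2.trans h3
  have hcard : (F.card : ℝ) ≤ C * X / (G : ℝ) ^ 5 := by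
    refine le_trans ?_ (hW X G hG (hpow G hGH))
    have : F.card ≤ (Win X G).card := Finset.card_le_card fun s hs =>
      mem_Win (Finset.mem_filter.mp hs).1 (Finset.mem_filter.mp hs).2.1
    exact_mod_cast this
  have hh : ∀ h ∈ Ioc G H, ∑ s ∈ F, (if h < gap s then 15 * (h : ℝ) ^ 3 else 0) ≤
      15 * C * X * ((h : ℝ) ^ 2)⁻¹ := by
    intro h hh
    rw [Finset.mem_Ioc] at hh
    have hh1 : 1 ≤ h := by omega
    have hh0 : (0 : ℝ) < h := by exact_mod_cast hh1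
    rw [← Finset.sum_filter, Finset.sum_const, nsmul_eq_mul]
    have h1 : ((F.filter fun s => h < gap s).card : ℝ) ≤ C * X / (h : ℝ) ^ 5 := by
      refine le_trans ?_ (hW X h hh1 (hpow h hh.2))
      have : (F.filter fun s => h < gap s).card ≤ (Win X h).card :=
        Finset.card_le_card fun s hs => mem_Win
          (Finset.mem_filter.mp (Finset.mem_filter.mp hs).1).1 (Finset.mem_filter.mp hs).2
      exact_mod_cast this
    calc _ ≤ C * X / (h : ℝ) ^ 5 * (15 * (h : ℝ) ^ 3) := by gcongr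
      _ = _ := by field_simp
  calc ∑ s ∈ F, (gap s : ℝ) ^ γ ≤ ∑ s ∈ F, (((G : ℝ) + 1) ^ 4 +
        ∑ h ∈ Ioc G H, if h < gap s then 15 * (h : ℝ) ^ 3 else 0) := Finset.sum_le_sum hpt
    _ = F.card * ((G : ℝ) + 1) ^ 4 +
        ∑ h ∈ Ioc G H, ∑ s ∈ F, (if h < gap s then 15 * (h : ℝ) ^ 3 else 0) := by
      rw [Finset.sum_add_distrib, Finset.sum_const, nsmul_eq_mul, Finset.sum_comm]
    _ ≤ C * X / (G : ℝ) ^ 5 * (2 * G) ^ 4 + ∑ h ∈ Ioc G H, 15 * C * X * ((h : ℝ) ^ 2)⁻¹ := by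
      refine add_le_add ?_ (Finset.sum_le_sum hh)
      have : (G : ℝ) + 1 ≤ 2 * G := by linarith
      gcongr
    _ ≤ 16 * C * X / G + 15 * C * X * (G : ℝ)⁻¹ := by
      refine add_le_add (le_of_eq ?_) ?_
      · field_simp; norm_num
      · rw [← Finset.mul_sum]
        have h1 := sum_Ioc_inv_sq_le_sub (α := ℝ) (k := G) (n := H) (by omega) hGH
        have h2 : (0 : ℝ) ≤ (H : ℝ)⁻¹ := by positivity
        gcongr
        linarith
    _ = 31 * C * X / G := by rw [← div_eq_mul_inv]; ring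

end Pool.Agent.SQG
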