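import Pool.Agent.Lib.SQG.Defs3
import Pool.Agent.Lib.MP_8739b7_nt.Tuples

/-!
# SQG, row SMW: short windows without squarefree numbers, without loss
-/

set_option autoImplicit false

namespace Pool.Agent.SQG

namespace Smw

open Finset Pool.Agent.Lib.MP_8739b7_nt

theorem pow_ten_le (j : ℕ) : (1 + j) ^ 10 ≤ 1024 * 16 ^ j := by
  rcases Nat.lt_or_ge j 3 with h | h
  · interval_cases j <;> norm_num
  · induction j, h using Nat.le_induction with
    | base => norm_num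
    | succ n hn ih =>
      have h1 : 4 * (1 + (n + 1)) ≤ 5 * (1 + n) := by omega
      have h2 : (4 * (1 + (n + 1))) ^ 10 ≤ (5 * (1 + n)) ^ 10 := Nat.pow_le_pow_left h1 10
      rw [mul_pow, mul_pow] at h2
      have h3 : (5 : ℕ) ^ 10 ≤ 16 * 4 ^ 10 := by norm_num
      have h4 : 4 ^ 10 * (1 + (n + 1)) ^ 10 ≤ 4 ^ 10 * (1024 * 16 ^ (n + 1)) := by
        calc 4 ^ 10 * (1 + (n + 1)) ^ 10 ≤ 5 ^ 10 * (1 + n) ^ 10 := h2
          _ ≤ (16 * 4 ^ 10) * (1024 * 16 ^ n) := Nat.mul_le_mul h3 ih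
          _ = 4 ^ 10 * (1024 * 16 ^ (n + 1)) := by ring
      exact Nat.le_of_mul_le_mul_left h4 (by positivity)

theorem sum_geo (J : ℕ) : ∑ j ∈ range J, (((1 + j : ℕ) : ℝ)) ^ 10 / (32 : ℝ) ^ j ≤ 2048 := by
  have h1 : ∀ j ∈ range J, (((1 + j : ℕ) : ℝ)) ^ 10 / (32 : ℝ) ^ j ≤ 1024 * (1 / 2 : ℝ) ^ j := by
    intro j _
    have h2 : (((1 + j : ℕ) : ℝ)) ^ 10 ≤ 1024 * (16 : ℝ) ^ j := by exact_mod_cast pow_ten_le j
    rw [div_le_iff₀ (by positivity)]
    refine h2.trans (le_of_eq ?_)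
    rw [mul_assoc, ← mul_pow]
    norm_num
  refine (sum_le_sum h1).trans ?_
  rw [← mul_sum]
  have h3 : ∑ j ∈ range J, (1 / 2 : ℝ) ^ j ≤ 2 := by
    have := sum_geometric_two_le J
    simpa using this
  linarith

theorem sum_inv_sq (J : ℕ) : ∑ j ∈ range J, 1 / (((1 + j : ℕ) : ℝ)) ^ 2 ≤ 2 := by
  have h1 : ∀ J : ℕ, 1 ≤ J → ∑ j ∈ range J, 1 / (((1 + j : ℕ) : ℝ)) ^ 2 ≤
      2 - 1 / (J : ℝ) := by
    intro J hJ
    induction J, hJ using Nat.le_induction with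
    | base => norm_num
    | succ n hn ih =>
      rw [sum_range_succ]
      have hn0 : (0 : ℝ) < n := by exact_mod_cast hn
      have h2 : 1 / (((1 + n : ℕ) : ℝ)) ^ 2 ≤ 1 / n - 1 / ((n + 1 : ℕ) : ℝ) := by
        push_cast
        have h3 : 1 / (n : ℝ) - 1 / ((n : ℝ) + 1) = 1 / (n * (n + 1)) := by
          field_simp
          ring
        rw [h3]
        apply one_div_le_one_div_of_le (by positivity)
        nlinarith
      linarith
  rcases Nat.eq_zero_or_pos J with h | h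
  · subst h
    norm_num
  · have h2 := h1 J h
    have h3 : (0 : ℝ) ≤ 1 / (J : ℝ) := by positivity
    linarith

/-- Tail of `∑ 1 / n ^ 2`. -/
theorem sum_tail (z W : ℕ) (hz : 2 ≤ z) : ∑ p ∈ Ico z W, 1 / (p : ℝ) ^ 2 ≤ 2 / (z : ℝ) := by
  have hz1 : (2 : ℝ) ≤ z := by exact_mod_cast hz
  have h1 : ∀ W : ℕ, z ≤ W → ∑ p ∈ Ico z W, 1 / (p : ℝ) ^ 2 ≤
      1 / ((z : ℝ) - 1) - 1 / ((W : ℝ) - 1) := by
    intro W hW
    induction W, hW using Nat.le_induction with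
    | base =>
      rw [Ico_self, sum_empty, sub_self]
    | succ n hn ih =>
      rw [sum_Ico_succ_top hn]
      have hn0 : (2 : ℝ) ≤ n := by exact_mod_cast (hz.trans hn)
      have h2 : 1 / (n : ℝ) ^ 2 ≤ 1 / ((n : ℝ) - 1) - 1 / (((n + 1 : ℕ) : ℝ) - 1) := by
        push_cast
        have h4 : (n : ℝ) - 1 ≠ 0 := by linarith
        have h5 : (n : ℝ) ≠ 0 := by linarith
        have h3 : 1 / ((n : ℝ) - 1) - 1 / ((n : ℝ) + 1 - 1) = 1 / (((n : ℝ) - 1) * n) := by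
          rw [add_sub_cancel_right]
          field_simp
          ring
        rw [h3]
        apply one_div_le_one_div_of_le
        · have : (0 : ℝ) < (n : ℝ) - 1 := by linarith
          positivity
        · nlinarith
      linarith
  rcases le_or_gt z W with h | h
  · have h2 := h1 W h
    have hW1 : (2 : ℝ) ≤ W := by exact_mod_cast (hz.trans h)
    have h3 : (0 : ℝ) ≤ 1 / ((W : ℝ) - 1) := by
      have : (0 : ℝ) < (W : ℝ) - 1 := by linarith
      positivity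
    have h4 : 1 / ((z : ℝ) - 1) ≤ 2 / z := by
      rw [div_le_div_iff₀ (by linarith) (by linarith)]
      linarith
    linarith
  · rw [Ico_eq_empty (by omega), sum_empty]
    positivity

open Classical in
/-- The primes `p > z` whose square divides an element of the window. -/
noncomputable def LP (h N z : ℕ) : Finset ℕ := (SS h N).filter fun p => z < p

/-- First moment of the number of large primes. -/
theorem sum_LP (X h z : ℕ) (hz : 1 ≤ z) (hh : 1 ≤ h) (hhX : h ≤ X) :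
    ∑ N ∈ range (X + 1), ((LP h N z).card : ℝ) ≤ 16 * h * X / z := by
  classical
  have hX1 : 1 ≤ X := hh.trans hhX
  have hX0 : (1 : ℝ) ≤ X := by exact_mod_cast hX1
  have hz0 : (0 : ℝ) < z := by exact_mod_cast hz
  -- primes up to `W`
  set I : Finset ℕ := (Ico (z + 1) (2 * X + 1)).filter (fun p => p.Prime ∧ p ^ 2 ≤ 2 * X) with hI
  have h1 : ∀ N ∈ range (X + 1), ((LP h N z).card : ℝ) ≤
      ∑ p ∈ I, (if ∃ j ∈ Icc 1 h, p ^ 2 ∣ N + j then (1 : ℝ) else 0) := by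
    intro N hN
    rw [mem_range] at hN
    rw [← sum_filter, sum_const, nsmul_eq_mul, mul_one]
    have h2 : LP h N z ⊆ I.filter (fun p => ∃ j ∈ Icc 1 h, p ^ 2 ∣ N + j) := by
      intro p hp
      unfold LP at hp
      rw [mem_filter] at hp
      obtain ⟨hp1, hp2⟩ := hp
      obtain ⟨⟨hp3, hp4⟩, hpp, j, hj, hdvd⟩ := mem_SS.1 hp1
      have hj' := mem_Icc.1 hj
      have hle : p ^ 2 ≤ N + j := Nat.le_of_dvd (by omega) hdvd
      have hle2 : p ^ 2 ≤ 2 * X := by omega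
      have hle3 : p ≤ p ^ 2 := Nat.le_self_pow (by norm_num) p
      rw [mem_filter, hI, mem_filter, mem_Ico]
      exact ⟨⟨⟨by omega, by omega⟩, hpp, hle2⟩, j, hj, hdvd⟩
    exact_mod_cast card_le_card h2
  refine (sum_le_sum h1).trans ?_
  rw [sum_comm]
  have h2 : ∀ p ∈ I, ∑ N ∈ range (X + 1), (if ∃ j ∈ Icc 1 h, p ^ 2 ∣ N + j then (1 : ℝ) else 0) ≤
      4 * h * X * (1 / (p : ℝ) ^ 2) := by
    intro p hp
    rw [hI, mem_filter, mem_Ico] at hp
    obtain ⟨⟨hp1, hp2⟩, hpp, hp3⟩ := hp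
    rw [← sum_filter, sum_const, nsmul_eq_mul, mul_one]
    have h3 := card_T_le (X + 1) h {p} (by simpa using hpp)
    rw [card_singleton, prod_singleton, pow_one] at h3
    have h4 : ((range (X + 1)).filter (fun N => ∀ p' ∈ ({p} : Finset ℕ), ∃ j ∈ Icc 1 h,
        p' ^ 2 ∣ N + j)) = (range (X + 1)).filter (fun N => ∃ j ∈ Icc 1 h, p ^ 2 ∣ N + j) := by
      apply filter_congr
      intro N _
      simp only [mem_singleton, forall_eq]
    rw [h4] at h3
    refine h3.trans ?_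
    have hp0 : (0 : ℝ) < (p : ℝ) ^ 2 := by
      have := hpp.pos
      positivity
    have hp3' : (p : ℝ) ^ 2 ≤ 2 * X := by exact_mod_cast hp3
    have h5 : ((X + 1 : ℕ) : ℝ) / ((p ^ 2 : ℕ) : ℝ) + 1 ≤ 4 * X * (1 / (p : ℝ) ^ 2) := by
      push_cast
      have h6 : (1 : ℝ) ≤ 2 * X / (p : ℝ) ^ 2 := by
        rw [le_div_iff₀ hp0]
        linarith
      have h7 : ((X : ℝ) + 1) / (p : ℝ) ^ 2 ≤ 2 * X / (p : ℝ) ^ 2 := by
        gcongr
        linarith
      have h8 : 4 * (X : ℝ) * (1 / (p : ℝ) ^ 2) = 2 * X / (p : ℝ) ^ 2 + 2 * X / (p : ℝ) ^ 2 := by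
        ring
      linarith
    have h9 : (h : ℝ) * (((X + 1 : ℕ) : ℝ) / ((p ^ 2 : ℕ) : ℝ) + 1) ≤
        h * (4 * X * (1 / (p : ℝ) ^ 2)) := mul_le_mul_of_nonneg_left h5 (by positivity)
    linarith
  refine (sum_le_sum h2).trans ?_
  rw [← mul_sum]
  have h3 : ∑ p ∈ I, 1 / (p : ℝ) ^ 2 ≤ ∑ p ∈ Ico (z + 1) (2 * X + 1), 1 / (p : ℝ) ^ 2 :=
    sum_le_sum_of_subset_of_nonneg (filter_subset _ _) (fun _ _ _ => by positivity)
  have h4 := sum_tail (z + 1) (2 * X + 1) (by omega)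
  have h5 : 2 / ((z + 1 : ℕ) : ℝ) ≤ 2 / (z : ℝ) := by
    push_cast
    gcongr
    linarith
  calc 4 * (h : ℝ) * X * ∑ p ∈ I, 1 / (p : ℝ) ^ 2 ≤ 4 * h * X * (2 / z) :=
        mul_le_mul_of_nonneg_left (h3.trans (h4.trans h5)) (by positivity)
    _ = 8 * h * X / z := by ring
    _ ≤ 16 * h * X / z := by
        gcongr
        norm_num

theorem pow8 (j : ℕ) (hj : 90 ≤ j) : 8 * 160 ^ 4 * (1 + j) ^ 8 ≤ 2 ^ j := by
  induction j, hj using Nat.le_induction with
  | base => norm_num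
  | succ n hn ih =>
    have h1 : 91 * (1 + (n + 1)) ≤ 92 * (1 + n) := by omega
    have h2 : (91 * (1 + (n + 1))) ^ 8 ≤ (92 * (1 + n)) ^ 8 := Nat.pow_le_pow_left h1 8
    rw [mul_pow, mul_pow] at h2
    have h3 : (92 : ℕ) ^ 8 ≤ 2 * 91 ^ 8 := by norm_num
    have h4 : 91 ^ 8 * (1 + (n + 1)) ^ 8 ≤ 91 ^ 8 * (2 * (1 + n) ^ 8) := by
      calc 91 ^ 8 * (1 + (n + 1)) ^ 8 ≤ 92 ^ 8 * (1 + n) ^ 8 := h2
        _ ≤ (2 * 91 ^ 8) * (1 + n) ^ 8 := Nat.mul_le_mul_right _ h3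
        _ = 91 ^ 8 * (2 * (1 + n) ^ 8) := by ring
    have h5 : (1 + (n + 1)) ^ 8 ≤ 2 * (1 + n) ^ 8 := Nat.le_of_mul_le_mul_left h4 (by positivity)
    calc 8 * 160 ^ 4 * (1 + (n + 1)) ^ 8 ≤ 8 * 160 ^ 4 * (2 * (1 + n) ^ 8) :=
          Nat.mul_le_mul_left _ h5
      _ = 2 * (8 * 160 ^ 4 * (1 + n) ^ 8) := by ring
      _ ≤ 2 * 2 ^ n := Nat.mul_le_mul_left _ ih
      _ = 2 ^ (n + 1) := by ring

theorem kappa_ok (h i j : ℕ) (hh : 2 ^ 21 ≤ h) (h8 : h < 8 * 2 ^ i) (hij : 2 ^ (i + j) ≤ h ^ 5) :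
    160 * (1 + j) ^ 2 ≤ h := by
  rcases Nat.lt_or_ge j 90 with hj | hj
  · have h1 : (1 + j) ^ 2 ≤ 90 ^ 2 := Nat.pow_le_pow_left (by omega) 2
    calc 160 * (1 + j) ^ 2 ≤ 160 * 90 ^ 2 := Nat.mul_le_mul_left _ h1
      _ ≤ 2 ^ 21 := by norm_num
      _ ≤ h := hh
  · have h1 := pow8 j hj
    have hpos : 0 < h := lt_of_lt_of_le (by positivity) hh
    have h2 : h * 2 ^ j < h * (8 * h ^ 4) := by
      calc h * 2 ^ j < 8 * 2 ^ i * 2 ^ j := by
            apply Nat.mul_lt_mul_of_pos_right h8 (by positivity)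
        _ = 8 * 2 ^ (i + j) := by rw [pow_add]; ring
        _ ≤ 8 * h ^ 5 := Nat.mul_le_mul_left _ hij
        _ = h * (8 * h ^ 4) := by ring
    have h3 : 2 ^ j < 8 * h ^ 4 := Nat.lt_of_mul_lt_mul_left h2
    have h4 : (160 * (1 + j) ^ 2) ^ 4 < h ^ 4 := by
      have h5 : 8 * (160 * (1 + j) ^ 2) ^ 4 < 8 * h ^ 4 := by
        calc 8 * (160 * (1 + j) ^ 2) ^ 4 = 8 * 160 ^ 4 * (1 + j) ^ 8 := by ring
          _ ≤ 2 ^ j := h1
          _ < 8 * h ^ 4 := h3
      omega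
    exact (lt_of_pow_lt_pow_left₀ 4 (by positivity) h4).le

open Classical in
/-- The main case. -/
theorem main (X h : ℕ) (hh : 2 ^ 21 ≤ h) (hX : h ^ 50 ≤ X) :
    (((range (X + 1)).filter fun N => Bad h N).card : ℝ) ≤
      (128 + 32 ^ 5 * 8 ^ 5 * 3 * 2048) * X / (h : ℝ) ^ 5 := by
  have hh20 : 20 ≤ h := le_trans (by norm_num) hh
  have hh1 : 1 ≤ h := by omega
  have hpos : (0 : ℝ) < h := by exact_mod_cast hh1
  have hhX : h ≤ X := (Nat.le_self_pow (by norm_num) h).trans hX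
  have hX1 : 1 ≤ X := hh1.trans hhX
  have hX0 : (1 : ℝ) ≤ X := by exact_mod_cast hX1
  obtain ⟨z, hz⟩ : ∃ z, z = h ^ 5 := ⟨_, rfl⟩
  have hz1 : 1 ≤ z := by rw [hz]; exact Nat.one_le_pow _ _ hh1
  obtain ⟨i0, hi0⟩ : ∃ i, i = Nat.log 2 (h / 4) := ⟨_, rfl⟩
  have hi1 : 2 ^ i0 ≤ h / 4 := by
    rw [hi0]
    exact Nat.pow_log_le_self 2 (by omega)
  have hi2 : h < 8 * 2 ^ i0 := by
    have h1 : h / 4 < 2 ^ (i0 + 1) := by
      rw [hi0]
      exact Nat.lt_pow_succ_log_self (by norm_num) _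
    rw [pow_succ] at h1
    omega
  obtain ⟨J, hJ⟩ : ∃ J, J = Nat.log 2 z + 1 := ⟨_, rfl⟩
  set Js : Finset ℕ := (range J).filter (fun j => 2 ^ (i0 + j) ≤ z) with hJs
  set κ : ℕ → ℝ := fun j => h / 16 * (1 / (((1 + j : ℕ) : ℝ)) ^ 2) with hκ
  set A : Finset ℕ := (range (X + 1)).filter (fun N => (h : ℝ) / 8 ≤ ((LP h N z).card : ℝ)) with hA
  set E : ℕ → Finset ℕ := fun j =>
    (range (X + 1)).filter (fun N => κ j ≤ ((SD h N (i0 + j)).card : ℝ)) with hE
  -- the covering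
  have hcov : (range (X + 1)).filter (fun N => Bad h N) ⊆ A ∪ Js.biUnion E := by
    intro N hN
    rw [mem_filter] at hN
    obtain ⟨hN1, hbad⟩ := hN
    rw [mem_union]
    by_cases hNA : (h : ℝ) / 8 ≤ ((LP h N z).card : ℝ)
    · left
      rw [hA, mem_filter]
      exact ⟨hN1, hNA⟩
    · right
      rw [mem_biUnion]
      by_contra hcon
      push Not at hcon hNA
      have h1 := card_SS_ge h N hh20 hbad
      have h2 : (SS h N).filter (fun p => ¬ z < p) ⊆ Js.biUnion (fun j => SD h N (i0 + j)) := by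
        intro p hp
        rw [mem_filter] at hp
        obtain ⟨hp1, hp2⟩ := hp
        obtain ⟨⟨hp3, hp4⟩, hpp, hp5⟩ := mem_SS.1 hp1
        have hpz : p ≤ z := not_lt.1 hp2
        have hlog1 : i0 ≤ Nat.log 2 p := by
          rw [hi0]
          exact Nat.log_mono_right hp3.le
        have hlog2 : 2 ^ Nat.log 2 p ≤ p := Nat.pow_log_le_self 2 hpp.pos.ne'
        have hlog3 : Nat.log 2 p ≤ Nat.log 2 z := Nat.log_mono_right hpz
        rw [mem_biUnion]
        refine ⟨Nat.log 2 p - i0, ?_, ?_⟩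
        · rw [hJs, mem_filter, mem_range]
          refine ⟨by omega, ?_⟩
          rw [Nat.add_sub_cancel' hlog1]
          exact hlog2.trans hpz
        · rw [Nat.add_sub_cancel' hlog1]
          unfold SD
          rw [mem_filter]
          exact ⟨hp1, hlog2, Nat.lt_pow_succ_log_self (by norm_num) p⟩
      have h3 : (((SS h N).filter (fun p => ¬ z < p)).card : ℝ) ≤
          ∑ j ∈ Js, ((SD h N (i0 + j)).card : ℝ) := by
        exact_mod_cast (card_le_card h2).trans card_biUnion_le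
      have h4 : ∑ j ∈ Js, ((SD h N (i0 + j)).card : ℝ) ≤ ∑ j ∈ Js, κ j := by
        apply sum_le_sum
        intro j hj
        have h5 := hcon j hj
        by_contra h6
        push Not at h6
        apply h5
        rw [hE]
        simp only [mem_filter]
        exact ⟨hN1, h6.le⟩
      have h5 : ∑ j ∈ Js, κ j ≤ h / 8 := by
        have h6 : ∑ j ∈ Js, κ j ≤ ∑ j ∈ range J, κ j :=
          sum_le_sum_of_subset_of_nonneg (filter_subset _ _)
            (fun j _ _ => by rw [hκ]; positivity)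
        refine h6.trans ?_
        rw [hκ, ← mul_sum]
        have h7 := sum_inv_sq J
        have h8 : (h : ℝ) / 16 * ∑ j ∈ range J, 1 / (((1 + j : ℕ) : ℝ)) ^ 2 ≤ h / 16 * 2 :=
          mul_le_mul_of_nonneg_left h7 (by positivity)
        linarith
      have h6 : (SS h N).card = (LP h N z).card + ((SS h N).filter (fun p => ¬ z < p)).card := by
        unfold LP
        exact (card_filter_add_card_filter_not (s := SS h N) (fun p => z < p)).symm
      have h7 : ((SS h N).card : ℝ) = ((LP h N z).card : ℝ) +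
          (((SS h N).filter (fun p => ¬ z < p)).card : ℝ) := by exact_mod_cast h6
      linarith
  -- the large primes
  have hAc : (A.card : ℝ) ≤ 128 * X / (h : ℝ) ^ 5 := by
    have h1 := sum_LP X h z hz1 hh1 hhX
    have h2 : (A.card : ℝ) * (h / 8) ≤ ∑ N ∈ range (X + 1), ((LP h N z).card : ℝ) := by
      calc (A.card : ℝ) * (h / 8) = ∑ N ∈ A, (h : ℝ) / 8 := by rw [sum_const, nsmul_eq_mul]
        _ ≤ ∑ N ∈ A, ((LP h N z).card : ℝ) := by
            apply sum_le_sum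
            intro N hN
            exact (mem_filter.1 hN).2
        _ ≤ _ := by
            apply sum_le_sum_of_subset_of_nonneg (filter_subset _ _)
            intro N _ _
            positivity
    have h3 : (z : ℝ) = (h : ℝ) ^ 5 := by rw [hz]; push_cast; rfl
    rw [h3] at h1
    rw [le_div_iff₀ (by positivity)]
    have h4 := h2.trans h1
    rw [le_div_iff₀ (by positivity)] at h4
    have h5 : (A.card : ℝ) * (h / 8) * (h : ℝ) ^ 5 = h * (A.card * (h : ℝ) ^ 5 / 8) := by ring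
    have h6 : 16 * (h : ℝ) * X = h * (16 * X) := by ring
    rw [h5, h6] at h4
    have h7 := le_of_mul_le_mul_left h4 hpos
    linarith
  -- the dyadic ranges
  have hEc : ∀ j ∈ Js, ((E j).card : ℝ) ≤ 32 ^ 5 * 8 ^ 5 * 3 * X / (h : ℝ) ^ 5 *
      ((((1 + j : ℕ) : ℝ)) ^ 10 / (32 : ℝ) ^ j) := by
    intro j hj
    rw [hJs, mem_filter] at hj
    have hij := hj.2
    have h1 : 160 * (1 + j) ^ 2 ≤ h := kappa_ok h i0 j hh hi2 (by rw [← hz]; exact hij)
    have h1' : 160 * (((1 + j : ℕ) : ℝ)) ^ 2 ≤ h := by exact_mod_cast h1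
    have hj0 : (0 : ℝ) < (((1 + j : ℕ) : ℝ)) ^ 2 := by positivity
    have hκ10 : (2 * (5 : ℕ) : ℝ) ≤ κ j := by
      rw [hκ]
      simp only
      rw [mul_one_div, le_div_iff₀ hj0]
      push_cast at h1' ⊢
      linarith
    have hκ0 : 0 < κ j := lt_of_lt_of_le (by norm_num) hκ10
    have h2 := card_many_le (X + 1) h (i0 + j) 5 (κ j) hκ10 hκ0
    refine h2.trans ?_
    have h3 : 2 * (h : ℝ) / κ j = 32 * (((1 + j : ℕ) : ℝ)) ^ 2 := by
      rw [hκ]
      field_simp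
      norm_num
    rw [h3]
    obtain ⟨Q, hQ⟩ : ∃ Q : ℝ, Q = ((2 : ℝ) ^ (i0 + j)) ^ 5 := ⟨_, rfl⟩
    have hQ0 : 0 < Q := by rw [hQ]; positivity
    rw [← hQ]
    have h4 : Q * Q ≤ X := by
      have h5 : ((2 : ℕ) ^ (i0 + j)) ^ 10 ≤ X := by
        calc ((2 : ℕ) ^ (i0 + j)) ^ 10 ≤ z ^ 10 := Nat.pow_le_pow_left hij 10
          _ = h ^ 50 := by rw [hz, ← pow_mul]
          _ ≤ X := hX
      have h6 : (((2 : ℝ) ^ (i0 + j)) ^ 10) ≤ X := by exact_mod_cast h5
      calc Q * Q = ((2 : ℝ) ^ (i0 + j)) ^ 10 := by rw [hQ]; ring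
        _ ≤ X := h6
    have h5 : ((X + 1 : ℕ) : ℝ) / Q + Q ≤ 3 * X / Q := by
      have h6 : Q ≤ X / Q := by
        rw [le_div_iff₀ hQ0]
        exact h4
      have h7 : ((X + 1 : ℕ) : ℝ) / Q ≤ 2 * X / Q := by
        push_cast
        gcongr
        linarith
      have h8 : 3 * (X : ℝ) / Q = 2 * X / Q + X / Q := by ring
      linarith
    have h6 : (h / 8 : ℝ) ^ 5 * 32 ^ j ≤ Q := by
      have h7 : (h : ℝ) / 8 ≤ 2 ^ i0 := by
        have : (h : ℝ) ≤ 8 * 2 ^ i0 := by exact_mod_cast hi2.le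
        linarith
      calc (h / 8 : ℝ) ^ 5 * 32 ^ j ≤ (2 ^ i0) ^ 5 * 32 ^ j := by gcongr
        _ = Q := by
            rw [hQ, pow_add, mul_pow]
            congr 1
            rw [← pow_mul, mul_comm, pow_mul]
            norm_num
    calc (32 * (((1 + j : ℕ) : ℝ)) ^ 2) ^ 5 * (((X + 1 : ℕ) : ℝ) / Q + Q)
        ≤ (32 * (((1 + j : ℕ) : ℝ)) ^ 2) ^ 5 * (3 * X / ((h / 8 : ℝ) ^ 5 * 32 ^ j)) := by
          apply mul_le_mul_of_nonneg_left _ (by positivity)
          refine h5.trans ?_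
          gcongr
      _ = 32 ^ 5 * 8 ^ 5 * 3 * X / (h : ℝ) ^ 5 * ((((1 + j : ℕ) : ℝ)) ^ 10 / (32 : ℝ) ^ j) := by
          field_simp
  -- the sum
  have hcard : (((range (X + 1)).filter fun N => Bad h N).card : ℝ) ≤
      A.card + ∑ j ∈ Js, ((E j).card : ℝ) := by
    have h1 := (card_le_card hcov).trans (card_union_le _ _)
    have h2 : (Js.biUnion E).card ≤ ∑ j ∈ Js, (E j).card := card_biUnion_le
    exact_mod_cast h1.trans (Nat.add_le_add_left h2 _)
  refine hcard.trans ?_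
  have hsum : ∑ j ∈ Js, ((E j).card : ℝ) ≤ 32 ^ 5 * 8 ^ 5 * 3 * X / (h : ℝ) ^ 5 * 2048 := by
    refine (sum_le_sum hEc).trans ?_
    rw [← mul_sum]
    apply mul_le_mul_of_nonneg_left _ (by positivity)
    refine le_trans ?_ (sum_geo J)
    exact sum_le_sum_of_subset_of_nonneg (filter_subset _ _) (fun j _ _ => by positivity)
  have e1 : (128 + 32 ^ 5 * 8 ^ 5 * 3 * 2048) * (X : ℝ) / (h : ℝ) ^ 5 =
      128 * X / (h : ℝ) ^ 5 + 32 ^ 5 * 8 ^ 5 * 3 * X / (h : ℝ) ^ 5 * 2048 := by ring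
  rw [e1]
  linarith

end Smw

open Smw Finset Pool.Agent.Lib.MP_8739b7_nt in
/-- **SMW**: short windows without squarefree numbers. -/
theorem smwb : SMW_stmt := by
  classical
  refine ⟨128 + 32 ^ 5 * 8 ^ 5 * 3 * 2048 + (2 ^ 21) ^ 5, by positivity, ?_⟩
  intro X h hh hX
  have hpos : (0 : ℝ) < h := by exact_mod_cast hh
  have hX0 : (0 : ℝ) ≤ X := Nat.cast_nonneg _
  rcases Nat.lt_or_ge h (2 ^ 21) with h1 | h1
  · have h2 : ((Win X h).card : ℝ) ≤ X := by
      have : (Win X h).card ≤ X := by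
        unfold Win
        refine (card_filter_le _ _).trans ?_
        simp
      exact_mod_cast this
    refine h2.trans ?_
    rw [le_div_iff₀ (by positivity)]
    have h3 : (h : ℝ) ^ 5 ≤ (2 ^ 21) ^ 5 := by
      have : (h : ℝ) ≤ 2 ^ 21 := by exact_mod_cast h1.le
      gcongr
    have h4 : (X : ℝ) * (h : ℝ) ^ 5 ≤ X * (2 ^ 21) ^ 5 := mul_le_mul_of_nonneg_left h3 hX0
    have h5 : (0 : ℝ) ≤ (128 + 32 ^ 5 * 8 ^ 5 * 3 * 2048) * X := by positivity
    have h6 : (128 + 32 ^ 5 * 8 ^ 5 * 3 * 2048 + (2 ^ 21) ^ 5) * (X : ℝ) =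
        (128 + 32 ^ 5 * 8 ^ 5 * 3 * 2048) * X + X * (2 ^ 21) ^ 5 := by ring
    rw [h6]
    linarith
  · have h2 := main X h h1 hX
    have h3 : (Win X h).card ≤ ((range (X + 1)).filter fun N => Bad h N).card := by
      apply card_le_card
      intro n hn
      unfold Win at hn
      rw [mem_filter, mem_Icc] at hn
      rw [mem_filter, mem_range]
      refine ⟨by omega, ?_⟩
      intro j hj
      rw [mem_Icc] at hj
      exact hn.2 (n + j) (by omega) (by omega)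
    have h4 : ((Win X h).card : ℝ) ≤ (((range (X + 1)).filter fun N => Bad h N).card : ℝ) := by
      exact_mod_cast h3
    refine (h4.trans h2).trans ?_
    apply div_le_div_of_nonneg_right _ (by positivity)
    apply mul_le_mul_of_nonneg_right _ hX0
    have : (0 : ℝ) ≤ (2 ^ 21) ^ 5 := by positivity
    linarith

end Pool.Agent.SQG
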