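import Pool.Agent.Lib.SQG.Defs

/-!
# Row TRI: the number of triples
-/

set_option autoImplicit false

namespace Pool.Agent.SQG

open Finset

namespace TRIx

lemma dBound {Y h P B : ℕ} {t : Q3} (ht : IsTri Y h P B t) :
    -(h : ℤ) < (t.u : ℤ) ^ 2 * t.m0 - ((t.u : ℤ) + t.a) ^ 2 * t.m1 ∧
      (t.u : ℤ) ^ 2 * t.m0 - ((t.u : ℤ) + t.a) ^ 2 * t.m1 < h := by
  obtain ⟨N, -, -, k⟩ := ht
  have h0 : (N : ℤ) < (t.u : ℤ) ^ 2 * t.m0 := by exact_mod_cast k.h0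
  have h0' : (t.u : ℤ) ^ 2 * t.m0 ≤ N + h := by exact_mod_cast k.h0'
  have h1 : (N : ℤ) < ((t.u : ℤ) + t.a) ^ 2 * t.m1 := by exact_mod_cast k.h1
  have h1' : ((t.u : ℤ) + t.a) ^ 2 * t.m1 ≤ N + h := by exact_mod_cast k.h1'
  constructor <;> linarith

lemma fiber_card (Y h P B : ℕ) (hP : 1 ≤ P) (hh : h < 8 * P) (F : Finset Q3)
    (hF : ∀ t ∈ F, IsTri Y h P B t) (a b u : ℕ) (W f : ℤ)
    (hs : ∀ t ∈ F, t.a = a ∧ t.b = b ∧ t.u = u ∧ WW t = W ∧ ff t = f) : F.card ≤ 8 := by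
  classical
  rcases F.eq_empty_or_nonempty with rfl | hne
  · simp
  have key : ∀ t ∈ F, ∀ t' ∈ F, (t.m0 : ℤ) - t.m1 = t'.m0 - t'.m1 ∧ (t.m1 : ℤ) - t'.m1 < 8 := by
    intro t ht t' ht'
    obtain ⟨e1, e2, e3, e4, e5⟩ := hs t ht
    obtain ⟨e1', e2', e3', e4', e5'⟩ := hs t' ht'
    have ha : 1 ≤ a := by
      obtain ⟨N, -, -, k⟩ := hF t ht
      rw [← e1]; exact k.ha
    have hb : 1 ≤ b := by
      obtain ⟨N, -, -, k⟩ := hF t ht
      rw [← e2]; exact k.hb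
    have hu : P ≤ u := by
      obtain ⟨N, -, -, k⟩ := hF t ht
      rw [← e3]; exact k.hu
    have d := dBound (hF t ht)
    have d' := dBound (hF t' ht')
    unfold ff at e5 e5'
    rw [e4, e1, e2, e3] at e5
    rw [e4', e1', e2', e3'] at e5'
    rw [e1, e3] at d
    rw [e1', e3'] at d'
    have haZ : (1 : ℤ) ≤ a := by exact_mod_cast ha
    have hbZ : (1 : ℤ) ≤ b := by exact_mod_cast hb
    have huZ : (P : ℤ) ≤ u := by exact_mod_cast hu
    have hPZ : (1 : ℤ) ≤ P := by exact_mod_cast hP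
    have hhZ : (h : ℤ) < 8 * P := by exact_mod_cast hh
    have he : (t.m0 : ℤ) - t.m1 = t'.m0 - t'.m1 := by
      have hne : (9 : ℤ) * b * (a + b) ≠ 0 := by positivity
      have : 9 * (b : ℤ) * (a + b) * ((t.m0 : ℤ) - t.m1) =
          9 * (b : ℤ) * (a + b) * ((t'.m0 : ℤ) - t'.m1) := by linarith
      exact mul_left_cancel₀ hne this
    refine ⟨he, ?_⟩
    by_contra hcon
    push Not at hcon
    have hK : (2 : ℤ) * P + 1 ≤ a * (2 * u + a) := by nlinarith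
    have hdd : (a : ℤ) * (2 * u + a) * ((t.m1 : ℤ) - t'.m1) =
        ((u : ℤ) ^ 2 * t'.m0 - ((u : ℤ) + a) ^ 2 * t'.m1) -
          ((u : ℤ) ^ 2 * t.m0 - ((u : ℤ) + a) ^ 2 * t.m1) := by
      have : (t.m0 : ℤ) = t'.m0 - t'.m1 + t.m1 := by linarith
      rw [this]; ring
    have h8 : (2 * (P : ℤ) + 1) * 8 ≤ a * (2 * u + a) * ((t.m1 : ℤ) - t'.m1) := by
      exact mul_le_mul hK hcon (by norm_num) (by positivity)
    linarith [d.1, d.2, d'.1, d'.2]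
  obtain ⟨t0, ht0, hmin⟩ := Finset.exists_min_image F (fun t => t.m1) hne
  have hcard : F.card ≤ (Finset.Ico t0.m1 (t0.m1 + 8)).card := by
    apply Finset.card_le_card_of_injOn (fun t => t.m1)
    · intro t ht
      have h1 := hmin t ht
      have h2 := (key t ht t0 ht0).2
      simp only [coe_Ico, Set.mem_Ico]
      exact ⟨h1, by omega⟩
    · intro t ht t' ht' hm
      simp only at hm
      have k := (key t ht t' ht').1
      obtain ⟨e1, e2, e3, e4, e5⟩ := hs t ht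
      obtain ⟨e1', e2', e3', e4', e5'⟩ := hs t' ht'
      have ha : 1 ≤ a := by
        obtain ⟨N, -, -, k⟩ := hF t ht
        rw [← e1]; exact k.ha
      have m0 : t.m0 = t'.m0 := by rw [hm] at k; omega
      have m2 : t.m2 = t'.m2 := by
        unfold WW at e4 e4'
        rw [e1, e2] at e4
        rw [e1', e2', ← m0, ← hm] at e4'
        have haZ : (a : ℤ) ≠ 0 := by exact_mod_cast (by omega : a ≠ 0)
        have : (a : ℤ) * t.m2 = a * t'.m2 := by linarith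
        exact_mod_cast mul_left_cancel₀ haZ this
      cases t; cases t'
      simp only at e1 e2 e3 e1' e2' e3' hm m0 m2
      subst e1 e2 e3 hm m0 m2
      rw [e1', e2', e3']
  simpa using hcard

/-- one cell -/
lemma cell (h1 : LAM_stmt) (h2 : WF_stmt) (h3 : LIN_stmt) (Y h P B : ℕ) (hP : 1 ≤ P)
    (hB : 1 ≤ B) (hBP : 100 * B ≤ P) (hh : h < 8 * P) (hhY : h ≤ Y)
    (hY : 8 * P ^ 2 * h ≤ Y) (a b u : ℕ) (F : Finset Q3) (hF : ∀ t ∈ F, IsTri Y h P B t)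
    (hs : ∀ t ∈ F, t.a = a ∧ t.b = b ∧ t.u = u) :
    (F.card : ℝ) ≤ 8 * ((374 * h * B ^ 2 * Y / P ^ 5 + 240 * B ^ 5 * Y / P ^ 5 + 56 * h * B / P + 1)
      + 20 * B * Y / (9 * P ^ 4) * (Nat.gcd (6 * u + (7 * a + 8 * b)) (9 * b * (a + b)) : ℕ)) := by
  classical
  have hPR : (1 : ℝ) ≤ P := by exact_mod_cast hP
  have hBR : (1 : ℝ) ≤ B := by exact_mod_cast hB
  have hPpos : (0 : ℝ) < P := by linarith
  rcases F.eq_empty_or_nonempty with rfl | hne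
  · simp only [card_empty, Nat.cast_zero]
    positivity
  -- the pairs
  set S : Finset (ℤ × ℤ) := F.image (fun t => (WW t, ff t)) with hS
  have hcS : F.card ≤ 8 * S.card := by
    apply Finset.card_le_mul_card_image
    intro w _
    apply fiber_card Y h P B hP hh _ (fun t ht => hF t (mem_filter.1 ht).1) a b u w.1 w.2
    intro t ht
    rw [mem_filter] at ht
    obtain ⟨k1, k2, k3⟩ := hs t ht.1
    refine ⟨k1, k2, k3, ?_, ?_⟩
    · rw [← ht.2]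
    · rw [← ht.2]
  obtain ⟨t0, ht0⟩ := hne
  obtain ⟨N0, -, -, k0⟩ := hF t0 ht0
  obtain ⟨z1, z2, z3⟩ := hs t0 ht0
  have ha : 1 ≤ a := by rw [← z1]; exact k0.ha
  have haB : a ≤ B := by rw [← z1]; exact k0.haB
  have hb : 1 ≤ b := by rw [← z2]; exact k0.hb
  have hbB : b ≤ B := by rw [← z2]; exact k0.hbB
  have hu : P ≤ u := by rw [← z3]; exact k0.hu
  have hw : u + a + b < 2 * P := by rw [← z1, ← z2, ← z3]; exact k0.hw
  have haR : (1 : ℝ) ≤ a := by exact_mod_cast ha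
  have hbR : (1 : ℝ) ≤ b := by exact_mod_cast hb
  have haBR : (a : ℝ) ≤ B := by exact_mod_cast haB
  have hbBR : (b : ℝ) ≤ B := by exact_mod_cast hbB
  have huR : (P : ℝ) ≤ u := by exact_mod_cast hu
  have hwR : (u : ℝ) + a + b < 2 * P := by exact_mod_cast hw
  have hBPR : 100 * (B : ℝ) ≤ P := by exact_mod_cast hBP
  obtain ⟨l1, l2⟩ := h1 a b (u + a) P B haR haBR hbR hbBR hBPR (by linarith) (by linarith)
  set la := lam a b (u + a) with hla
  set R : ℝ := 28 * h * B / P with hR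
  set Wm : ℝ := 20 * a * b * (a + b) * Y / P ^ 4 with hWm
  have hR0 : 0 ≤ R := by positivity
  have hWm0 : 0 ≤ Wm := by positivity
  have hN1 : 1 ≤ 9 * b * (a + b) := by
    have : 0 < 9 * b * (a + b) := by positivity
    omega
  have hlin := h3 (qq a b u) (9 * b * (a + b)) la R Wm hN1 l1 hR0 hWm0 S (by
    intro p hp
    rw [hS, mem_image] at hp
    obtain ⟨t, ht, rfl⟩ := hp
    obtain ⟨N, kY, kY2, k⟩ := hF t ht
    obtain ⟨e1, e2, e3⟩ := hs t ht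
    obtain ⟨w1, w2, w3⟩ := h2 N Y h P B t k kY kY2 hBP hhY hY
    rw [e1, e2] at w2
    rw [e1, e2, e3] at w3
    refine ⟨w1, w2, w3, ?_⟩
    refine ⟨(t.m0 : ℤ) - t.m1, ?_⟩
    simp only [ff]
    rw [e1, e2, e3]
    push_cast
    ring)
  -- the constants
  have hq : qq a b u = 6 * u + (7 * a + 8 * b) := by unfold qq; ring
  rw [hq] at hlin
  have hNc : (((9 * b * (a + b) : ℕ)) : ℝ) = 9 * b * (a + b) := by push_cast; ring
  rw [hNc] at hlin
  have hNpos : (0 : ℝ) < 9 * b * (a + b) := by positivity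
  set X : ℝ := (Y : ℝ) / P ^ 4 with hX
  have hX0 : 0 ≤ X := by positivity
  have hWX : Wm = 20 * a * b * (a + b) * X := by rw [hWm, hX]; ring
  have hWN : Wm / (9 * b * (a + b)) = 20 / 9 * a * X := by
    rw [hWX]; field_simp
  have t1 : 6 * R * Wm / (9 * b * (a + b)) ≤ 374 * h * B ^ 2 * Y / P ^ 5 := by
    have e : 6 * R * Wm / (9 * b * (a + b)) = 6 * R * (20 / 9 * a * X) := by
      rw [mul_div_assoc, hWN]
    rw [e]
    calc 6 * R * (20 / 9 * a * X) ≤ 6 * R * (20 / 9 * B * X) := by gcongr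
      _ = (3360 / 9) * (h * B ^ 2 * Y / P ^ 5) := by rw [hR, hX]; field_simp; ring
      _ ≤ 374 * (h * B ^ 2 * Y / P ^ 5) := by
          apply mul_le_mul_of_nonneg_right (by norm_num) (by positivity)
      _ = _ := by ring
  have t2 : 2 * la * Wm ≤ 240 * B ^ 5 * Y / P ^ 5 := by
    calc 2 * la * Wm ≤ 2 * (3 * B ^ 2 / P) * Wm := by gcongr
      _ = 2 * (3 * B ^ 2 / P) * (20 * a * b * (a + b) * X) := by rw [hWX]
      _ ≤ 2 * (3 * B ^ 2 / P) * (20 * B * B * (B + B) * X) := by gcongr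
      _ = _ := by rw [hX]; field_simp; ring
  have t3 : 2 * R = 56 * h * B / P := by rw [hR]; ring
  have t4 : Wm * (Nat.gcd (6 * u + (7 * a + 8 * b)) (9 * b * (a + b)) : ℕ) / (9 * b * (a + b)) ≤
      20 * B * Y / (9 * P ^ 4) * (Nat.gcd (6 * u + (7 * a + 8 * b)) (9 * b * (a + b)) : ℕ) := by
    have e : Wm * (Nat.gcd (6 * u + (7 * a + 8 * b)) (9 * b * (a + b)) : ℕ) / (9 * b * (a + b)) =
        Wm / (9 * b * (a + b)) * (Nat.gcd (6 * u + (7 * a + 8 * b)) (9 * b * (a + b)) : ℕ) := by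
      ring
    rw [e, hWN]
    have e2 : 20 * B * Y / (9 * (P : ℝ) ^ 4) = 20 / 9 * B * X := by rw [hX]; field_simp
    rw [e2]
    gcongr
  have hcR : (F.card : ℝ) ≤ 8 * S.card := by exact_mod_cast hcS
  linarith

end TRIx

theorem tri (h1 : LAM_stmt) (h2 : WF_stmt) (h3 : LIN_stmt) (h4 : GCD_stmt) : TRI_stmt := by
  classical
  intro Y h P B τ hP hh1 hB hBP hB2 hh hhY hY hdiv T hT
  have hPR : (1 : ℝ) ≤ P := by exact_mod_cast hP
  have hBR : (1 : ℝ) ≤ B := by exact_mod_cast hB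
  have hPpos : (0 : ℝ) < P := by linarith
  set box : Finset ((ℕ × ℕ) × ℕ) := (Icc 1 B ×ˢ Icc 1 B) ×ˢ Ico P (2 * P) with hbox
  have hmap : ∀ t ∈ T, ((t.a, t.b), t.u) ∈ box := by
    intro t ht
    obtain ⟨N, -, -, k⟩ := hT t ht
    rw [hbox, mem_product, mem_product, mem_Icc, mem_Icc, mem_Ico]
    exact ⟨⟨⟨k.ha, k.haB⟩, ⟨k.hb, k.hbB⟩⟩, k.hu, by have := k.hw; simp only; omega⟩
  have hcard := Finset.card_eq_sum_card_fiberwise (f := fun t : Q3 => ((t.a, t.b), t.u))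
    (s := T) (t := box) (by intro t ht; exact hmap t ht)
  set c0 : ℝ := 374 * h * B ^ 2 * Y / P ^ 5 + 240 * B ^ 5 * Y / P ^ 5 + 56 * h * B / P + 1 with hc0
  set c1 : ℝ := 20 * B * Y / (9 * P ^ 4) with hc1
  have hc10 : 0 ≤ c1 := by positivity
  have hcell : ∀ x ∈ box, ((T.filter (fun t : Q3 => ((t.a, t.b), t.u) = x)).card : ℝ) ≤
      8 * (c0 + c1 *
        (Nat.gcd (6 * x.2 + (7 * x.1.1 + 8 * x.1.2)) (9 * x.1.2 * (x.1.1 + x.1.2)) : ℕ)) := by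
    rintro ⟨⟨a, b⟩, u⟩ _
    apply TRIx.cell h1 h2 h3 Y h P B hP hB hBP hh hhY hY a b u
    · intro t ht; exact hT t (mem_filter.1 ht).1
    · intro t ht
      have := (mem_filter.1 ht).2
      simp only [Prod.mk.injEq] at this
      exact ⟨this.1.1, this.1.2, this.2⟩
  have hsum : (T.card : ℝ) ≤ ∑ x ∈ box, 8 * (c0 + c1 *
        (Nat.gcd (6 * x.2 + (7 * x.1.1 + 8 * x.1.2)) (9 * x.1.2 * (x.1.1 + x.1.2)) : ℕ)) := by
    rw [hcard, Nat.cast_sum]
    exact Finset.sum_le_sum hcell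
  have hgcd : (∑ x ∈ box,
      Nat.gcd (6 * x.2 + (7 * x.1.1 + 8 * x.1.2)) (9 * x.1.2 * (x.1.1 + x.1.2)) : ℕ) ≤
        B ^ 2 * (τ * (7 * P)) := by
    rw [hbox, Finset.sum_product]
    have hin : ∀ y ∈ Icc 1 B ×ˢ Icc 1 B, ∑ u ∈ Ico P (2 * P),
        Nat.gcd (6 * u + (7 * y.1 + 8 * y.2)) (9 * y.2 * (y.1 + y.2)) ≤ τ * (7 * P) := by
      rintro ⟨a, b⟩ hab
      rw [mem_product, mem_Icc, mem_Icc] at hab
      obtain ⟨⟨ha, haB⟩, hb, hbB⟩ := hab
      simp only at ha haB hb hbB ⊢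
      have hN1 : 1 ≤ 9 * b * (a + b) := by
        have : 0 < 9 * b * (a + b) := by positivity
        omega
      have hN2 : 9 * b * (a + b) ≤ 18 * B ^ 2 := by
        calc 9 * b * (a + b) ≤ 9 * B * (B + B) := by gcongr
          _ = 18 * B ^ 2 := by ring
      calc _ ≤ τ * (6 * P + 9 * b * (a + b)) := h4 _ _ P τ hN1 (hdiv _ hN1 hN2)
        _ ≤ τ * (7 * P) := by
            apply Nat.mul_le_mul_left
            omega
    calc _ ≤ ∑ _y ∈ Icc 1 B ×ˢ Icc 1 B, τ * (7 * P) := Finset.sum_le_sum hin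
      _ = B ^ 2 * (τ * (7 * P)) := by
          rw [Finset.sum_const, card_product, Nat.card_Icc, smul_eq_mul]
          simp only [Nat.add_sub_cancel]
          ring
  have hgcdR : (∑ x ∈ box,
      ((Nat.gcd (6 * x.2 + (7 * x.1.1 + 8 * x.1.2)) (9 * x.1.2 * (x.1.1 + x.1.2)) : ℕ) : ℝ)) ≤
        B ^ 2 * (τ * (7 * P)) := by exact_mod_cast hgcd
  have hboxc : (box.card : ℝ) = B ^ 2 * P := by
    rw [hbox, card_product, card_product, Nat.card_Icc, Nat.card_Ico]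
    have : 2 * P - P = P := by omega
    rw [this, Nat.add_sub_cancel]
    push_cast; ring
  have hexp : ∑ x ∈ box, 8 * (c0 + c1 *
        (Nat.gcd (6 * x.2 + (7 * x.1.1 + 8 * x.1.2)) (9 * x.1.2 * (x.1.1 + x.1.2)) : ℕ)) =
      8 * (box.card * c0 + c1 * ∑ x ∈ box,
        ((Nat.gcd (6 * x.2 + (7 * x.1.1 + 8 * x.1.2)) (9 * x.1.2 * (x.1.1 + x.1.2)) : ℕ) : ℝ)) := by
    rw [← Finset.mul_sum, Finset.sum_add_distrib, Finset.sum_const, nsmul_eq_mul, Finset.mul_sum]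
  rw [hexp, hboxc] at hsum
  have hfin : 8 * (B ^ 2 * P * c0 + c1 * (B ^ 2 * (τ * (7 * P)))) ≤
      10 ^ 4 * ((1 + h * B / P + τ) * (B ^ 3 * Y / P ^ 3) + B ^ 7 * Y / P ^ 4
        + (1 + h * B / P) * (P * B ^ 2)) := by
    have e : 8 * (B ^ 2 * P * c0 + c1 * (B ^ 2 * (τ * (7 * P)))) =
        2992 * (h * B ^ 4 * Y / P ^ 4) + 1920 * (B ^ 7 * Y / P ^ 4) + 448 * (h * B ^ 3)
          + 8 * (P * B ^ 2) + 1120 / 9 * (τ * (B ^ 3 * Y / P ^ 3)) := by
      rw [hc0, hc1]; field_simp; ring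
    have e2 : 10 ^ 4 * ((1 + h * B / P + τ) * (B ^ 3 * Y / P ^ 3) + B ^ 7 * Y / P ^ 4
        + (1 + h * B / P) * (P * B ^ 2)) =
        10 ^ 4 * (h * B ^ 4 * Y / P ^ 4) + 10 ^ 4 * (B ^ 7 * Y / P ^ 4) + 10 ^ 4 * (h * B ^ 3)
          + 10 ^ 4 * (P * B ^ 2) + 10 ^ 4 * (τ * (B ^ 3 * Y / P ^ 3))
          + 10 ^ 4 * (B ^ 3 * Y / (P : ℝ) ^ 3) := by
      field_simp; ring
    rw [e, e2]
    have q1 : (0 : ℝ) ≤ h * B ^ 4 * Y / P ^ 4 := by positivity
    have q2 : (0 : ℝ) ≤ B ^ 7 * Y / P ^ 4 := by positivity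
    have q3 : (0 : ℝ) ≤ h * B ^ 3 := by positivity
    have q4 : (0 : ℝ) ≤ P * B ^ 2 := by positivity
    have q5 : (0 : ℝ) ≤ τ * (B ^ 3 * Y / P ^ 3) := by positivity
    have q6 : (0 : ℝ) ≤ B ^ 3 * Y / P ^ 3 := by positivity
    linarith
  refine hsum.trans (le_trans ?_ hfin)
  have := mul_le_mul_of_nonneg_left hgcdR hc10
  linarith

end Pool.Agent.SQG
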