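import Pool.Agent.Lib.SQG.Defs2
import Pool.Agent.Lib.SQG.TRI

/-!
# Row TRIB: the number of triples, second form
-/

set_option autoImplicit false

namespace Pool.Agent.SQG

open Finset

namespace TRIBx

/-- one cell -/
lemma cell (h2 : WF_stmt) (h3 : PAB_stmt) (Y h P B τ : ℕ) (hP : 1 ≤ P) (hB : 1 ≤ B)
    (hBP : 100 * B ≤ P) (hh : h < 8 * P) (hhY : h ≤ Y) (hY : 8 * P ^ 2 * h ≤ Y)
    (hdiv : ∀ n : ℕ, 1 ≤ n → n ≤ 18 * B ^ 2 → n.divisors.card ≤ τ) (a b : ℕ) (F : Finset Q3)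
    (hF : ∀ t ∈ F, IsTri Y h P B t) (hs : ∀ t ∈ F, t.a = a ∧ t.b = b) :
    (F.card : ℝ) ≤ 576000 * (1 + 28 * h * B / P) ^ 2 * (Nat.log 2 Y + 1 : ℕ) * τ *
      (B * Y / P ^ 3 + B ^ 4 * Y / P ^ 4) := by
  classical
  have hPR : (1 : ℝ) ≤ P := by exact_mod_cast hP
  have hBR : (1 : ℝ) ≤ B := by exact_mod_cast hB
  have hPpos : (0 : ℝ) < P := by linarith
  rcases F.eq_empty_or_nonempty with rfl | hne
  · simp only [card_empty, Nat.cast_zero]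
    positivity
  set S : Finset (ℕ × ℤ × ℤ) := F.image (fun t => (t.u, WW t, ff t)) with hS
  have hcS : F.card ≤ 8 * S.card := by
    apply Finset.card_le_mul_card_image
    intro w _
    apply TRIx.fiber_card Y h P B hP hh _ (fun t ht => hF t (mem_filter.1 ht).1) a b w.1 w.2.1
      w.2.2
    intro t ht
    rw [mem_filter] at ht
    obtain ⟨k1, k2⟩ := hs t ht.1
    refine ⟨k1, k2, ?_, ?_, ?_⟩
    · rw [← ht.2]
    · rw [← ht.2]
    · rw [← ht.2]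
  obtain ⟨t0, ht0⟩ := hne
  obtain ⟨N0, -, -, k0⟩ := hF t0 ht0
  obtain ⟨z1, z2⟩ := hs t0 ht0
  have ha : 1 ≤ a := by rw [← z1]; exact k0.ha
  have haB : a ≤ B := by rw [← z1]; exact k0.haB
  have hb : 1 ≤ b := by rw [← z2]; exact k0.hb
  have hbB : b ≤ B := by rw [← z2]; exact k0.hbB
  have haR : (1 : ℝ) ≤ a := by exact_mod_cast ha
  have hbR : (1 : ℝ) ≤ b := by exact_mod_cast hb
  have haBR : (a : ℝ) ≤ B := by exact_mod_cast haB
  have hbBR : (b : ℝ) ≤ B := by exact_mod_cast hbB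
  have hBPR : 100 * (B : ℝ) ≤ P := by exact_mod_cast hBP
  set R : ℝ := 1 + 28 * h * B / P with hR
  set M : ℝ := 20 * a * b * (a + b) * Y / P ^ 4 with hM
  have hR1 : 1 ≤ R := by
    have : (0 : ℝ) ≤ 28 * h * B / P := by positivity
    linarith
  have hM0 : 0 ≤ M := by positivity
  have hN1 : 1 ≤ 9 * b * (a + b) := by
    have : 0 < 9 * b * (a + b) := by positivity
    omega
  have hN2 : 9 * b * (a + b) ≤ 18 * B ^ 2 := by
    calc 9 * b * (a + b) ≤ 9 * B * (B + B) := by gcongr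
      _ = 18 * B ^ 2 := by ring
  have hpab := h3 a b P B τ R M ha haB hb hbB hBP hR1 hM0 (hdiv _ hN1 hN2) S (by
    intro p hp
    rw [hS, mem_image] at hp
    obtain ⟨t, ht, rfl⟩ := hp
    obtain ⟨N, kY, kY2, k⟩ := hF t ht
    obtain ⟨e1, e2⟩ := hs t ht
    obtain ⟨w1, w2, w3⟩ := h2 N Y h P B t k kY kY2 hBP hhY hY
    rw [e1, e2] at w2 w3
    have hw := k.hw
    rw [e1, e2] at hw
    refine ⟨k.hu, ?_, w1, w2, ?_, ?_⟩
    · show t.u + a < 2 * P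
      omega
    · have : |(ff t : ℝ) + lam a b (t.u + a) * WW t| ≤ 28 * h * B / P := w3
      show |(ff t : ℝ) + lam a b (t.u + a) * WW t| ≤ R
      rw [hR]
      linarith
    · refine ⟨(t.m0 : ℤ) - t.m1, ?_⟩
      simp only [ff]
      rw [e1, e2]
      push_cast
      ring)
  -- the constants
  have hNpos : (0 : ℝ) < 9 * b * (a + b) := by positivity
  set X : ℝ := (Y : ℝ) / P ^ 4 with hX
  have hX0 : 0 ≤ X := by positivity
  have hMX : M = 20 * a * b * (a + b) * X := by rw [hM, hX]; ring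
  have hMle : M ≤ 40 * B ^ 3 * X := by
    rw [hMX]
    calc 20 * a * b * (a + b) * X ≤ 20 * B * B * (B + B) * X := by gcongr
      _ = _ := by ring
  have hMY : M ≤ Y := by
    refine hMle.trans ?_
    have h40 : 40 * (B : ℝ) ^ 3 ≤ P ^ 4 := by
      have h1 : (B : ℝ) ≤ P / 100 := by linarith
      have h4 : (B : ℝ) ^ 3 ≤ (P / 100) ^ 3 := by gcongr
      have h5 : (P : ℝ) ^ 3 ≤ P ^ 4 := pow_le_pow_right₀ hPR (by norm_num)
      have h6 : (0 : ℝ) ≤ (P : ℝ) ^ 3 := by positivity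
      nlinarith
    have hP4 : (0 : ℝ) < (P : ℝ) ^ 4 := by positivity
    rw [hX, mul_div_assoc', div_le_iff₀ hP4]
    have hY0 : (0 : ℝ) ≤ Y := Nat.cast_nonneg _
    nlinarith
  have hlog : ((Nat.log 2 ⌊M⌋₊ + 1 : ℕ) : ℝ) ≤ (Nat.log 2 Y + 1 : ℕ) := by
    have h1 : ⌊M⌋₊ ≤ Y := by
      have := Nat.floor_le_floor hMY
      rwa [Nat.floor_natCast] at this
    have h4 : Nat.log 2 ⌊M⌋₊ ≤ Nat.log 2 Y := Nat.log_mono_right h1
    exact_mod_cast Nat.succ_le_succ h4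
  have t1 : M * (P / (9 * b * (a + b)) + B) ≤ 40 * (B * Y / P ^ 3 + B ^ 4 * Y / P ^ 4) := by
    have e1 : M * (P / (9 * b * (a + b))) = 20 / 9 * a * (Y / P ^ 3) := by
      rw [hMX, hX]; field_simp
    have e2 : M * (P / (9 * b * (a + b))) ≤ 20 / 9 * B * (Y / P ^ 3) := by
      rw [e1]; gcongr
    have e3 : M * B ≤ 40 * B ^ 4 * X := by
      calc M * B ≤ 40 * B ^ 3 * X * B := by gcongr
        _ = _ := by ring
    have e4 : 40 * (B : ℝ) ^ 4 * X = 40 * (B ^ 4 * Y / P ^ 4) := by rw [hX]; ring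
    have e5 : 20 / 9 * (B : ℝ) * (Y / P ^ 3) = 20 / 9 * (B * Y / P ^ 3) := by ring
    have e6 : (0 : ℝ) ≤ B * Y / P ^ 3 := by positivity
    rw [mul_add]
    linarith
  have t2 : 1800 * R ^ 2 * (Nat.log 2 ⌊M⌋₊ + 1 : ℕ) * τ * M * (P / (9 * b * (a + b)) + B) ≤
      1800 * R ^ 2 * (Nat.log 2 Y + 1 : ℕ) * τ *
        (40 * (B * Y / P ^ 3 + B ^ 4 * Y / P ^ 4)) := by
    rw [mul_assoc (1800 * R ^ 2 * (Nat.log 2 ⌊M⌋₊ + 1 : ℕ) * τ : ℝ)]
    gcongr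
  have hcR : (F.card : ℝ) ≤ 8 * S.card := by exact_mod_cast hcS
  calc (F.card : ℝ) ≤ 8 * S.card := hcR
    _ ≤ 8 * (1800 * R ^ 2 * (Nat.log 2 Y + 1 : ℕ) * τ *
        (40 * (B * Y / P ^ 3 + B ^ 4 * Y / P ^ 4))) := by
        have := hpab.trans t2
        linarith
    _ = _ := by ring

end TRIBx

theorem trib (h2 : WF_stmt) (h3 : PAB_stmt) : TRIB_stmt := by
  classical
  intro Y h P B τ hP hh1 hB hBP hh hhY hY hdiv T hT
  have hPR : (1 : ℝ) ≤ P := by exact_mod_cast hP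
  have hPpos : (0 : ℝ) < P := by linarith
  set box : Finset (ℕ × ℕ) := Icc 1 B ×ˢ Icc 1 B with hbox
  have hmap : ∀ t ∈ T, (t.a, t.b) ∈ box := by
    intro t ht
    obtain ⟨N, -, -, k⟩ := hT t ht
    rw [hbox, mem_product, mem_Icc, mem_Icc]
    exact ⟨⟨k.ha, k.haB⟩, ⟨k.hb, k.hbB⟩⟩
  have hcard := Finset.card_eq_sum_card_fiberwise (f := fun t : Q3 => (t.a, t.b))
    (s := T) (t := box) (by intro t ht; exact hmap t ht)
  set c : ℝ := 576000 * (1 + 28 * h * B / P) ^ 2 * (Nat.log 2 Y + 1 : ℕ) * τ *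
      (B * Y / P ^ 3 + B ^ 4 * Y / P ^ 4) with hc
  have hcell : ∀ x ∈ box, ((T.filter (fun t : Q3 => (t.a, t.b) = x)).card : ℝ) ≤ c := by
    rintro ⟨a, b⟩ _
    apply TRIBx.cell h2 h3 Y h P B τ hP hB hBP hh hhY hY hdiv a b
    · intro t ht; exact hT t (mem_filter.1 ht).1
    · intro t ht
      have := (mem_filter.1 ht).2
      simp only [Prod.mk.injEq] at this
      exact this
  have hsum : (T.card : ℝ) ≤ ∑ x ∈ box, c := by
    rw [hcard, Nat.cast_sum]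
    exact Finset.sum_le_sum hcell
  have hboxc : (box.card : ℝ) = B ^ 2 := by
    rw [hbox, card_product, Nat.card_Icc, Nat.add_sub_cancel]
    push_cast; ring
  rw [Finset.sum_const, nsmul_eq_mul, hboxc] at hsum
  refine hsum.trans ?_
  have e : (B : ℝ) ^ 2 * c = 576000 * ((1 + 28 * h * B / P) ^ 2 * (Nat.log 2 Y + 1 : ℕ) * τ *
      (B ^ 3 * Y / P ^ 3 + B ^ 6 * Y / P ^ 4)) := by
    rw [hc]; ring
  rw [e]
  have h0 : (0 : ℝ) ≤ (1 + 28 * h * B / P) ^ 2 * (Nat.log 2 Y + 1 : ℕ) * τ *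
      (B ^ 3 * Y / P ^ 3 + B ^ 6 * Y / P ^ 4) := by positivity
  have e2 : 10 ^ 7 * (1 + 28 * h * B / P) ^ 2 * (Nat.log 2 Y + 1 : ℕ) * τ *
      (B ^ 3 * Y / P ^ 3 + B ^ 6 * Y / P ^ 4) = 10 ^ 7 * ((1 + 28 * h * B / P) ^ 2 *
      (Nat.log 2 Y + 1 : ℕ) * τ * (B ^ 3 * Y / P ^ 3 + B ^ 6 * (Y : ℝ) / P ^ 4)) := by ring
  rw [e2]
  apply mul_le_mul_of_nonneg_right _ h0
  norm_num

end Pool.Agent.SQG
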