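import Pool.Agent.Lib.SQG.VZB

/-!
# Number of pairs with `v = 0`
-/

set_option autoImplicit false

namespace Pool.Agent.SQG

open Finset

theorem vza : VZA_stmt := by
  intro Y h P B hP hh hB hY hBP T hT
  classical
  have hP0 : (0 : ℝ) < P := by exact_mod_cast hP
  set K : ℝ := (h : ℝ) ^ (1 / 3 : ℝ) * (Y : ℝ) ^ (2 / 3 : ℝ) with hK
  have hK0 : 0 ≤ K := by positivity
  have hK3 : K ^ 3 = h * Y ^ 2 := by
    have e1 : ((h : ℝ) ^ (1 / 3 : ℝ)) ^ 3 = h := by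
      rw [← Real.rpow_natCast, ← Real.rpow_mul (by positivity)]
      norm_num
    have e2 : ((Y : ℝ) ^ (2 / 3 : ℝ)) ^ 3 = Y ^ 2 := by
      rw [← Real.rpow_natCast, ← Real.rpow_mul (by positivity)]
      norm_num
    rw [hK, mul_pow, e1, e2]
  set F : ℕ → ℝ := fun a => 12 * K / (P ^ 2 * a) with hF
  have hF0 : ∀ a, 0 ≤ F a := fun a => by rw [hF]; positivity
  -- structure
  have hex : ∀ t ∈ T, ∃ a d : ℕ, 1 ≤ a ∧ t.a = 2 * a ∧ 1 ≤ d ∧ 4 * t.m = d * (t.u + 3 * a) ∧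
      4 * (t.m' : ℤ) = d * (t.u - a) ∧ a ^ 3 * d < h ∧ d * P ^ 3 ≤ 12 * Y ∧
      P ≤ t.u ∧ t.u < 2 * P ∧ t.a ≤ B := by
    intro t ht
    obtain ⟨⟨N, hN, hN2, hti⟩, hv⟩ := hT t ht
    obtain ⟨a, d, g1, g2, g3, g4, g5, g6, g7⟩ := VZ.str hti hv
    exact ⟨a, d, g1, g2, g3, g4, g5, g7, VZ.d_le hti g4 hN2 hY, hti.hu,
      by have := hti.hw; omega, hti.haB⟩
  choose! fa fd hfa using hex
  have hdF : ∀ t ∈ T, (fd t : ℝ) ≤ F (fa t) := by
    intro t ht
    obtain ⟨g1, g2, g3, g4, g5, g7, g8, -, -, -⟩ := hfa t ht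
    have ha0 : (0 : ℝ) < fa t := by exact_mod_cast g1
    rw [hF, le_div_iff₀ (by positivity)]
    have h7 : (fa t : ℝ) ^ 3 * fd t ≤ h := by exact_mod_cast g7.le
    have h8 : (fd t : ℝ) * P ^ 3 ≤ 12 * Y := by exact_mod_cast g8
    have h9 : ((fd t : ℝ) * (P ^ 2 * fa t)) ^ 3 ≤ (12 * K) ^ 3 := by
      have h10 : ((fd t : ℝ) * P ^ 3) ^ 2 ≤ (12 * Y) ^ 2 := pow_le_pow_left₀ (by positivity) h8 2
      calc ((fd t : ℝ) * ((P : ℝ) ^ 2 * (fa t : ℝ))) ^ 3
          = ((fa t : ℝ) ^ 3 * (fd t : ℝ)) * ((fd t : ℝ) * (P : ℝ) ^ 3) ^ 2 := by ring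
        _ ≤ (h : ℝ) * (12 * (Y : ℝ)) ^ 2 := mul_le_mul h7 h10 (by positivity) (by positivity)
        _ = 144 * ((h : ℝ) * (Y : ℝ) ^ 2) := by ring
        _ ≤ 1728 * ((h : ℝ) * (Y : ℝ) ^ 2) := by
            have : (0 : ℝ) ≤ (h : ℝ) * (Y : ℝ) ^ 2 := by positivity
            linarith
        _ = (12 * K) ^ 3 := by rw [mul_pow, hK3]; norm_num
    exact le_of_pow_le_pow_left₀ (by norm_num) (by positivity) h9
  -- the map
  have hcard : T.card ≤ ((Finset.Icc 1 B).sigma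
      (fun a => Finset.Ico P (2 * P) ×ˢ Finset.Icc 1 ⌊F a⌋₊)).card := by
    apply Finset.card_le_card_of_injOn (fun t => (⟨fa t, (t.u, fd t)⟩ : Σ _ : ℕ, ℕ × ℕ))
    · intro t ht
      obtain ⟨g1, g2, g3, g4, g5, g7, g8, g9, g10, g11⟩ := hfa t ht
      have hd := hdF t ht
      rw [Finset.mem_coe, Finset.mem_sigma, Finset.mem_product, Finset.mem_Icc, Finset.mem_Ico,
        Finset.mem_Icc]
      exact ⟨⟨g1, by simp only; omega⟩, ⟨g9, g10⟩, g3, Nat.le_floor hd⟩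
    · intro t ht s hs hts
      obtain ⟨g1, g2, g3, g4, g5, g7, g8, g9, g10, g11⟩ := hfa t ht
      obtain ⟨k1, k2, k3, k4, k5, k7, k8, k9, k10, k11⟩ := hfa s hs
      simp only [Sigma.mk.injEq, heq_eq_eq, Prod.mk.injEq] at hts
      obtain ⟨e1, e2, e3⟩ := hts
      have hmm : t.m = s.m := by
        have : 4 * t.m = 4 * s.m := by rw [g4, k4, e1, e2, e3]
        omega
      have hmm' : t.m' = s.m' := by
        have : (4 * t.m' : ℤ) = 4 * s.m' := by rw [g5, k5, e1, e2, e3]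
        omega
      have haa : t.a = s.a := by rw [g2, k2, e1]
      cases t
      cases s
      simp only at haa e2 hmm hmm'
      subst haa e2 hmm hmm'
      rfl
  have hcard2 : (T.card : ℝ) ≤ ∑ a ∈ Finset.Icc 1 B, (P : ℝ) * F a := by
    calc (T.card : ℝ) ≤ (((Finset.Icc 1 B).sigma
          (fun a => Finset.Ico P (2 * P) ×ˢ Finset.Icc 1 ⌊F a⌋₊)).card : ℝ) := by
          exact_mod_cast hcard
      _ = ∑ a ∈ Finset.Icc 1 B, (P : ℝ) * (⌊F a⌋₊ : ℝ) := by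
          rw [Finset.card_sigma]
          push_cast
          refine Finset.sum_congr rfl fun a _ => ?_
          rw [Finset.card_product, Nat.card_Ico, Nat.card_Icc]
          have h5 : (2 * P - P : ℕ) = P := by omega
          rw [h5, add_tsub_cancel_right]
          push_cast
          rfl
      _ ≤ ∑ a ∈ Finset.Icc 1 B, (P : ℝ) * F a := by
          refine Finset.sum_le_sum fun a _ => ?_
          exact mul_le_mul_of_nonneg_left (Nat.floor_le (hF0 a)) hP0.le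
  have hharm : (∑ a ∈ Finset.Icc 1 B, (1 : ℝ) / a) ≤ 1 + Real.log B := by
    have h1 := harmonic_le_one_add_log B
    rw [harmonic_eq_sum_Icc] at h1
    push_cast at h1
    simpa [one_div] using h1
  calc (T.card : ℝ) ≤ ∑ a ∈ Finset.Icc 1 B, (P : ℝ) * F a := hcard2
    _ = (12 * K / P) * ∑ a ∈ Finset.Icc 1 B, (1 : ℝ) / a := by
        rw [Finset.mul_sum]
        refine Finset.sum_congr rfl fun a ha => ?_
        rw [Finset.mem_Icc] at ha
        have ha0 : (a : ℝ) ≠ 0 := by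
          have : a ≠ 0 := by omega
          exact_mod_cast this
        rw [hF]
        field_simp
    _ ≤ (12 * K / P) * (1 + Real.log B) := mul_le_mul_of_nonneg_left hharm (by positivity)
    _ = 12 * (1 + Real.log B) * (h : ℝ) ^ (1 / 3 : ℝ) * (Y : ℝ) ^ (2 / 3 : ℝ) / P := by
        rw [hK]
        ring

end Pool.Agent.SQG
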