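import Pool.Agent.Lib.SQG.Defs
import Pool.Agent.Lib.SQG.LAM

/-!
# The integers `W` and `f` of a triple
-/

set_option autoImplicit false

namespace Pool.Agent.SQG

open Finset Pool.Agent.Lib.MP_8739b7_nt

namespace Wfx

lemma abs_two (x y d1 d2 h : ℝ) (hx : 0 ≤ x) (hy : 0 ≤ y) (h1 : |d1| ≤ h) (h2 : |d2| ≤ h) :
    |x * d1 + y * d2| ≤ (x + y) * h := by
  calc |x * d1 + y * d2| ≤ |x * d1| + |y * d2| := abs_add_le _ _
    _ = x * |d1| + y * |d2| := by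
        rw [abs_mul x d1, abs_mul y d2, abs_of_nonneg hx, abs_of_nonneg hy]
    _ ≤ x * h + y * h :=
        add_le_add (mul_le_mul_of_nonneg_left h1 hx) (mul_le_mul_of_nonneg_left h2 hy)
    _ = (x + y) * h := by ring

lemma A2_bounds (a b s : ℝ) (ha : 0 < a) (hb : 0 < b) (has : 100 * a ≤ s) (hbs : 100 * b ≤ s) :
    2.9 * s ^ 2 ≤ 3 * s ^ 2 + 2 * (b - a) * s - a * b ∧
    3 * s ^ 2 + 2 * (b - a) * s - a * b ≤ 3.02 * s ^ 2 := by
  have hs : 0 < s := by linarith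
  have e1 : 100 * a * s ≤ s * s := mul_le_mul_of_nonneg_right has hs.le
  have e2 : 100 * b * s ≤ s * s := mul_le_mul_of_nonneg_right hbs hs.le
  have e3 : a * b ≤ a * s := mul_le_mul_of_nonneg_left (by linarith) ha.le
  have e4 : 0 < a * s := mul_pos ha hs
  have e5 : 0 < b * s := mul_pos hb hs
  have e6 : 0 < a * b := mul_pos ha hb
  have e7 : s ^ 2 = s * s := by ring
  have e8 : 2 * (b - a) * s = 2 * (b * s) - 2 * (a * s) := by ring
  have e9 : 100 * a * s = 100 * (a * s) := by ring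
  have e10 : 100 * b * s = 100 * (b * s) := by ring
  have e11 : 0 < s * s := mul_pos hs hs
  rw [e7, e8]
  rw [e9] at e1
  rw [e10] at e2
  constructor <;> linarith

lemma I1 (a b u m0 m1 m2 : ℝ) :
    (b * m0 - (a + b) * m1 + a * m2) * (u ^ 2 * (u + a + b) ^ 2)
      = a * b * (a + b) * ((3 * (u + a) ^ 2 + 2 * (b - a) * (u + a) - a * b) * m1)
      + (b * (u + a + b) ^ 2 * (u ^ 2 * m0 - (u + a) ^ 2 * m1)
        + a * u ^ 2 * ((u + a + b) ^ 2 * m2 - (u + a) ^ 2 * m1)) := by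
  ring

lemma I2 (a b u m0 m1 m2 : ℝ) :
    ((3 * (u + a) ^ 2 + 2 * (b - a) * (u + a) - a * b)
        * ((b * m0 - (a + b) * m1 + a * m2) * (6 * u + 7 * a + 8 * b)
          - 9 * b * (a + b) * (m0 - m1))
      + (2 * (a ^ 2 + a * b + b ^ 2) * (u + a) - a * b * (b - a))
        * (b * m0 - (a + b) * m1 + a * m2)) * (u ^ 2 * (u + a + b) ^ 2)
      = b * (u + a + b) ^ 2 * ((3 * (u + a) ^ 2 + 2 * (b - a) * (u + a) - a * b)
          * ((6 * u + 7 * a + 8 * b) - 9 * (a + b))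
          + (2 * (a ^ 2 + a * b + b ^ 2) * (u + a) - a * b * (b - a)))
          * (u ^ 2 * m0 - (u + a) ^ 2 * m1)
        + a * u ^ 2 * ((3 * (u + a) ^ 2 + 2 * (b - a) * (u + a) - a * b)
          * (6 * u + 7 * a + 8 * b)
          + (2 * (a ^ 2 + a * b + b ^ 2) * (u + a) - a * b * (b - a)))
          * ((u + a + b) ^ 2 * m2 - (u + a) ^ 2 * m1) := by
  ring

lemma W_part (c e D M err Y W Q : ℝ) (hW : W * D = c * M + err) (hc : e ≤ c) (he : 0 < e)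
    (hY : 0 < Y) (herr : |err| ≤ e * Y / 2) (hM1 : 2.9 * Y ≤ M) (hM2 : M ≤ 9.06 * Y)
    (hQ : 0 < Q) (hQD : Q ≤ D) : 0 < W ∧ W ≤ 20 * c * Y / Q := by
  have hD : 0 < D := by linarith
  have hc0 : 0 < c := by linarith
  have h1 := abs_le.1 herr
  have h2 : c * (2.9 * Y) ≤ c * M := mul_le_mul_of_nonneg_left hM1 hc0.le
  have h3 : c * M ≤ c * (9.06 * Y) := mul_le_mul_of_nonneg_left hM2 hc0.le
  have h4 : e * Y ≤ c * Y := mul_le_mul_of_nonneg_right hc hY.le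
  have h5 : 0 < c * Y := mul_pos hc0 hY
  have h6 : c * (2.9 * Y) = 2.9 * (c * Y) := by ring
  have h7 : c * (9.06 * Y) = 9.06 * (c * Y) := by ring
  have h8 : 0 < W * D := by rw [hW]; linarith [h1.1]
  have hW0 : 0 < W := by
    have h8' : 0 * D < W * D := by rw [zero_mul]; exact h8
    exact lt_of_mul_lt_mul_right h8' hD.le
  refine ⟨hW0, ?_⟩
  rw [le_div_iff₀ hQ]
  have h9 : W * Q ≤ W * D := mul_le_mul_of_nonneg_left hQD hW0.le
  have h10 : 20 * c * Y = 20 * (c * Y) := by ring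
  rw [h10]
  linarith [h1.2]

lemma cancel (A2 la f W D x y q1 q2 d1 d2 : ℝ) (hA2 : A2 ≠ 0)
    (h : (A2 * f + la * A2 * W) * D = x * (A2 * q1 + la * A2) * d1 + y * (A2 * q2 + la * A2) * d2) :
    (f + la * W) * D = x * (q1 + la) * d1 + y * (q2 + la) * d2 := by
  apply mul_left_cancel₀ hA2
  calc A2 * ((f + la * W) * D) = (A2 * f + la * A2 * W) * D := by ring
    _ = x * (A2 * q1 + la * A2) * d1 + y * (A2 * q2 + la * A2) * d2 := h
    _ = A2 * (x * (q1 + la) * d1 + y * (q2 + la) * d2) := by ring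

lemma last (a b B h P x y D g r1 r2 d1 d2 : ℝ) (ha : 0 ≤ a) (hb : 0 ≤ b) (haB : a ≤ B) (hbB : b ≤ B)
    (hP : 0 < P) (hh : 0 ≤ h) (hx : 0 ≤ x) (hy : 0 ≤ y) (hr1 : 0 ≤ r1) (hr2 : 0 ≤ r2)
    (hr1' : r1 ≤ 12.1 * P) (hr2' : r2 ≤ 12.1 * P) (hd1 : |d1| ≤ h) (hd2 : |d2| ≤ h)
    (hxD : P ^ 2 * x ≤ D) (hyD : P ^ 2 * y ≤ D) (hD : 0 < D)
    (hg : g * D = b * x * r1 * d1 + a * y * r2 * d2) : |g| ≤ 28 * h * B / P := by
  have hB : 0 ≤ B := ha.trans haB
  have h1 : |g * D| ≤ (b * x * r1 + a * y * r2) * h := by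
    rw [hg]
    exact abs_two _ _ _ _ _ (by positivity) (by positivity) hd1 hd2
  have h2 : b * x * r1 ≤ B * x * (12.1 * P) :=
    mul_le_mul (mul_le_mul_of_nonneg_right hbB hx) hr1' hr1 (by positivity)
  have h3 : a * y * r2 ≤ B * y * (12.1 * P) :=
    mul_le_mul (mul_le_mul_of_nonneg_right haB hy) hr2' hr2 (by positivity)
  have h4 : (b * x * r1 + a * y * r2) * h ≤ (B * x * (12.1 * P) + B * y * (12.1 * P)) * h :=
    mul_le_mul_of_nonneg_right (add_le_add h2 h3) hh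
  have h5 : (B * x * (12.1 * P) + B * y * (12.1 * P)) * h
      = 12.1 * h * B / P * (P ^ 2 * x + P ^ 2 * y) := by
    field_simp
  have h6 : 12.1 * h * B / P * (P ^ 2 * x + P ^ 2 * y) ≤ 12.1 * h * B / P * (D + D) :=
    mul_le_mul_of_nonneg_left (add_le_add hxD hyD) (by positivity)
  have h7 : 12.1 * h * B / P * (D + D) = 24.2 * (h * B / P) * D := by ring
  rw [abs_mul, abs_of_pos hD] at h1
  have h8 : |g| * D ≤ 24.2 * (h * B / P) * D := by linarith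
  have h9 := le_of_mul_le_mul_right h8 hD
  have h10 : 0 ≤ h * B / P := by positivity
  have h11 : 28 * h * B / P = 28 * (h * B / P) := by ring
  rw [h11]
  linarith

/-- The real form of row WF. -/
lemma core (a b u m0 m1 m2 N h P B Y : ℝ) (ha : 1 ≤ a) (haB : a ≤ B) (hb : 1 ≤ b) (hbB : b ≤ B)
    (hBP : 100 * B ≤ P) (hu : P ≤ u) (hw : u + a + b ≤ 2 * P) (hh : 1 ≤ h) (hhY : h ≤ Y)
    (hPh : 8 * P ^ 2 * h ≤ Y) (hNY : Y ≤ N) (hN2 : N ≤ 2 * Y) (hm1 : 0 ≤ m1)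
    (h0 : N ≤ u ^ 2 * m0) (h0' : u ^ 2 * m0 ≤ N + h)
    (h1 : N ≤ (u + a) ^ 2 * m1) (h1' : (u + a) ^ 2 * m1 ≤ N + h)
    (h2 : N ≤ (u + a + b) ^ 2 * m2) (h2' : (u + a + b) ^ 2 * m2 ≤ N + h) :
    0 < b * m0 - (a + b) * m1 + a * m2 ∧
    b * m0 - (a + b) * m1 + a * m2 ≤ 20 * (a * b * (a + b)) * Y / P ^ 4 ∧
    |((b * m0 - (a + b) * m1 + a * m2) * (6 * u + 7 * a + 8 * b) - 9 * b * (a + b) * (m0 - m1))
      + lam a b (u + a) * (b * m0 - (a + b) * m1 + a * m2)| ≤ 28 * h * B / P := by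
  have hB1 : 1 ≤ B := ha.trans haB
  have hP0 : 0 < P := by linarith
  have hu0 : 0 < u := by linarith
  have ha0 : 0 < a := by linarith
  have hb0 : 0 < b := by linarith
  have hh0 : 0 < h := by linarith
  have hY0 : 0 < Y := by linarith
  have hs0 : 0 < u + a := by linarith
  have hd1a : |u ^ 2 * m0 - (u + a) ^ 2 * m1| ≤ h := by
    rw [abs_le]; constructor <;> linarith
  have hd2a : |(u + a + b) ^ 2 * m2 - (u + a) ^ 2 * m1| ≤ h := by
    rw [abs_le]; constructor <;> linarith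
  obtain ⟨hA2l, hA2u⟩ := A2_bounds a b (u + a) ha0 hb0 (by linarith) (by linarith)
  have hA20 : 0 < 3 * (u + a) ^ 2 + 2 * (b - a) * (u + a) - a * b :=
    lt_of_lt_of_le (by positivity) hA2l
  obtain ⟨hl0, hl1⟩ := lam_bounds a b (u + a) P B ha haB hb hbB hBP (by linarith) (by linarith)
  have hl2 : lam a b (u + a) ≤ 0.03 * P := by
    refine hl1.trans ?_
    rw [div_le_iff₀ hP0]
    have k1 : 3 * B ^ 2 = 0.03 * (100 * B * B) := by ring
    have k2 : 100 * B * B ≤ P * P := mul_le_mul hBP (by linarith) (by linarith) hP0.le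
    rw [k1]
    have k3 : 0.03 * P * P = 0.03 * (P * P) := by ring
    rw [k3]
    linarith
  have hw2 : (u + a + b) ^ 2 ≤ 4 * P ^ 2 := by
    have k1 : (u + a + b) ^ 2 ≤ (2 * P) ^ 2 := pow_le_pow_left₀ (by linarith) hw 2
    have k2 : (2 * P) ^ 2 = 4 * P ^ 2 := by ring
    linarith
  have hu2 : u ^ 2 ≤ 4 * P ^ 2 := by
    have k1 : u ^ 2 ≤ (u + a + b) ^ 2 := pow_le_pow_left₀ hu0.le (by linarith) 2
    linarith
  have hwP : P ^ 2 ≤ (u + a + b) ^ 2 := pow_le_pow_left₀ hP0.le (by linarith) 2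
  have huP : P ^ 2 ≤ u ^ 2 := pow_le_pow_left₀ hP0.le hu 2
  have hD0 : 0 < u ^ 2 * (u + a + b) ^ 2 := by positivity
  have herr := abs_two (b * (u + a + b) ^ 2) (a * u ^ 2) _ _ h (by positivity) (by positivity)
    hd1a hd2a
  have herr2 : (b * (u + a + b) ^ 2 + a * u ^ 2) * h ≤ (a + b) * Y / 2 := by
    have k1 : b * (u + a + b) ^ 2 ≤ b * (4 * P ^ 2) := mul_le_mul_of_nonneg_left hw2 hb0.le
    have k2 : a * u ^ 2 ≤ a * (4 * P ^ 2) := mul_le_mul_of_nonneg_left hu2 ha0.le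
    have k3 : (b * (u + a + b) ^ 2 + a * u ^ 2) * h ≤ (b * (4 * P ^ 2) + a * (4 * P ^ 2)) * h :=
      mul_le_mul_of_nonneg_right (add_le_add k1 k2) hh0.le
    have k4 : (b * (4 * P ^ 2) + a * (4 * P ^ 2)) * h = (a + b) * (8 * P ^ 2 * h) / 2 := by ring
    have k5 : (a + b) * (8 * P ^ 2 * h) ≤ (a + b) * Y :=
      mul_le_mul_of_nonneg_left hPh (by positivity)
    linarith
  have hab1 : 1 ≤ a * b := one_le_mul_of_one_le_of_one_le ha hb
  have hc : a + b ≤ a * b * (a + b) := le_mul_of_one_le_left (by positivity) hab1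
  have hM1 : 2.9 * Y ≤ (3 * (u + a) ^ 2 + 2 * (b - a) * (u + a) - a * b) * m1 := by
    have k1 : 2.9 * (u + a) ^ 2 * m1 ≤ (3 * (u + a) ^ 2 + 2 * (b - a) * (u + a) - a * b) * m1 :=
      mul_le_mul_of_nonneg_right hA2l hm1
    have k2 : 2.9 * (u + a) ^ 2 * m1 = 2.9 * ((u + a) ^ 2 * m1) := by ring
    linarith
  have hM2 : (3 * (u + a) ^ 2 + 2 * (b - a) * (u + a) - a * b) * m1 ≤ 9.06 * Y := by
    have k1 : (3 * (u + a) ^ 2 + 2 * (b - a) * (u + a) - a * b) * m1 ≤ 3.02 * (u + a) ^ 2 * m1 :=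
      mul_le_mul_of_nonneg_right hA2u hm1
    have k2 : 3.02 * (u + a) ^ 2 * m1 = 3.02 * ((u + a) ^ 2 * m1) := by ring
    linarith
  have hQD : P ^ 4 ≤ u ^ 2 * (u + a + b) ^ 2 := by
    have k1 : P ^ 2 * P ^ 2 ≤ u ^ 2 * (u + a + b) ^ 2 :=
      mul_le_mul huP hwP (by positivity) (by positivity)
    have k2 : P ^ 4 = P ^ 2 * P ^ 2 := by ring
    linarith
  obtain ⟨w1, w2⟩ := W_part (a * b * (a + b)) (a + b) _ _ _ Y _ (P ^ 4) (I1 a b u m0 m1 m2) hc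
    (by positivity) hY0 (herr.trans herr2) hM1 hM2 (by positivity) hQD
  refine ⟨w1, w2, ?_⟩
  have hla : lam a b (u + a) * (3 * (u + a) ^ 2 + 2 * (b - a) * (u + a) - a * b)
      = 2 * (a ^ 2 + a * b + b ^ 2) * (u + a) - a * b * (b - a) := by
    unfold lam
    exact div_mul_cancel₀ _ hA20.ne'
  have hI2 := I2 a b u m0 m1 m2
  rw [← hla] at hI2
  have hI3 := cancel _ _ _ _ _ _ _ _ _ _ _ hA20.ne' hI2
  refine last a b B h P ((u + a + b) ^ 2) (u ^ 2) (u ^ 2 * (u + a + b) ^ 2) _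
    ((6 * u + 7 * a + 8 * b) - 9 * (a + b) + lam a b (u + a))
    ((6 * u + 7 * a + 8 * b) + lam a b (u + a)) _ _ ha0.le hb0.le haB hbB hP0 hh0.le
    (by positivity) (by positivity) (by linarith) (by linarith) (by linarith) (by linarith)
    hd1a hd2a ?_ ?_ hD0 hI3
  · exact mul_le_mul_of_nonneg_right huP (by positivity)
  · have k1 : P ^ 2 * u ^ 2 = u ^ 2 * P ^ 2 := by ring
    rw [k1]
    exact mul_le_mul_of_nonneg_left hwP (by positivity)

end Wfx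

/-- Row WF. -/
theorem wf : WF_stmt := by
  intro N Y h P B t ht hNY hN2 hBP hhY hPh
  obtain ⟨hu, hw, ha, haB, hb, hbB, h0, h0', h1, h1', h2, h2'⟩ := ht
  have hh : 1 ≤ h := by omega
  have key := Wfx.core (t.a : ℝ) t.b t.u t.m0 t.m1 t.m2 N h P B Y (by exact_mod_cast ha)
    (by exact_mod_cast haB) (by exact_mod_cast hb) (by exact_mod_cast hbB)
    (by exact_mod_cast hBP) (by exact_mod_cast hu) (by exact_mod_cast hw.le)
    (by exact_mod_cast hh) (by exact_mod_cast hhY) (by exact_mod_cast hPh)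
    (by exact_mod_cast hNY) (by exact_mod_cast hN2.le) (by positivity)
    (by exact_mod_cast h0.le) (by exact_mod_cast h0')
    (by exact_mod_cast h1.le) (by exact_mod_cast h1')
    (by exact_mod_cast h2.le) (by exact_mod_cast h2')
  have hWW : ((WW t : ℤ) : ℝ) = (t.b : ℝ) * t.m0 - (t.a + t.b) * t.m1 + t.a * t.m2 := by
    unfold WW; push_cast; ring
  have hff : ((ff t : ℤ) : ℝ) = ((t.b : ℝ) * t.m0 - (t.a + t.b) * t.m1 + t.a * t.m2)
      * (6 * t.u + 7 * t.a + 8 * t.b) - 9 * t.b * (t.a + t.b) * (t.m0 - t.m1) := by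
    unfold ff qq; push_cast; rw [hWW]
  obtain ⟨k1, k2, k3⟩ := key
  refine ⟨?_, ?_, ?_⟩
  · have h3 : (0 : ℝ) < ((WW t : ℤ) : ℝ) := by rw [hWW]; exact k1
    have h4 : 0 < WW t := by exact_mod_cast h3
    omega
  · rw [hWW]
    have h5 : 20 * (t.a : ℝ) * t.b * (t.a + t.b) * Y / P ^ 4
        = 20 * ((t.a : ℝ) * t.b * (t.a + t.b)) * Y / P ^ 4 := by ring
    rw [h5]
    exact k2
  · rw [hff, hWW]
    exact k3

end Pool.Agent.SQG
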