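import Pool.Agent.Lib.SQG.GAP
import Pool.Agent.Lib.SQG.LAM
import Pool.Agent.Lib.SQG.LAM2
import Pool.Agent.Lib.SQG.CNT
import Pool.Agent.Lib.SQG.EST
import Pool.Agent.Lib.SQG.PAB
import Pool.Agent.Lib.SQG.TRIB
import Pool.Agent.Lib.SQG.RTRIB
import Pool.Agent.Lib.SQG.PAIR
import Pool.Agent.Lib.SQG.VZA
import Pool.Agent.Lib.SQG.Rpair
import Pool.Agent.Lib.SQG.BLKB
import Pool.Agent.Lib.SQG.FINB
import Pool.Agent.Lib.SQG.FT
import Pool.Agent.Lib.SQG.FTB
import Pool.Agent.Lib.SQG.DEN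
import Pool.Agent.Lib.SQG.SMT
import Pool.Agent.Lib.SQG.MOM
import Pool.Agent.Lib.SQG.Wf
import Pool.Agent.Lib.SQG.FTA
import Pool.Agent.Lib.SQG.FTC
import Pool.Agent.Lib.SQG.FTD
import Pool.Agent.Lib.SQG.MID
import Pool.Agent.Lib.SQG.SMWb

/-!
# Gaps between squarefree numbers: final assembly
-/

set_option autoImplicit false

namespace Pool.Agent.SQG

/-- Windows without squarefree numbers (exponent 3). -/
theorem finB : FINB_stmt :=
  finb (blkb (trib wf (pab (cnt lam_bounds lam2) (est (cnt lam_bounds lam2)))) (rtrib gap_thm)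
    (rpair gap_thm pair vza vzb))

/-- The longest gaps. -/
theorem fT : FT_stmt := ft gap_thm (ftd (ftc fta ftb)) vzb

/-- The moments of the gaps of every order below `4`. -/
theorem momentsBelowFour : MOM_stmt := mom den (smt smwb) (mid finB fT)

end Pool.Agent.SQG
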