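import Pool.Agent.Lib.SQG.Defs

/-!
Row GAP: most elements of a dense set have close neighbours on both sides.
-/

set_option autoImplicit false

namespace Pool.Agent.SQG.Gap

open Finset

/-- a separated subset of `[P, 2P)` is small -/
theorem sep (P B : ℕ) (hB : 1 ≤ B) (S : Finset ℕ) (hS : ∀ s ∈ S, P ≤ s ∧ s < 2 * P)
    (hsep : ∀ s ∈ S, ∀ t ∈ S, s < t → s + B < t) : S.card ≤ P / B + 1 := by
  have h1 : S.card ≤ (range (P / B + 1)).card := by
    refine card_le_card_of_injOn (fun s => (s - P) / B) ?_ ?_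
    · intro s hs
      have h2 := hS s hs
      simp only [coe_range, Set.mem_Iio]
      have : (s - P) / B ≤ P / B := Nat.div_le_div_right (by omega)
      omega
    · intro s hs t ht hst
      have h2 := hS s hs
      have h3 := hS t ht
      have key : ∀ x ∈ S, ∀ y ∈ S, x < y → (x - P) / B ≠ (y - P) / B := by
        intro x hx y hy hxy heq
        have h4 := hsep x hx y hy hxy
        have h5 := hS x hx
        have h6 : (x - P + B) / B ≤ (y - P) / B := Nat.div_le_div_right (by omega)
        rw [Nat.add_div_right _ (by omega)] at h6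
        omega
      rcases lt_trichotomy s t with h | h | h
      · exact absurd hst (key s hs t ht h)
      · exact h
      · exact absurd hst.symm (key t ht s hs h)
  rwa [card_range] at h1

end Pool.Agent.SQG.Gap

namespace Pool.Agent.SQG

open Finset

theorem gap_thm : GAP_stmt := by
  intro P B S hB hS hc hd
  set F := S.filter (fun s => (∃ u ∈ S, u < s ∧ s ≤ u + B) ∧ ∃ w ∈ S, s < w ∧ w ≤ s + B) with hF
  set S1 := S.filter (fun s => ¬ ∃ u ∈ S, u < s ∧ s ≤ u + B) with hS1
  set S2 := S.filter (fun s => ¬ ∃ w ∈ S, s < w ∧ w ≤ s + B) with hS2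
  have h1 : S1.card ≤ P / B + 1 := by
    refine Gap.sep P B hB S1 (fun s hs => hS s (mem_of_mem_filter s hs)) ?_
    intro s hs t ht hst
    rw [hS1, mem_filter] at hs ht
    by_contra hcon
    exact ht.2 ⟨s, hs.1, hst, by omega⟩
  have h2 : S2.card ≤ P / B + 1 := by
    refine Gap.sep P B hB S2 (fun s hs => hS s (mem_of_mem_filter s hs)) ?_
    intro s hs t ht hst
    rw [hS2, mem_filter] at hs ht
    by_contra hcon
    exact hs.2 ⟨t, ht.1, hst, by omega⟩
  have h3 : S ⊆ F ∪ (S1 ∪ S2) := by
    intro s hs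
    rw [mem_union, mem_union, hF, hS1, hS2, mem_filter, mem_filter, mem_filter]
    by_cases h5 : ∃ u ∈ S, u < s ∧ s ≤ u + B
    · by_cases h6 : ∃ w ∈ S, s < w ∧ w ≤ s + B
      · exact Or.inl ⟨hs, h5, h6⟩
      · exact Or.inr (Or.inr ⟨hs, h6⟩)
    · exact Or.inr (Or.inl ⟨hs, h5⟩)
  have h4 : S.card ≤ F.card + (S1.card + S2.card) :=
    (card_le_card h3).trans ((card_union_le _ _).trans
      (Nat.add_le_add_left (card_union_le _ _) _))
  have h5 : 6 * (P / B) ≤ S.card := by
    have h6 : B * (P / B) ≤ P := Nat.mul_div_le P B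
    have h7 : B * (6 * (P / B)) ≤ B * S.card := by
      calc B * (6 * (P / B)) = 6 * (B * (P / B)) := by ring
        _ ≤ 6 * P := by omega
        _ ≤ B * S.card := hd
    exact Nat.le_of_mul_le_mul_left h7 (by omega)
  omega

end Pool.Agent.SQG
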