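import Pool.Agent.Lib.SQG.Defs

/-!
# SQG, row GCD: average of a greatest common divisor (helper16)
-/

set_option autoImplicit false

namespace Pool.Agent.SQG

open Finset Pool.Agent.Lib.MP_8739b7_nt

namespace Gcdx

/-- The number of `u ∈ [P, 2P)` with `d ∣ 6u + c`. -/
theorem count (c d P : ℕ) :
    d * ((Ico P (2 * P)).filter fun u => d ∣ 6 * u + c).card ≤ 6 * P + d := by
  classical
  set S := (Ico P (2 * P)).filter fun u => d ∣ 6 * u + c with hS
  rcases S.eq_empty_or_nonempty with h0 | h0
  · rw [h0]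
    simp
  · obtain ⟨u0, hu0, hmin⟩ := S.exists_min_image id h0
    have hu0' := (mem_filter.1 hu0)
    have hu0P := mem_Ico.1 hu0'.1
    have hcard : S.card ≤ (range (6 * (P - 1) / d + 1)).card := by
      refine card_le_card_of_injOn (fun u => 6 * (u - u0) / d) ?_ ?_
      · intro u hu
        have hu' := mem_filter.1 (mem_coe.1 hu)
        have huP := mem_Ico.1 hu'.1
        have h1 : 6 * (u - u0) / d ≤ 6 * (P - 1) / d :=
          Nat.div_le_div_right (by omega)
        simp only [coe_range, Set.mem_Iio]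
        omega
      · intro u hu w hw huw
        have hu' := mem_filter.1 (mem_coe.1 hu)
        have hw' := mem_filter.1 (mem_coe.1 hw)
        have hum : u0 ≤ u := hmin u (mem_coe.1 hu)
        have hwm : u0 ≤ w := hmin w (mem_coe.1 hw)
        have hdu : d ∣ 6 * (u - u0) := by
          have h1 := Nat.dvd_sub hu'.2 hu0'.2
          have h2 : 6 * u + c - (6 * u0 + c) = 6 * (u - u0) := by omega
          rwa [h2] at h1
        have hdw : d ∣ 6 * (w - u0) := by
          have h1 := Nat.dvd_sub hw'.2 hu0'.2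
          have h2 : 6 * w + c - (6 * u0 + c) = 6 * (w - u0) := by omega
          rwa [h2] at h1
        have h3 : 6 * (u - u0) = 6 * (w - u0) := by
          rw [← Nat.div_mul_cancel hdu, ← Nat.div_mul_cancel hdw]
          exact congrArg (· * d) huw
        omega
    rw [card_range] at hcard
    calc d * S.card ≤ d * (6 * (P - 1) / d + 1) := Nat.mul_le_mul_left d hcard
      _ = d * (6 * (P - 1) / d) + d := by ring
      _ ≤ 6 * (P - 1) + d := Nat.add_le_add_right (Nat.mul_div_le _ _) d
      _ ≤ 6 * P + d := by omega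

/-- The greatest common divisor is at most the sum of the common divisors. -/
theorem gcd_le (x N : ℕ) (hN : 1 ≤ N) :
    Nat.gcd x N ≤ ∑ d ∈ N.divisors, if d ∣ x then d else 0 := by
  classical
  have hmem : Nat.gcd x N ∈ N.divisors :=
    Nat.mem_divisors.2 ⟨Nat.gcd_dvd_right x N, by omega⟩
  have h1 : (if Nat.gcd x N ∣ x then Nat.gcd x N else 0) ≤
      ∑ d ∈ N.divisors, if d ∣ x then d else 0 :=
    single_le_sum (f := fun d => if d ∣ x then d else 0) (fun _ _ => Nat.zero_le _) hmem
  rwa [if_pos (Nat.gcd_dvd_left x N)] at h1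

end Gcdx

/-- Row GCD. -/
theorem gcd_sum : GCD_stmt := by
  classical
  intro c N P τ hN hτ
  calc ∑ u ∈ Ico P (2 * P), Nat.gcd (6 * u + c) N
      ≤ ∑ u ∈ Ico P (2 * P), ∑ d ∈ N.divisors, (if d ∣ 6 * u + c then d else 0) :=
        sum_le_sum fun u _ => Gcdx.gcd_le _ _ hN
    _ = ∑ d ∈ N.divisors, ∑ u ∈ Ico P (2 * P), (if d ∣ 6 * u + c then d else 0) := sum_comm
    _ ≤ ∑ _d ∈ N.divisors, (6 * P + N) := by
        refine sum_le_sum fun d hd => ?_
        have hdN : d ≤ N := Nat.divisor_le hd
        rw [← sum_filter, sum_const, smul_eq_mul, mul_comm]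
        exact (Gcdx.count c d P).trans (by omega)
    _ = N.divisors.card * (6 * P + N) := by rw [sum_const, smul_eq_mul]
    _ ≤ τ * (6 * P + N) := Nat.mul_le_mul_right _ hτ

end Pool.Agent.SQG
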