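import Pool.Agent.Lib.SQG.Defs

/-!
# Row LIN: number of pairs `(W, f)` with `f` near `- lam * W`
-/

set_option autoImplicit false

namespace Pool.Agent.SQG

open Finset

namespace Lin

/-- integers of one class in an interval -/
theorem cnt (T : Finset ℤ) (M : ℕ) (hM : 1 ≤ M) (α L : ℝ) (hL : 0 ≤ L)
    (h : ∀ x ∈ T, α ≤ (x : ℝ) ∧ (x : ℝ) ≤ α + L) (hd : ∀ x ∈ T, ∀ y ∈ T, (M : ℤ) ∣ x - y) :
    (T.card : ℝ) ≤ L / M + 1 := by
  classical
  have hM0 : (0 : ℝ) < M := by exact_mod_cast hM
  have hLM : 0 ≤ L / M := div_nonneg hL hM0.le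
  rcases T.eq_empty_or_nonempty with rfl | hne
  · rw [Finset.card_empty, Nat.cast_zero]
    linarith
  set m := T.min' hne with hm
  have hmT : m ∈ T := T.min'_mem hne
  have hMz : (0 : ℤ) < M := by exact_mod_cast hM
  have hcard : T.card ≤ (range (⌊L / M⌋₊ + 1)).card := by
    refine Finset.card_le_card_of_injOn (fun x => ((x - m) / M).toNat) ?_ ?_
    · intro x hx
      have hx' : x ∈ T := hx
      have h1 : m ≤ x := T.min'_le x hx'
      have h2 := (h x hx').2
      have h3 := (h m hmT).1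
      have h4 : (0 : ℤ) ≤ (x - m) / M := Int.ediv_nonneg (by omega) hMz.le
      have h5 : (((x - m) / M : ℤ) : ℝ) ≤ L / M := by
        obtain ⟨k, hk⟩ := hd x hx' m hmT
        rw [hk, Int.mul_ediv_cancel_left _ hMz.ne', le_div_iff₀ hM0]
        have h6 : ((x - m : ℤ) : ℝ) = (M : ℝ) * k := by
          rw [hk]
          push_cast
          ring
        push_cast at h6
        nlinarith
      rw [Finset.mem_coe, Finset.mem_range, Nat.lt_succ_iff]
      refine Nat.le_floor ?_
      have h7 : ((((x - m) / M).toNat : ℤ)) = (x - m) / M := Int.toNat_of_nonneg h4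
      have h8 : ((((x - m) / M).toNat : ℕ) : ℝ) = (((x - m) / M : ℤ) : ℝ) := by
        rw [← h7]
        push_cast
        rfl
      rw [h8]
      exact h5
    · intro x hx y hy hxy
      have hx' : x ∈ T := hx
      have hy' : y ∈ T := hy
      have h1 : m ≤ x := T.min'_le x hx'
      have h1' : m ≤ y := T.min'_le y hy'
      obtain ⟨k, hk⟩ := hd x hx' m hmT
      obtain ⟨l, hl⟩ := hd y hy' m hmT
      have h2 : ((x - m) / M).toNat = ((y - m) / M).toNat := hxy
      rw [hk, hl, Int.mul_ediv_cancel_left _ hMz.ne', Int.mul_ediv_cancel_left _ hMz.ne'] at h2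
      have hk0 : 0 ≤ k := by
        by_contra hneg
        have : (M : ℤ) * k < 0 := mul_neg_of_pos_of_neg hMz (by omega)
        omega
      have hl0 : 0 ≤ l := by
        by_contra hneg
        have : (M : ℤ) * l < 0 := mul_neg_of_pos_of_neg hMz (by omega)
        omega
      have h3 : k = l := by omega
      rw [h3] at hk
      omega
  rw [Finset.card_range] at hcard
  have h1 : (T.card : ℝ) ≤ (⌊L / M⌋₊ : ℝ) + 1 := by exact_mod_cast hcard
  have h2 := Nat.floor_le hLM
  linarith

end Lin

theorem lin : LIN_stmt := by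
  intro q N la R Wm hN hla hR hWm S hS
  classical
  set g := Nat.gcd q N with hg
  have hg1 : 1 ≤ g := Nat.gcd_pos_of_pos_right q hN
  obtain ⟨M, hM⟩ : g ∣ N := Nat.gcd_dvd_right q N
  obtain ⟨q', hq'⟩ : g ∣ q := Nat.gcd_dvd_left q N
  have hM1 : 1 ≤ M := by
    rcases Nat.eq_zero_or_pos M with h | h
    · rw [h, mul_zero] at hM
      omega
    · exact h
  have hcop : Nat.Coprime q' M := by
    have h1 : Nat.gcd (g * q') (g * M) = g := by
      rw [← hq', ← hM]
    rw [Nat.gcd_mul_left] at h1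
    have h2 : g * Nat.gcd q' M = g * 1 := by rw [h1, mul_one]
    exact Nat.eq_of_mul_eq_mul_left hg1 h2
  have hgR : (0 : ℝ) < g := by exact_mod_cast hg1
  have hMR : (0 : ℝ) < M := by exact_mod_cast hM1
  have hNR : (N : ℝ) = g * M := by exact_mod_cast hM
  set F : ℝ := la * Wm + R with hF
  have hF0 : 0 ≤ F := by positivity
  set l : ℝ := min Wm (2 * R / la) with hl
  have hl0 : 0 ≤ l := le_min hWm (by positivity)
  -- values of `f`
  have h1 : ((S.image Prod.snd).card : ℝ) ≤ 2 * F / g + 1 := by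
    refine Lin.cnt (S.image Prod.snd) g hg1 (-F) (2 * F) (by positivity) ?_ ?_
    · intro f hf
      obtain ⟨p, hp, rfl⟩ := Finset.mem_image.1 hf
      obtain ⟨h1, h2, h3, h4⟩ := hS p hp
      have h5 := abs_le.1 h3
      have h6 : (1 : ℝ) ≤ p.1 := by exact_mod_cast h1
      have h7 : la * p.1 ≤ la * Wm := mul_le_mul_of_nonneg_left h2 hla.le
      have h8 : 0 ≤ la * p.1 := by positivity
      constructor
      · linarith [h5.1]
      · linarith [h5.2]
    · have hdvd : ∀ f ∈ S.image Prod.snd, (g : ℤ) ∣ f := by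
        intro f hf
        obtain ⟨p, hp, rfl⟩ := Finset.mem_image.1 hf
        obtain ⟨h1, h2, h3, h4⟩ := hS p hp
        have h5 : (g : ℤ) ∣ p.1 * q - p.2 := by
          refine Dvd.dvd.trans ?_ h4
          exact_mod_cast (Nat.gcd_dvd_right q N)
        have h6 : (g : ℤ) ∣ p.1 * q := by
          refine Dvd.dvd.mul_left ?_ _
          exact_mod_cast (Nat.gcd_dvd_left q N)
        have h7 := dvd_sub h6 h5
        simpa using h7
      intro x hx y hy
      exact dvd_sub (hdvd x hx) (hdvd y hy)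
  -- values of `W` for a given `f`
  have h2 : ∀ f ∈ S.image Prod.snd, ((S.filter fun p => p.2 = f).card : ℝ) ≤ l / M + 1 := by
    intro f _
    have hc : (S.filter fun p => p.2 = f).card = ((S.filter fun p => p.2 = f).image Prod.fst).card := by
      rw [Finset.card_image_of_injOn]
      intro p hp p' hp' hpp
      have e1 := (Finset.mem_filter.1 hp).2
      have e2 := (Finset.mem_filter.1 hp').2
      exact Prod.ext hpp (by rw [e1, e2])
    have hdvd : ∀ x ∈ (S.filter fun p => p.2 = f).image Prod.fst,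
        ∀ y ∈ (S.filter fun p => p.2 = f).image Prod.fst, (M : ℤ) ∣ x - y := by
      intro x hx y hy
      obtain ⟨p, hp, rfl⟩ := Finset.mem_image.1 hx
      obtain ⟨p', hp', rfl⟩ := Finset.mem_image.1 hy
      obtain ⟨hp1, hp2⟩ := Finset.mem_filter.1 hp
      obtain ⟨hp1', hp2'⟩ := Finset.mem_filter.1 hp'
      have e1 := (hS p hp1).2.2.2
      have e2 := (hS p' hp1').2.2.2
      have e3 := dvd_sub e1 e2
      rw [hp2, hp2'] at e3
      have e4 : p.1 * (q : ℤ) - f - (p'.1 * q - f) = (g : ℤ) * ((p.1 - p'.1) * q') := by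
        rw [hq']
        push_cast
        ring
      rw [e4, hM] at e3
      push_cast at e3
      have e5 : (M : ℤ) ∣ (p.1 - p'.1) * q' :=
        Int.dvd_of_mul_dvd_mul_left (by exact_mod_cast (show g ≠ 0 by omega)) e3
      refine IsCoprime.dvd_of_dvd_mul_right ?_ e5
      exact (Nat.isCoprime_iff_coprime.2 hcop).symm
    rw [hc]
    have b1 : (((S.filter fun p => p.2 = f).image Prod.fst).card : ℝ) ≤ Wm / M + 1 := by
      refine Lin.cnt _ M hM1 0 Wm hWm ?_ hdvd
      intro x hx
      obtain ⟨p, hp, rfl⟩ := Finset.mem_image.1 hx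
      obtain ⟨h1, h2, h3, h4⟩ := hS p (Finset.mem_filter.1 hp).1
      have h6 : (1 : ℝ) ≤ p.1 := by exact_mod_cast h1
      constructor
      · linarith
      · linarith
    have b2 : (((S.filter fun p => p.2 = f).image Prod.fst).card : ℝ) ≤ 2 * R / la / M + 1 := by
      refine Lin.cnt _ M hM1 ((-R - f) / la) (2 * R / la) (by positivity) ?_ hdvd
      intro x hx
      obtain ⟨p, hp, rfl⟩ := Finset.mem_image.1 hx
      obtain ⟨hp1, hp2⟩ := Finset.mem_filter.1 hp
      obtain ⟨h1, h2, h3, h4⟩ := hS p hp1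
      have h5 := abs_le.1 h3
      rw [hp2] at h5
      constructor
      · rw [div_le_iff₀ hla]
        linarith [h5.1]
      · rw [← add_div, le_div_iff₀ hla]
        linarith [h5.2]
    rcases le_total Wm (2 * R / la) with h | h
    · rw [hl, min_eq_left h]
      exact b1
    · rw [hl, min_eq_right h]
      exact b2
  have h3 : (S.card : ℝ) ≤ (2 * F / g + 1) * (l / M + 1) := by
    have e1 : S.card = ∑ f ∈ S.image Prod.snd, (S.filter fun p => p.2 = f).card :=
      Finset.card_eq_sum_card_image Prod.snd S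
    have e2 : (S.card : ℝ) = ∑ f ∈ S.image Prod.snd, ((S.filter fun p => p.2 = f).card : ℝ) := by
      rw [e1]
      push_cast
      rfl
    rw [e2]
    calc ∑ f ∈ S.image Prod.snd, ((S.filter fun p => p.2 = f).card : ℝ)
        ≤ ∑ f ∈ S.image Prod.snd, (l / M + 1) := Finset.sum_le_sum h2
      _ = (S.image Prod.snd).card * (l / M + 1) := by rw [Finset.sum_const, nsmul_eq_mul]
      _ ≤ _ := mul_le_mul_of_nonneg_right h1 (by positivity)
  have h4 : F * l ≤ 3 * R * Wm := by
    have e1 : l ≤ Wm := min_le_left _ _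
    have e2 : l ≤ 2 * R / la := min_le_right _ _
    have e3 : la * l ≤ 2 * R := by
      have := mul_le_mul_of_nonneg_left e2 hla.le
      rwa [mul_div_cancel₀ _ hla.ne'] at this
    have e4 : la * Wm * l ≤ 2 * R * Wm := by
      calc la * Wm * l = (la * l) * Wm := by ring
        _ ≤ 2 * R * Wm := mul_le_mul_of_nonneg_right e3 hWm
    have e5 : R * l ≤ R * Wm := mul_le_mul_of_nonneg_left e1 hR
    rw [hF]
    nlinarith
  have h5 : (2 * F / g + 1) * (l / M + 1) = 2 * (F * l) / N + 2 * F / g + l / M + 1 := by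
    rw [hNR]
    field_simp
    ring
  have h6 : 2 * (F * l) / N ≤ 6 * R * Wm / N := by
    have : (0 : ℝ) < N := by exact_mod_cast hN
    rw [div_le_div_iff_of_pos_right this]
    linarith
  have h7 : 2 * F / g ≤ 2 * F := by
    rw [div_le_iff₀ hgR]
    have : (1 : ℝ) ≤ g := by exact_mod_cast hg1
    nlinarith
  have h8 : l / M ≤ Wm * g / N := by
    rw [hNR, mul_comm (Wm : ℝ) g, mul_div_mul_left _ _ hgR.ne']
    exact div_le_div_of_nonneg_right (min_le_left _ _) hMR.le
  calc (S.card : ℝ) ≤ 2 * (F * l) / N + 2 * F / g + l / M + 1 := by rw [← h5]; exact h3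
    _ ≤ 6 * R * Wm / N + 2 * la * Wm + 2 * R + 1 + Wm * g / N := by
      rw [hF] at h7 ⊢
      linarith [h6, h7, h8]

end Pool.Agent.SQG
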